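import Pool.Agent.WTT.KerAb

/-! The homology of the cyclic covers when the quotient has a cyclic free factor. -/

namespace Pool.Agent.WTT

open Monoid

section CardCover

variable {G : Type*} [Group G] {t c : G}

/-- If `of g = (of t) ^ n` then `g` is `t ^ n` up to the commutator subgroup. -/
theorem mul_inv_mem_commutator {g : G} {n : ℤ}
    (hn : (Abelianization.of t) ^ n = Abelianization.of g) : g * (t ^ n)⁻¹ ∈ commutator G := by
  rw [← Abelianization.ker_of, MonoidHom.mem_ker, map_mul, map_inv, map_zpow, hn, mul_inv_cancel]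

/-- Membership in a subgroup of index `p` which contains the commutator subgroup. -/
theorem mem_iff_dvd (hgen : ∀ x : Abelianization G, x ∈ Subgroup.zpowers (Abelianization.of t))
    {N : Subgroup G} [N.Normal] (hN : commutator G ≤ N) {p : ℕ} (hp : N.index = p)
    {g : G} {n : ℤ} (hn : (Abelianization.of t) ^ n = Abelianization.of g) :
    g ∈ N ↔ (p : ℤ) ∣ n := by
  have h1 : g ∈ N ↔ t ^ n ∈ N := by
    have h2 := hN (mul_inv_mem_commutator hn)
    constructor
    · intro h
      have := N.mul_mem (N.inv_mem h2) h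
      rwa [mul_inv_rev, inv_inv, mul_assoc, inv_mul_cancel, mul_one] at this
    · intro h
      have := N.mul_mem h2 h
      rwa [inv_mul_cancel_right] at this
  have h3 : orderOf (QuotientGroup.mk' N t) = p := by
    rw [orderOf_eq_card_of_forall_mem_zpowers, ← hp]
    · rfl
    · intro x
      obtain ⟨g, rfl⟩ := QuotientGroup.mk'_surjective N x
      obtain ⟨n, hn⟩ := Subgroup.mem_zpowers_iff.1 (hgen (Abelianization.of g))
      refine Subgroup.mem_zpowers_iff.2 ⟨n, ?_⟩
      rw [← map_zpow]
      have h4 := hN (mul_inv_mem_commutator hn)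
      have h5 : QuotientGroup.mk' N (g * (t ^ n)⁻¹) = 1 := by
        rw [QuotientGroup.mk'_apply, QuotientGroup.eq_one_iff]
        exact h4
      rw [map_mul, map_inv, mul_inv_eq_one] at h5
      exact h5.symm
  rw [h1, ← h3, orderOf_dvd_iff_zpow_eq_one, ← map_zpow, QuotientGroup.mk'_apply,
    QuotientGroup.eq_one_iff]

variable {a e : ℤ} {k : ℕ} {B' : Type*} [Group B']

/-- `|a| = k * |B'^ab|`. -/
theorem natAbs_eq_mul (hgen : ∀ x : Abelianization G, x ∈ Subgroup.zpowers (Abelianization.of t))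
    (hinf : orderOf (Abelianization.of t) = 0) (hc : c ∈ commutator G)
    (iso : G ⧸ Subgroup.normalClosure {t ^ a * c ^ e} ≃*
      Coprod (Multiplicative (ZMod k)) B') :
    a.natAbs = k * Nat.card (Abelianization B') := by
  set π := slopeHom iso with hπ
  set lam : G →* Multiplicative (ZMod k) × Abelianization B' :=
    ((Coprod.fst : Coprod (Multiplicative (ZMod k)) B' →* _).comp π).prod
      ((Abelianization.of.comp (Coprod.snd : Coprod (Multiplicative (ZMod k)) B' →* _)).comp π)
    with hlam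
  have hsurj : Function.Surjective lam := by
    rintro ⟨z, d⟩
    obtain ⟨b, hb⟩ := QuotientGroup.mk_surjective d
    obtain ⟨g, hg⟩ := slopeHom_surjective iso (Coprod.inl z * Coprod.inr b)
    refine ⟨g, ?_⟩
    refine Prod.ext ?_ ?_
    · show Coprod.fst (π g) = z
      rw [hπ, hg]
      simp
    · show Abelianization.of (Coprod.snd (π g)) = d
      rw [hπ, hg, map_mul, Coprod.snd_apply_inl, Coprod.snd_apply_inr, one_mul]
      exact hb
  have hall : ∀ x, x ∈ Subgroup.zpowers (lam t) := by
    intro x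
    obtain ⟨g, rfl⟩ := hsurj x
    obtain ⟨n, hn⟩ := Subgroup.mem_zpowers_iff.1 (hgen (Abelianization.of g))
    exact Subgroup.mem_zpowers_iff.2 ⟨n, (hom_eq_zpow hn lam).symm⟩
  have hcard : orderOf (lam t) = k * Nat.card (Abelianization B') := by
    rw [orderOf_eq_card_of_forall_mem_zpowers hall, Nat.card_prod]
    congr 1
    exact Nat.card_zmod k
  have h1 : lam t ^ a = 1 := hom_slope hc a e lam (by
    refine Prod.ext ?_ ?_
    · show Coprod.fst (π (t ^ a * c ^ e)) = 1
      rw [hπ, slopeHom_slope, map_one]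
    · show Abelianization.of (Coprod.snd (π (t ^ a * c ^ e))) = 1
      rw [hπ, slopeHom_slope, map_one, map_one])
  have h2 : (orderOf (lam t) : ℤ) ∣ a := orderOf_dvd_iff_zpow_eq_one.2 h1
  -- the converse
  set Z : Subgroup (Abelianization G) := Subgroup.zpowers ((Abelianization.of t) ^ a) with hZ
  let γ : G →* Abelianization G ⧸ Z := (QuotientGroup.mk' Z).comp Abelianization.of
  have hcz : Abelianization.of c = (1 : Abelianization G) :=
    MonoidHom.mem_ker.1 (Abelianization.commutator_subset_ker Abelianization.of hc)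
  have hγs : ∀ g ∈ Subgroup.normalClosure {t ^ a * c ^ e}, γ g = 1 := by
    intro g hg
    have : Subgroup.normalClosure {t ^ a * c ^ e} ≤ γ.ker := by
      apply Subgroup.normalClosure_le_normal
      rw [Set.singleton_subset_iff, SetLike.mem_coe, MonoidHom.mem_ker]
      show (QuotientGroup.mk' Z) (Abelianization.of _) = 1
      rw [QuotientGroup.mk'_apply, QuotientGroup.eq_one_iff, map_mul, map_zpow, map_zpow, hcz,
        one_zpow, mul_one]
      exact Subgroup.mem_zpowers _
    exact MonoidHom.mem_ker.1 (this hg)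
  let γ' : Coprod (Multiplicative (ZMod k)) B' →* Abelianization G ⧸ Z :=
    (QuotientGroup.lift _ γ hγs).comp iso.symm.toMonoidHom
  have hγ' : ∀ g, γ' (π g) = γ g := by
    intro g
    show QuotientGroup.lift _ γ hγs (iso.symm (π g)) = γ g
    have : iso.symm (π g) = QuotientGroup.mk' _ g := by
      rw [hπ, slopeHom]
      simp
    rw [this]
    rfl
  have hfac : ∀ w : Coprod (Multiplicative (ZMod k)) B',
      γ' w = γ' (Coprod.inl (Coprod.fst w)) *
        Abelianization.lift (γ'.comp Coprod.inr) (Abelianization.of (Coprod.snd w)) := by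
    intro w
    have : γ' = ((γ'.comp Coprod.inl).comp Coprod.fst) *
        (((Abelianization.lift (γ'.comp Coprod.inr)).comp Abelianization.of).comp Coprod.snd) := by
      apply Coprod.hom_ext
      · ext z
        simp
      · ext b
        simp
    exact DFunLike.congr_fun this w
  have h3 : ∀ n : ℤ, lam t ^ n = 1 → a ∣ n := by
    intro n hn
    rw [← map_zpow] at hn
    have e1 : Coprod.fst (π (t ^ n)) = 1 := congrArg Prod.fst hn
    have e2 : Abelianization.of (Coprod.snd (π (t ^ n))) = 1 := congrArg Prod.snd hn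
    have e3 : γ (t ^ n) = 1 := by
      rw [← hγ', hfac, e1, e2, map_one, map_one, map_one, mul_one]
    have e4 : Abelianization.of (t ^ n) ∈ Z := by
      have : (QuotientGroup.mk' Z) (Abelianization.of (t ^ n)) = 1 := e3
      rwa [QuotientGroup.mk'_apply, QuotientGroup.eq_one_iff] at this
    obtain ⟨j, hj⟩ := Subgroup.mem_zpowers_iff.1 e4
    rw [map_zpow, ← zpow_mul] at hj
    have e5 : (Abelianization.of t) ^ (a * j - n) = 1 := by
      rw [zpow_sub, hj, mul_inv_cancel]
    have e6 := orderOf_dvd_iff_zpow_eq_one.2 e5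
    rw [hinf, Nat.cast_zero, zero_dvd_iff] at e6
    exact ⟨j, by omega⟩
  have h4 : a ∣ (orderOf (lam t) : ℤ) := h3 _ (by rw [zpow_natCast, pow_orderOf_eq_one])
  rw [← hcard]
  have h5 := Int.natAbs_dvd_natAbs.2 h4
  have h6 := Int.natAbs_dvd_natAbs.2 h2
  rw [Int.natAbs_natCast] at h5 h6
  exact Nat.dvd_antisymm h5 h6

/-- **The homology of the cyclic covers.** -/
theorem card_cover (htc : Commute t c)
    (hgen : ∀ x : Abelianization G, x ∈ Subgroup.zpowers (Abelianization.of t))
    (hinf : orderOf (Abelianization.of t) = 0)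
    (hcN : ∀ N : Subgroup G, commutator G ≤ N → ∀ h : c ∈ N, (⟨c, h⟩ : N) ∈ commutator N)
    (ha : a ≠ 0) (hk : 2 ≤ k)
    (iso : G ⧸ Subgroup.normalClosure {t ^ a * c ^ e} ≃*
      Coprod (Multiplicative (ZMod k)) B') :
    ∃ b : ℕ, 1 ≤ b ∧ a.natAbs = k * b ∧ ∀ p : ℕ, p.Prime → p ∣ k → ∀ N : Subgroup G, N.Normal →
      N.index = p → ∀ h : t ^ p ∈ N,
        Nat.card (Abelianization N ⧸ Subgroup.zpowers
          (Abelianization.of (⟨t ^ p, h⟩ : N))) = b ^ (p - 1) := by
  have hc : c ∈ commutator G := by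
    have h1 := hcN ⊤ le_top (Subgroup.mem_top c)
    have h2 := MonoidHom.mem_ker.1 (Abelianization.commutator_subset_ker
      (Abelianization.of.comp (⊤ : Subgroup G).subtype) h1)
    rw [← Abelianization.ker_of, MonoidHom.mem_ker]
    exact h2
  have hab := natAbs_eq_mul hgen hinf hc iso
  have ha' : 0 < a.natAbs := Int.natAbs_pos.2 ha
  refine ⟨Nat.card (Abelianization B'), ?_, hab, ?_⟩
  · rw [hab] at ha'
    exact Nat.pos_of_ne_zero (fun h => by rw [h, mul_zero] at ha'; exact lt_irrefl _ ha')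
  intro p hp hpk N hNn hNi htp
  have : NeZero k := ⟨by omega⟩
  have : NeZero p := ⟨hp.ne_zero⟩
  set π := slopeHom iso with hπ
  have hπs : Function.Surjective π := slopeHom_surjective iso
  -- N contains the commutator subgroup
  have hNc : commutator G ≤ N := by
    rw [← Subgroup.Normal.quotient_commutative_iff_commutator_le]
    have : Fact p.Prime := ⟨hp⟩
    have hcyc : IsCyclic (G ⧸ N) := isCyclic_of_prime_card (p := p) hNi
    exact IsCyclic.isMulCommutative
  -- the preimage of the kernel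
  set f : G →* Multiplicative (ZMod p) := ((red hpk).comp Coprod.fst).comp π with hf
  have hfs : Function.Surjective f :=
    (red_surjective hpk).comp (Coprod.fst_surjective.comp hπs)
  have hfi : f.ker.index = p := by
    rw [Subgroup.index_ker, MonoidHom.range_eq_top.2 hfs]
    exact Subgroup.card_top.trans (Nat.card_zmod p)
  have hNf : N = f.ker := by
    ext g
    obtain ⟨n, hn⟩ := Subgroup.mem_zpowers_iff.1 (hgen (Abelianization.of g))
    rw [mem_iff_dvd hgen hNc hNi hn,
      mem_iff_dvd hgen (Abelianization.commutator_subset_ker f) hfi hn]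
  have hmem : ∀ g : G, g ∈ N ↔ π g ∈ kerp hpk B' := by
    intro g
    rw [hNf, MonoidHom.mem_ker]
    rfl
  -- `c` and `s` in `N`
  have hcmem : c ∈ N := hNc hc
  have hcab : Abelianization.of (⟨c, hcmem⟩ : N) = 1 := by
    rw [← MonoidHom.mem_ker, Abelianization.ker_of]
    exact hcN N hNc hcmem
  have hpa : (p : ℤ) ∣ a := by
    have h1 : p ∣ a.natAbs := by
      rw [hab]
      exact dvd_mul_of_dvd_left hpk _
    exact Int.natCast_dvd.2 h1
  obtain ⟨a', ha''⟩ := hpa
  have hsN : t ^ a * c ^ e ∈ N := by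
    rw [ha'', zpow_mul, zpow_natCast]
    exact N.mul_mem (N.zpow_mem htp _) (N.zpow_mem hcmem _)
  set τ : Abelianization N := Abelianization.of (⟨t ^ p, htp⟩ : N) with hτ
  have hsτ : Abelianization.of (⟨t ^ a * c ^ e, hsN⟩ : N) = τ ^ a' := by
    have : (⟨t ^ a * c ^ e, hsN⟩ : N) = (⟨t ^ p, htp⟩ : N) ^ a' * (⟨c, hcmem⟩ : N) ^ e := by
      ext
      show t ^ a * c ^ e = (t ^ p) ^ a' * c ^ e
      rw [ha'', zpow_mul, zpow_natCast]
    rw [this, map_mul, map_zpow, map_zpow, hcab, one_zpow, mul_one]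
  have hts : Commute t (t ^ a * c ^ e) :=
    ((Commute.refl t).zpow_right a).mul_right (htc.zpow_right e)
  set Z : Subgroup (Abelianization N) := Subgroup.zpowers (τ ^ a') with hZ
  let α : N →* Abelianization N ⧸ Z := (QuotientGroup.mk' Z).comp Abelianization.of
  have hαs : α ⟨t ^ a * c ^ e, hsN⟩ = 1 := by
    show (QuotientGroup.mk' Z) (Abelianization.of _) = 1
    rw [QuotientGroup.mk'_apply, QuotientGroup.eq_one_iff, hsτ]
    exact Subgroup.mem_zpowers _
  have hkill := kills_normalClosure α {t ^ a * c ^ e} (by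
    intro z hz g
    rw [Set.mem_singleton_iff] at hz
    subst hz
    obtain ⟨n, hn⟩ := Subgroup.mem_zpowers_iff.1 (hgen (Abelianization.of g))
    have hu : g * (t ^ n)⁻¹ ∈ N := hNc (mul_inv_mem_commutator hn)
    have e1 : g * (t ^ a * c ^ e) * g⁻¹ =
        (g * (t ^ n)⁻¹) * (t ^ a * c ^ e) * (g * (t ^ n)⁻¹)⁻¹ := by
      have h1 : (t ^ n)⁻¹ * (t ^ a * c ^ e) = (t ^ a * c ^ e) * (t ^ n)⁻¹ :=
        ((hts.zpow_left n).inv_left).eq
      rw [mul_assoc g (t ^ n)⁻¹ (t ^ a * c ^ e), h1]
      group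
    have hmem' : g * (t ^ a * c ^ e) * g⁻¹ ∈ N := by
      rw [e1]
      exact Subgroup.mul_mem _ (Subgroup.mul_mem _ hu hsN) (Subgroup.inv_mem _ hu)
    refine ⟨hmem', ?_⟩
    have : (⟨g * (t ^ a * c ^ e) * g⁻¹, hmem'⟩ : N) =
        ⟨g * (t ^ n)⁻¹, hu⟩ * ⟨t ^ a * c ^ e, hsN⟩ * ⟨g * (t ^ n)⁻¹, hu⟩⁻¹ := by
      ext
      exact e1
    rw [this, map_mul, map_mul, map_inv, hαs, mul_one, mul_inv_cancel])
  -- the induced map to the kernel
  let r : N →* kerp hpk B' := (π.comp N.subtype).codRestrict _ (fun x => (hmem x.1).1 x.2)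
  have hr : Function.Surjective r := by
    rintro ⟨y, hy⟩
    obtain ⟨g, hg⟩ := hπs y
    exact ⟨⟨g, (hmem g).2 (by rw [hg]; exact hy)⟩, Subtype.ext hg⟩
  have hker : r.ker ≤ α.ker := by
    rintro ⟨x, hx⟩ hx1
    rw [MonoidHom.mem_ker] at hx1 ⊢
    have hx2 : π x = 1 := congrArg Subtype.val hx1
    obtain ⟨_, h⟩ := hkill x ((slopeHom_eq_one iso).1 hx2)
    exact h
  let β : kerp hpk B' →* Abelianization N ⧸ Z := MonoidHom.liftOfSurjective r hr ⟨α, hker⟩
  have hβ : ∀ x, β (r x) = α x := by
    intro x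
    have h1 : (MonoidHom.liftOfSurjective r hr ⟨α, hker⟩).comp r = α :=
      MonoidHom.liftOfRightInverse_comp r _ (Function.rightInverse_surjInv hr) ⟨α, hker⟩
    exact DFunLike.congr_fun h1 x
  let δ : Abelianization N →* Abelianization (kerp hpk B') :=
    Abelianization.lift (Abelianization.of.comp r)
  have hδ : ∀ x : N, δ (Abelianization.of x) = Abelianization.of (r x) := by
    intro x
    exact Abelianization.lift_apply_of _ x
  have hδs : Function.Surjective δ := by
    intro y
    obtain ⟨x, rfl⟩ := QuotientGroup.mk_surjective y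
    obtain ⟨n, rfl⟩ := hr x
    exact ⟨Abelianization.of n, hδ n⟩
  have hδk : ∀ x : Abelianization N, δ x = 1 → x ∈ Z := by
    intro x hx
    obtain ⟨n, rfl⟩ := QuotientGroup.mk_surjective x
    have h1 : Abelianization.of (r n) = 1 := by
      rw [← hδ]
      exact hx
    have h2 : α n = 1 := by
      have h3 := congrArg (Abelianization.lift β) h1
      rw [Abelianization.lift_apply_of, map_one, hβ] at h3
      exact h3
    have h3 : (QuotientGroup.mk' Z) (Abelianization.of n) = 1 := h2
    rw [QuotientGroup.mk'_apply, QuotientGroup.eq_one_iff] at h3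
    exact h3
  have hδ1 : δ (τ ^ a') = 1 := by
    rw [← hsτ, hδ]
    have : r ⟨t ^ a * c ^ e, hsN⟩ = 1 := Subtype.ext (slopeHom_slope iso)
    rw [this, map_one]
  -- the order of `τ`
  have hord : orderOf (δ τ) = a'.natAbs := by
    have h1 : (orderOf (δ τ) : ℤ) ∣ a' := orderOf_dvd_iff_zpow_eq_one.2 (by rw [← map_zpow, hδ1])
    have h2 : a' ∣ (orderOf (δ τ) : ℤ) := by
      have h3 : δ (τ ^ (orderOf (δ τ) : ℤ)) = 1 := by
        rw [map_zpow, zpow_natCast, pow_orderOf_eq_one]
      obtain ⟨j, hj⟩ := Subgroup.mem_zpowers_iff.1 (hδk _ h3)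
      rw [← zpow_mul] at hj
      have h4 := congrArg (Abelianization.lift (Abelianization.of.comp N.subtype)) hj
      rw [map_zpow, map_zpow, hτ, Abelianization.lift_apply_of] at h4
      have h5 : (Abelianization.of.comp N.subtype) (⟨t ^ p, htp⟩ : N) =
          (Abelianization.of t) ^ p := by
        show Abelianization.of (t ^ p) = _
        rw [map_pow]
      rw [h5, ← zpow_natCast, ← zpow_mul, ← zpow_mul] at h4
      have h6 : (Abelianization.of t) ^ ((p : ℤ) * (a' * j) - p * (orderOf (δ τ) : ℤ)) = 1 := by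
        rw [zpow_sub, h4, mul_inv_cancel]
      have h7 := orderOf_dvd_iff_zpow_eq_one.2 h6
      rw [hinf, Nat.cast_zero, zero_dvd_iff, ← mul_sub] at h7
      have hp0 : (p : ℤ) ≠ 0 := by exact_mod_cast hp.ne_zero
      have h8 := (mul_eq_zero.1 h7).resolve_left hp0
      exact ⟨j, by omega⟩
    have h5 := Int.natAbs_dvd_natAbs.2 h2
    have h6 := Int.natAbs_dvd_natAbs.2 h1
    rw [Int.natAbs_natCast] at h5 h6
    exact Nat.dvd_antisymm h6 h5
  -- the count
  have hidx : Nat.card (Abelianization N ⧸ Subgroup.zpowers τ) =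
      (Subgroup.zpowers (δ τ)).index := by
    have h1 : Subgroup.comap δ (Subgroup.zpowers (δ τ)) = Subgroup.zpowers τ := by
      rw [← MonoidHom.map_zpowers, Subgroup.comap_map_eq, sup_eq_left]
      intro x hx
      obtain ⟨j, hj⟩ := Subgroup.mem_zpowers_iff.1 (hδk x hx)
      rw [← hj, ← zpow_mul]
      exact Subgroup.zpow_mem _ (Subgroup.mem_zpowers _) _
    rw [← Subgroup.index_comap_of_surjective _ hδs, h1]
    rfl
  have hcount := Subgroup.card_mul_index (Subgroup.zpowers (δ τ))
  rw [Nat.card_zpowers, hord, ← hidx, card_abelianization_kerp] at hcount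
  obtain ⟨k', hk'⟩ := hpk
  set b := Nat.card (Abelianization B') with hb
  set y := Nat.card (Abelianization N ⧸ Subgroup.zpowers τ) with hy
  have hb0 : 0 < b := by
    rw [hab] at ha'
    exact Nat.pos_of_ne_zero (fun h => by rw [h, mul_zero] at ha'; exact lt_irrefl _ ha')
  have hk0 : 0 < k' := Nat.pos_of_ne_zero (fun h => by rw [h, mul_zero] at hk'; omega)
  have h1 : a'.natAbs = k' * b := by
    have h2 : p * a'.natAbs = p * (k' * b) := by
      rw [← mul_assoc, ← hk', ← hab, ha'', Int.natAbs_mul, Int.natAbs_natCast]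
    exact Nat.eq_of_mul_eq_mul_left hp.pos h2
  have h2 : k / p = k' := by rw [hk', Nat.mul_div_cancel_left _ hp.pos]
  rw [h1, h2] at hcount
  have h3 : k' * b * y = k' * b * b ^ (p - 1) := by
    rw [hcount]
    obtain ⟨q, rfl⟩ : ∃ q, p = q + 1 := ⟨p - 1, by have := hp.pos; omega⟩
    rw [Nat.add_sub_cancel, pow_succ]
    ring
  exact Nat.eq_of_mul_eq_mul_left (Nat.mul_pos hk0 hb0) h3

end CardCover

end Pool.Agent.WTT
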