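import Pool.Agent.WTT.Statement

/-!
Definitions for the Seifert surface form: coherently oriented lines, rigidity of windows.
-/

namespace Pool.Agent.WTT

/-- All translates of `L` are coherently oriented: no element of `G` carries an edge of `L` to an
edge of `L` with the opposite direction. -/
def Coherent (G : Type*) {V : Type*} [Group G] [MulAction G V] (L : ℤ → V) : Prop :=
  ∀ (g : G) (j k : ℤ), g • L j = L (k + 1) → g • L (j + 1) ≠ L k

/-- Every element of `G` which carries `f` consecutive corners of `L` to `f` consecutive corners of
`L` (in the same direction) lies in `Per`. -/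
def Rigid {G V : Type*} [Group G] [MulAction G V] (L : ℤ → V) (Per : Subgroup G) (f : ℕ) : Prop :=
  ∀ (g : G) (j k : ℤ), (∀ i : ℕ, i ≤ f + 1 → g • L (j + i) = L (k + i)) → g ∈ Per

/-- Every element of `G` which carries `f` consecutive corners of `L` to `f` consecutive corners of
`L`, in one of the two directions, lies in `Per`. -/
def RigidLine {G V : Type*} [Group G] [MulAction G V] (L : ℤ → V) (Per : Subgroup G) (f : ℕ) :
    Prop :=
  ∀ (g : G) (j k η : ℤ), (η = 1 ∨ η = -1) →
    (∀ i : ℕ, i ≤ f + 1 → g • L (j + η * i) = L (k + i)) → g ∈ Per

end Pool.Agent.WTT
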