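import Pool.Agent.WTT.Girth
import Pool.Agent.WTT.AcylDefs

/-!
The weight test with weights on the darts of a reduced picture, and the case of a coherently
oriented line no two translates of which share `f` consecutive corners.
-/

namespace Pool.Agent.WTT

open Equiv

section

variable {G V Γ : Type*} [Group G] [MulAction G V] [Group Γ] {T : SimpleGraph V}
    {ρ : Γ →* G} {n : ℕ} {X : Fin n → Γ} {D : Type} [Fintype D] [DecidableEq D]

/-- Faces, with weights on the darts. -/
theorem faces_le_w (hR : ResFin Γ) (P : Pic T ρ n X D) (w : D → ℝ) {δ : ℝ} (hδ : 0 < δ)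
    (hδS : ∀ d ∈ P.S, δ ≤ w d)
    (hface : ∀ d ∈ P.S, ∀ M : ℕ, 0 < M → ((P.σ * P.α) ^ M).π d = d →
      ((P.σ * P.α) ^ M).h d = 1 → 2 ≤ ∑ j ∈ Finset.range M, w (((P.σ * P.α) ^ j).π d)) :
    ∑ d ∈ P.S, (1 - w d) ≤ 2 * n - 4 := by
  classical
  obtain ⟨J, hJ⟩ := exists_nat_gt (2 / δ)
  have hJ' : 2 ≤ J * δ := by
    rw [div_lt_iff₀ hδ] at hJ
    exact hJ.le
  set Φ := P.σ * P.α with hΦ
  let B : Finset Γ := ((P.S ×ˢ Finset.range J).image fun x => (Φ ^ x.2).h x.1).erase 1
  obtain ⟨H, hHg, hHf, φ, hφ⟩ := hR B (Finset.notMem_erase _ _)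
  have := Fintype.ofFinite H
  let u : D × H → ℝ := fun x => if x.1 ∈ P.S then w x.1 else 2
  have hu : ∀ x, 0 ≤ u x := by
    intro x
    simp only [u]
    split_ifs with h
    · exact hδ.le.trans (hδS _ h)
    · norm_num
  have hcyc := mul_cyc_le (cov φ Φ) u 2 (by
    rintro ⟨d, η⟩
    set M := Function.minimalPeriod (cov φ Φ) (d, η) with hMdef
    have hMpos : 0 < M := by
      apply Function.minimalPeriod_pos_of_mem_periodicPts
      exact Function.Injective.mem_periodicPts (cov φ Φ).injective _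
    by_cases hd : d ∈ P.S
    · have huj : ∀ j, u ((cov φ Φ)^[j] (d, η)) = w ((Φ ^ j).π d) := by
        intro j
        rw [cov_iterate]
        simp only [u]
        rw [if_pos (P.face_mem hd j)]
      rw [Finset.sum_congr rfl (fun j _ => huj j)]
      rcases lt_or_ge M J with hMJ | hMJ
      · have hper : (cov φ Φ)^[M] (d, η) = (d, η) := Function.iterate_minimalPeriod
        rw [cov_iterate, Prod.mk.injEq] at hper
        have hφ1 : φ ((Φ ^ M).h d) = 1 := by
          have := hper.2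
          exact mul_eq_left.mp this
        have h2 : (Φ ^ M).h d = 1 := by
          by_contra hne
          refine hφ ((Φ ^ M).h d) ?_ hφ1
          refine Finset.mem_erase.mpr ⟨hne, Finset.mem_image.mpr ⟨(d, M), ?_, rfl⟩⟩
          exact Finset.mem_product.mpr ⟨hd, Finset.mem_range.mpr hMJ⟩
        exact hface d hd M hMpos hper.1 h2
      · calc (2 : ℝ) ≤ J * δ := hJ'
          _ ≤ M * δ := by
            apply mul_le_mul_of_nonneg_right _ hδ.le
            exact_mod_cast hMJ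
          _ = ∑ j ∈ Finset.range M, δ := by
            rw [Finset.sum_const, Finset.card_range, nsmul_eq_mul]
          _ ≤ _ := Finset.sum_le_sum fun j _ => hδS _ (P.face_mem hd j)
    · have h0 : u ((cov φ Φ)^[0] (d, η)) = 2 := by
        simp only [u, Function.iterate_zero, id]
        rw [if_neg hd]
      rw [← h0]
      exact Finset.single_le_sum (f := fun j => u ((cov φ Φ)^[j] (d, η))) (fun j _ => hu _)
        (Finset.mem_range.mpr hMpos))
  have heul := P.euler H φ
  have hsum : ∑ x : D × H, u x = Fintype.card H * (∑ d ∈ P.S, w d + 2 * (Fintype.card D - P.S.card)) := by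
    rw [Fintype.sum_prod_type]
    have : ∀ d : D, ∑ η : H, u (d, η) = Fintype.card H * (if d ∈ P.S then w d else 2) := by
      intro d
      simp only [u]
      rw [Finset.sum_const, Finset.card_univ, nsmul_eq_mul]
    rw [Finset.sum_congr rfl (fun d _ => this d), ← Finset.mul_sum, Finset.sum_ite]
    congr 1
    rw [Finset.sum_const, nsmul_eq_mul]
    congr 1
    · apply Finset.sum_congr _ (fun _ _ => rfl)
      ext d
      simp
    · have h3 : (Finset.univ.filter fun d => d ∉ P.S) = Finset.univ \ P.S := by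
        ext d
        simp
      rw [h3, Finset.card_sdiff_of_subset (Finset.subset_univ _), Finset.card_univ, Nat.cast_sub (Finset.card_le_univ _)]
      ring
  rw [hsum] at hcyc
  have hH : (0 : ℝ) < Fintype.card H := by exact_mod_cast Fintype.card_pos
  have heul' : (Fintype.card H : ℝ) * (2 * Fintype.card D + 4) ≤
      2 * cyc (cov φ Φ) + Fintype.card H * (2 * n + P.S.card) := by
    rw [Nat.card_eq_fintype_card] at heul
    exact_mod_cast heul
  have h4 : (Fintype.card H : ℝ) * (2 * Fintype.card D + 4) ≤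
      Fintype.card H * ((∑ d ∈ P.S, w d + 2 * (Fintype.card D - P.S.card)) + (2 * n + P.S.card)) := by
    rw [mul_add (Fintype.card H : ℝ) (∑ d ∈ P.S, w d + 2 * (Fintype.card D - P.S.card))]
    linarith
  have h5 := le_of_mul_le_mul_left h4 hH
  rw [Finset.sum_sub_distrib, Finset.sum_const, nsmul_eq_mul, mul_one]
  linarith

/-- The data of the axis of the curve through `d`. -/
def AxisData (P : Pic T ρ n X D) (L : ℤ → V) (s : G) (d : D) (a : G) (ε c : ℤ) (κ : ℕ) (γ : Γ) :
    Prop :=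
  (ε = 1 ∨ ε = -1) ∧ 0 < κ ∧ ρ (γ * X (P.vert d) * γ⁻¹) = a * s ^ (ε * κ) * a⁻¹ ∧
    ∀ k, P.path d k = a • L (ε * k + c)

/-- Consecutive corners of a face lie on different peripheral lines. -/
theorem not_per_face {L : ℤ → V} {Per : Subgroup G} {s : G} {l : ℕ} (hL : LineAction T L Per s l)
    (hρ : Function.Injective ρ) (hI : Indep X) (P : Pic T ρ n X D) {d : D} (hd : d ∈ P.S)
    {a a' : G} {ε ε' c c' : ℤ} {κ κ' : ℕ} {γ γ' : Γ} (h : AxisData P L s d a ε c κ γ)
    (h' : AxisData P L s ((P.σ * P.α).π d) a' ε' c' κ' γ') :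
    a⁻¹ * (ρ ((P.σ * P.α).h d) * a') ∉ Per := by
  obtain ⟨e1, -, e3, e4⟩ := h
  obtain ⟨f1, f2, f3, f4⟩ := h'
  refine not_per hL hρ hI (i := P.vert d) (i' := P.vert ((P.σ * P.α).π d))
    (W := γ * X (P.vert d) * γ⁻¹)
    (W' := (P.σ * P.α).h d * (γ' * X (P.vert ((P.σ * P.α).π d)) * γ'⁻¹) * ((P.σ * P.α).h d)⁻¹)
    (ε := ε) (ε' := ε') (c := c) (c' := c') (κ := κ) (κ' := κ')
    f2 ⟨γ, rfl⟩ ⟨(P.σ * P.α).h d * γ', by group⟩ e3 ?_ ?_ ?_
  · rw [map_mul, map_mul, f3, map_inv]
    group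
  · have h0 := P.face_zero hd
    rw [f4, e4, ← mul_smul, mul_zero, zero_add, mul_zero, zero_add] at h0
    exact h0.symm
  · have h1 := P.face_neg hd
    rw [f4, e4, ← mul_smul] at h1
    have q1 : ε * 1 + c = c + ε := by ring
    have q2 : ε' * (-1) + c' = c' - ε' := by ring
    rw [q1, q2] at h1
    exact h1.symm

/-- The corner at the dart `d` belongs to a bigon. -/
def Bigon (P : Pic T ρ n X D) (d : D) : Prop :=
  ((P.σ * P.α) ^ 2).π d = d ∧ ((P.σ * P.α) ^ 2).h d = 1

theorem Bigon.next (P : Pic T ρ n X D) {d : D} (h : Bigon P d) :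
    Bigon P ((P.σ * P.α).π d) := by
  obtain ⟨h1, h2⟩ := h
  set Φ := P.σ * P.α
  have e1 : Φ.π (Φ.π d) = d := by
    have := Pic.pow_succ_π Φ 1 d
    rw [pow_one] at this
    rw [← this]
    exact h1
  have e2 : Φ.h d * Φ.h (Φ.π d) = 1 := by
    have := Pic.pow_succ_h Φ 1 d
    rw [pow_one] at this
    rw [← this]
    exact h2
  constructor
  · have := Pic.pow_succ_π Φ 1 (Φ.π d)
    rw [pow_one] at this
    show (Φ ^ (1 + 1)).π (Φ.π d) = Φ.π d
    rw [this, e1]
  · have := Pic.pow_succ_h Φ 1 (Φ.π d)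
    rw [pow_one] at this
    show (Φ ^ (1 + 1)).h (Φ.π d) = 1
    rw [this, e1]
    rw [mul_eq_one_iff_eq_inv] at e2
    rw [e2, mul_inv_cancel]

/-- The action on `Γ × D`. -/
def ap (f : HP D Γ) (x : Γ × D) : Γ × D := (x.1 * f.h x.2, f.π x.2)

omit [Fintype D] [DecidableEq D] in
theorem ap_mul (f g : HP D Γ) (x : Γ × D) : ap (f * g) x = ap f (ap g x) := by
  simp only [ap, HP.mul_h, HP.mul_π, Perm.mul_apply, mul_assoc]

omit [Fintype D] [DecidableEq D] in
theorem ap_one (x : Γ × D) : ap (1 : HP D Γ) x = x := by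
  simp only [ap, HP.one_h, HP.one_π, Perm.one_apply, mul_one]

theorem ap_mem (P : Pic T ρ n X D) {x : Γ × D} (hx : x.2 ∈ P.S) (j : ℤ) :
    (ap (P.σ ^ j) x).2 ∈ P.S := P.zpow_mem hx j

/-- The path of the curve through `x`. -/
def pth (P : Pic T ρ n X D) (x : Γ × D) (k : ℤ) : V := ρ x.1 • P.path x.2 k

theorem pth_ap (P : Pic T ρ n X D) (x : Γ × D) (j k : ℤ) :
    pth P (ap (P.σ ^ j) x) k = pth P x (j + k) := by
  simp only [pth, ap]
  rw [map_mul, mul_smul, ← P.path_add]

theorem pth_face_zero (P : Pic T ρ n X D) {x : Γ × D} (hx : x.2 ∈ P.S) :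
    pth P (ap (P.σ * P.α) x) 0 = pth P x 0 := by
  simp only [pth, ap]
  rw [map_mul, mul_smul, P.face_zero hx]

theorem pth_face_neg (P : Pic T ρ n X D) {x : Γ × D} (hx : x.2 ∈ P.S) :
    pth P (ap (P.σ * P.α) x) (-1) = pth P x 1 := by
  simp only [pth, ap]
  rw [map_mul, mul_smul, P.face_neg hx]

theorem Bigon.ap_sq {P : Pic T ρ n X D} {x : Γ × D} (h : Bigon P x.2) :
    ap ((P.σ * P.α) ^ 2) x = x := by
  obtain ⟨γ, d⟩ := x
  obtain ⟨h1, h2⟩ := h
  simp only at h1 h2
  simp only [ap]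
  rw [h1, h2, mul_one]

/-- Consecutive bigons. -/
theorem ap_shift (P : Pic T ρ n X D) {f : ℕ} (x : Γ × D)
    (hb : ∀ i < f, Bigon P (ap (P.σ ^ (i : ℤ)) x).2) :
    ∀ i < f, ap (P.σ * P.α) (ap (P.σ ^ (i : ℤ)) x) = ap (P.σ ^ (-(i : ℤ))) (ap (P.σ * P.α) x) := by
  intro i
  induction i with
  | zero =>
    intro _
    rw [Nat.cast_zero, neg_zero, zpow_zero, ap_one, ap_one]
  | succ i ih =>
    intro hi
    have ih := ih (by omega)
    have h := (hb (i + 1) hi).ap_sq
    set z := ap (P.σ ^ (i : ℤ)) x with hz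
    have e1 : ap (P.σ ^ ((i + 1 : ℕ) : ℤ)) x = ap P.σ z := by
      rw [hz, ← ap_mul]
      congr 1
      rw [← zpow_one_add]
      congr 1
      push_cast
      ring
    rw [e1] at h ⊢
    have e2 : ap (P.σ * P.α) (ap P.σ z) = ap P.α z := by
      have h3 : P.σ * P.α * P.σ = P.α * P.σ⁻¹ * (P.σ * P.α) ^ 2 * P.σ := by
        have h4 : P.α⁻¹ = P.α := inv_eq_of_mul_eq_one_left P.α_inv
        have h5 : P.α * P.σ⁻¹ * (P.σ * P.α) ^ 2 * P.σ = P.α * P.α * (P.σ * P.α * P.σ) := by
          rw [pow_two]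
          group
        rw [h5, P.α_inv, one_mul]
      rw [← ap_mul, h3, ap_mul, ap_mul, h, ← ap_mul, inv_mul_cancel_right]
    rw [e2]
    have e3 : P.σ ^ (-((i + 1 : ℕ) : ℤ)) = P.σ⁻¹ * P.σ ^ (-(i : ℤ)) := by
      rw [← zpow_neg_one, ← zpow_add]
      congr 1
      push_cast
      ring
    rw [e3, ap_mul, ← ih, ap_mul P.σ P.α, ← ap_mul P.σ⁻¹ P.σ, inv_mul_cancel, ap_one]

/-- A window of `f` bigons: the two curves share `f` corners. -/
theorem pth_window (P : Pic T ρ n X D) {f : ℕ} (hf : 1 ≤ f) {x : Γ × D} (hx : x.2 ∈ P.S)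
    (hb : ∀ i < f, Bigon P (ap (P.σ ^ (i : ℤ)) x).2) (k : ℤ) (h1 : -1 ≤ k) (h2 : k ≤ f) :
    pth P (ap (P.σ * P.α) x) (-k) = pth P x k := by
  rcases eq_or_lt_of_le h1 with rfl | h1
  · have h3 := pth_face_neg P (x := ap (P.σ * P.α) x) (P.σ_mem _ (P.α_mem _ hx))
    have h4 := (hb 0 (by omega)).ap_sq
    rw [Nat.cast_zero, zpow_zero, ap_one, pow_two, ap_mul] at h4
    rw [h4] at h3
    rw [neg_neg, h3]
  · rcases lt_or_eq_of_le h2 with h2 | h2
    · obtain ⟨i, rfl⟩ : ∃ i : ℕ, k = i := ⟨k.toNat, by omega⟩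
      have h3 := ap_shift P x hb i (by omega)
      have h4 := pth_face_zero P (ap_mem P hx (i : ℤ))
      rw [h3, pth_ap, pth_ap, add_zero, add_zero] at h4
      exact h4
    · have h3 := ap_shift P x hb (f - 1) (by omega)
      have h4 := pth_face_neg P (ap_mem P hx ((f - 1 : ℕ) : ℤ))
      rw [h3, pth_ap, pth_ap] at h4
      have e1 : -((f - 1 : ℕ) : ℤ) + -1 = -k := by omega
      have e2 : ((f - 1 : ℕ) : ℤ) + 1 = k := by omega
      rw [e1, e2] at h4
      exact h4

/-- Not all of `f` consecutive corners belong to bigons. -/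
theorem window {L : ℤ → V} {Per : Subgroup G} {s : G} {l : ℕ} (hl : 0 < l)
    (hL : LineAction T L Per s l) {f : ℕ} (hf : 1 ≤ f) (hr : RigidLine L Per f)
    (hρ : Function.Injective ρ)
    (hX : ∀ i, ∃ (g : G) (k : ℤ), k ≠ 0 ∧ ρ (X i) = g * s ^ k * g⁻¹)
    (hI : Indep X) (P : Pic T ρ n X D) (hP : P.Reduced) {d : D} (hd : d ∈ P.S) :
    ∃ i < f, ¬ Bigon P ((P.σ ^ (i : ℤ)).π d) := by
  by_contra hcon
  push Not at hcon
  obtain ⟨a, ε, c, κ, γ, e1, e2, -, -, e3, e4⟩ := exists_axis hl hL hX P hP d hd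
  have hd' : (P.σ * P.α).π d ∈ P.S := P.σ_mem _ (P.α_mem _ hd)
  obtain ⟨a', ε', c', κ', γ', f1, f2, -, -, f3, f4⟩ := exists_axis hl hL hX P hP _ hd'
  have hA : AxisData P L s d a ε c κ γ := ⟨e1, e2, e3, e4⟩
  have hA' : AxisData P L s ((P.σ * P.α).π d) a' ε' c' κ' γ' := ⟨f1, f2, f3, f4⟩
  apply not_per_face hL hρ hI P hd hA hA'
  set y := a⁻¹ * (ρ ((P.σ * P.α).h d) * a') with hy
  have key : ∀ k : ℤ, -1 ≤ k → k ≤ f → y • L (ε' * -k + c') = L (ε * k + c) := by
    intro k h1 h2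
    have h3 := pth_window P hf (x := ((1 : Γ), d)) hd (fun i hi => hcon i hi) k h1 h2
    simp only [pth, ap, map_one, one_smul, one_mul] at h3
    rw [f4, e4, ← mul_smul] at h3
    rw [hy, mul_smul, h3, inv_smul_smul]
  rcases e1 with rfl | rfl
  · refine hr y (c' + ε') (c - 1) (-ε') (by rcases f1 with h | h <;> omega) fun i hi => ?_
    have := key (i - 1) (by omega) (by omega)
    rw [show ε' * -((i : ℤ) - 1) + c' = c' + ε' + -ε' * i by ring,
      show (1 : ℤ) * (i - 1) + c = c - 1 + i by ring] at this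
    exact this
  · refine hr y (c' - ε' * f) (c - f) ε' f1 fun i hi => ?_
    have := key (f - i) (by omega) (by omega)
    rw [show ε' * -((f : ℤ) - i) + c' = c' - ε' * f + ε' * i by ring,
      show (-1 : ℤ) * (f - i) + c = c - f + i by ring] at this
    exact this

/-- The corners of a face with trivial holonomy form a reduced cycle. -/
theorem face_cycle {L : ℤ → V} {Per : Subgroup G} {s : G} {l : ℕ} (hl : 0 < l)
    (hL : LineAction T L Per s l) (hρ : Function.Injective ρ)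
    (hX : ∀ i, ∃ (g : G) (k : ℤ), k ≠ 0 ∧ ρ (X i) = g * s ^ k * g⁻¹)
    (hI : Indep X) (P : Pic T ρ n X D) (hP : P.Reduced) {d : D} (hd : d ∈ P.S) {M : ℕ} (hM : 0 < M)
    (h1 : ((P.σ * P.α) ^ M).π d = d) (h2 : ((P.σ * P.α) ^ M).h d = 1) :
    ∃ (_ : NeZero M) (v : V) (x : ZMod M → V) (g : ZMod M → G), CornerCycle L Per M v x g := by
  have hne : NeZero M := ⟨hM.ne'⟩
  have hax : ∀ d, ∃ (a : G) (ε c : ℤ) (κ : ℕ) (γ : Γ), d ∈ P.S → AxisData P L s d a ε c κ γ := by
    intro d
    by_cases hd : d ∈ P.S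
    · obtain ⟨a, ε, c, κ, γ, h1, h2, -, -, h3, h4⟩ := exists_axis hl hL hX P hP d hd
      exact ⟨a, ε, c, κ, γ, fun _ => ⟨h1, h2, h3, h4⟩⟩
    · exact ⟨1, 1, 1, 1, 1, fun h => absurd h hd⟩
  choose a ε c κ γ hax using hax
  set Φ := P.σ * P.α with hΦ
  let dd : ℕ → D := fun j => (Φ ^ j).π d
  let hh : ℕ → Γ := fun j => (Φ ^ j).h d
  have hdd : ∀ j, dd j ∈ P.S := fun j => P.face_mem hd j
  let xs : ℕ → V := fun j => ρ (hh j) • P.path (dd j) (-1)
  let gs : ℕ → G := fun j => ρ (hh j) * a (dd j)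
  have hperiod : ∀ j, dd (j + M) = dd j ∧ hh (j + M) = hh j := by
    intro j
    constructor
    · show (Φ ^ (j + M)).π d = (Φ ^ j).π d
      rw [pow_add, HP.mul_π, Perm.mul_apply, h1]
    · show (Φ ^ (j + M)).h d = (Φ ^ j).h d
      rw [pow_add, HP.mul_h, h1, h2, one_mul]
  have hxsp : Function.Periodic xs M := by
    intro j
    show ρ (hh (j + M)) • P.path (dd (j + M)) (-1) = _
    rw [(hperiod j).1, (hperiod j).2]
  have hgsp : Function.Periodic gs M := by
    intro j
    show ρ (hh (j + M)) * a (dd (j + M)) = _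
    rw [(hperiod j).1, (hperiod j).2]
  have hzero : ∀ j, ρ (hh j) • P.path (dd j) 0 = P.path d 0 := fun j => P.face_pow_zero hd j
  have hnext : ∀ j, xs (j + 1) = ρ (hh j) • P.path (dd j) 1 := fun j => P.face_pow_neg hd j
  have hcorner : ∀ j, IsCorner L (gs j) (xs j) (P.path d 0) (xs (j + 1)) := by
    intro j
    obtain ⟨e1, -, -, e4⟩ := hax (dd j) (hdd j)
    refine ⟨c (dd j), ε (dd j), e1, ?_, ?_, ?_⟩
    · show (ρ (hh j) * a (dd j)) • _ = ρ (hh j) • P.path (dd j) (-1)
      rw [mul_smul, e4]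
      congr 3
      ring
    · rw [← hzero j, e4]
      show (ρ (hh j) * a (dd j)) • _ = _
      rw [mul_smul]
      congr 3
      ring
    · rw [hnext j, e4]
      show (ρ (hh j) * a (dd j)) • _ = _
      rw [mul_smul]
      congr 3
      ring
  have hnp : ∀ j, (gs j)⁻¹ * gs (j + 1) ∉ Per := by
    intro j
    have hm' : dd (j + 1) = Φ.π (dd j) := Pic.pow_succ_π Φ j d
    have hh' : hh (j + 1) = hh j * Φ.h (dd j) := Pic.pow_succ_h Φ j d
    have h3 := hax (dd (j + 1)) (hdd (j + 1))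
    have h4 : AxisData P L s (Φ.π (dd j)) (a (dd (j + 1))) (ε (dd (j + 1))) (c (dd (j + 1)))
        (κ (dd (j + 1))) (γ (dd (j + 1))) := by
      rw [← hm']
      exact h3
    have h5 := not_per_face hL hρ hI P (hdd j) (hax (dd j) (hdd j)) h4
    have h6 : (gs j)⁻¹ * gs (j + 1) = (a (dd j))⁻¹ * (Φ.h (dd j) |> ρ) * a (dd (j + 1)) := by
      show (ρ (hh j) * a (dd j))⁻¹ * (ρ (hh (j + 1)) * a (dd (j + 1))) = _
      rw [hh', map_mul]
      group
    rw [h6, mul_assoc]
    exact h5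
  -- the cyclic version
  have hval : ∀ z : ZMod M, (z + 1).val = (z.val + 1) % M := by
    intro z
    rw [ZMod.val_add, ZMod.val_one_eq_one_mod, Nat.add_mod_mod]
  have hxz : ∀ z : ZMod M, xs (z + 1).val = xs (z.val + 1) := by
    intro z
    rw [hval, hxsp.map_mod_nat]
  have hgz : ∀ z : ZMod M, gs (z + 1).val = gs (z.val + 1) := by
    intro z
    rw [hval, hgsp.map_mod_nat]
  exact ⟨hne, P.path d 0, fun z => xs z.val, fun z => gs z.val,
    ⟨fun z => by
      show IsCorner L (gs z.val) (xs z.val) _ (xs (z + 1).val)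
      rw [hxz]
      exact hcorner _,
    fun z => by
      show (gs z.val)⁻¹ * gs (z + 1).val ∉ Per
      rw [hgz]
      exact hnp _⟩⟩

/-- The length of the cycles. -/
theorem minimalPeriod_eq {L : ℤ → V} {Per : Subgroup G} {s : G} {l : ℕ} (hl : 0 < l)
    (hL : LineAction T L Per s l)
    (hX : ∀ i, ∃ (g : G) (k : ℤ), k ≠ 0 ∧ ρ (X i) = g * s ^ k * g⁻¹)
    (hI : Indep X) (P : Pic T ρ n X D) (hP : P.Reduced) {x : D} (hx : x ∈ P.S) :
    ∃ κ : ℕ, 0 < κ ∧ Function.minimalPeriod P.σ.π x = κ * l := by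
  obtain ⟨a, ε, c, κ, γ, hε, hκ, h1, h2, h3, h4⟩ := exists_axis hl hL hX P hP x hx
  have hper : Function.IsPeriodicPt P.σ.π (κ * l) x := by
    rw [HP.pow_π] at h1
    rw [Function.IsPeriodicPt, Function.IsFixedPt, Equiv.Perm.iterate_eq_pow]
    exact h1
  obtain ⟨j, hj⟩ := hper.minimalPeriod_dvd
  set N0 := Function.minimalPeriod P.σ.π x with hN0
  have hN0x : (P.σ ^ N0).π x = x := by
    rw [HP.pow_π, ← Equiv.Perm.iterate_eq_pow]
    exact Function.isPeriodicPt_minimalPeriod P.σ.π x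
  have hu : (P.σ ^ (κ * l)).h x = ((P.σ ^ N0).h x) ^ j := by
    rw [hj, pow_mul]
    exact (HP.pow_h_of_fixed _ x hN0x j).2
  obtain ⟨χ, hχ, -⟩ := hI (P.vert x) (P.vert x)
  have hχ2 : Multiplicative.ofAdd (1 : ℤ) = (χ ((P.σ ^ N0).h x)) ^ j := by
    rw [← map_pow, ← hu, h2, map_mul, map_mul, hχ, map_inv, mul_comm (χ γ), mul_inv_cancel_right]
  have hj1 : j = 1 := by
    have h5 := congrArg Multiplicative.toAdd hχ2
    rw [toAdd_ofAdd, toAdd_pow, nsmul_eq_mul] at h5
    have h6 : IsUnit (j : ℤ) := IsUnit.of_mul_eq_one _ h5.symm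
    have := Int.isUnit_iff.1 h6
    omega
  rw [hj1, mul_one] at hj
  exact ⟨κ, hκ, hj.symm⟩

/-- A periodic set which meets every window of length `f` and has period more than `(C - 1) f` has
at least `C` points in a period. -/
theorem le_sum_window (F : ℕ → ℕ) (N f C : ℕ) (hF : ∀ j, F (j + N) = F j)
    (hw : ∀ j, ∃ i < f, 1 ≤ F (j + i)) (hN : (C - 1) * f < N) :
    C ≤ ∑ j ∈ Finset.range N, F j := by
  have hshift : ∀ i : ℕ, ∑ j ∈ Finset.range N, F (j + i) = ∑ j ∈ Finset.range N, F j := by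
    intro i
    induction i with
    | zero => rfl
    | succ i ih =>
      rw [← ih]
      have h1 := Finset.sum_range_succ (fun j => F (j + i)) N
      have h2 := Finset.sum_range_succ' (fun j => F (j + i)) N
      have h3 : F (N + i) = F (0 + i) := by rw [zero_add, add_comm, hF]
      have h4 : ∑ j ∈ Finset.range N, F (j + (i + 1)) = ∑ j ∈ Finset.range N, F (j + 1 + i) :=
        Finset.sum_congr rfl fun j _ => by congr 1; ring
      rw [h4]
      omega
  have h1 : ∑ j ∈ Finset.range N, ∑ i ∈ Finset.range f, F (j + i) =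
      f * ∑ j ∈ Finset.range N, F j := by
    rw [Finset.sum_comm, Finset.sum_congr rfl (fun i _ => hshift i), Finset.sum_const,
      Finset.card_range, smul_eq_mul]
  have h2 : N ≤ ∑ j ∈ Finset.range N, ∑ i ∈ Finset.range f, F (j + i) := by
    calc N = ∑ _j ∈ Finset.range N, 1 := by simp
      _ ≤ _ := Finset.sum_le_sum fun j _ => by
        obtain ⟨i, hi, h⟩ := hw j
        exact h.trans (Finset.single_le_sum (f := fun i => F (j + i)) (fun _ _ => Nat.zero_le _)
          (Finset.mem_range.2 hi))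
  rw [h1] at h2
  by_contra hcon
  push Not at hcon
  have h3 : f * ∑ j ∈ Finset.range N, F j ≤ f * (C - 1) := Nat.mul_le_mul_left _ (by omega)
  rw [mul_comm f (C - 1)] at h3
  omega

open Classical in
/-- The bound for a reduced picture: all cycles of corners have length `2` or at least `N`. -/
theorem reduced_window {L : ℤ → V} {Per : Subgroup G} {s : G} {l : ℕ} (hl : 0 < l)
    (hL : LineAction T L Per s l) {f : ℕ} (hf : 1 ≤ f) (hr : RigidLine L Per f) {N C : ℕ}
    (hN : 3 ≤ N) (hNC : 2 * n * N < C * (N - 2) * n + 4 * N)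
    (hcyc : ∀ (r : ℕ) [NeZero r] (v : V) (x : ZMod r → V) (g : ZMod r → G),
      CornerCycle L Per r v x g → r = 2 ∨ N ≤ r)
    (hρ : Function.Injective ρ)
    (hX : ∀ i, ∃ (g : G) (k : ℤ), k ≠ 0 ∧ ρ (X i) = g * s ^ k * g⁻¹)
    (hI : Indep X) (hR : ResFin Γ) (P : Pic T ρ n X D) (hP : P.Reduced) : l ≤ (C - 1) * f := by
  by_contra hlf
  push Not at hlf
  set Φ := P.σ * P.α with hΦ
  have hN0 : (0 : ℝ) < N := by
    have : 0 < N := by omega
    exact_mod_cast this
  have hN2 : (2 : ℝ) / N ≤ 1 := by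
    rw [div_le_one hN0]
    have : 2 ≤ N := by omega
    exact_mod_cast this
  set w : D → ℝ := fun d => if Bigon P d then 1 else 2 / N with hw
  have hw2 : ∀ d, 2 / (N : ℝ) ≤ w d := by
    intro d
    simp only [hw]
    split_ifs
    · exact hN2
    · exact le_refl _
  have h1 : ∑ d ∈ P.S, (1 - w d) ≤ 2 * n - 4 := by
    refine faces_le_w hR P w (δ := 2 / N) (by positivity) (fun d _ => hw2 d) ?_
    intro d hd M hM h1 h2
    obtain ⟨hM0, v, x, g, hcc⟩ := face_cycle hl hL hρ hX hI P hP hd hM h1 h2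
    rcases hcyc M v x g hcc with rfl | hM4
    · have hb : Bigon P d := ⟨h1, h2⟩
      have hb' := Bigon.next P hb
      rw [Finset.sum_range_succ, Finset.sum_range_one]
      have e0 : w ((Φ ^ 0).π d) = 1 := by
        rw [pow_zero]
        simp only [HP.one_π, Perm.one_apply, hw, if_pos hb]
      have e1 : w ((Φ ^ 1).π d) = 1 := by
        rw [pow_one]
        simp only [hw]
        rw [if_pos hb']
      rw [e0, e1]
      norm_num
    · calc (2 : ℝ) = N * (2 / N) := by field_simp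
        _ ≤ M * (2 / N) := by
          apply mul_le_mul_of_nonneg_right _ (by positivity)
          exact_mod_cast hM4
        _ = ∑ _j ∈ Finset.range M, (2 / N : ℝ) := by
          rw [Finset.sum_const, Finset.card_range, nsmul_eq_mul]
        _ ≤ _ := Finset.sum_le_sum fun j _ => hw2 _
  set c0 : ℝ := (1 - 2 / N) * C with hc0
  have hc0' : 0 ≤ c0 := mul_nonneg (by linarith) (Nat.cast_nonneg _)
  have hCN : 2 * (n : ℝ) - 4 < c0 * n := by
    have h3 : ((2 * n * N : ℕ) : ℝ) < ((C * (N - 2) * n + 4 * N : ℕ) : ℝ) := by exact_mod_cast hNC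
    push_cast [Nat.cast_sub (by omega : 2 ≤ N)] at h3
    have h4 : c0 * n = C * (N - 2) * n / N := by rw [hc0]; field_simp
    rw [h4, lt_div_iff₀ hN0]
    linarith
  -- every curve has at least `C` corners outside the bigons
  set u : D → ℝ := fun d => if d ∈ P.S then 1 - w d else c0 with hu
  have hmain : ∀ x, c0 ≤
      ∑ j ∈ Finset.range (Function.minimalPeriod P.σ.π x), u (P.σ.π^[j] x) := by
    intro x
    by_cases hx : x ∈ P.S
    · obtain ⟨κ, hκ, hM⟩ := minimalPeriod_eq hl hL hX hI P hP hx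
      set M := Function.minimalPeriod P.σ.π x with hMdef
      have hmem : ∀ j : ℕ, P.σ.π^[j] x ∈ P.S := by
        intro j
        have := P.zpow_mem hx (j : ℤ)
        rwa [zpow_natCast, HP.pow_π, ← Equiv.Perm.iterate_eq_pow] at this
      set F : ℕ → ℕ := fun j => if Bigon P (P.σ.π^[j] x) then 0 else 1 with hF
      have h4 : C ≤ ∑ j ∈ Finset.range M, F j := by
        refine le_sum_window F M f C (fun j => ?_) (fun j => ?_) ?_
        · simp only [hF]
          rw [hMdef, Function.iterate_add_minimalPeriod_eq]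
        · obtain ⟨i, hi, hb⟩ := window hl hL hf hr hρ hX hI P hP (hmem j)
          refine ⟨i, hi, ?_⟩
          have e1 : (P.σ ^ (i : ℤ)).π (P.σ.π^[j] x) = P.σ.π^[j + i] x := by
            rw [zpow_natCast, HP.pow_π, ← Equiv.Perm.iterate_eq_pow, ← Function.iterate_add_apply,
              add_comm]
          rw [e1] at hb
          simp only [hF]
          rw [if_neg hb]
        · have : l ≤ M := by
            rw [hM]
            exact Nat.le_mul_of_pos_left l hκ
          omega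
      have h5 : ∀ j, u (P.σ.π^[j] x) = (1 - 2 / N : ℝ) * F j := by
        intro j
        simp only [hu, if_pos (hmem j), hw, hF]
        split_ifs
        · norm_num
        · norm_num
      rw [Finset.sum_congr rfl (fun j _ => h5 j), ← Finset.mul_sum]
      have h6 : (C : ℝ) ≤ ∑ j ∈ Finset.range M, (F j : ℝ) := by exact_mod_cast h4
      exact mul_le_mul_of_nonneg_left h6 (by linarith)
    · have hfix : Function.IsFixedPt P.σ.π x := (P.σ_dead x hx).1
      have h1 : Function.minimalPeriod P.σ.π x = 1 :=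
        Function.minimalPeriod_eq_one_iff_isFixedPt.2 hfix
      rw [h1, Finset.sum_range_one]
      simp [hu, hx]
  have h2 := mul_cyc_le P.σ.π u _ hmain
  have h3 : n + (P.Sᶜ).card ≤ cyc P.σ.π := by
    have h3 := le_cyc_of_invariant (Y := Fin n ⊕ {d // d ∈ P.Sᶜ}) P.σ.π
      (fun d => if h : d ∈ P.S then Sum.inl (P.vert d) else Sum.inr ⟨d, Finset.mem_compl.2 h⟩)
      (by
        intro d
        by_cases hd : d ∈ P.S
        · simp only [dif_pos hd, dif_pos (P.σ_mem d hd), P.vert_σ]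
        · rw [(P.σ_dead d hd).1])
      (by
        rintro (i | ⟨d, hd⟩)
        · obtain ⟨d, hd, h⟩ := P.vert_ne i
          exact ⟨d, by simp only [dif_pos hd, h]⟩
        · exact ⟨d, by simp only [dif_neg (Finset.mem_compl.1 hd)]⟩)
    rw [Nat.card_sum, Nat.card_eq_fintype_card, Nat.card_eq_fintype_card, Fintype.card_fin,
      Fintype.card_coe] at h3
    exact h3
  have h4 : ∑ x, u x = ∑ d ∈ P.S, (1 - w d) + (P.Sᶜ).card * c0 := by
    rw [← Finset.sum_add_sum_compl P.S u]
    congr 1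
    · exact Finset.sum_congr rfl fun d hd => by simp only [hu, if_pos hd]
    · rw [Finset.sum_congr rfl (g := fun _ => c0)
        (fun d hd => by simp only [hu, if_neg (Finset.mem_compl.1 hd)]), Finset.sum_const,
        nsmul_eq_mul]
  rw [h4] at h2
  have h5 : c0 * ((n : ℝ) + (P.Sᶜ).card) ≤ c0 * (cyc P.σ.π : ℝ) :=
    mul_le_mul_of_nonneg_left (by exact_mod_cast h3) hc0'
  rw [mul_add] at h5
  linarith

end

end Pool.Agent.WTT
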