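import Pool.Agent.WTT.Acyl

/-! Assembly for coherently oriented lines. -/

namespace Pool.Agent.WTT

open Equiv

theorem window_action {G V : Type*} [Group G] [MulAction G V] {T : SimpleGraph V}
    {L : ℤ → V} {Per : Subgroup G} {s : G} {l : ℕ} (hl0 : 0 < l)
    (hL : LineAction T L Per s l) {f : ℕ} (hf : 1 ≤ f) (hr : RigidLine L Per f) {N C : ℕ}
    (hN : 3 ≤ N) {m : ℕ} (hm : 2 ≤ m) (hNC : 2 * (m + 1) * N < C * (N - 2) * (m + 1) + 4 * N)
    (hcyc : ∀ (r : ℕ) [NeZero r] (v : V) (x : ZMod r → V) (g : ZMod r → G),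
      CornerCycle L Per r v x g → r = 2 ∨ N ≤ r)
    (ρ : FreeGroup (Fin m) →* G) (h : PlanarMap s m ρ) : l ≤ (C - 1) * f := by
  have hl : l ≠ 0 := hl0.ne'
  have hX : ∀ i, ∃ (g : G) (k : ℤ), k ≠ 0 ∧ ρ (bdry m i) = g * s ^ k * g⁻¹ := by
    intro i
    refine Fin.lastCases ?_ (fun i => ?_) i
    · obtain ⟨g, k, hk, e⟩ := h.last
      refine ⟨g, -k, by omega, ?_⟩
      rw [bdry, Fin.lastCases_last, map_inv, e]
      group
    · obtain ⟨g, k, hk, e⟩ := h.petal i
      exact ⟨g, k, hk, by rw [bdry, Fin.lastCases_castSucc, e]⟩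
  have nofix : ∀ (i : Fin (m + 1)) (j : ℕ) (v : V), 0 < j → ρ (bdry m i) ^ j • v ≠ v := by
    intro i j v hj hv
    obtain ⟨g, k, hk, e⟩ := hX i
    have h1 : ρ (bdry m i) ^ j = g * s ^ (k * j) * g⁻¹ := by
      rw [e, conj_pow, zpow_mul, zpow_natCast]
    rw [h1, mul_smul, mul_smul, ← eq_inv_smul_iff] at hv
    refine no_fix hL.tree hL.line (fun u => s ^ (k * j) • u)
      (fun u v => smul_dist hL.act _ u v) (M := k * j * l) ?_ (fun i => s_zpow hL _ i) (g⁻¹ • v) hv
    have : (j : ℤ) ≠ 0 := by exact_mod_cast hj.ne'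
    have : (l : ℤ) ≠ 0 := by exact_mod_cast hl
    positivity
  obtain ⟨D, hD, hD', ⟨P₀⟩⟩ := exists_pic hL.tree.connected hL.act (by omega : 0 < m) ρ (L 0)
    (fun i => by
      have := nofix i.castSucc 1 (L 0) one_pos
      rwa [pow_one, bdry, Fin.lastCases_castSucc] at this)
  obtain ⟨P, hP⟩ := Pic.exists_reduced nofix P₀
  exact reduced_window hl0 hL hf hr hN hNC hcyc h.inj hX (indep_bdry hm)
    (fun B hB => exists_finite_quotient B hB) P hP

/-- The slope `μ ^ a * lam ^ b` or its inverse translates the line by `|b| q`. -/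
theorem slope_action {G V : Type*} [Group G] [MulAction G V] {T : SimpleGraph V}
    {L : ℤ → V} {μ lam : G} {q : ℕ} (hK : SurfaceTree T L μ lam q) (a b : ℤ) (hb : b ≠ 0) :
    ∃ (s : G) (ε : ℤ), (ε = 1 ∨ ε = -1) ∧ μ ^ a * lam ^ b = s ^ ε ∧
      LineAction T L (Subgroup.closure {μ, lam}) s (b.natAbs * q) := by
  have hμz : ∀ (n : ℤ) (k : ℤ), μ ^ n • L k = L k := by
    intro n
    induction n using Int.induction_on with
    | zero => intro k; simp
    | succ n ih => intro k; rw [zpow_add_one, mul_smul, hK.fix, ih]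
    | pred n ih =>
      intro k
      rw [zpow_sub_one, mul_smul, show μ⁻¹ • L k = L k by rw [inv_smul_eq_iff, hK.fix], ih]
  have hlz : ∀ (n : ℤ) (k : ℤ), lam ^ n • L k = L (k + n * q) := by
    intro n
    induction n using Int.induction_on with
    | zero => intro k; simp
    | succ n ih =>
      intro k
      rw [zpow_add_one, mul_smul, hK.trans, ih]
      congr 1; ring
    | pred n ih =>
      intro k
      rw [zpow_sub_one, mul_smul, show lam⁻¹ • L k = L (k - q) by
        rw [inv_smul_eq_iff, hK.trans]; congr 1; ring, ih]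
      congr 1; ring
  have hcm : ∀ p ∈ Subgroup.closure {μ, lam}, Commute p μ ∧ Commute p lam := by
    intro p hp
    induction hp using Subgroup.closure_induction with
    | mem x hx =>
      rcases hx with rfl | rfl
      · exact ⟨Commute.refl _, hK.comm⟩
      · exact ⟨hK.comm.symm, Commute.refl _⟩
    | one => exact ⟨Commute.one_left _, Commute.one_left _⟩
    | mul x y _ _ hx hy => exact ⟨hx.1.mul_left hy.1, hx.2.mul_left hy.2⟩
    | inv x _ hx => exact ⟨hx.1.inv_left, hx.2.inv_left⟩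
  have hper : ∀ p ∈ Subgroup.closure {μ, lam}, ∃ c : ℤ, ∀ k, p • L k = L (k + c) := by
    intro p hp
    induction hp using Subgroup.closure_induction with
    | mem x hx =>
      rcases hx with rfl | rfl
      · exact ⟨0, fun k => by rw [hK.fix, add_zero]⟩
      · exact ⟨q, hK.trans⟩
    | one => exact ⟨0, fun k => by simp⟩
    | mul x y _ _ hx hy =>
      obtain ⟨c, hc⟩ := hx
      obtain ⟨d, hd⟩ := hy
      exact ⟨d + c, fun k => by rw [mul_smul, hd, hc, add_assoc]⟩
    | inv x _ hx =>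
      obtain ⟨c, hc⟩ := hx
      exact ⟨-c, fun k => by rw [inv_smul_eq_iff, hc]; congr 1; ring⟩
  obtain ⟨ε, hε, hεb⟩ : ∃ ε : ℤ, (ε = 1 ∨ ε = -1) ∧ ε * b = b.natAbs := by
    rcases lt_or_gt_of_ne hb with h | h
    · exact ⟨-1, Or.inr rfl, by omega⟩
    · exact ⟨1, Or.inl rfl, by omega⟩
  have hεε : ε * ε = 1 := by rcases hε with rfl | rfl <;> norm_num
  have hcom : Commute (μ ^ a) (lam ^ b) := (hK.comm.zpow_zpow a b)
  have hs : (μ ^ a * lam ^ b) ^ ε = μ ^ (ε * a) * lam ^ (ε * b) := by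
    rw [hcom.mul_zpow, ← zpow_mul, ← zpow_mul, mul_comm a, mul_comm b]
  refine ⟨(μ ^ a * lam ^ b) ^ ε, ε, hε, by rw [← zpow_mul, hεε, zpow_one],
    hK.tree, hK.act, hK.line, hper, fun p hp => ?_, fun k => ?_⟩
  · have h1 := hcm p hp
    rw [hs]
    exact ((h1.1.zpow_right _).mul_right (h1.2.zpow_right _)).eq
  · rw [hs, mul_smul, hlz, hμz, hεb]
    push_cast
    rfl

/-- Replacing `s` by its inverse. -/
theorem PlanarMap.sign {G : Type*} [Group G] {s s' : G} {ε : ℤ} (hε : ε = 1 ∨ ε = -1)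
    (hs : s' = s ^ ε) {m : ℕ} {ρ : FreeGroup (Fin m) →* G} (h : PlanarMap s' m ρ) :
    PlanarMap s m ρ := by
  refine ⟨h.inj, fun i => ?_, ?_⟩
  · obtain ⟨g, k, hk, e⟩ := h.petal i
    refine ⟨g, ε * k, mul_ne_zero (by rcases hε with rfl | rfl <;> norm_num) hk, ?_⟩
    rw [e, hs, ← zpow_mul]
  · obtain ⟨g, k, hk, e⟩ := h.last
    refine ⟨g, ε * k, mul_ne_zero (by rcases hε with rfl | rfl <;> norm_num) hk, ?_⟩
    rw [e, hs, ← zpow_mul]

section

variable {G V : Type*} [Group G] [MulAction G V] {T : SimpleGraph V} {L : ℤ → V} {μ lam : G} {q : ℕ}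

/-- The window bound: no two translates of `L` share `f` consecutive corners, and all reduced
cycles of corners have length `2` or at least `N`. -/
theorem window_bound (hK : SurfaceTree T L μ lam q) {f : ℕ} (hf : 1 ≤ f)
    (hr : RigidLine L (Subgroup.closure {μ, lam}) f) {N C : ℕ} (hN : 3 ≤ N) {m : ℕ} (hm : 2 ≤ m)
    (hNC : 2 * (m + 1) * N < C * (N - 2) * (m + 1) + 4 * N)
    (hcyc : ∀ (r : ℕ) [NeZero r] (v : V) (x : ZMod r → V) (g : ZMod r → G),
      CornerCycle L (Subgroup.closure {μ, lam}) r v x g → r = 2 ∨ N ≤ r)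
    (a b : ℤ) (hb : b ≠ 0)
    (ρ : FreeGroup (Fin m) →* G) (hρ : PlanarMap (μ ^ a * lam ^ b) m ρ) :
    b.natAbs * q ≤ (C - 1) * f := by
  rcases Nat.eq_zero_or_pos (b.natAbs * q) with h0 | h0
  · rw [h0]
    exact Nat.zero_le _
  obtain ⟨s, ε, hε, hs, hL⟩ := slope_action hK a b hb
  exact window_action h0 hL hf hr hN hm hNC hcyc ρ (hρ.sign hε hs)

theorem CornerCycle.ne_one (hL : IsLine T L) {Per : Subgroup G} {r : ℕ} [NeZero r] {v : V}
    {x : ZMod r → V} {g : ZMod r → G} (h : CornerCycle L Per r v x g) : r ≠ 1 := by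
  rintro rfl
  obtain ⟨k, ε, hε, h1, -, h3⟩ := h.corner 0
  rw [Subsingleton.elim ((0 : ZMod 1) + 1) 0, ← h1] at h3
  have h4 := smul_left_cancel _ h3
  rcases hε with rfl | rfl
  · exact hL.reduced k h4.symm
  · rw [sub_neg_eq_add, ← sub_eq_add_neg] at h4
    exact hL.reduced k h4

/-- The bound for any line. -/
theorem window_six (hK : SurfaceTree T L μ lam q) {f : ℕ} (hf : 1 ≤ f)
    (hr : RigidLine L (Subgroup.closure {μ, lam}) f)
    (a b : ℤ) (hb : b ≠ 0) (m : ℕ) (hm : 2 ≤ m)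
    (ρ : FreeGroup (Fin m) →* G) (hρ : PlanarMap (μ ^ a * lam ^ b) m ρ) :
    b.natAbs * q ≤ (6 * m - 6) / (m + 1) * f := by
  refine window_bound hK hf hr (N := 3) (C := (6 * m - 6) / (m + 1) + 1) (by norm_num) hm ?_
    (fun r _ v x g h => ?_) a b hb ρ hρ
  · have h1 := Nat.lt_div_mul_add (a := 6 * m - 6) (b := m + 1) (by omega)
    have h2 : ((6 * m - 6) / (m + 1) + 1) * (3 - 2) * (m + 1) =
      (6 * m - 6) / (m + 1) * (m + 1) + (m + 1) := by ring
    omega
  · have h1 := h.ne_one hK.line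
    have h2 : 0 < r := Nat.pos_of_neZero r
    omega

/-- In a coherently oriented tree the cycles of corners have even length. -/
theorem CornerCycle.even (hc : Coherent G L) {Per : Subgroup G} {r : ℕ} [NeZero r] {v : V}
    {x : ZMod r → V} {g : ZMod r → G} (h : CornerCycle L Per r v x g) : Even r := by
  classical
  let In : V → Prop := fun u => ∃ (y : G) (k : ℤ), y • L k = u ∧ y • L (k + 1) = v
  have hno : ∀ (y y' : G) (k k' : ℤ) (u : V), y • L k = u → y • L (k + 1) = v → y' • L k' = v →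
      y' • L (k' + 1) = u → False := by
    intro y y' k k' u h1 h2 h3 h4
    refine hc (y⁻¹ * y') k' k ?_ ?_
    · rw [mul_smul, h3, ← h2, inv_smul_smul]
    · rw [mul_smul, h4, ← h1, inv_smul_smul]
  have hstep : ∀ j, In (x (j + 1)) ↔ ¬ In (x j) := by
    intro j
    obtain ⟨k, ε, hε, h1, h2, h3⟩ := h.corner j
    rcases hε with rfl | rfl
    · constructor
      · rintro ⟨y, k', h4, h5⟩
        exact (hno y (g j) k' k _ h4 h5 h2 h3).elim
      · intro h4
        exact (h4 ⟨g j, k - 1, h1, by rw [sub_add_cancel]; exact h2⟩).elim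
    · constructor
      · rintro - ⟨y, k', h4, h5⟩
        exact hno y (g j) k' k _ h4 h5 h2 (by rw [← h1]; congr 2)
      · intro _
        exact ⟨g j, k + -1, h3, by rw [neg_add_cancel_right]; exact h2⟩
  have key : ∀ t : ℕ, (In (x (t : ZMod r)) ↔ (if Even t then In (x 0) else ¬ In (x 0))) := by
    intro t
    induction t with
    | zero => simp
    | succ t ih =>
      rw [Nat.cast_succ, hstep, ih]
      by_cases ht : Even t
      · rw [if_pos ht, if_neg (by rw [Nat.even_add_one]; exact not_not.2 ht)]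
      · rw [if_neg ht, if_pos (Nat.even_add_one.2 ht), not_not]
  have h1 := key r
  rw [ZMod.natCast_self] at h1
  by_contra hodd
  rw [if_neg hodd] at h1
  by_cases h2 : In (x 0)
  · exact h1.1 h2 h2
  · exact h2 (h1.2 h2)

/-- The bound for a coherently oriented line. -/
theorem window_four (hK : SurfaceTree T L μ lam q) (hc : Coherent G L) {f : ℕ} (hf : 1 ≤ f)
    (hr : RigidLine L (Subgroup.closure {μ, lam}) f)
    (a b : ℤ) (hb : b ≠ 0) (m : ℕ) (hm : 2 ≤ m)
    (ρ : FreeGroup (Fin m) →* G) (hρ : PlanarMap (μ ^ a * lam ^ b) m ρ) :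
    b.natAbs * q ≤ (4 * m - 4) / (m + 1) * f := by
  refine window_bound hK hf hr (N := 4) (C := (4 * m - 4) / (m + 1) + 1) (by norm_num) hm ?_
    (fun r _ v x g h => ?_) a b hb ρ hρ
  · have h1 := Nat.lt_div_mul_add (a := 4 * m - 4) (b := m + 1) (by omega)
    have h2 : ((4 * m - 4) / (m + 1) + 1) * (4 - 2) * (m + 1) =
      2 * ((4 * m - 4) / (m + 1) * (m + 1) + (m + 1)) := by ring
    omega
  · obtain ⟨j, hj⟩ := h.even hc
    have h2 : 0 < r := Nat.pos_of_neZero r
    omega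

theorem Rigid.line {Per : Subgroup G} {f : ℕ} (hr : Rigid L Per f) (hc : Coherent G L) :
    RigidLine L Per f := by
  intro g j k η hη h
  rcases hη with rfl | rfl
  · exact hr g j k fun i hi => by rw [← h i hi, one_mul]
  · exfalso
    have h0 := h 0 (by omega)
    have h1 := h 1 (by omega)
    refine hc g (j - 1) k ?_ ?_
    · have e1 : j - 1 = j + -1 * ((1 : ℕ) : ℤ) := by push_cast; ring
      rw [e1, h1, Nat.cast_one]
    · have e1 : j - 1 + 1 = j + -1 * ((0 : ℕ) : ℤ) := by push_cast; ring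
      rw [e1, h0, Nat.cast_zero, add_zero]

/-- R1. -/
theorem coherent_bound (hK : SurfaceTree T L μ lam q) (hc : Coherent G L) {f : ℕ} (hf : 1 ≤ f)
    (hr : Rigid L (Subgroup.closure {μ, lam}) f) (a b : ℤ) (hb : b ≠ 0) (m : ℕ) (hm : 2 ≤ m)
    (ρ : FreeGroup (Fin m) →* G) (hρ : PlanarMap (μ ^ a * lam ^ b) m ρ) :
    b.natAbs * q ≤ 3 * f := by
  refine (window_four hK hc hf (hr.line hc) a b hb m hm ρ hρ).trans (Nat.mul_le_mul_right _ ?_)
  rw [Nat.div_le_iff_le_mul_add_pred (by omega)]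
  omega

open Classical in
/-- R1'. -/
theorem coherent_isolated_bound (hK : SurfaceTree T L μ lam q) (hc : Coherent G L)
    (a b : ℤ) (hb : b ≠ 0) (m : ℕ) (hm : 2 ≤ m)
    (ρ : FreeGroup (Fin m) →* G) (hρ : PlanarMap (μ ^ a * lam ^ b) m ρ)
    (S : Finset ℕ) (hS : S ⊆ Finset.range q)
    (hI : ∀ k ∈ S, Isolated L (Subgroup.closure {μ, lam}) k) :
    b.natAbs * S.card ≤ 3 := by
  set τ : ℤ → ℝ := fun k => if Isolated L (Subgroup.closure {μ, lam}) k then 1 / 2 else 1 with hτd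
  have h1 := girth_bound hK (τ := τ) (fun k => by
    simp only [hτd]
    split_ifs <;> norm_num) (fun k r _ x g h h0 h1 => by
    simp only [hτd]
    split_ifs with hk
    · have h3 := h.three_le hK.line h0 h1 hk
      have h4 : 4 ≤ r := by
        obtain ⟨j, hj⟩ := h.even hc
        omega
      have : (4 : ℝ) ≤ r := by exact_mod_cast h4
      linarith
    · have : (2 : ℝ) ≤ r := by exact_mod_cast h.two_le hK.line h0 h1
      linarith) a b hb m hm ρ hρ
  have h2 : (S.card : ℝ) / 2 ≤ ∑ k ∈ Finset.range q, (1 - τ k) := by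
    have h3 : ∑ k ∈ S, (1 - τ k) ≤ ∑ k ∈ Finset.range q, (1 - τ k) := by
      refine Finset.sum_le_sum_of_subset_of_nonneg hS fun k _ _ => ?_
      simp only [hτd]
      split_ifs <;> norm_num
    have h4 : ∑ k ∈ S, (1 - τ k) = ∑ _k ∈ S, (1 / 2 : ℝ) := by
      refine Finset.sum_congr rfl fun k hk => ?_
      simp only [hτd]
      rw [if_pos (hI k hk)]
      norm_num
    rw [h4, Finset.sum_const, nsmul_eq_mul] at h3
    linarith
  have h5 : ((m : ℝ) + 1) * (|(b : ℝ)| * (S.card / 2)) ≤ 2 * (m - 1) :=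
    le_trans (mul_le_mul_of_nonneg_left (mul_le_mul_of_nonneg_left h2 (abs_nonneg _))
      (by positivity)) h1
  have hb' : (b.natAbs : ℝ) = |(b : ℝ)| := by
    rw [Nat.cast_natAbs, Int.cast_abs]
  by_contra hcon
  push Not at hcon
  have h6 : (4 : ℝ) ≤ |(b : ℝ)| * S.card := by
    rw [← hb']
    exact_mod_cast hcon
  have hm' : (2 : ℝ) ≤ m := by exact_mod_cast hm
  nlinarith

end

end Pool.Agent.WTT
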