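import Pool.Agent.WTT.Girth

/-! The case `q = 4`: one essential Conway sphere. -/

namespace Pool.Agent.WTT

variable {G V : Type*} [Group G] [MulAction G V]

/-- `(x, v, y)` is a copy of the `k`-th corner of `L`: an element of `G` carries this corner to
`(x, v, y)`, in one of the two directions. -/
def CopyOf (G : Type*) {V : Type*} [Group G] [MulAction G V] (L : ℤ → V) (k : ℤ) (x v y : V) :
    Prop :=
  ∃ (g : G) (ε : ℤ), (ε = 1 ∨ ε = -1) ∧ g • L (k - ε) = x ∧ g • L k = v ∧ g • L (k + ε) = y

/-- The number of corners of the closed cycle `(x j, v, x (j + 1))`, `j` in `ZMod r`, which are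
copies of the `k`-th corner of `L`. -/
noncomputable def copies (G : Type*) {V : Type*} [Group G] [MulAction G V] (L : ℤ → V) (k : ℤ)
    (r : ℕ) (v : V) (x : ZMod r → V) : ℕ :=
  Nat.card {j : ZMod r // CopyOf G L k (x j) v (x (j + 1))}

/-- Every reduced closed cycle of corners which contains copies of the corners `k` or `k + 2`,
say `A` of the first and `B` of the second, satisfies `P A B`. -/
def SideCycles {G V : Type*} [Group G] [MulAction G V] (L : ℤ → V) (Per : Subgroup G) (k : ℤ)
    (P : ℕ → ℕ → Prop) : Prop :=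
  ∀ (r : ℕ) [NeZero r] (v : V) (x : ZMod r → V) (g : ZMod r → G), CornerCycle L Per r v x g →
    1 ≤ copies G L k r v x + copies G L (k + 2) r v x →
    P (copies G L k r v x) (copies G L (k + 2) r v x)

/-- The situation on the two sides of an essential Conway sphere (`q = 4`, one surface, the corners
`0, 2` are the two strings on one side, `1, 3` those on the other side): no element of `G`
carries one of the four corners to another one, and on each side `A ≥ 2` for all cycles, or
`B ≥ 2` for all cycles, or `A + B ≥ 4` for all cycles. -/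
structure ConwaySphere {G V : Type*} [Group G] [MulAction G V] (L : ℤ → V) (Per : Subgroup G) :
    Prop where
  apart : ∀ i k : ℕ, i < k → k < 4 → ¬ CopyOf G L i (L (k - 1)) (L k) (L (k + 1))
  sides : ∀ k : ℕ, k < 2 → SideCycles L Per k (fun A _ => 2 ≤ A) ∨
    SideCycles L Per k (fun _ B => 2 ≤ B) ∨ SideCycles L Per k (fun A B => 4 ≤ A + B)

theorem CopyOf.smul {L : ℤ → V} {k : ℤ} {x v y : V} (h : CopyOf G L k x v y) (c : G) :
    CopyOf G L k (c • x) (c • v) (c • y) := by
  obtain ⟨g, ε, hε, h1, h2, h3⟩ := h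
  exact ⟨c * g, ε, hε, by rw [mul_smul, h1], by rw [mul_smul, h2], by rw [mul_smul, h3]⟩

theorem CopyOf.smul_iff {L : ℤ → V} {k : ℤ} {x v y : V} (c : G) :
    CopyOf G L k (c • x) (c • v) (c • y) ↔ CopyOf G L k x v y := by
  refine ⟨fun h => ?_, fun h => h.smul c⟩
  have := h.smul c⁻¹
  rwa [inv_smul_smul, inv_smul_smul, inv_smul_smul] at this

theorem CopyOf.swap {L : ℤ → V} {k : ℤ} {x v y : V} (h : CopyOf G L k x v y) :
    CopyOf G L k y v x := by
  obtain ⟨g, ε, hε, h1, h2, h3⟩ := h
  refine ⟨g, -ε, ?_, ?_, h2, ?_⟩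
  · rcases hε with rfl | rfl
    · exact Or.inr rfl
    · exact Or.inl (neg_neg 1)
  · rw [sub_neg_eq_add, h3]
  · rw [← sub_eq_add_neg, h1]

theorem CopyOf.self (L : ℤ → V) (k : ℤ) : CopyOf G L k (L (k - 1)) (L k) (L (k + 1)) :=
  ⟨1, 1, Or.inl rfl, one_smul _ _, one_smul _ _, one_smul _ _⟩

/-- Copies of the corner `k` only depend on `k` modulo the period. -/
theorem CopyOf.period {L : ℤ → V} {k : ℤ} {x v y : V} (h : CopyOf G L k x v y) {c : G} {t : ℤ}
    (hc : ∀ j, c • L j = L (j + t)) : CopyOf G L (k - t) x v y := by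
  obtain ⟨g, ε, hε, h1, h2, h3⟩ := h
  refine ⟨g * c, ε, hε, ?_, ?_, ?_⟩
  · rw [mul_smul, hc, ← h1]; congr 2; ring
  · rw [mul_smul, hc, ← h2]; congr 2; ring
  · rw [mul_smul, hc, ← h3]; congr 2; ring

open Classical in
/-- The angle system with the angle `w k` at the copies of the corner `k`. -/
noncomputable def wAngle (G : Type*) {V : Type*} [Group G] [MulAction G V] (L : ℤ → V)
    (w : ℕ → ℝ) (q : ℕ) (x v y : V) : ℝ :=
  ∑ k ∈ Finset.range q, w k * (if CopyOf G L k x v y then 1 else 0)

theorem wAngle_sum (L : ℤ → V) (w : ℕ → ℝ) (q : ℕ) (r : ℕ) [NeZero r] (v : V) (x : ZMod r → V) :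
    ∑ j, wAngle G L w q (x j) v (x (j + 1)) =
      ∑ k ∈ Finset.range q, w k * copies G L k r v x := by
  classical
  simp only [wAngle]
  rw [Finset.sum_comm]
  refine Finset.sum_congr rfl fun k _ => ?_
  rw [← Finset.mul_sum, Finset.sum_boole, copies, Nat.card_eq_fintype_card, Fintype.card_subtype]

theorem conway_sphere {T : SimpleGraph V} {L : ℤ → V} {μ lam : G}
    (hK : SurfaceTree T L μ lam 4) (hS : ConwaySphere L (Subgroup.closure {μ, lam}))
    (a b : ℤ) (hb : b ≠ 0) (m : ℕ) (hm : 2 ≤ m) (ρ : FreeGroup (Fin m) →* G)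
    (hρ : PlanarMap (μ ^ a * lam ^ b) m ρ) : False := by
  classical
  have key : ∀ k : ℕ, k < 2 → ∃ u u' : ℝ, 0 ≤ u ∧ 0 ≤ u' ∧ u + u' = 1 ∧
      SideCycles L (Subgroup.closure {μ, lam}) k (fun A B => (2 : ℝ) ≤ u * A + u' * B) := by
    intro k hk
    rcases hS.sides k hk with h | h | h
    · refine ⟨1, 0, by norm_num, le_refl _, by norm_num, fun r _ v x g hc h1 => ?_⟩
      have h2 := h r v x g hc h1
      have h3 : (2 : ℝ) ≤ copies G L k r v x := by exact_mod_cast h2
      show (2 : ℝ) ≤ 1 * (copies G L k r v x : ℝ) + 0 * _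
      linarith
    · refine ⟨0, 1, le_refl _, by norm_num, by norm_num, fun r _ v x g hc h1 => ?_⟩
      have h2 := h r v x g hc h1
      have h3 : (2 : ℝ) ≤ copies G L (k + 2) r v x := by exact_mod_cast h2
      show (2 : ℝ) ≤ 0 * _ + 1 * (copies G L (k + 2) r v x : ℝ)
      linarith
    · refine ⟨1 / 2, 1 / 2, by norm_num, by norm_num, by norm_num, fun r _ v x g hc h1 => ?_⟩
      have h2 := h r v x g hc h1
      have h3 : (4 : ℝ) ≤ copies G L k r v x + copies G L (k + 2) r v x := by exact_mod_cast h2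
      show (2 : ℝ) ≤ 1 / 2 * (copies G L k r v x : ℝ) + 1 / 2 * (copies G L (k + 2) r v x : ℝ)
      linarith
  obtain ⟨u0, u2, h0, h2, h02, hc0⟩ := key 0 (by norm_num)
  obtain ⟨u1, u3, h1, h3, h13, hc1⟩ := key 1 (by norm_num)
  set w : ℕ → ℝ := fun k => if k = 0 then u0 else if k = 1 then u1 else if k = 2 then u2 else u3
    with hw
  have hw0 : ∀ k, 0 ≤ w k := by
    intro k
    simp only [hw]
    split_ifs <;> assumption
  have e0 : w 0 = u0 := by simp [hw]
  have e1 : w 1 = u1 := by simp [hw]
  have e2 : w 2 = u2 := by simp [hw]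
  have e3 : w 3 = u3 := by simp [hw]
  have hlam : ∀ t : ℤ, ∀ j, (lam ^ t) • L j = L (j + 4 * t) := by
    intro t
    induction t using Int.induction_on with
    | zero => intro j; simp
    | succ t ih =>
      intro j
      rw [zpow_add_one, mul_smul, hK.trans, ih]
      congr 1; push_cast; ring
    | pred t ih =>
      intro j
      rw [zpow_sub_one, mul_smul]
      have : lam⁻¹ • L j = L (j - 4) := by
        rw [inv_smul_eq_iff, hK.trans]; congr 1; push_cast; ring
      rw [this, ih]
      congr 1; ring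
  have hθ : AngleSystem L (Subgroup.closure {μ, lam}) (wAngle G L w 4) := by
    refine ⟨fun x v y => ?_, fun c x v y => ?_, fun x v y => ?_, fun r _ v x g hc => ?_⟩
    · refine Finset.sum_nonneg fun k _ => mul_nonneg (hw0 k) ?_
      split_ifs <;> norm_num
    · simp only [wAngle, CopyOf.smul_iff]
    · have : ∀ k : ℤ, CopyOf G L k x v y ↔ CopyOf G L k y v x :=
        fun k => ⟨CopyOf.swap, CopyOf.swap⟩
      simp only [wAngle, this]
    · rw [wAngle_sum]
      simp only [Finset.sum_range_succ, Finset.sum_range_zero, zero_add, e0, e1, e2, e3,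
        Nat.cast_zero, Nat.cast_one, Nat.cast_ofNat]
      have hcard : ∀ k : ℤ, (∃ j, CopyOf G L k (x j) v (x (j + 1))) → 1 ≤ copies G L k r v x := by
        rintro k ⟨j, hj⟩
        have : Nonempty {j : ZMod r // CopyOf G L k (x j) v (x (j + 1))} := ⟨⟨j, hj⟩⟩
        exact Nat.one_le_iff_ne_zero.2 (Nat.card_pos).ne'
      obtain ⟨k, ε, hε, c1, c2, c3⟩ := hc.corner 0
      have hk : CopyOf G L (k - 4 * (k / 4)) (x 0) v (x (0 + 1)) :=
        CopyOf.period (c := lam ^ (k / 4)) ⟨g 0, ε, hε, c1, c2, c3⟩ (hlam _)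
      have hk4 : k - 4 * (k / 4) = k % 4 := by omega
      rw [hk4] at hk
      have hA := hcard _ ⟨0, hk⟩
      have nn : ∀ k : ℤ, (0 : ℝ) ≤ copies G L k r v x := fun k => Nat.cast_nonneg _
      have hcases : k % 4 = 0 ∨ k % 4 = 1 ∨ k % 4 = 2 ∨ k % 4 = 3 := by omega
      have side0 : 1 ≤ copies G L 0 r v x + copies G L 2 r v x →
          (2 : ℝ) ≤ u0 * copies G L 0 r v x + u2 * copies G L 2 r v x := fun h =>
        hc0 r v x g hc h
      have side1 : 1 ≤ copies G L 1 r v x + copies G L 3 r v x →
          (2 : ℝ) ≤ u1 * copies G L 1 r v x + u3 * copies G L 3 r v x := fun h =>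
        hc1 r v x g hc h
      have p0 := mul_nonneg h0 (nn 0)
      have p1 := mul_nonneg h1 (nn 1)
      have p2 := mul_nonneg h2 (nn 2)
      have p3 := mul_nonneg h3 (nn 3)
      rcases hcases with e | e | e | e <;> rw [e] at hA
      · have := side0 (by omega); linarith
      · have := side1 (by omega); linarith
      · have := side0 (by omega); linarith
      · have := side1 (by omega); linarith
  have hdef : defect L (wAngle G L w 4) 4 = 2 := by
    have hval : ∀ k : ℕ, k < 4 → wAngle G L w 4 (L (k - 1)) (L k) (L (k + 1)) = w k := by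
      intro k hk
      rw [wAngle, Finset.sum_eq_single k]
      · rw [if_pos (CopyOf.self L k), mul_one]
      · intro i hi hik
        rw [if_neg, mul_zero]
        rcases Nat.lt_or_gt_of_ne hik with h | h
        · exact hS.apart i k h hk
        · intro h4
          refine hS.apart k i h (Finset.mem_range.1 hi) ?_
          obtain ⟨g, ε, hε, c1, c2, c3⟩ := h4
          refine ⟨g⁻¹, ε, hε, ?_, ?_, ?_⟩
          · rw [inv_smul_eq_iff]
            rcases hε with rfl | rfl
            · exact c1.symm
            · rw [sub_neg_eq_add]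
              rw [← sub_eq_add_neg] at c3
              exact c3.symm
          · rw [inv_smul_eq_iff]
            exact c2.symm
          · rw [inv_smul_eq_iff]
            rcases hε with rfl | rfl
            · exact c3.symm
            · rw [← sub_eq_add_neg]
              rw [sub_neg_eq_add] at c1
              exact c1.symm
      · intro h
        exact absurd (Finset.mem_range.2 hk) h
    rw [defect]
    have hs : ∀ k ∈ Finset.range 4, 1 - wAngle G L w 4 (L ((k : ℕ) - 1)) (L k) (L (k + 1)) =
        1 - w k := fun k hk => by rw [hval k (Finset.mem_range.1 hk)]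
    rw [Finset.sum_congr rfl hs]
    simp only [Finset.sum_range_succ, Finset.sum_range_zero, zero_add, e0, e1, e2, e3]
    linarith
  have hfin := final hK hθ a b hb m hm ρ hρ
  rw [hdef] at hfin
  have hb1 : (1 : ℝ) ≤ |(b : ℝ)| := by
    have : (1 : ℤ) ≤ |b| := Int.one_le_abs hb
    exact_mod_cast this
  have hm' : (2 : ℝ) ≤ m := by exact_mod_cast hm
  nlinarith

end Pool.Agent.WTT
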