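import Mathlib

/-! Row CYC: number of cycles of a permutation (fixed points included). -/

set_option autoImplicit false

namespace Pool.Agent.WTT

open Equiv

/-- The number of cycles of `f`, fixed points included. -/
noncomputable def cyc {X : Type*} (f : Perm X) : ℕ :=
  Nat.card (Quotient (Perm.SameCycle.setoid f))

theorem sameCycle_step {X : Type*} (f : Perm X) (x : X) : f.SameCycle x (f x) := ⟨1, by simp⟩

/-- a function invariant under one step is constant on cycles -/
theorem const_of_step {X Y : Type*} (f : Perm X) (φ : X → Y) (h : ∀ z, φ (f z) = φ z) {x y : X}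
    (hxy : f.SameCycle x y) : φ x = φ y := by
  obtain ⟨i, rfl⟩ := hxy
  have h1 : ∀ z, φ (f⁻¹ z) = φ z := by
    intro z
    have := h (f⁻¹ z)
    rw [show f (f⁻¹ z) = z from f.apply_symm_apply z] at this
    exact this.symm
  induction i using Int.induction_on generalizing x with
  | zero => simp
  | succ n ih =>
    rw [zpow_add_one, Perm.mul_apply, ← ih, h]
  | pred n ih =>
    rw [zpow_sub_one, Perm.mul_apply, ← ih, h1]

/-- counting cycles by a map constant on the cycles of `g` -/
theorem card_le_cyc {X Y : Type*} [Finite X] (g : Perm X) (φ : X → Y) (h : ∀ z, φ (g z) = φ z)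
    (S : Set Y) (hS : ∀ b ∈ S, ∃ z, φ z = b) : Nat.card S ≤ cyc g := by
  classical
  unfold cyc
  let ψ : Quotient (Perm.SameCycle.setoid g) → Y :=
    Quotient.lift φ (fun a b hab => const_of_step g φ h hab)
  have hfin : Finite (Quotient (Perm.SameCycle.setoid g)) := inferInstance
  have hex : ∀ b : S, ∃ q, ψ q = b.1 := by
    intro b
    obtain ⟨z, hz⟩ := hS b.1 b.2
    exact ⟨Quotient.mk _ z, hz⟩
  choose q hq using hex
  refine Nat.card_le_card_of_injective q ?_
  intro a b hab
  have := hq a
  rw [hab, hq b] at this
  exact Subtype.ext this.symm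

theorem cyc_le_mul_swap {X : Type*} [Finite X] [DecidableEq X] (f : Perm X) (x y : X) :
    cyc f ≤ cyc (f * swap x y) + 1 := by
  classical
  let Q := Quotient (Perm.SameCycle.setoid f)
  let cl : X → Q := fun z => Quotient.mk _ z
  have hstep : ∀ z, cl (f z) = cl z := fun z => Quotient.sound (sameCycle_step f z).symm
  let φ : X → Q := fun z => if cl z = cl y then cl x else cl z
  have hφ : ∀ z, φ ((f * swap x y) z) = φ z := by
    intro z
    simp only [φ, Perm.mul_apply]
    by_cases hzx : z = x
    · subst hzx
      rw [swap_apply_left, hstep, if_pos rfl]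
      split_ifs <;> rfl
    · by_cases hzy : z = y
      · subst hzy
        rw [swap_apply_right, hstep, if_pos rfl]
        split_ifs <;> rfl
      · rw [swap_apply_of_ne_of_ne hzx hzy, hstep]
  have h1 := card_le_cyc (f * swap x y) φ hφ {c | c ≠ cl y} (by
    intro b hb
    obtain ⟨z, hz⟩ := Quotient.exists_rep b
    have hz' : cl z = b := hz
    refine ⟨z, ?_⟩
    simp only [φ]
    rw [if_neg (by rw [hz']; exact hb), hz'])
  have hfin : Finite Q := inferInstance
  have : Fintype Q := Fintype.ofFinite Q
  have h2 : Nat.card Q ≤ Nat.card {c : Q | c ≠ cl y} + 1 := by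
    have h3 : Nat.card {c : Q | c ≠ cl y} = Nat.card Q - 1 := by
      rw [Nat.card_eq_fintype_card, Nat.card_eq_fintype_card]
      have : Fintype.card {c : Q | c ≠ cl y} = Fintype.card {c : Q // ¬ c = cl y} :=
        Fintype.card_congr (Equiv.refl _)
      rw [this, Fintype.card_subtype_compl, Fintype.card_subtype_eq]
    omega
  have h4 : cyc f = Nat.card Q := rfl
  omega

theorem cyc_add_one_le_mul_swap {X : Type*} [Finite X] [DecidableEq X] (f : Perm X) {x y : X}
    (hxy : x ≠ y) (h : f x = y) : cyc f + 1 ≤ cyc (f * swap x y) := by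
  classical
  let Q := Quotient (Perm.SameCycle.setoid f)
  let cl : X → Q := fun z => Quotient.mk _ z
  have hstep : ∀ z, cl (f z) = cl z := fun z => Quotient.sound (sameCycle_step f z).symm
  let φ : X → Option Q := fun z => if z = y then none else some (cl z)
  have hφ : ∀ z, φ ((f * swap x y) z) = φ z := by
    intro z
    by_cases hzy : z = y
    · subst hzy
      rw [Perm.mul_apply, swap_apply_right, h]
    · have hne : (f * swap x y) z ≠ y := by
        intro hcon
        rw [Perm.mul_apply] at hcon
        have h5 := f.injective (hcon.trans h.symm)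
        rw [swap_apply_eq_iff, swap_apply_left] at h5
        exact hzy h5
      simp only [φ]
      rw [if_neg hne, if_neg hzy]
      congr 1
      rw [Perm.mul_apply, hstep]
      by_cases hzx : z = x
      · subst hzx
        rw [swap_apply_left, ← h, hstep]
      · rw [swap_apply_of_ne_of_ne hzx hzy]
  have hfin : Finite Q := inferInstance
  have h5 := card_le_cyc (f * swap x y) φ hφ Set.univ (by
    rintro (_ | q) -
    · exact ⟨y, by simp [φ]⟩
    · obtain ⟨z, hz⟩ := Quotient.exists_rep q
      have hz' : cl z = q := hz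
      by_cases hzy : z = y
      · refine ⟨x, ?_⟩
        simp only [φ]
        rw [if_neg hxy, ← hz', hzy, ← h, hstep]
      · exact ⟨z, by simp only [φ]; rw [if_neg hzy, hz']⟩)
  have h6 : Nat.card (Set.univ : Set (Option Q)) = Nat.card (Option Q) :=
    Nat.card_congr (Equiv.Set.univ _)
  rw [h6, Finite.card_option] at h5
  exact h5

theorem cyc_le_mul_prod {X ι : Type*} [Finite X] [DecidableEq X] (a b : ι → X) (l : List ι)
    (f : Perm X) : cyc f ≤ cyc (f * (l.map fun i => swap (a i) (b i)).prod) + l.length := by
  induction l generalizing f with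
  | nil => simp
  | cons i l ih =>
    rw [List.map_cons, List.prod_cons, ← mul_assoc, List.length_cons]
    have h1 := cyc_le_mul_swap f (a i) (b i)
    have h2 := ih (f * swap (a i) (b i))
    omega

theorem cyc_add_le_mul_prod {X ι : Type*} [Finite X] [DecidableEq X] (a b : ι → X)
    (ha : Function.Injective a) (hab : ∀ i j, a i ≠ b j) (l : List ι)
    (hl : l.Nodup) (f : Perm X) (h : ∀ i ∈ l, f (a i) = b i) :
    cyc f + l.length ≤ cyc (f * (l.map fun i => swap (a i) (b i)).prod) := by
  induction l generalizing f with
  | nil => simp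
  | cons i l ih =>
    rw [List.map_cons, List.prod_cons, ← mul_assoc, List.length_cons]
    have h1 := cyc_add_one_le_mul_swap f (hab i i) (h i (by simp))
    have h2 := ih (List.nodup_cons.1 hl).2 (f * swap (a i) (b i)) (by
      intro j hj
      rw [Perm.mul_apply, swap_apply_of_ne_of_ne]
      · exact h j (by simp [hj])
      · intro hcon
        have := ha hcon
        subst this
        exact (List.nodup_cons.1 hl).1 hj
      · exact hab j i)
    omega

/-- Lower bound by an invariant. -/
theorem le_cyc_of_invariant {X Y : Type*} [Finite X] (f : Perm X) (F : X → Y)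
    (hF : ∀ x, F (f x) = F x) (hs : Function.Surjective F) : Nat.card Y ≤ cyc f := by
  have h5 := card_le_cyc f F hF Set.univ (fun b _ => hs b)
  have h6 : Nat.card (Set.univ : Set Y) = Nat.card Y := Nat.card_congr (Equiv.Set.univ _)
  rwa [h6] at h5

/-- the sum over a cycle -/
theorem sum_cycle {X : Type*} [Fintype X] [DecidableEq X] (f : Perm X) (w : X → ℝ) (x : X)
    (s : Finset X) (hs : ∀ y, y ∈ s ↔ f.SameCycle x y) :
    ∑ y ∈ s, w y = ∑ j ∈ Finset.range (Function.minimalPeriod f x), w (f^[j] x) := by
  classical
  have hper : x ∈ Function.periodicPts f := by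
    have : Finite X := inferInstance
    exact Function.Injective.mem_periodicPts f.injective x
  have hpos : 0 < Function.minimalPeriod f x := Function.minimalPeriod_pos_of_mem_periodicPts hper
  symm
  refine Finset.sum_nbij (fun j => f^[j] x) ?_ ?_ ?_ ?_
  · intro j _
    rw [hs]
    exact ⟨j, by rw [zpow_natCast, Perm.iterate_eq_pow]⟩
  · intro i hi j hj hij
    have hi' := Finset.mem_range.1 (Finset.mem_coe.1 hi)
    have hj' := Finset.mem_range.1 (Finset.mem_coe.1 hj)
    exact Function.iterate_injOn_Iio_minimalPeriod (Set.mem_Iio.2 hi') (Set.mem_Iio.2 hj') hij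
  · intro y hy
    have hy' := (hs y).1 (Finset.mem_coe.1 hy)
    obtain ⟨n, -, -, hn⟩ := hy'.exists_pow_eq f
    refine ⟨n % Function.minimalPeriod f x, ?_, ?_⟩
    · exact Finset.mem_coe.2 (Finset.mem_range.2 (Nat.mod_lt _ hpos))
    · change f^[n % Function.minimalPeriod f x] x = y
      rw [Function.iterate_mod_minimalPeriod_eq, Perm.iterate_eq_pow, hn]
  · intro j _
    rfl

/-- Weighted bound: if every cycle has weight at least `c`, then `c * cyc f` is at most the
total weight (`w` may be negative somewhere). -/
theorem mul_cyc_le {X : Type*} [Fintype X] (f : Perm X) (w : X → ℝ) (c : ℝ)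
    (h : ∀ x, c ≤ ∑ j ∈ Finset.range (Function.minimalPeriod f x), w (f^[j] x)) :
    c * (cyc f : ℝ) ≤ ∑ x, w x := by
  classical
  let Q := Quotient (Perm.SameCycle.setoid f)
  have hfin : Finite Q := inferInstance
  have : Fintype Q := Fintype.ofFinite Q
  let cl : X → Q := fun z => Quotient.mk _ z
  have h1 : ∑ x, w x = ∑ q : Q, ∑ x ∈ Finset.univ.filter (fun x => cl x = q), w x := by
    rw [Finset.sum_fiberwise]
  have h2 : (cyc f : ℝ) = ∑ _q : Q, (1 : ℝ) := by
    rw [Finset.sum_const, Finset.card_univ, nsmul_eq_mul, mul_one]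
    unfold cyc
    rw [Nat.card_eq_fintype_card]
  rw [h1, h2, Finset.mul_sum]
  refine Finset.sum_le_sum fun q _ => ?_
  obtain ⟨x, hx⟩ := Quotient.exists_rep q
  rw [sum_cycle f w x (Finset.univ.filter (fun x => cl x = q))]
  · rw [mul_one]; exact h x
  · intro y
    rw [Finset.mem_filter]
    constructor
    · rintro ⟨-, hy⟩
      have h3 : (Quotient.mk _ x : Q) = Quotient.mk _ y := by rw [hx]; exact hy.symm
      exact Quotient.exact h3
    · intro hy
      refine ⟨Finset.mem_univ _, ?_⟩
      rw [← hx]
      exact (Quotient.sound hy).symm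

end Pool.Agent.WTT
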