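import Pool.Agent.WTT.Statement

/-!
Internal definitions: the action of one slope on the line, positive angle systems.
-/

namespace Pool.Agent.WTT

/-- The group `G` acts on the tree `T`; the subgroup `Per` acts on the line `L` by translations;
`s` commutes with `Per` and translates `L` by `l`. -/
structure LineAction {G V : Type*} [Group G] [MulAction G V] (T : SimpleGraph V) (L : ℤ → V)
    (Per : Subgroup G) (s : G) (l : ℕ) : Prop where
  tree : T.IsTree
  act : ∀ (g : G) (u v : V), T.Adj u v → T.Adj (g • u) (g • v)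
  line : IsLine T L
  per : ∀ p ∈ Per, ∃ c : ℤ, ∀ k, p • L k = L (k + c)
  comm : ∀ p ∈ Per, p * s = s * p
  trans : ∀ k, s • L k = L (k + l)

/-- Positive angle systems. -/
structure Angles {G V : Type*} [Group G] [MulAction G V] (L : ℤ → V)
    (Per : Subgroup G) (θ : V → V → V → ℝ) : Prop where
  pos : ∀ x v y, 0 < θ x v y
  inv : ∀ (g : G) (x v y : V), θ (g • x) (g • v) (g • y) = θ x v y
  symm : ∀ x v y, θ x v y = θ y v x
  cycles : ∀ (m : ℕ) [NeZero m] (v : V) (x : ZMod m → V) (g : ZMod m → G),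
    (∀ j, IsCorner L (g j) (x j) v (x (j + 1))) → (∀ j, (g j)⁻¹ * g (j + 1) ∉ Per) →
    2 ≤ ∑ j, θ (x j) v (x (j + 1))

end Pool.Agent.WTT
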