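import Pool.Agent.WTT.PicDefs

/-! Row FIN: a reduced picture and the weight test. -/

namespace Pool.Agent.WTT

open Equiv

/-- Abelianised independence of the boundary curves. -/
def Indep {Γ : Type*} [Group Γ] {n : ℕ} (X : Fin n → Γ) : Prop :=
  ∀ i j, ∃ χ : Γ →* Multiplicative ℤ, χ (X i) = Multiplicative.ofAdd 1 ∧ (i ≠ j → χ (X j) = 1)

/-- Residual finiteness of `Γ` for finite sets. -/
def ResFin (Γ : Type*) [Group Γ] : Prop :=
  ∀ B : Finset Γ, (1 : Γ) ∉ B →
    ∃ (H : Type) (_ : Group H) (_ : Finite H) (φ : Γ →* H), ∀ b ∈ B, φ b ≠ 1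

section

variable {G V Γ : Type*} [Group G] [MulAction G V] [Group Γ] {T : SimpleGraph V}
    {ρ : Γ →* G} {n : ℕ} {X : Fin n → Γ} {D : Type} [Fintype D] [DecidableEq D]

theorem HP.pow_h_of_fixed {D Γ : Type*} [Group Γ] (f : HP D Γ) (d : D) (hd : f.π d = d) (j : ℕ) :
    (f ^ j).π d = d ∧ (f ^ j).h d = (f.h d) ^ j := by
  induction j with
  | zero => simp
  | succ j ih =>
    rw [pow_succ, HP.mul_π, HP.mul_h, Perm.mul_apply, hd]
    exact ⟨ih.1, by rw [ih.2, pow_succ']⟩

namespace Pic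

theorem σ_mem_iff (P : Pic T ρ n X D) (d : D) : P.σ.π d ∈ P.S ↔ d ∈ P.S := by
  refine ⟨fun h => ?_, P.σ_mem d⟩
  by_contra hd
  rw [(P.σ_dead d hd).1] at h
  exact hd h

theorem zpow_mem (P : Pic T ρ n X D) {d : D} (hd : d ∈ P.S) (k : ℤ) :
    (P.σ ^ k).π d ∈ P.S := by
  induction k using Int.induction_on with
  | zero => simpa using hd
  | succ k ih =>
    rw [add_comm, zpow_add, zpow_one, HP.mul_π, Perm.mul_apply]
    exact P.σ_mem _ ih
  | pred k ih =>
    have : P.σ.π ((P.σ ^ (-(k : ℤ) - 1)).π d) = (P.σ ^ (-(k : ℤ))).π d := by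
      rw [← Perm.mul_apply, ← HP.mul_π, ← zpow_one_add]
      congr 3; ring
    rw [← this] at ih
    exact (P.σ_mem_iff _).1 ih

/-- The bi-infinite path of the boundary curve through the dart `d`. -/
def path (P : Pic T ρ n X D) (d : D) (k : ℤ) : V := ρ ((P.σ ^ k).h d) • P.o ((P.σ ^ k).π d)

theorem path_zero (P : Pic T ρ n X D) (d : D) : P.path d 0 = P.o d := by simp [path]

theorem path_succ (P : Pic T ρ n X D) {d : D} (hd : d ∈ P.S) (k : ℤ) :
    P.path d (k + 1) = ρ ((P.σ ^ k).h d) • P.t ((P.σ ^ k).π d) := by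
  rw [path, add_comm, zpow_add, zpow_one, HP.mul_π, HP.mul_h, map_mul, mul_smul, Perm.mul_apply,
    P.step _ (P.zpow_mem hd k)]

theorem path_one (P : Pic T ρ n X D) {d : D} (hd : d ∈ P.S) : P.path d 1 = P.t d := by
  have := P.path_succ hd 0
  simpa using this

theorem path_add (P : Pic T ρ n X D) (d : D) (j k : ℤ) :
    P.path d (j + k) = ρ ((P.σ ^ j).h d) • P.path ((P.σ ^ j).π d) k := by
  rw [path, path, add_comm, zpow_add, HP.mul_π, HP.mul_h, map_mul, mul_smul, Perm.mul_apply]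

theorem path_line (P : Pic T ρ n X D) (hP : P.Reduced)
    (act : ∀ (g : G) (u v : V), T.Adj u v → T.Adj (g • u) (g • v)) {d : D} (hd : d ∈ P.S) :
    IsLine T (P.path d) := by
  constructor
  · intro k
    rw [P.path_succ hd k, path]
    exact act _ _ _ (P.adj _ (P.zpow_mem hd k))
  · intro k
    have h1 : P.path d (k + 1) = ρ ((P.σ ^ (k - 1)).h d) •
        (ρ (P.σ.h ((P.σ ^ (k - 1)).π d)) • P.t (P.σ.π ((P.σ ^ (k - 1)).π d))) := by
      have h2 : P.σ ^ k = P.σ * P.σ ^ (k - 1) := by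
        rw [← zpow_one_add]; congr 1; ring
      rw [P.path_succ hd k, h2, HP.mul_π, HP.mul_h, map_mul, mul_smul, Perm.mul_apply]
    rw [h1, path]
    intro h
    exact hP _ (P.zpow_mem hd (k - 1)) (smul_left_cancel _ h).symm

end Pic

theorem s_zpow {L : ℤ → V} {Per : Subgroup G} {s : G} {l : ℕ} (hL : LineAction T L Per s l)
    (k j : ℤ) : s ^ k • L j = L (j + k * l) := by
  induction k using Int.induction_on generalizing j with
  | zero => simp
  | succ k ih =>
    rw [zpow_add_one, mul_smul, hL.trans, ih]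
    congr 1; ring
  | pred k ih =>
    rw [zpow_sub_one, mul_smul]
    have : s⁻¹ • L j = L (j - l) := by
      rw [inv_smul_eq_iff, hL.trans]; congr 1; ring
    rw [this, ih]
    congr 1; ring

/-- The axis of the boundary curve through `d`. -/
theorem exists_axis {L : ℤ → V} {Per : Subgroup G} {s : G} {l : ℕ} (hl : 0 < l)
    (hL : LineAction T L Per s l)
    (hX : ∀ i, ∃ (g : G) (k : ℤ), k ≠ 0 ∧ ρ (X i) = g * s ^ k * g⁻¹)
    (P : Pic T ρ n X D) (hP : P.Reduced) (d : D) (hd : d ∈ P.S) :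
    ∃ (a : G) (ε c : ℤ) (κ : ℕ) (γ : Γ), (ε = 1 ∨ ε = -1) ∧ 0 < κ ∧
      (P.σ ^ (κ * l)).π d = d ∧ (P.σ ^ (κ * l)).h d = γ * X (P.vert d) * γ⁻¹ ∧
      ρ (γ * X (P.vert d) * γ⁻¹) = a * s ^ (ε * κ) * a⁻¹ ∧
      ∀ k, P.path d k = a • L (ε * k + c) := by
  obtain ⟨N, hN, h1, γ, h2⟩ := P.closing d hd
  obtain ⟨g, k, hk, e⟩ := hX (P.vert d)
  obtain ⟨ε, hε, hεk⟩ : ∃ ε : ℤ, (ε = 1 ∨ ε = -1) ∧ k = ε * k.natAbs := by
    rcases lt_or_gt_of_ne hk with h | h
    · exact ⟨-1, Or.inr rfl, by omega⟩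
    · exact ⟨1, Or.inl rfl, by omega⟩
  have hεε : ε * ε = 1 := by rcases hε with rfl | rfl <;> norm_num
  set κ := k.natAbs with hκ
  have hκ0 : 0 < κ := Int.natAbs_pos.2 hk
  set a := ρ γ * g with ha
  have hu : ρ (γ * X (P.vert d) * γ⁻¹) = a * s ^ (ε * κ) * a⁻¹ := by
    rw [map_mul, map_mul, e, ← hεk, ha, map_inv]
    group
  set u := γ * X (P.vert d) * γ⁻¹ with hudef
  -- the axis
  have hq : IsLine T (fun k : ℤ => a • L (ε * k)) := by
    constructor
    · intro k
      rcases hε with rfl | rfl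
      · show T.Adj (a • L (1 * k)) (a • L (1 * (k + 1)))
        rw [show (1 : ℤ) * (k + 1) = 1 * k + 1 by ring]
        exact hL.act a _ _ (hL.line.adj _)
      · show T.Adj (a • L (-1 * k)) (a • L (-1 * (k + 1)))
        rw [show (-1 : ℤ) * k = -1 * (k + 1) + 1 by ring]
        exact (hL.act a _ _ (hL.line.adj _)).symm
    · intro k h
      have h := smul_left_cancel _ h
      rcases hε with rfl | rfl
      · rw [show (1 : ℤ) * (k - 1) = 1 * k - 1 by ring,
          show (1 : ℤ) * (k + 1) = 1 * k + 1 by ring] at h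
        exact hL.line.reduced _ h
      · rw [show (-1 : ℤ) * (k - 1) = -1 * k + 1 by ring,
          show (-1 : ℤ) * (k + 1) = -1 * k - 1 by ring] at h
        exact hL.line.reduced _ h.symm
  have hfq : ∀ j : ℤ, MulAction.toPerm (ρ u) (a • L (ε * j)) = a • L (ε * (j + (κ * l : ℕ))) := by
    intro j
    rw [MulAction.toPerm_apply, hu, mul_smul, mul_smul, inv_smul_smul, s_zpow hL]
    congr 2
    push_cast
    ring
  have hfp : ∀ j : ℤ, MulAction.toPerm (ρ u) (P.path d j) = P.path d (j + N) := by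
    intro j
    rw [add_comm, P.path_add, zpow_natCast, h1, h2]
    rfl
  obtain ⟨hNM, c, hc⟩ := axis_unique hL.tree (P.path_line hP hL.act hd) hq
    (MulAction.toPerm (ρ u)) (fun v w => smul_dist hL.act _ v w) hN
    (Nat.mul_pos hκ0 hl) hfp hfq
  refine ⟨a, ε, ε * c, κ, γ, hε, hκ0, ?_, ?_, hu, fun k => ?_⟩
  · rw [← hNM]; exact h1
  · rw [← hNM]; exact h2
  · rw [hc]
    congr 2
    ring

theorem sum_range_zmod (l : ℕ) [NeZero l] (F : ZMod l → ℝ) :
    ∑ j ∈ Finset.range l, F (j : ZMod l) = ∑ z : ZMod l, F z := by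
  obtain ⟨n, rfl⟩ : ∃ n, l = n + 1 := ⟨l - 1, by have := NeZero.ne l; omega⟩
  rw [Finset.sum_range]
  refine Finset.sum_congr rfl fun i _ => ?_
  congr 1
  exact ZMod.natCast_zmod_val (n := n + 1) i

theorem sum_period (τ : ℤ → ℝ) (l : ℕ) (hτ : ∀ k, τ (k + l) = τ k) (ε c : ℤ)
    (hε : ε = 1 ∨ ε = -1) (κ : ℕ) :
    ∑ j ∈ Finset.range (κ * l), τ (ε * j + c) = κ * ∑ k ∈ Finset.range l, τ k := by
  rcases Nat.eq_zero_or_pos l with rfl | hl
  · simp
  have : NeZero l := ⟨hl.ne'⟩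
  have hper : ∀ (k : ℤ) (m : ℤ), τ (k + m * l) = τ k := by
    intro k m
    induction m using Int.induction_on with
    | zero => simp
    | succ m ih =>
      rw [← ih, ← hτ (k + m * l)]; congr 1; ring
    | pred m ih =>
      rw [← ih, ← hτ (k + (-(m : ℤ) - 1) * l)]; congr 1; ring
  have hval : ∀ k : ℤ, τ k = τ (((k : ZMod l)).val : ℤ) := by
    intro k
    have h1 : (((k : ZMod l)).val : ℤ) = k % l := by
      rw [ZMod.val_intCast]
    rw [h1]
    conv_lhs => rw [← Int.emod_add_mul_ediv k l]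
    rw [mul_comm, hper]
  have h0 : ∀ c' : ℤ, ∑ j ∈ Finset.range l, τ (ε * j + c') = ∑ k ∈ Finset.range l, τ k := by
    intro c'
    have h1 : ∑ j ∈ Finset.range l, τ (ε * j + c') =
        ∑ z : ZMod l, τ (((ε : ZMod l) * z + (c' : ZMod l)).val : ℤ) := by
      rw [← sum_range_zmod l (fun z => τ (((ε : ZMod l) * z + (c' : ZMod l)).val : ℤ))]
      refine Finset.sum_congr rfl fun j _ => ?_
      rw [hval]
      push_cast
      rfl
    have h2 : ∑ k ∈ Finset.range l, τ k = ∑ z : ZMod l, τ (z.val : ℤ) := by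
      rw [← sum_range_zmod l (fun z => τ (z.val : ℤ))]
      refine Finset.sum_congr rfl fun j _ => ?_
      rw [hval]
      push_cast
      rfl
    rw [h1, h2]
    refine Fintype.sum_bijective (fun z : ZMod l => (ε : ZMod l) * z + (c' : ZMod l)) ?_ _ _
      (fun z => rfl)
    have hεε : (ε : ZMod l) * (ε : ZMod l) = 1 := by
      rcases hε with rfl | rfl <;> simp
    refine Function.bijective_iff_has_inverse.2
      ⟨fun z => (ε : ZMod l) * (z - (c' : ZMod l)), fun z => ?_, fun z => ?_⟩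
    · simp only [add_sub_cancel_right]
      rw [← mul_assoc, hεε, one_mul]
    · simp only
      rw [← mul_assoc, hεε, one_mul, sub_add_cancel]
  induction κ with
  | zero => simp
  | succ κ ih =>
    rw [Nat.succ_mul, Finset.sum_range_add, ih]
    have : ∑ j ∈ Finset.range l, τ (ε * ((κ * l + j : ℕ) : ℤ) + c) = ∑ k ∈ Finset.range l, τ k := by
      rw [← h0 (ε * (κ * l : ℕ) + c)]
      refine Finset.sum_congr rfl fun j _ => ?_
      congr 1
      push_cast
      ring
    rw [this]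
    push_cast
    ring

/-- The angle of the picture at the dart `d`. -/
def Pic.ang (P : Pic T ρ n X D) (θ : V → V → V → ℝ) (d : D) : ℝ :=
  θ (P.path d (-1)) (P.path d 0) (P.path d 1)

theorem HP.pow_π {D Γ : Type*} [Group Γ] (f : HP D Γ) (j : ℕ) : (f ^ j).π = f.π ^ j := by
  induction j with
  | zero => rfl
  | succ j ih => rw [pow_succ, HP.mul_π, ih, pow_succ]

theorem ang_pow (P : Pic T ρ n X D) {L : ℤ → V} {Per : Subgroup G} {θ : V → V → V → ℝ}
    (hθ : Angles L Per θ) (d : D) (j : ℤ) :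
    P.ang θ ((P.σ ^ j).π d) = θ (P.path d (j - 1)) (P.path d j) (P.path d (j + 1)) := by
  rw [Pic.ang, ← hθ.inv (ρ ((P.σ ^ j).h d)), ← P.path_add, ← P.path_add, ← P.path_add, add_zero]
  rfl

theorem one_sub_angle {L : ℤ → V} {Per : Subgroup G} {θ : V → V → V → ℝ}
    (hθ : Angles L Per θ) (a : G) {ε : ℤ} (hε : ε = 1 ∨ ε = -1) (c j : ℤ) :
    θ (a • L (ε * (j - 1) + c)) (a • L (ε * j + c)) (a • L (ε * (j + 1) + c)) =
      θ (L (ε * j + c - 1)) (L (ε * j + c)) (L (ε * j + c + 1)) := by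
  rw [hθ.inv]
  rcases hε with rfl | rfl
  · rw [show (1 : ℤ) * (j - 1) + c = 1 * j + c - 1 by ring,
      show (1 : ℤ) * (j + 1) + c = 1 * j + c + 1 by ring]
  · rw [show (-1 : ℤ) * (j - 1) + c = -1 * j + c + 1 by ring,
      show (-1 : ℤ) * (j + 1) + c = -1 * j + c - 1 by ring, hθ.symm]

/-- Part F2. -/
theorem defect_le {L : ℤ → V} {Per : Subgroup G} {s : G} {l : ℕ} (hl : 0 < l)
    {θ : V → V → V → ℝ} (hL : LineAction T L Per s l) (hθ : Angles L Per θ)
    (hX : ∀ i, ∃ (g : G) (k : ℤ), k ≠ 0 ∧ ρ (X i) = g * s ^ k * g⁻¹)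
    (hI : Indep X) (P : Pic T ρ n X D) (hP : P.Reduced) (h0 : 0 ≤ defect L θ l) :
    n * defect L θ l ≤ ∑ d ∈ P.S, (1 - P.ang θ d) := by
  classical
  set w : D → ℝ := fun d => if d ∈ P.S then 1 - P.ang θ d else defect L θ l with hw
  have hτ : ∀ k : ℤ, (fun k : ℤ => 1 - θ (L (k - 1)) (L k) (L (k + 1))) (k + l) =
      (fun k : ℤ => 1 - θ (L (k - 1)) (L k) (L (k + 1))) k := by
    intro k
    show 1 - θ (L (k + l - 1)) (L (k + l)) (L (k + l + 1)) = 1 - θ (L (k - 1)) (L k) (L (k + 1))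
    rw [← hθ.inv s (L (k - 1)), hL.trans, hL.trans, hL.trans,
      show k - 1 + (l : ℤ) = k + l - 1 by ring, show k + 1 + (l : ℤ) = k + l + 1 by ring]
  have hmain : ∀ x, defect L θ l ≤
      ∑ j ∈ Finset.range (Function.minimalPeriod P.σ.π x), w (P.σ.π^[j] x) := by
    intro x
    by_cases hx : x ∈ P.S
    · obtain ⟨a, ε, c, κ, γ, hε, hκ, h1, h2, h3, h4⟩ := exists_axis hl hL hX P hP x hx
      -- the exact length of the cycle
      have hper : Function.IsPeriodicPt P.σ.π (κ * l) x := by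
        rw [HP.pow_π] at h1
        rw [Function.IsPeriodicPt, Function.IsFixedPt, Equiv.Perm.iterate_eq_pow]
        exact h1
      obtain ⟨j, hj⟩ := hper.minimalPeriod_dvd
      set N0 := Function.minimalPeriod P.σ.π x with hN0
      have hN0x : (P.σ ^ N0).π x = x := by
        rw [HP.pow_π, ← Equiv.Perm.iterate_eq_pow]
        exact Function.isPeriodicPt_minimalPeriod P.σ.π x
      have hu : (P.σ ^ (κ * l)).h x = ((P.σ ^ N0).h x) ^ j := by
        rw [hj, pow_mul]
        exact (HP.pow_h_of_fixed _ x hN0x j).2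
      obtain ⟨χ, hχ, -⟩ := hI (P.vert x) (P.vert x)
      have hχ2 : Multiplicative.ofAdd (1 : ℤ) = (χ ((P.σ ^ N0).h x)) ^ j := by
        rw [← map_pow, ← hu, h2, map_mul, map_mul, hχ, map_inv, mul_comm (χ γ), mul_inv_cancel_right]
      have hj1 : j = 1 := by
        have h5 := congrArg Multiplicative.toAdd hχ2
        rw [toAdd_ofAdd, toAdd_pow, nsmul_eq_mul] at h5
        have h6 : IsUnit (j : ℤ) := IsUnit.of_mul_eq_one _ h5.symm
        have := Int.isUnit_iff.1 h6
        omega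
      rw [hj1, mul_one] at hj
      rw [← hj]
      have hsum : ∑ j ∈ Finset.range (κ * l), w (P.σ.π^[j] x) =
          ∑ j ∈ Finset.range (κ * l),
            (fun k : ℤ => 1 - θ (L (k - 1)) (L k) (L (k + 1))) (ε * j + c) := by
        refine Finset.sum_congr rfl fun j _ => ?_
        have hmem : (P.σ ^ (j : ℤ)).π x ∈ P.S := P.zpow_mem hx j
        have hpow : P.σ.π^[j] x = (P.σ ^ (j : ℤ)).π x := by
          rw [zpow_natCast, HP.pow_π, Equiv.Perm.iterate_eq_pow]
        rw [hpow]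
        simp only [hw, if_pos hmem]
        rw [ang_pow P hθ, h4, h4, h4, one_sub_angle hθ a hε]
      have hs := sum_period (fun k : ℤ => 1 - θ (L (k - 1)) (L k) (L (k + 1))) l hτ ε c hε κ
      rw [hsum, hs]
      have hκ1 : (1 : ℝ) ≤ κ := by exact_mod_cast hκ
      calc defect L θ l = 1 * defect L θ l := (one_mul _).symm
        _ ≤ κ * defect L θ l := mul_le_mul_of_nonneg_right hκ1 h0
    · have hfix : Function.IsFixedPt P.σ.π x := (P.σ_dead x hx).1
      have h1 : Function.minimalPeriod P.σ.π x = 1 := Function.minimalPeriod_eq_one_iff_isFixedPt.2 hfix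
      rw [h1, Finset.sum_range_one]
      simp [hw, hx]
  have h1 := mul_cyc_le P.σ.π w _ hmain
  have h2 : n + (P.Sᶜ).card ≤ cyc P.σ.π := by
    have h3 := le_cyc_of_invariant (Y := Fin n ⊕ {d // d ∈ P.Sᶜ}) P.σ.π
      (fun d => if h : d ∈ P.S then Sum.inl (P.vert d) else Sum.inr ⟨d, Finset.mem_compl.2 h⟩)
      (by
        intro d
        by_cases hd : d ∈ P.S
        · simp only [dif_pos hd, dif_pos (P.σ_mem d hd), P.vert_σ]
        · rw [(P.σ_dead d hd).1])
      (by
        rintro (i | ⟨d, hd⟩)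
        · obtain ⟨d, hd, h⟩ := P.vert_ne i
          exact ⟨d, by simp only [dif_pos hd, h]⟩
        · exact ⟨d, by simp only [dif_neg (Finset.mem_compl.1 hd)]⟩)
    rw [Nat.card_sum, Nat.card_eq_fintype_card, Nat.card_eq_fintype_card, Fintype.card_fin,
      Fintype.card_coe] at h3
    exact h3
  have h3 : ∑ x, w x = ∑ d ∈ P.S, (1 - P.ang θ d) + (P.Sᶜ).card * defect L θ l := by
    rw [← Finset.sum_add_sum_compl P.S w]
    congr 1
    · exact Finset.sum_congr rfl fun d hd => by simp only [hw, if_pos hd]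
    · rw [Finset.sum_congr rfl (g := fun _ => defect L θ l)
        (fun d hd => by simp only [hw, if_neg (Finset.mem_compl.1 hd)]), Finset.sum_const,
        nsmul_eq_mul]
  rw [h3] at h1
  have h4 : defect L θ l * ((n : ℝ) + (P.Sᶜ).card) ≤ defect L θ l * (cyc P.σ.π : ℝ) :=
    mul_le_mul_of_nonneg_left (by exact_mod_cast h2) h0
  nlinarith

end

end Pool.Agent.WTT
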