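import Pool.Agent.WTT.Fin

/-! Part F3 of the row FIN: the faces of a reduced picture. -/

namespace Pool.Agent.WTT

open Equiv

section

variable {G V Γ : Type*} [Group G] [MulAction G V] [Group Γ] {T : SimpleGraph V}
    {ρ : Γ →* G} {n : ℕ} {X : Fin n → Γ} {D : Type} [Fintype D] [DecidableEq D]

namespace Pic

theorem path_of_succ (P : Pic T ρ n X D) (d : D) (k : ℤ) :
    ρ (P.σ.h d) • P.path (P.σ.π d) k = P.path d (1 + k) := by
  rw [P.path_add d 1 k, zpow_one]

theorem face_zero (P : Pic T ρ n X D) {d : D} (hd : d ∈ P.S) :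
    ρ ((P.σ * P.α).h d) • P.path ((P.σ * P.α).π d) 0 = P.path d 0 := by
  rw [HP.mul_π, HP.mul_h, map_mul, mul_smul, Perm.mul_apply, P.path_of_succ, add_zero,
    P.path_one (P.α_mem d hd), P.flip_t d hd, path_zero]

theorem face_neg (P : Pic T ρ n X D) {d : D} (hd : d ∈ P.S) :
    ρ ((P.σ * P.α).h d) • P.path ((P.σ * P.α).π d) (-1) = P.path d 1 := by
  rw [HP.mul_π, HP.mul_h, map_mul, mul_smul, Perm.mul_apply, P.path_of_succ,
    show (1 : ℤ) + -1 = 0 by norm_num, path_zero, P.flip_o d hd, P.path_one hd]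

theorem face_mem (P : Pic T ρ n X D) {d : D} (hd : d ∈ P.S) (j : ℕ) :
    ((P.σ * P.α) ^ j).π d ∈ P.S := by
  induction j with
  | zero => simpa using hd
  | succ j ih =>
    rw [pow_succ', HP.mul_π, Perm.mul_apply, HP.mul_π, Perm.mul_apply]
    exact P.σ_mem _ (P.α_mem _ ih)

theorem pow_succ_π (f : HP D Γ) (j : ℕ) (d : D) : (f ^ (j + 1)).π d = f.π ((f ^ j).π d) := by
  rw [pow_succ', HP.mul_π, Perm.mul_apply]

theorem pow_succ_h (f : HP D Γ) (j : ℕ) (d : D) : (f ^ (j + 1)).h d = (f ^ j).h d * f.h ((f ^ j).π d) := by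
  rw [pow_succ', HP.mul_h]

theorem face_pow_zero (P : Pic T ρ n X D) {d : D} (hd : d ∈ P.S) (j : ℕ) :
    ρ (((P.σ * P.α) ^ j).h d) • P.path (((P.σ * P.α) ^ j).π d) 0 = P.path d 0 := by
  induction j with
  | zero => simp
  | succ j ih =>
    rw [pow_succ_h, pow_succ_π, map_mul, mul_smul, P.face_zero (P.face_mem hd j), ih]

theorem face_pow_neg (P : Pic T ρ n X D) {d : D} (hd : d ∈ P.S) (j : ℕ) :
    ρ (((P.σ * P.α) ^ (j + 1)).h d) • P.path (((P.σ * P.α) ^ (j + 1)).π d) (-1) =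
      ρ (((P.σ * P.α) ^ j).h d) • P.path (((P.σ * P.α) ^ j).π d) 1 := by
  rw [pow_succ_h, pow_succ_π, map_mul, mul_smul, P.face_neg (P.face_mem hd j)]

end Pic

/-- two consecutive corners of a face lie on different peripheral lines -/
theorem not_per {L : ℤ → V} {Per : Subgroup G} {s : G} {l : ℕ} (hL : LineAction T L Per s l)
    (hρ : Function.Injective ρ) (hI : Indep X) {i i' : Fin n} {g g' : G} {W W' : Γ} {ε ε' c c' : ℤ}
    {κ κ' : ℕ} (hκ' : 0 < κ')
    (hW : ∃ γ, W = γ * X i * γ⁻¹) (hW' : ∃ γ, W' = γ * X i' * γ⁻¹)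
    (hρW : ρ W = g * s ^ (ε * κ) * g⁻¹) (hρW' : ρ W' = g' * s ^ (ε' * κ') * g'⁻¹)
    (h0 : g • L c = g' • L c') (h1 : g • L (c + ε) = g' • L (c' - ε')) : g⁻¹ * g' ∉ Per := by
  intro hp
  set p := g⁻¹ * g' with hpdef
  have hg' : g' = g * p := by rw [hpdef]; group
  obtain ⟨b, hb⟩ := hL.per p hp
  have hinj := line_injective hL.tree hL.line
  rw [hg', mul_smul, hb] at h0 h1
  have e0 : c = c' + b := hinj (smul_left_cancel _ h0)
  have e1 : c + ε = c' - ε' + b := hinj (smul_left_cancel _ h1)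
  have hεε : ε' = -ε := by omega
  have hcomm : Commute p s := hL.comm p hp
  have hρW'' : ρ W' = g * s ^ (ε' * κ') * g⁻¹ := by
    rw [hρW', hg', mul_inv_rev, ← mul_assoc, mul_assoc g p, (hcomm.zpow_right (ε' * κ')).eq]
    group
  have h2 : ρ (W ^ κ' * W' ^ κ) = 1 := by
    rw [map_mul, map_pow, map_pow, hρW, hρW'', conj_pow, conj_pow, ← zpow_natCast, ← zpow_natCast,
      ← zpow_mul, ← zpow_mul, hεε]
    have : g * s ^ (ε * (κ : ℤ) * (κ' : ℤ)) * g⁻¹ * (g * s ^ (-ε * (κ' : ℤ) * (κ : ℤ)) * g⁻¹) =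
        g * (s ^ (ε * (κ : ℤ) * (κ' : ℤ)) * s ^ (-ε * (κ' : ℤ) * (κ : ℤ))) * g⁻¹ := by group
    rw [this, ← zpow_add]
    have e : ε * (κ : ℤ) * (κ' : ℤ) + -ε * (κ' : ℤ) * (κ : ℤ) = 0 := by ring
    rw [e, zpow_zero, mul_one, mul_inv_cancel]
  have h3 : W ^ κ' * W' ^ κ = 1 := hρ (h2.trans (map_one ρ).symm)
  obtain ⟨χ, hχ, hχ'⟩ := hI i i'
  obtain ⟨γ, rfl⟩ := hW
  obtain ⟨γ', rfl⟩ := hW'
  have h4 := congrArg χ h3
  have hc : ∀ a b : Γ, χ (a * b * a⁻¹) = χ b := by
    intro a b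
    rw [map_mul, map_mul, map_inv, mul_comm (χ a), mul_inv_cancel_right]
  rw [map_mul, map_pow, map_pow, hc, hc, map_one, hχ] at h4
  obtain ⟨b, hb⟩ : ∃ b : ℕ, χ (X i') = Multiplicative.ofAdd (b : ℤ) := by
    by_cases hii : i = i'
    · subst hii
      exact ⟨1, hχ⟩
    · exact ⟨0, hχ' hii⟩
  rw [hb, ← ofAdd_nsmul, ← ofAdd_nsmul, ← ofAdd_add] at h4
  have h5 : κ' • (1 : ℤ) + κ • (b : ℤ) = 0 := Multiplicative.ofAdd.injective h4
  simp only [nsmul_eq_mul, mul_one] at h5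
  have : (0 : ℤ) < κ' := by exact_mod_cast hκ'
  have : (0 : ℤ) ≤ (κ : ℤ) * b := by positivity
  omega

/-- the corners of a face with trivial holonomy have total angle at least two -/
theorem face_weight {L : ℤ → V} {Per : Subgroup G} {s : G} {l : ℕ} (hl : 0 < l)
    {θ : V → V → V → ℝ} (hL : LineAction T L Per s l) (hθ : Angles L Per θ)
    (hρ : Function.Injective ρ)
    (hX : ∀ i, ∃ (g : G) (k : ℤ), k ≠ 0 ∧ ρ (X i) = g * s ^ k * g⁻¹)
    (hI : Indep X) (P : Pic T ρ n X D) (hP : P.Reduced) {d : D} (hd : d ∈ P.S) {M : ℕ} (hM : 0 < M)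
    (h1 : ((P.σ * P.α) ^ M).π d = d) (h2 : ((P.σ * P.α) ^ M).h d = 1) :
    2 ≤ ∑ j ∈ Finset.range M, P.ang θ (((P.σ * P.α) ^ j).π d) := by
  classical
  have hne : NeZero M := ⟨hM.ne'⟩
  have hax : ∀ d, ∃ (a : G) (ε c : ℤ) (κ : ℕ) (γ : Γ), d ∈ P.S → ((ε = 1 ∨ ε = -1) ∧ 0 < κ ∧
      ρ (γ * X (P.vert d) * γ⁻¹) = a * s ^ (ε * κ) * a⁻¹ ∧
      ∀ k, P.path d k = a • L (ε * k + c)) := by
    intro d
    by_cases hd : d ∈ P.S
    · obtain ⟨a, ε, c, κ, γ, h1, h2, -, -, h3, h4⟩ := exists_axis hl hL hX P hP d hd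
      exact ⟨a, ε, c, κ, γ, fun _ => ⟨h1, h2, h3, h4⟩⟩
    · exact ⟨1, 1, 1, 1, 1, fun h => absurd h hd⟩
  choose a ε c κ γ hax using hax
  set Φ := P.σ * P.α with hΦ
  let dd : ℕ → D := fun j => (Φ ^ j).π d
  let hh : ℕ → Γ := fun j => (Φ ^ j).h d
  have hdd : ∀ j, dd j ∈ P.S := fun j => P.face_mem hd j
  let xs : ℕ → V := fun j => ρ (hh j) • P.path (dd j) (-1)
  let gs : ℕ → G := fun j => ρ (hh j) * a (dd j)
  have hperiod : ∀ j, dd (j + M) = dd j ∧ hh (j + M) = hh j := by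
    intro j
    constructor
    · show (Φ ^ (j + M)).π d = (Φ ^ j).π d
      rw [pow_add, HP.mul_π, Perm.mul_apply, h1]
    · show (Φ ^ (j + M)).h d = (Φ ^ j).h d
      rw [pow_add, HP.mul_h, h1, h2, one_mul]
  have hxsp : Function.Periodic xs M := by
    intro j
    show ρ (hh (j + M)) • P.path (dd (j + M)) (-1) = _
    rw [(hperiod j).1, (hperiod j).2]
  have hgsp : Function.Periodic gs M := by
    intro j
    show ρ (hh (j + M)) * a (dd (j + M)) = _
    rw [(hperiod j).1, (hperiod j).2]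
  have hzero : ∀ j, ρ (hh j) • P.path (dd j) 0 = P.path d 0 := fun j => P.face_pow_zero hd j
  have hnext : ∀ j, xs (j + 1) = ρ (hh j) • P.path (dd j) 1 := fun j => P.face_pow_neg hd j
  have hcorner : ∀ j, IsCorner L (gs j) (xs j) (P.path d 0) (xs (j + 1)) := by
    intro j
    obtain ⟨e1, -, -, e4⟩ := hax (dd j) (hdd j)
    refine ⟨c (dd j), ε (dd j), e1, ?_, ?_, ?_⟩
    · show (ρ (hh j) * a (dd j)) • _ = ρ (hh j) • P.path (dd j) (-1)
      rw [mul_smul, e4]
      congr 3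
      ring
    · rw [← hzero j, e4]
      show (ρ (hh j) * a (dd j)) • _ = _
      rw [mul_smul]
      congr 3
      ring
    · rw [hnext j, e4]
      show (ρ (hh j) * a (dd j)) • _ = _
      rw [mul_smul]
      congr 3
      ring
  have hang : ∀ j, θ (xs j) (P.path d 0) (xs (j + 1)) = P.ang θ (dd j) := by
    intro j
    rw [hnext j, ← hzero j]
    exact hθ.inv _ _ _ _
  have hnp : ∀ j, (gs j)⁻¹ * gs (j + 1) ∉ Per := by
    intro j
    obtain ⟨e1, -, e3, e4⟩ := hax (dd j) (hdd j)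
    obtain ⟨f1, f2, f3, f4⟩ := hax (dd (j + 1)) (hdd (j + 1))
    refine not_per hL hρ hI (i := P.vert (dd j)) (i' := P.vert (dd (j + 1)))
      (W := hh j * (γ (dd j) * X (P.vert (dd j)) * (γ (dd j))⁻¹) * (hh j)⁻¹)
      (W' := hh (j + 1) * (γ (dd (j + 1)) * X (P.vert (dd (j + 1))) * (γ (dd (j + 1)))⁻¹) * (hh (j + 1))⁻¹)
      (ε := ε (dd j)) (ε' := ε (dd (j + 1))) (c := c (dd j)) (c' := c (dd (j + 1))) (κ := κ (dd j))
      f2 ⟨hh j * γ (dd j), by group⟩ ⟨hh (j + 1) * γ (dd (j + 1)), by group⟩ ?_ ?_ ?_ ?_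
    · rw [map_mul, map_mul, e3, map_inv]
      show _ = (ρ (hh j) * a (dd j)) * _ * (ρ (hh j) * a (dd j))⁻¹
      group
    · rw [map_mul, map_mul, f3, map_inv]
      show _ = (ρ (hh (j + 1)) * a (dd (j + 1))) * _ * (ρ (hh (j + 1)) * a (dd (j + 1)))⁻¹
      group
    · have g1 := hzero j
      have g2 := hzero (j + 1)
      rw [e4] at g1
      rw [f4] at g2
      show (ρ (hh j) * a (dd j)) • _ = (ρ (hh (j + 1)) * a (dd (j + 1))) • _
      rw [mul_smul, mul_smul]
      have := g1.trans g2.symm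
      simpa only [mul_zero, zero_add] using this
    · have g1 := hnext j
      rw [e4] at g1
      have g2 : xs (j + 1) = ρ (hh (j + 1)) • P.path (dd (j + 1)) (-1) := rfl
      rw [f4] at g2
      show (ρ (hh j) * a (dd j)) • _ = (ρ (hh (j + 1)) * a (dd (j + 1))) • _
      rw [mul_smul, mul_smul]
      have := g1.symm.trans g2
      have q1 : ε (dd j) * 1 + c (dd j) = c (dd j) + ε (dd j) := by ring
      have q2 : ε (dd (j + 1)) * (-1) + c (dd (j + 1)) = c (dd (j + 1)) - ε (dd (j + 1)) := by ring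
      rwa [q1, q2] at this
  -- the cyclic version
  have hval : ∀ z : ZMod M, (z + 1).val = (z.val + 1) % M := by
    intro z
    rw [ZMod.val_add, ZMod.val_one_eq_one_mod, Nat.add_mod_mod]
  have hxz : ∀ z : ZMod M, xs (z + 1).val = xs (z.val + 1) := by
    intro z
    rw [hval, hxsp.map_mod_nat]
  have hgz : ∀ z : ZMod M, gs (z + 1).val = gs (z.val + 1) := by
    intro z
    rw [hval, hgsp.map_mod_nat]
  have key := hθ.cycles M (P.path d 0) (fun z => xs z.val) (fun z => gs z.val)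
    (fun z => by
      show IsCorner L (gs z.val) (xs z.val) _ (xs (z + 1).val)
      rw [hxz]
      exact hcorner _)
    (fun z => by
      show (gs z.val)⁻¹ * gs (z + 1).val ∉ Per
      rw [hgz]
      exact hnp _)
  refine key.trans (le_of_eq ?_)
  rw [← sum_range_zmod M (fun z => θ (xs z.val) (P.path d 0) (xs (z + 1).val))]
  refine Finset.sum_congr rfl fun j hj => ?_
  rw [hxz, ZMod.val_cast_of_lt (Finset.mem_range.mp hj), hang]

/-- Part F3. -/
theorem faces_le {L : ℤ → V} {Per : Subgroup G} {s : G} {l : ℕ} (hl : 0 < l)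
    {θ : V → V → V → ℝ} (hL : LineAction T L Per s l) (hθ : Angles L Per θ)
    (hρ : Function.Injective ρ)
    (hX : ∀ i, ∃ (g : G) (k : ℤ), k ≠ 0 ∧ ρ (X i) = g * s ^ k * g⁻¹)
    (hI : Indep X) (hR : ResFin Γ) (P : Pic T ρ n X D) (hP : P.Reduced) :
    ∑ d ∈ P.S, (1 - P.ang θ d) ≤ 2 * n - 4 := by
  classical
  have hpos : ∀ d, 0 < P.ang θ d := fun d => hθ.pos _ _ _
  obtain ⟨δ, hδ, hδS⟩ : ∃ δ : ℝ, 0 < δ ∧ ∀ d ∈ P.S, δ ≤ P.ang θ d := by
    rcases P.S.eq_empty_or_nonempty with h | h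
    · exact ⟨1, one_pos, fun d hd => by rw [h] at hd; simp at hd⟩
    · obtain ⟨d, hd, hmin⟩ := P.S.exists_min_image (P.ang θ) h
      exact ⟨P.ang θ d, hpos d, hmin⟩
  obtain ⟨J, hJ⟩ := exists_nat_gt (2 / δ)
  have hJ' : 2 ≤ J * δ := by
    rw [div_lt_iff₀ hδ] at hJ
    exact hJ.le
  set Φ := P.σ * P.α with hΦ
  let B : Finset Γ := ((P.S ×ˢ Finset.range J).image fun x => (Φ ^ x.2).h x.1).erase 1
  obtain ⟨H, hHg, hHf, φ, hφ⟩ := hR B (Finset.notMem_erase _ _)
  have := Fintype.ofFinite H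
  let w : D × H → ℝ := fun x => if x.1 ∈ P.S then P.ang θ x.1 else 2
  have hw : ∀ x, 0 ≤ w x := by
    intro x
    simp only [w]
    split_ifs
    · exact (hpos _).le
    · norm_num
  have hcyc := mul_cyc_le (cov φ Φ) w 2 (by
    rintro ⟨d, η⟩
    set M := Function.minimalPeriod (cov φ Φ) (d, η) with hMdef
    have hMpos : 0 < M := by
      apply Function.minimalPeriod_pos_of_mem_periodicPts
      exact Function.Injective.mem_periodicPts (cov φ Φ).injective _
    by_cases hd : d ∈ P.S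
    · have hwj : ∀ j, w ((cov φ Φ)^[j] (d, η)) = P.ang θ ((Φ ^ j).π d) := by
        intro j
        rw [cov_iterate]
        simp only [w]
        rw [if_pos (P.face_mem hd j)]
      rw [Finset.sum_congr rfl (fun j _ => hwj j)]
      rcases lt_or_ge M J with hMJ | hMJ
      · have hper : (cov φ Φ)^[M] (d, η) = (d, η) := Function.iterate_minimalPeriod
        rw [cov_iterate, Prod.mk.injEq] at hper
        have hφ1 : φ ((Φ ^ M).h d) = 1 := by
          have := hper.2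
          exact mul_eq_left.mp this
        have h2 : (Φ ^ M).h d = 1 := by
          by_contra hne
          refine hφ ((Φ ^ M).h d) ?_ hφ1
          refine Finset.mem_erase.mpr ⟨hne, Finset.mem_image.mpr ⟨(d, M), ?_, rfl⟩⟩
          exact Finset.mem_product.mpr ⟨hd, Finset.mem_range.mpr hMJ⟩
        exact face_weight hl hL hθ hρ hX hI P hP hd hMpos hper.1 h2
      · calc (2 : ℝ) ≤ J * δ := hJ'
          _ ≤ M * δ := by
            apply mul_le_mul_of_nonneg_right _ hδ.le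
            exact_mod_cast hMJ
          _ = ∑ j ∈ Finset.range M, δ := by
            rw [Finset.sum_const, Finset.card_range, nsmul_eq_mul]
          _ ≤ _ := Finset.sum_le_sum fun j _ => hδS _ (P.face_mem hd j)
    · have h0 : w ((cov φ Φ)^[0] (d, η)) = 2 := by
        simp only [w, Function.iterate_zero, id]
        rw [if_neg hd]
      rw [← h0]
      exact Finset.single_le_sum (f := fun j => w ((cov φ Φ)^[j] (d, η))) (fun j _ => hw _)
        (Finset.mem_range.mpr hMpos))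
  have heul := P.euler H φ
  have hsum : ∑ x : D × H, w x = Fintype.card H * (∑ d ∈ P.S, P.ang θ d + 2 * (Fintype.card D - P.S.card)) := by
    rw [Fintype.sum_prod_type]
    have : ∀ d : D, ∑ η : H, w (d, η) = Fintype.card H * (if d ∈ P.S then P.ang θ d else 2) := by
      intro d
      simp only [w]
      rw [Finset.sum_const, Finset.card_univ, nsmul_eq_mul]
    rw [Finset.sum_congr rfl (fun d _ => this d), ← Finset.mul_sum, Finset.sum_ite]
    congr 1
    rw [Finset.sum_const, nsmul_eq_mul]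
    congr 1
    · apply Finset.sum_congr _ (fun _ _ => rfl)
      ext d
      simp
    · have h3 : (Finset.univ.filter fun d => d ∉ P.S) = Finset.univ \ P.S := by
        ext d
        simp
      rw [h3, Finset.card_sdiff_of_subset (Finset.subset_univ _), Finset.card_univ, Nat.cast_sub (Finset.card_le_univ _)]
      ring
  rw [hsum] at hcyc
  have hH : (0 : ℝ) < Fintype.card H := by exact_mod_cast Fintype.card_pos
  have heul' : (Fintype.card H : ℝ) * (2 * Fintype.card D + 4) ≤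
      2 * cyc (cov φ Φ) + Fintype.card H * (2 * n + P.S.card) := by
    rw [Nat.card_eq_fintype_card] at heul
    exact_mod_cast heul
  have h4 : (Fintype.card H : ℝ) * (2 * Fintype.card D + 4) ≤
      Fintype.card H * ((∑ d ∈ P.S, P.ang θ d + 2 * (Fintype.card D - P.S.card)) + (2 * n + P.S.card)) := by
    rw [mul_add (Fintype.card H : ℝ) (∑ d ∈ P.S, P.ang θ d + 2 * (Fintype.card D - P.S.card))]
    linarith
  have h5 := le_of_mul_le_mul_left h4 hH
  rw [Finset.sum_sub_distrib, Finset.sum_const, nsmul_eq_mul, mul_one]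
  linarith

theorem reduced_bound (hn : 2 ≤ n) {L : ℤ → V} {Per : Subgroup G} {s : G} {l : ℕ} (hl : 0 < l)
    {θ : V → V → V → ℝ} (hL : LineAction T L Per s l) (hθ : Angles L Per θ)
    (hρ : Function.Injective ρ)
    (hX : ∀ i, ∃ (g : G) (k : ℤ), k ≠ 0 ∧ ρ (X i) = g * s ^ k * g⁻¹)
    (hI : Indep X) (hR : ResFin Γ) (P : Pic T ρ n X D) (hP : P.Reduced) :
    n * defect L θ l ≤ 2 * n - 4 := by
  have hn' : (2 : ℝ) ≤ n := by exact_mod_cast hn
  rcases le_or_gt 0 (defect L θ l) with h0 | h0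
  · exact (defect_le hl hL hθ hX hI P hP h0).trans (faces_le hl hL hθ hρ hX hI hR P hP)
  · have : (n : ℝ) * defect L θ l ≤ 0 := mul_nonpos_of_nonneg_of_nonpos (by linarith) h0.le
    linarith

end

end Pool.Agent.WTT
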