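import Pool.Agent.WTT.Main

/-! The final form for all non-meridional slopes. -/

namespace Pool.Agent.WTT

theorem defect_mul {G V : Type*} [Group G] [MulAction G V] {L : ℤ → V} {Per : Subgroup G}
    {θ : V → V → V → ℝ} (hθ : Angles L Per θ) {lam : G} {q : ℕ}
    (h : ∀ k, lam • L k = L (k + q)) (κ : ℕ) : defect L θ (κ * q) = κ * defect L θ q := by
  have hτ : ∀ k : ℤ, (fun k : ℤ => 1 - θ (L (k - 1)) (L k) (L (k + 1))) (k + q) =
      (fun k : ℤ => 1 - θ (L (k - 1)) (L k) (L (k + 1))) k := by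
    intro k
    show 1 - θ (L (k + q - 1)) (L (k + q)) (L (k + q + 1)) = 1 - θ (L (k - 1)) (L k) (L (k + 1))
    rw [← hθ.inv lam (L (k - 1)), h, h, h,
      show k - 1 + (q : ℤ) = k + q - 1 by ring, show k + 1 + (q : ℤ) = k + q + 1 by ring]
  have := sum_period (fun k : ℤ => 1 - θ (L (k - 1)) (L k) (L (k + 1))) q hτ 1 0 (Or.inl rfl) κ
  simpa [defect] using this

theorem final_pos {G V : Type*} [Group G] [MulAction G V] {T : SimpleGraph V}
    {L : ℤ → V} {μ lam : G} {q : ℕ} {θ : V → V → V → ℝ}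
    (hK : SurfaceTree T L μ lam q) (hθ : Angles L (Subgroup.closure {μ, lam}) θ)
    (a b : ℤ) (hb : b ≠ 0) (m : ℕ) (hm : 2 ≤ m) (ρ : FreeGroup (Fin m) →* G)
    (hρ : PlanarMap (μ ^ a * lam ^ b) m ρ) :
    ((m : ℝ) + 1) * (|(b : ℝ)| * defect L θ q) ≤ 2 * (m - 1) := by
  have hμz : ∀ (n : ℤ) (k : ℤ), μ ^ n • L k = L k := by
    intro n
    induction n using Int.induction_on with
    | zero => intro k; simp
    | succ n ih => intro k; rw [zpow_add_one, mul_smul, hK.fix, ih]
    | pred n ih =>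
      intro k
      rw [zpow_sub_one, mul_smul, show μ⁻¹ • L k = L k by rw [inv_smul_eq_iff, hK.fix], ih]
  have hlz : ∀ (n : ℤ) (k : ℤ), lam ^ n • L k = L (k + n * q) := by
    intro n
    induction n using Int.induction_on with
    | zero => intro k; simp
    | succ n ih =>
      intro k
      rw [zpow_add_one, mul_smul, hK.trans, ih]
      congr 1; ring
    | pred n ih =>
      intro k
      rw [zpow_sub_one, mul_smul, show lam⁻¹ • L k = L (k - q) by
        rw [inv_smul_eq_iff, hK.trans]; congr 1; ring, ih]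
      congr 1; ring
  have hcm : ∀ p ∈ Subgroup.closure {μ, lam}, Commute p μ ∧ Commute p lam := by
    intro p hp
    induction hp using Subgroup.closure_induction with
    | mem x hx =>
      rcases hx with rfl | rfl
      · exact ⟨Commute.refl _, hK.comm⟩
      · exact ⟨hK.comm.symm, Commute.refl _⟩
    | one => exact ⟨Commute.one_left _, Commute.one_left _⟩
    | mul x y _ _ hx hy => exact ⟨hx.1.mul_left hy.1, hx.2.mul_left hy.2⟩
    | inv x _ hx => exact ⟨hx.1.inv_left, hx.2.inv_left⟩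
  have hper : ∀ p ∈ Subgroup.closure {μ, lam}, ∃ c : ℤ, ∀ k, p • L k = L (k + c) := by
    intro p hp
    induction hp using Subgroup.closure_induction with
    | mem x hx =>
      rcases hx with rfl | rfl
      · exact ⟨0, fun k => by rw [hK.fix, add_zero]⟩
      · exact ⟨q, hK.trans⟩
    | one => exact ⟨0, fun k => by simp⟩
    | mul x y _ _ hx hy =>
      obtain ⟨c, hc⟩ := hx
      obtain ⟨d, hd⟩ := hy
      exact ⟨d + c, fun k => by rw [mul_smul, hd, hc, add_assoc]⟩
    | inv x _ hx =>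
      obtain ⟨c, hc⟩ := hx
      exact ⟨-c, fun k => by rw [inv_smul_eq_iff, hc]; congr 1; ring⟩
  -- the sign of the slope
  obtain ⟨ε, hε, hεb⟩ : ∃ ε : ℤ, (ε = 1 ∨ ε = -1) ∧ ε * b = b.natAbs := by
    rcases lt_or_gt_of_ne hb with h | h
    · exact ⟨-1, Or.inr rfl, by omega⟩
    · exact ⟨1, Or.inl rfl, by omega⟩
  have hεε : ε * ε = 1 := by rcases hε with rfl | rfl <;> norm_num
  have hcom : Commute (μ ^ a) (lam ^ b) := (hK.comm.zpow_zpow a b)
  have hs : (μ ^ a * lam ^ b) ^ ε = μ ^ (ε * a) * lam ^ (ε * b) := by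
    rw [hcom.mul_zpow, ← zpow_mul, ← zpow_mul, mul_comm a, mul_comm b]
  set s := (μ ^ a * lam ^ b) ^ ε with hsdef
  have hss : μ ^ a * lam ^ b = s ^ ε := by
    rw [hsdef, ← zpow_mul, hεε, zpow_one]
  have hL : LineAction T L (Subgroup.closure {μ, lam}) s (b.natAbs * q) := by
    refine ⟨hK.tree, hK.act, hK.line, hper, fun p hp => ?_, fun k => ?_⟩
    · have h1 := hcm p hp
      rw [hs]
      exact ((h1.1.zpow_right _).mul_right (h1.2.zpow_right _)).eq
    · rw [hs, mul_smul, hlz, hμz, hεb]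
      push_cast
      rfl
  have hρ' : PlanarMap s m ρ := by
    refine ⟨hρ.inj, fun i => ?_, ?_⟩
    · obtain ⟨g, k, hk, e⟩ := hρ.petal i
      refine ⟨g, ε * k, mul_ne_zero (by rcases hε with rfl | rfl <;> norm_num) hk, ?_⟩
      rw [e, hss, ← zpow_mul]
    · obtain ⟨g, k, hk, e⟩ := hρ.last
      refine ⟨g, ε * k, mul_ne_zero (by rcases hε with rfl | rfl <;> norm_num) hk, ?_⟩
      rw [e, hss, ← zpow_mul]
  have h1 := planarMap_bound hL hθ hm ρ hρ'
  rw [defect_mul hθ hK.trans] at h1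
  have h2 : (b.natAbs : ℝ) = |(b : ℝ)| := by
    rw [Nat.cast_natAbs, Int.cast_abs]
  rw [h2] at h1
  exact h1

theorem final {G V : Type*} [Group G] [MulAction G V] {T : SimpleGraph V}
    {L : ℤ → V} {μ lam : G} {q : ℕ} {θ : V → V → V → ℝ}
    (hK : SurfaceTree T L μ lam q) (hθ : AngleSystem L (Subgroup.closure {μ, lam}) θ)
    (a b : ℤ) (hb : b ≠ 0) (m : ℕ) (hm : 2 ≤ m) (ρ : FreeGroup (Fin m) →* G)
    (hρ : PlanarMap (μ ^ a * lam ^ b) m ρ) :
    ((m : ℝ) + 1) * (|(b : ℝ)| * defect L θ q) ≤ 2 * (m - 1) := by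
  have key : ∀ δ : ℝ, 0 < δ →
      ((m : ℝ) + 1) * (|(b : ℝ)| * (defect L θ q - q * δ)) ≤ 2 * (m - 1) := by
    intro δ hδ
    have hθ' : Angles L (Subgroup.closure {μ, lam}) (fun x v y => θ x v y + δ) := by
      refine ⟨fun x v y => ?_, fun g x v y => ?_, fun x v y => ?_, ?_⟩
      · have := hθ.nonneg x v y
        linarith
      · simp only [hθ.inv]
      · show θ x v y + δ = θ y v x + δ
        rw [hθ.symm]
      · intro r _ v x g h1 h2
        have h3 := hθ.cycles r v x g ⟨h1, h2⟩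
        refine h3.trans (Finset.sum_le_sum fun j _ => ?_)
        linarith
    have h1 := final_pos hK hθ' a b hb m hm ρ hρ
    have h2 : defect L (fun x v y => θ x v y + δ) q = defect L θ q - q * δ := by
      simp only [defect]
      rw [eq_sub_iff_add_eq, ← nsmul_eq_mul, ← Finset.card_range q, ← Finset.sum_const,
        Finset.card_range, ← Finset.sum_add_distrib]
      exact Finset.sum_congr rfl fun k _ => by ring
    rwa [h2] at h1
  refine le_of_forall_pos_le_add fun δ hδ => ?_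
  set C : ℝ := ((m : ℝ) + 1) * (|(b : ℝ)| * q) + 1 with hC
  have hC0 : 0 < C := by positivity
  have h1 := key (δ / C) (by positivity)
  have h2 : ((m : ℝ) + 1) * (|(b : ℝ)| * q) * (δ / C) ≤ δ := by
    have h3 : ((m : ℝ) + 1) * (|(b : ℝ)| * q) * (δ / C) ≤ C * (δ / C) :=
      mul_le_mul_of_nonneg_right (by linarith) (by positivity)
    rwa [mul_div_cancel₀ δ hC0.ne'] at h3
  nlinarith

end Pool.Agent.WTT
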