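import Pool.Agent.WTT.Final

/-! The angle system given by the girths of the corners. -/

namespace Pool.Agent.WTT

variable {G V : Type*} [Group G] [MulAction G V]

/-- There is a reduced cycle of `r` corners through the corner `(x, v, y)`. -/
def Through (L : ℤ → V) (Per : Subgroup G) (x v y : V) (r : ℕ) : Prop :=
  ∃ (_ : NeZero r) (z : ZMod r → V) (g : ZMod r → G), CornerCycle L Per r v z g ∧ z 0 = x ∧ z 1 = y

theorem IsCorner.smul {L : ℤ → V} {g : G} {x v y : V} (h : IsCorner L g x v y) (c : G) :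
    IsCorner L (c * g) (c • x) (c • v) (c • y) := by
  obtain ⟨k, ε, hε, h1, h2, h3⟩ := h
  exact ⟨k, ε, hε, by rw [mul_smul, h1], by rw [mul_smul, h2], by rw [mul_smul, h3]⟩

theorem IsCorner.swap {L : ℤ → V} {g : G} {x v y : V} (h : IsCorner L g x v y) :
    IsCorner L g y v x := by
  obtain ⟨k, ε, hε, h1, h2, h3⟩ := h
  refine ⟨k, -ε, ?_, ?_, h2, ?_⟩
  · rcases hε with rfl | rfl
    · exact Or.inr rfl
    · exact Or.inl (neg_neg 1)
  · rw [sub_neg_eq_add, h3]
  · rw [← sub_eq_add_neg, h1]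

theorem Through.smul {L : ℤ → V} {Per : Subgroup G} {x v y : V} {r : ℕ}
    (h : Through L Per x v y r) (c : G) : Through L Per (c • x) (c • v) (c • y) r := by
  obtain ⟨hr, z, g, hz, h0, h1⟩ := h
  refine ⟨hr, fun j => c • z j, fun j => c * g j, ⟨fun j => (hz.corner j).smul c, fun j => ?_⟩,
    congrArg (c • ·) h0, congrArg (c • ·) h1⟩
  have := hz.reduced j
  rwa [mul_inv_rev, mul_assoc, inv_mul_cancel_left]

theorem Through.swap {L : ℤ → V} {Per : Subgroup G} {x v y : V} {r : ℕ}
    (h : Through L Per x v y r) : Through L Per y v x r := by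
  obtain ⟨hr, z, g, hz, h0, h1⟩ := h
  refine ⟨hr, fun j => z (1 - j), fun j => g (-j), ⟨fun j => ?_, fun j => ?_⟩, ?_, ?_⟩
  · have h2 := (hz.corner (-j)).swap
    have e1 : -j + 1 = 1 - j := by ring
    have e2 : 1 - (j + 1) = -j := by ring
    show IsCorner L (g (-j)) (z (1 - j)) v (z (1 - (j + 1)))
    rw [e2, ← e1]
    exact h2
  · have h2 := hz.reduced (-(j + 1))
    rw [show -(j + 1) + 1 = -j by ring] at h2
    intro h3
    apply h2
    have h4 := Per.inv_mem h3
    rwa [mul_inv_rev, inv_inv] at h4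
  · show z (1 - 0) = y
    rw [sub_zero, h1]
  · show z (1 - 1) = x
    rw [sub_self, h0]

theorem CornerCycle.through {L : ℤ → V} {Per : Subgroup G} {r : ℕ} [hr : NeZero r] {v : V}
    {x : ZMod r → V} {g : ZMod r → G} (h : CornerCycle L Per r v x g) (j : ZMod r) :
    Through L Per (x j) v (x (j + 1)) r := by
  refine ⟨hr, fun i => x (j + i), fun i => g (j + i), ⟨fun i => ?_, fun i => ?_⟩, ?_, rfl⟩
  · have := h.corner (j + i)
    rwa [add_assoc] at this
  · have := h.reduced (j + i)
    rwa [add_assoc] at this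
  · show x (j + 0) = x j
    rw [add_zero]

/-- The angle `2 / r`, `r` the shortest length of a reduced cycle through the corner. -/
noncomputable def girthAngle (L : ℤ → V) (Per : Subgroup G) (x v y : V) : ℝ :=
  2 / ((sInf {r | Through L Per x v y r} : ℕ) : ℝ)

theorem girthAngle_system (L : ℤ → V) (Per : Subgroup G) :
    AngleSystem L Per (girthAngle L Per) := by
  refine ⟨fun x v y => by unfold girthAngle; positivity, fun g x v y => ?_, fun x v y => ?_, ?_⟩
  · have h : {r | Through L Per (g • x) (g • v) (g • y) r} = {r | Through L Per x v y r} := by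
      ext r
      refine ⟨fun h => ?_, fun h => h.smul g⟩
      have h2 := Through.smul h g⁻¹
      rw [inv_smul_smul, inv_smul_smul, inv_smul_smul] at h2
      exact h2
    rw [girthAngle, h, girthAngle]
  · have h : {r | Through L Per x v y r} = {r | Through L Per y v x r} := by
      ext r
      exact ⟨fun h => Through.swap h, fun h => Through.swap h⟩
    rw [girthAngle, h, girthAngle]
  · intro r _ v x g h
    have hr : (0 : ℝ) < r := by exact_mod_cast Nat.pos_of_neZero r
    have h1 : ∀ j, 2 / (r : ℝ) ≤ girthAngle L Per (x j) v (x (j + 1)) := by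
      intro j
      have hj : r ∈ {r | Through L Per (x j) v (x (j + 1)) r} := h.through j
      have h2 : sInf {r | Through L Per (x j) v (x (j + 1)) r} ≤ r := Nat.sInf_le hj
      have h3 : Through L Per (x j) v (x (j + 1))
          (sInf {r | Through L Per (x j) v (x (j + 1)) r}) := Nat.sInf_mem ⟨r, hj⟩
      obtain ⟨h4, _⟩ := h3
      have h5 : 0 < sInf {r | Through L Per (x j) v (x (j + 1)) r} := Nat.pos_of_neZero _
      exact div_le_div_of_nonneg_left (by norm_num) (by exact_mod_cast h5) (by exact_mod_cast h2)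
    calc (2 : ℝ) = ∑ _j : ZMod r, 2 / (r : ℝ) := by
          rw [Finset.sum_const, Finset.card_univ, ZMod.card, nsmul_eq_mul, mul_div_cancel₀ 2 hr.ne']
      _ ≤ _ := Finset.sum_le_sum fun j _ => h1 j

/-- The girth form. -/
theorem girth_bound {T : SimpleGraph V} {L : ℤ → V} {μ lam : G} {q : ℕ}
    (hK : SurfaceTree T L μ lam q) {τ : ℤ → ℝ} (hτ : ∀ k, 0 ≤ τ k)
    (hcyc : ∀ (k : ℤ) (r : ℕ) [NeZero r] (x : ZMod r → V) (g : ZMod r → G),
      CornerCycle L (Subgroup.closure {μ, lam}) r (L k) x g → x 0 = L (k - 1) →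
      x 1 = L (k + 1) → 2 ≤ r * τ k)
    (a b : ℤ) (hb : b ≠ 0) (m : ℕ) (hm : 2 ≤ m) (ρ : FreeGroup (Fin m) →* G)
    (hρ : PlanarMap (μ ^ a * lam ^ b) m ρ) :
    ((m : ℝ) + 1) * (|(b : ℝ)| * ∑ k ∈ Finset.range q, (1 - τ k)) ≤ 2 * (m - 1) := by
  refine le_trans ?_ (final hK (girthAngle_system L _) a b hb m hm ρ hρ)
  refine mul_le_mul_of_nonneg_left ?_ (by positivity)
  refine mul_le_mul_of_nonneg_left ?_ (abs_nonneg _)
  refine Finset.sum_le_sum fun k _ => ?_
  have h : girthAngle L (Subgroup.closure {μ, lam}) (L (k - 1)) (L k) (L (k + 1)) ≤ τ k := by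
    by_cases hne : ∃ r, Through L (Subgroup.closure {μ, lam}) (L (k - 1)) (L k) (L (k + 1)) r
    · have h1 : Through L (Subgroup.closure {μ, lam}) (L (k - 1)) (L k) (L (k + 1))
          (sInf {r | Through L (Subgroup.closure {μ, lam}) (L (k - 1)) (L k) (L (k + 1)) r}) :=
        Nat.sInf_mem hne
      rw [girthAngle]
      generalize (sInf {r | Through L (Subgroup.closure {μ, lam}) (L (k - 1)) (L k)
        (L (k + 1)) r}) = r at h1 ⊢
      obtain ⟨h2, x, g, h3, h4, h5⟩ := h1
      have h6 := hcyc k r x g h3 h4 h5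
      have h7 : (0 : ℝ) < r := by exact_mod_cast Nat.pos_of_neZero r
      rw [div_le_iff₀ h7, mul_comm]
      exact h6
    · have h1 : {r | Through L (Subgroup.closure {μ, lam}) (L (k - 1)) (L k) (L (k + 1)) r} = ∅ := by
        ext r
        exact ⟨fun h => hne ⟨r, h⟩, fun h => h.elim⟩
      rw [girthAngle, h1, Nat.sInf_empty, Nat.cast_zero, div_zero]
      exact hτ k
  linarith

/-- There is no reduced cycle of one corner. -/
theorem CornerCycle.two_le {T : SimpleGraph V} {L : ℤ → V} (hL : IsLine T L) {Per : Subgroup G}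
    {r : ℕ} [NeZero r] {k : ℤ} {x : ZMod r → V} {g : ZMod r → G}
    (_h : CornerCycle L Per r (L k) x g) (h0 : x 0 = L (k - 1)) (h1 : x 1 = L (k + 1)) :
    2 ≤ r := by
  by_contra hr
  have hr1 : r = 1 := by
    have := Nat.pos_of_neZero r
    omega
  subst hr1
  apply hL.reduced k
  rw [← h0, ← h1, Subsingleton.elim (0 : ZMod 1) 1]

/-- A reduced cycle through an isolated corner has at least three corners. -/
theorem CornerCycle.three_le {T : SimpleGraph V} {L : ℤ → V} (hL : IsLine T L) {Per : Subgroup G}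
    {r : ℕ} [NeZero r] {k : ℤ} {x : ZMod r → V} {g : ZMod r → G}
    (h : CornerCycle L Per r (L k) x g) (h0 : x 0 = L (k - 1)) (h1 : x 1 = L (k + 1))
    (hk : Isolated L Per k) : 3 ≤ r := by
  have h2 := h.two_le hL h0 h1
  by_contra hr
  have hr1 : r = 2 := by omega
  subst hr1
  have c0 := h.corner 0
  have c1 := (h.corner 1).swap
  have e : (1 : ZMod 2) + 1 = 0 := by decide
  rw [zero_add, h0, h1] at c0
  rw [e, h0, h1] at c1
  have h3 := h.reduced 0
  rw [zero_add] at h3
  exact h3 (Per.mul_mem (Per.inv_mem (hk _ c0)) (hk _ c1))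

open Classical in
/-- The isolated corners. -/
theorem isolated_bound {T : SimpleGraph V} {L : ℤ → V} {μ lam : G} {q : ℕ}
    (hK : SurfaceTree T L μ lam q)
    (a b : ℤ) (hb : b ≠ 0) (m : ℕ) (hm : 2 ≤ m) (ρ : FreeGroup (Fin m) →* G)
    (hρ : PlanarMap (μ ^ a * lam ^ b) m ρ) (S : Finset ℕ) (hS : S ⊆ Finset.range q)
    (hI : ∀ k ∈ S, Isolated L (Subgroup.closure {μ, lam}) k) :
    ((m : ℝ) + 1) * (|(b : ℝ)| * S.card) ≤ 6 * (m - 1) := by
  set τ : ℤ → ℝ := fun k => if Isolated L (Subgroup.closure {μ, lam}) k then 2 / 3 else 1 with hτd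
  have h1 := girth_bound hK (τ := τ) (fun k => by
    simp only [hτd]
    split_ifs <;> norm_num) (fun k r _ x g h h0 h1 => by
    simp only [hτd]
    split_ifs with hk
    · have : (3 : ℝ) ≤ r := by exact_mod_cast h.three_le hK.line h0 h1 hk
      linarith
    · have : (2 : ℝ) ≤ r := by exact_mod_cast h.two_le hK.line h0 h1
      linarith) a b hb m hm ρ hρ
  have h2 : (S.card : ℝ) / 3 ≤ ∑ k ∈ Finset.range q, (1 - τ k) := by
    have h3 : ∑ k ∈ S, (1 - τ k) ≤ ∑ k ∈ Finset.range q, (1 - τ k) := by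
      refine Finset.sum_le_sum_of_subset_of_nonneg hS fun k _ _ => ?_
      simp only [hτd]
      split_ifs <;> norm_num
    have h4 : ∑ k ∈ S, (1 - τ k) = ∑ _k ∈ S, (1 / 3 : ℝ) := by
      refine Finset.sum_congr rfl fun k hk => ?_
      simp only [hτd]
      rw [if_pos (hI k hk)]
      norm_num
    rw [h4, Finset.sum_const, nsmul_eq_mul] at h3
    linarith
  have h5 : ((m : ℝ) + 1) * (|(b : ℝ)| * (S.card / 3)) ≤ 2 * (m - 1) :=
    le_trans (mul_le_mul_of_nonneg_left (mul_le_mul_of_nonneg_left h2 (abs_nonneg _))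
      (by positivity)) h1
  have h6 : ((m : ℝ) + 1) * (|(b : ℝ)| * S.card) = 3 * (((m : ℝ) + 1) * (|(b : ℝ)| * (S.card / 3)))
      := by ring
  rw [h6]
  linarith

end Pool.Agent.WTT
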