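import Mathlib

/-!
Algebra of an HNN extension needed for Seifert surfaces: the stable letter commutes with a fixed
element of the associated subgroup, the exponent sum, and commutators.
-/

set_option autoImplicit false

namespace Pool.Agent.WTT

open HNNExtension

section

variable {M : Type*} [Group M] {A B : Subgroup M} (φ : A ≃* B)

/-- The stable letter commutes with an element of `A` which is fixed by `φ`. -/
theorem commute_t_of (c : A) (hc : (φ c : M) = c) :
    Commute (t : HNNExtension M A B φ) (of (c : M)) := by
  have h := t_mul_of (G := M) (A := A) (B := B) (φ := φ) c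
  rw [hc] at h
  exact h

/-- The exponent sum of the stable letter. -/
def expSum : HNNExtension M A B φ →* Multiplicative ℤ :=
  HNNExtension.lift 1 (Multiplicative.ofAdd 1) (by intro a; simp)

@[simp] theorem expSum_t : expSum φ t = Multiplicative.ofAdd 1 := by
  simp [expSum]

@[simp] theorem expSum_of (m : M) : expSum φ (of m) = 1 := by
  simp [expSum]

/-- The class of the stable letter has infinite order in the abelianisation. -/
theorem orderOf_ab_t : orderOf (Abelianization.of (t : HNNExtension M A B φ)) = 0 := by
  rw [orderOf_eq_zero_iff']
  intro n hn h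
  have h2 := congrArg (Abelianization.lift (expSum φ)) h
  rw [map_pow, map_one, Abelianization.lift_apply_of, expSum_t, ← ofAdd_nsmul] at h2
  have h3 : (n • (1 : ℤ)) = 0 := h2
  simp at h3
  omega

/-- Commutators of `M` are commutators of the HNN extension. -/
theorem of_mem_commutator {c : M} (hc : c ∈ commutator M) :
    (of c : HNNExtension M A B φ) ∈ commutator (HNNExtension M A B φ) := by
  have h : Abelianization.of (of c : HNNExtension M A B φ) = 1 :=
    MonoidHom.mem_ker.1 (Abelianization.commutator_subset_ker
      ((Abelianization.of : HNNExtension M A B φ →* _).comp of) hc)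
  rwa [← MonoidHom.mem_ker, Abelianization.ker_of] at h

/-- If the abelianisation is generated by the stable letter then `M` lies in the commutator
subgroup. -/
theorem of_mem_commutator_of_gen
    (hgen : ∀ x : Abelianization (HNNExtension M A B φ),
      x ∈ Subgroup.zpowers (Abelianization.of (t : HNNExtension M A B φ))) (m : M) :
    (of m : HNNExtension M A B φ) ∈ commutator (HNNExtension M A B φ) := by
  obtain ⟨n, hn⟩ := Subgroup.mem_zpowers_iff.1 (hgen (Abelianization.of (of m)))
  have h2 := congrArg (Abelianization.lift (expSum φ)) hn
  rw [map_zpow, Abelianization.lift_apply_of, Abelianization.lift_apply_of, expSum_t, expSum_of,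
    ← ofAdd_zsmul] at h2
  have h3 : (n • (1 : ℤ)) = 0 := h2
  have h4 : n = 0 := by simpa using h3
  rw [h4, zpow_zero] at hn
  rw [← Abelianization.ker_of, MonoidHom.mem_ker]
  exact hn.symm

/-- The commutator subgroup is the kernel of the exponent sum. -/
theorem ker_expSum_le
    (hgen : ∀ x : Abelianization (HNNExtension M A B φ),
      x ∈ Subgroup.zpowers (Abelianization.of (t : HNNExtension M A B φ))) :
    (expSum φ).ker ≤ commutator (HNNExtension M A B φ) := by
  intro g hg
  obtain ⟨n, hn⟩ := Subgroup.mem_zpowers_iff.1 (hgen (Abelianization.of g))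
  have h2 := congrArg (Abelianization.lift (expSum φ)) hn
  rw [map_zpow, Abelianization.lift_apply_of, Abelianization.lift_apply_of, expSum_t,
    MonoidHom.mem_ker.1 hg, ← ofAdd_zsmul] at h2
  have h3 : (n • (1 : ℤ)) = 0 := h2
  have h4 : n = 0 := by simpa using h3
  rw [h4, zpow_zero] at hn
  rw [← Abelianization.ker_of, MonoidHom.mem_ker]
  exact hn.symm

/-- A commutator of `M` is a commutator of every subgroup which contains the commutator subgroup. -/
theorem of_mem_commutator_sub
    (hgen : ∀ x : Abelianization (HNNExtension M A B φ),
      x ∈ Subgroup.zpowers (Abelianization.of (t : HNNExtension M A B φ)))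
    {c : M} (hc : c ∈ commutator M) (N : Subgroup (HNNExtension M A B φ))
    (hN : commutator (HNNExtension M A B φ) ≤ N) (h : (of c : HNNExtension M A B φ) ∈ N) :
    (⟨of c, h⟩ : N) ∈ commutator N := by
  have h1 : Abelianization.of (⟨of c, h⟩ : N) = 1 :=
    MonoidHom.mem_ker.1 (Abelianization.commutator_subset_ker
      ((Abelianization.of : N →* _).comp
        ((of : M →* HNNExtension M A B φ).codRestrict N
          (fun m => hN (of_mem_commutator_of_gen φ hgen m)))) hc)
  rwa [← MonoidHom.mem_ker, Abelianization.ker_of] at h1

end

/-- A normal subgroup of prime index contains the commutator subgroup. -/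
theorem commutator_le_of_prime_index {G : Type*} [Group G] (N : Subgroup G) [N.Normal] {p : ℕ}
    (hp : p.Prime) (h : N.index = p) : commutator G ≤ N := by
  have : Fact p.Prime := ⟨hp⟩
  have hc : Nat.card (G ⧸ N) = p := h
  have : IsCyclic (G ⧸ N) := isCyclic_of_prime_card hc
  let _ : CommGroup (G ⧸ N) := IsCyclic.commGroup
  have := Abelianization.commutator_subset_ker (QuotientGroup.mk' N)
  rwa [QuotientGroup.ker_mk'] at this

end Pool.Agent.WTT
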