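import Pool.Agent.WTT.Statement

/-! The Bass-Serre tree of an HNN extension. -/

namespace Pool.Agent.WTT

open HNNExtension HNNExtension.NormalWord

variable {M : Type*} [Group M] {A B : Subgroup M} (φ : A ≃* B)

/-- The vertices of the Bass-Serre tree: the cosets of `M`. -/
abbrev HV : Type _ := HNNExtension M A B φ ⧸ (of (φ := φ)).range

/-- The Bass-Serre tree: the neighbours of `g M` are the `g m t M` and the `g m t⁻¹ M`, `m` in
`M`. -/
def hTree : SimpleGraph (HV φ) :=
  SimpleGraph.fromRel fun u v => ∃ g : HNNExtension M A B φ, QuotientGroup.mk g = u ∧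
    QuotientGroup.mk (g * t) = v

/-- The axis of `t`. -/
def hLine (k : ℤ) : HV φ := QuotientGroup.mk ((t : HNNExtension M A B φ) ^ k)

/-- The chain condition of length `f`. -/
def ChainCyclic (c : M) (f : ℕ) : Prop :=
  ∀ x : ℕ → M, (∀ k ≤ f, ∃ h : x k ∈ A, (φ ⟨x k, h⟩ : M) = x (k + 1)) →
    x 0 ∈ Subgroup.zpowers c

/-- The vertex `g M`. -/
abbrev vt (g : HNNExtension M A B φ) : HV φ := QuotientGroup.mk g

/-- The exponent sum of `t`. -/
noncomputable def hexpo : HNNExtension M A B φ →* Multiplicative ℤ :=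
  HNNExtension.lift 1 (Multiplicative.ofAdd 1) (by simp)

@[simp] theorem hexpo_of (m : M) : hexpo φ (of m) = 1 := by simp [hexpo]

@[simp] theorem hexpo_t : hexpo φ t = Multiplicative.ofAdd 1 := by simp [hexpo]

variable {φ}

theorem vt_mul_of (g : HNNExtension M A B φ) (m : M) : vt φ (g * of m) = vt φ g := by
  rw [vt, vt, QuotientGroup.eq]
  exact ⟨m⁻¹, by simp⟩

theorem vt_eq {g h : HNNExtension M A B φ} (e : vt φ g = vt φ h) :
    ∃ m : M, h = g * of m := by
  rw [vt, vt, QuotientGroup.eq] at e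
  obtain ⟨m, hm⟩ := e
  exact ⟨m, by rw [hm, mul_inv_cancel_left]⟩

variable (φ)

/-- The height of a vertex. -/
noncomputable def ht : HV φ → ℤ :=
  Quotient.lift (fun g => Multiplicative.toAdd (hexpo φ g)) (by
    intro g h e
    have e' : vt φ g = vt φ h := Quotient.sound e
    obtain ⟨m, rfl⟩ := vt_eq e'
    simp)

variable {φ}

@[simp] theorem ht_vt (g : HNNExtension M A B φ) :
    ht φ (vt φ g) = Multiplicative.toAdd (hexpo φ g) := rfl

theorem ht_smul (g : HNNExtension M A B φ) (v : HV φ) :
    ht φ (g • v) = Multiplicative.toAdd (hexpo φ g) + ht φ v := by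
  induction v using Quotient.inductionOn with
  | h v =>
    show ht φ (vt φ (g * v)) = _ + ht φ (vt φ v)
    simp

/-- One step up: `x = g M` and `y = g t M`. -/
def Up (x y : HV φ) : Prop :=
  ∃ g : HNNExtension M A B φ, QuotientGroup.mk g = x ∧ QuotientGroup.mk (g * t) = y

theorem Up.ht {x y : HV φ} (h : Up x y) : ht φ y = ht φ x + 1 := by
  obtain ⟨g, rfl, rfl⟩ := h
  simp

theorem Up.smul {x y : HV φ} (h : Up x y) (g : HNNExtension M A B φ) :
    Up (g • x) (g • y) := by
  obtain ⟨k, rfl, rfl⟩ := h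
  exact ⟨g * k, rfl, by rw [mul_assoc]; rfl⟩

theorem adj_iff {x y : HV φ} : (hTree φ).Adj x y ↔ Up x y ∨ Up y x := by
  rw [hTree, SimpleGraph.fromRel_adj]
  refine ⟨fun h => h.2, fun h => ⟨?_, h⟩⟩
  rintro rfl
  rcases h with h | h <;> · have := h.ht; omega

/-- A step from the vertex `g M`. -/
theorem step {g : HNNExtension M A B φ} {y : HV φ}
    (h : (hTree φ).Adj (vt φ g) y) :
    ∃ (m : M) (u : ℤˣ), y = vt φ (g * of m * t ^ (u : ℤ)) := by
  rcases adj_iff.mp h with ⟨k, h1, rfl⟩ | ⟨k, rfl, h1⟩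
  · obtain ⟨m, rfl⟩ := vt_eq h1.symm
    exact ⟨m, 1, by simp⟩
  · obtain ⟨m, h2⟩ := vt_eq h1.symm
    refine ⟨m, -1, ?_⟩
    rw [← h2]
    simp

theorem connected : (hTree φ).Connected := by
  have key : ∀ g h : HNNExtension M A B φ,
      (hTree φ).Reachable (vt φ h) (vt φ (h * g)) := by
    intro g
    induction g using HNNExtension.induction_on with
    | of m => intro h; rw [vt_mul_of]
    | t => intro h; exact SimpleGraph.Adj.reachable (adj_iff.mpr (Or.inl ⟨h, rfl, rfl⟩))
    | mul x y hx hy => intro h; rw [← mul_assoc]; exact (hx h).trans (hy _)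
    | inv x hx =>
      intro h
      have := hx (h * x⁻¹)
      rw [inv_mul_cancel_right] at this
      exact this.symm
  have : Nonempty (HV φ) := ⟨vt φ 1⟩
  refine ⟨fun x y => ?_⟩
  induction x using Quotient.inductionOn with
  | h x =>
    induction y using Quotient.inductionOn with
    | h y =>
      have := key (x⁻¹ * y) x
      rw [mul_inv_cancel_left] at this
      exact this

/-- `t^u * of m * t^-u` is in the base group for `m` in `toSubgroup u`. -/
theorem conj_mem {u : ℤˣ} {m : M} (hm : m ∈ toSubgroup A B u) :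
    ∃ m' : M, (t : HNNExtension M A B φ) ^ (u : ℤ) * of m * t ^ ((-u : ℤˣ) : ℤ) = of m' := by
  rcases Int.units_eq_one_or u with rfl | rfl
  · refine ⟨φ ⟨m, hm⟩, ?_⟩
    rw [equiv_eq_conj]
    simp
  · refine ⟨φ.symm ⟨m, hm⟩, ?_⟩
    rw [equiv_symm_eq_conj]
    simp

/-- A path without backtracking gives a reduced word. -/
theorem word_of_path (n : ℕ) : ∀ (v : ℕ → HV φ) (g : HNNExtension M A B φ),
    v 0 = vt φ g → (∀ i < n, (hTree φ).Adj (v i) (v (i + 1))) →
    (∀ i, i + 2 ≤ n → v i ≠ v (i + 2)) →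
    ∃ w : ReducedWord M A B, w.toList.length = n ∧
      v n = vt φ (g * w.prod φ) ∧
      ∀ a ∈ w.toList.head?, v 1 = vt φ (g * of w.head * t ^ (a.1 : ℤ)) := by
  induction n with
  | zero =>
    intro v g h0 _ _
    refine ⟨ReducedWord.empty M A B, rfl, ?_, by simp [ReducedWord.empty]⟩
    rw [h0]
    simp [ReducedWord.prod]
  | succ n ih =>
    intro v g h0 hadj hnb
    have h1 := hadj 0 (Nat.succ_pos n)
    rw [h0] at h1
    obtain ⟨m, u, hmu⟩ := step h1
    rw [zero_add] at hmu
    obtain ⟨w, hw1, hw2, hw3⟩ := ih (fun i => v (i + 1)) (g * of m * t ^ (u : ℤ)) hmu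
      (fun i hi => hadj (i + 1) (by omega)) (fun i hi => hnb (i + 1) (by omega))
    refine ⟨⟨m, (u, w.head) :: w.toList, ?_⟩, by simp [hw1], ?_, ?_⟩
    · rw [List.isChain_cons]
      refine ⟨?_, w.chain⟩
      intro a ha hmem
      by_contra hne
      have hau : a.1 = -u := by
        clear hw2 hw3 hmu
        rcases Int.units_eq_one_or u with rfl | rfl <;>
          rcases Int.units_eq_one_or a.1 with h | h <;> simp_all
      have h2 := hw3 a ha
      have hn : 2 ≤ n + 1 := by
        have : w.toList ≠ [] := by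
          rintro h
          rw [h] at ha
          simp at ha
        have := List.length_pos_iff.mpr this
        omega
      apply hnb 0 (by omega)
      rw [h0]
      obtain ⟨m', hm'⟩ := conj_mem (φ := φ) hmem
      have h3 : g * of m * t ^ (u : ℤ) * of w.head * t ^ (a.1 : ℤ) = g * of m * of m' := by
        rw [hau, ← hm']
        simp only [mul_assoc]
      show vt φ g = v (1 + 1)
      rw [h2, h3, vt_mul_of, vt_mul_of]
    · refine Eq.trans hw2 ?_
      simp only [ReducedWord.prod, List.map_cons, List.prod_cons, mul_assoc]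
    · intro a ha
      simp only [List.head?_cons, Option.mem_def, Option.some.injEq] at ha
      subst ha
      exact hmu

theorem no_return {n : ℕ} (hn : n ≠ 0) {v : ℕ → HV φ}
    (hadj : ∀ i < n, (hTree φ).Adj (v i) (v (i + 1)))
    (hnb : ∀ i, i + 2 ≤ n → v i ≠ v (i + 2)) : v 0 ≠ v n := by
  intro h
  obtain ⟨g, hg⟩ : ∃ g, v 0 = vt φ g := by
    induction v 0 using Quotient.inductionOn with
    | h g => exact ⟨g, rfl⟩
  obtain ⟨w, hw1, hw2, _⟩ := word_of_path n v g hg hadj hnb
  rw [← h, hg] at hw2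
  obtain ⟨m, hm⟩ := vt_eq hw2
  have h3 : w.prod φ = of m := mul_left_cancel hm
  have h4 := ReducedWord.toList_eq_nil_of_mem_of_range φ w ⟨m, h3.symm⟩
  rw [h4] at hw1
  exact hn hw1.symm

theorem isTree : (hTree φ).IsTree := by
  refine ⟨connected, ?_⟩
  intro v p hp
  have h3 := hp.three_le_length
  refine no_return (n := p.length) (by omega) (v := p.getVert)
    (fun i hi => p.adj_getVert_succ hi) (fun i hi => ?_) ?_
  · intro he
    rcases Nat.lt_or_ge (i + 2) p.length with h | h
    · have := hp.getVert_injOn' (show i ∈ {i | i ≤ p.length - 1} from by simp; omega)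
        (show i + 2 ∈ {i | i ≤ p.length - 1} from by simp; omega) he
      omega
    · have := hp.getVert_injOn (show i ∈ {i | 1 ≤ i ∧ i ≤ p.length} from by simp; omega)
        (show i + 2 ∈ {i | 1 ≤ i ∧ i ≤ p.length} from by simp; omega) he
      omega
  · rw [p.getVert_zero, p.getVert_length]

theorem ht_line (k : ℤ) : ht φ (hLine φ k) = k := by
  show ht φ (vt φ (t ^ k)) = k
  rw [ht_vt, map_zpow, hexpo_t, toAdd_zpow]
  simp

variable (φ)

theorem hTree_surfaceTree (c : A) (hc : (φ c : M) = c) :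
    SurfaceTree (hTree φ) (hLine φ) (of (φ := φ) (c : M)) (t : HNNExtension M A B φ) 1 where
  tree := isTree
  act g u v h := by
    rcases adj_iff.mp h with h | h
    · exact adj_iff.mpr (Or.inl (h.smul g))
    · exact adj_iff.mpr (Or.inr (h.smul g))
  line := by
    refine ⟨fun k => adj_iff.mpr (Or.inl ⟨t ^ k, rfl, ?_⟩), fun k h => ?_⟩
    · rw [← zpow_add_one]
      rfl
    · have := congrArg (ht φ) h
      rw [ht_line, ht_line] at this
      omega
  comm := by
    have h := t_mul_of (φ := φ) c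
    rw [hc] at h
    exact h.symm
  fix k := by
    have h : Commute (of (c : M) : HNNExtension M A B φ) t := by
      have h := t_mul_of (φ := φ) c
      rw [hc] at h
      exact h.symm
    show vt φ (of (c : M) * t ^ k) = _
    rw [(h.zpow_right k).eq, vt_mul_of]
    rfl
  trans k := by
    show vt φ (t * t ^ k) = _
    rw [← zpow_one_add, add_comm]
    rfl

theorem hTree_coherent (g : HNNExtension M A B φ) (j k : ℤ) (h : g • hLine φ j = hLine φ (k + 1)) :
    g • hLine φ (j + 1) ≠ hLine φ k := by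
  intro h2
  have e1 := congrArg (ht φ) h
  have e2 := congrArg (ht φ) h2
  rw [ht_smul, ht_line, ht_line] at e1 e2
  omega

variable {φ}

/-- Britton's lemma for one syllable. -/
theorem britton {x y : M} (h : (t : HNNExtension M A B φ) * of x = of y * t) :
    ∃ hx : x ∈ A, (φ ⟨x, hx⟩ : M) = y := by
  have hx : x ∈ A := by
    by_contra hx
    let w : ReducedWord M A B := ⟨1, [(1, x), (-1, 1)], by
      simp only [List.isChain_cons_cons, List.isChain_singleton, and_true]
      intro h
      exact absurd h hx⟩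
    have hw : w.prod φ = of y := by
      simp only [w, ReducedWord.prod, List.map_cons, List.map_nil, List.prod_cons, List.prod_nil,
        map_one, one_mul, mul_one, Units.val_one, zpow_one, Units.val_neg, zpow_neg]
      rw [h, mul_inv_cancel_right]
    have := ReducedWord.toList_eq_nil_of_mem_of_range φ w ⟨y, hw.symm⟩
    simp [w] at this
  refine ⟨hx, ?_⟩
  have h2 := t_mul_of (φ := φ) ⟨x, hx⟩
  rw [h] at h2
  exact (HNNExtension.of_injective φ (mul_right_cancel h2)).symm

variable (φ)

/-- If the line and a translate of it run together for `f` corners, the translate is the line. -/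
theorem hTree_rigid (c : M) {f : ℕ} (hf : ChainCyclic φ c f)
    (g : HNNExtension M A B φ) (j k : ℤ)
    (h : ∀ i : ℕ, i ≤ f + 1 → g • hLine φ (j + i) = hLine φ (k + i)) :
    g ∈ Subgroup.closure {of (φ := φ) c, (t : HNNExtension M A B φ)} := by
  have h1 : ∀ i : ℕ, ∃ m : M, i ≤ f + 1 → g * t ^ (j + i) = t ^ (k + i) * of m := by
    intro i
    by_cases hi : i ≤ f + 1
    · have h2 : vt φ (t ^ (k + i)) = vt φ (g * t ^ (j + i)) := (h i hi).symm
      obtain ⟨m, hm⟩ := vt_eq h2
      exact ⟨m, fun _ => hm⟩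
    · exact ⟨1, fun hi' => absurd hi' hi⟩
  choose m hm using h1
  have h3 : ∀ i : ℕ, i ≤ f → ∃ hx : m (i + 1) ∈ A, (φ ⟨m (i + 1), hx⟩ : M) = m i := by
    intro i hi
    apply britton
    have e1 := hm i (by omega)
    have e2 := hm (i + 1) (by omega)
    have e3 : g * t ^ (j + (i + 1 : ℕ)) = g * t ^ (j + i) * t := by
      rw [mul_assoc, ← zpow_add_one]
      push_cast
      rw [add_assoc]
    rw [e3, e1] at e2
    have e4 : (t : HNNExtension M A B φ) ^ (k + (i + 1 : ℕ)) = t ^ (k + i) * t := by
      rw [← zpow_add_one]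
      push_cast
      rw [add_assoc]
    rw [e4, mul_assoc, mul_assoc] at e2
    exact (mul_left_cancel e2).symm
  have h4 := hf (fun i => m (f + 1 - i)) (fun i hi => by
    obtain ⟨hx, hy⟩ := h3 (f - i) (by omega)
    have e1 : f + 1 - i = f - i + 1 := by omega
    have e2 : f + 1 - (i + 1) = f - i := by omega
    simp only [e1, e2]
    exact ⟨hx, hy⟩)
  obtain ⟨z, hz⟩ := h4
  have e := hm (f + 1) le_rfl
  have e5 : g = t ^ (k + (f + 1 : ℕ)) * of (m (f + 1)) * (t ^ (j + (f + 1 : ℕ)))⁻¹ := by
    rw [← e, mul_inv_cancel_right]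
  have ht : t ∈ Subgroup.closure {(of c : HNNExtension M A B φ), t} :=
    Subgroup.subset_closure (by simp)
  have hc : of c ∈ Subgroup.closure {(of c : HNNExtension M A B φ), t} :=
    Subgroup.subset_closure (by simp)
  have hz' : m (f + 1) = c ^ z := hz.symm
  rw [e5, hz', map_zpow]
  exact mul_mem (mul_mem (zpow_mem ht _) (zpow_mem hc _)) (inv_mem (zpow_mem ht _))

end Pool.Agent.WTT
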