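import Pool.Agent.WTT.Cyc

/-! Row HP: permutations with holonomy (equivariant permutations of `Γ × D`). -/

namespace Pool.Agent.WTT

open Equiv

/-- the involution version -/
theorem cyc_mul_invol_ge {X : Type*} [Fintype X] [DecidableEq X] (f s : Perm X)
    (hs : s * s = 1) : 2 * cyc f ≤ 2 * cyc (f * s) + s.support.card := by
  classical
  obtain ⟨n, hn⟩ : ∃ n, s.support.card = n := ⟨_, rfl⟩
  induction n using Nat.strong_induction_on generalizing f s with
  | _ n ih =>
    by_cases hs1 : s = 1
    · subst hs1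
      simp
    · obtain ⟨x, hx⟩ : ∃ x, s x ≠ x := by
        by_contra hcon
        push Not at hcon
        exact hs1 (Perm.ext fun z => by rw [hcon z, Perm.one_apply])
      have hss : ∀ z, s (s z) = z := by
        intro z
        have := congrArg (fun p : Perm X => p z) hs
        simpa [Perm.mul_apply] using this
      let s' : Perm X := swap x (s x) * s
      have hss' : swap x (s x) * s' = s := by
        simp only [s', ← mul_assoc, swap_mul_self, one_mul]
      have hs'x : s' x = x := by simp [s', Perm.mul_apply]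
      have hs'y : s' (s x) = s x := by simp [s', Perm.mul_apply, hss]
      have hs'z : ∀ z, z ≠ x → z ≠ s x → s' z = s z := by
        intro z h1 h2
        simp only [s', Perm.mul_apply]
        refine swap_apply_of_ne_of_ne ?_ ?_
        · intro h3; apply h2; rw [← h3, hss]
        · intro h3; exact h1 (s.injective h3)
      have hinv : s' * s' = 1 := by
        refine Perm.ext fun z => ?_
        rw [Perm.mul_apply, Perm.one_apply]
        by_cases h1 : z = x
        · rw [h1, hs'x, hs'x]
        · by_cases h2 : z = s x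
          · rw [h2, hs'y, hs'y]
          · rw [hs'z z h1 h2, hs'z, hss]
            · intro h3; apply h2; rw [← h3, hss]
            · intro h3; exact h1 (s.injective h3)
      have hsup : s'.support ∪ {x, s x} = s.support := by
        ext z
        simp only [Finset.mem_union, Perm.mem_support, Finset.mem_insert, Finset.mem_singleton]
        constructor
        · rintro (h | h | h)
          · by_cases h1 : z = x
            · rw [h1]; exact hx
            · by_cases h2 : z = s x
              · rw [h2, hss]; exact hx.symm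
              · rwa [hs'z z h1 h2] at h
          · rw [h]; exact hx
          · rw [h, hss]; exact hx.symm
        · intro h
          by_cases h1 : z = x
          · exact Or.inr (Or.inl h1)
          · by_cases h2 : z = s x
            · exact Or.inr (Or.inr h2)
            · left; rwa [hs'z z h1 h2]
      have hdis : Disjoint s'.support {x, s x} := by
        rw [Finset.disjoint_right]
        intro z hz
        simp only [Finset.mem_insert, Finset.mem_singleton] at hz
        rw [Perm.mem_support]
        rcases hz with rfl | rfl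
        · exact not_not.2 hs'x
        · exact not_not.2 hs'y
      have hcard : s.support.card = s'.support.card + 2 := by
        rw [← hsup, Finset.card_union_of_disjoint hdis, Finset.card_pair (Ne.symm hx)]
      have h1 := ih s'.support.card (by omega) (f * swap x (s x)) s' hinv rfl
      rw [mul_assoc, hss'] at h1
      have h2 := cyc_le_mul_swap f x (s x)
      omega

/-- creating fixed points: `s` is an involution exchanging `A` and `f '' A`, disjoint, and
trivial elsewhere, and `s = f` on `A`: then `f * s` has at least `card A` more cycles. -/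
theorem cyc_mul_invol_add {X : Type*} [Finite X] [DecidableEq X] (f s : Perm X) (A : Finset X)
    (h1 : ∀ y ∈ A, s y = f y) (h2 : ∀ y ∈ A, s (f y) = y) (h3 : ∀ y ∈ A, f y ∉ A)
    (h4 : ∀ z, z ∉ A → z ∉ A.image f → s z = z) :
    cyc f + A.card ≤ cyc (f * s) := by
  classical
  let Q := Quotient (Perm.SameCycle.setoid f)
  let cl : X → Q := fun z => Quotient.mk _ z
  have hstep : ∀ z, cl (f z) = cl z := fun z => Quotient.sound (sameCycle_step f z).symm
  let φ : X → Q ⊕ X := fun z => if z ∈ A.image f then Sum.inr z else Sum.inl (cl z)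
  have hfix : ∀ z, z ∈ A.image f → (f * s) z = z := by
    intro z hz
    obtain ⟨y, hy, rfl⟩ := Finset.mem_image.1 hz
    rw [Perm.mul_apply, h2 y hy]
  have hnot : ∀ z, z ∉ A.image f → (f * s) z ∉ A.image f := by
    intro z hz hcon
    obtain ⟨y, hy, hyz⟩ := Finset.mem_image.1 hcon
    rw [Perm.mul_apply] at hyz
    have h5 := f.injective hyz
    by_cases hzA : z ∈ A
    · rw [h1 z hzA] at h5
      exact h3 z hzA (h5 ▸ hy)
    · have h7 := h4 z hzA hz
      rw [h7] at h5
      exact hzA (h5 ▸ hy)
  have hφ : ∀ z, φ ((f * s) z) = φ z := by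
    intro z
    by_cases hz : z ∈ A.image f
    · rw [hfix z hz]
    · simp only [φ]
      rw [if_neg (hnot z hz), if_neg hz]
      congr 1
      rw [Perm.mul_apply, hstep]
      by_cases hzA : z ∈ A
      · rw [h1 z hzA, hstep]
      · rw [h4 z hzA hz]
  have hfinQ : Finite Q := inferInstance
  let S : Set (Q ⊕ X) := {b | (∃ q, b = Sum.inl q) ∨ ∃ z ∈ A.image f, b = Sum.inr z}
  have h5 := card_le_cyc (f * s) φ hφ S (by
    rintro b (⟨q, rfl⟩ | ⟨z, hz, rfl⟩)
    · obtain ⟨z, hz⟩ := Quotient.exists_rep q
      have hz' : cl z = q := hz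
      by_cases hzf : z ∈ A.image f
      · obtain ⟨y, hy, rfl⟩ := Finset.mem_image.1 hzf
        refine ⟨y, ?_⟩
        have hyf : y ∉ A.image f := by
          intro hcon
          obtain ⟨w, hw, hwy⟩ := Finset.mem_image.1 hcon
          exact h3 w hw (hwy ▸ hy)
        simp only [φ]
        rw [if_neg hyf, ← hz', hstep]
      · exact ⟨z, by simp only [φ]; rw [if_neg hzf, hz']⟩
    · exact ⟨z, by simp only [φ]; rw [if_pos hz]⟩)
  have h6 : Nat.card (Q ⊕ (A.image f : Finset X)) ≤ Nat.card S := by
    refine Nat.card_le_card_of_injective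
      (fun c => match c with
        | Sum.inl q => ⟨Sum.inl q, Or.inl ⟨q, rfl⟩⟩
        | Sum.inr z => ⟨Sum.inr z.1, Or.inr ⟨z.1, z.2, rfl⟩⟩) ?_
    rintro (a | a) (b | b) hab
    · simpa using hab
    · simp at hab
    · simp at hab
    · simp only [Subtype.mk.injEq, Sum.inr.injEq] at hab
      exact congrArg Sum.inr (Subtype.ext hab)
  rw [Nat.card_sum] at h6
  have h7 : Nat.card (A.image f : Finset X) = A.card := by
    rw [Nat.card_eq_fintype_card, Fintype.card_coe, Finset.card_image_of_injective _ f.injective]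
  have h8 : cyc f = Nat.card Q := rfl
  omega

/-- A permutation `π` of `D` together with a holonomy `h : D → Γ`; it stands for the equivariant
permutation `(γ, d) ↦ (γ * h d, π d)` of `Γ × D`. -/
@[ext] structure HP (D Γ : Type*) where
  π : Perm D
  h : D → Γ

namespace HP

variable {D Γ H : Type*} [Group Γ] [Group H]

instance : Mul (HP D Γ) := ⟨fun f g => ⟨f.π * g.π, fun d => g.h d * f.h (g.π d)⟩⟩
instance : One (HP D Γ) := ⟨⟨1, fun _ => 1⟩⟩
instance : Inv (HP D Γ) := ⟨fun f => ⟨f.π⁻¹, fun d => (f.h (f.π⁻¹ d))⁻¹⟩⟩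

@[simp] theorem mul_π (f g : HP D Γ) : (f * g).π = f.π * g.π := rfl
@[simp] theorem mul_h (f g : HP D Γ) (d : D) : (f * g).h d = g.h d * f.h (g.π d) := rfl
@[simp] theorem one_π : (1 : HP D Γ).π = 1 := rfl
@[simp] theorem one_h (d : D) : (1 : HP D Γ).h d = 1 := rfl
@[simp] theorem inv_π (f : HP D Γ) : (f⁻¹).π = f.π⁻¹ := rfl
@[simp] theorem inv_h (f : HP D Γ) (d : D) : (f⁻¹).h d = (f.h (f.π⁻¹ d))⁻¹ := rfl

instance : Group (HP D Γ) :=
  Group.ofLeftAxioms
    (by intro a b c; ext <;> simp [mul_assoc])
    (by intro a; ext <;> simp)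
    (by intro a; ext <;> simp)

/-- The equivariant swap of `a` and `b` with holonomy `g` from `a` to `b`. -/
def es [DecidableEq D] (a b : D) (g : Γ) : HP D Γ :=
  ⟨swap a b, fun d => if d = a then g else if d = b then g⁻¹ else 1⟩

@[simp] theorem es_π [DecidableEq D] (a b : D) (g : Γ) : (es a b g).π = swap a b := rfl
theorem es_h [DecidableEq D] (a b : D) (g : Γ) (d : D) :
    (es a b g).h d = if d = a then g else if d = b then g⁻¹ else 1 := rfl

end HP

/-- The permutation of `D × H` induced by a permutation with holonomy in `Γ` and `φ : Γ →* H`. -/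
def cov {D Γ H : Type*} [Group Γ] [Group H] (φ : Γ →* H) (f : HP D Γ) : Perm (D × H) where
  toFun x := (f.π x.1, x.2 * φ (f.h x.1))
  invFun x := (f.π⁻¹ x.1, x.2 * (φ (f.h (f.π⁻¹ x.1)))⁻¹)
  left_inv x := by ext <;> simp
  right_inv x := by ext <;> simp

section

variable {D Γ H : Type*} [Group Γ] [Group H]

theorem cov_apply (φ : Γ →* H) (f : HP D Γ) (x : D × H) :
    cov φ f x = (f.π x.1, x.2 * φ (f.h x.1)) := rfl

theorem cov_mul (φ : Γ →* H) (f g : HP D Γ) : cov φ (f * g) = cov φ f * cov φ g := by
  ext x <;> simp [cov_apply, mul_assoc]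

theorem cov_one (φ : Γ →* H) : cov φ (1 : HP D Γ) = 1 := by
  ext x <;> simp [cov_apply]

theorem cov_iterate (φ : Γ →* H) (f : HP D Γ) (j : ℕ) (d : D) (η : H) :
    (cov φ f)^[j] (d, η) = ((f ^ j).π d, η * φ ((f ^ j).h d)) := by
  induction j with
  | zero => simp
  | succ j ih =>
    rw [Function.iterate_succ_apply', ih, cov_apply, pow_succ']
    simp [mul_assoc]

theorem cov_es_left [DecidableEq D] (φ : Γ →* H) (a b : D) (g : Γ) (η : H) :
    cov φ (HP.es a b g) (a, η) = (b, η * φ g) := by
  simp [cov_apply, HP.es_h]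

theorem cov_es_right [DecidableEq D] (φ : Γ →* H) {a b : D} (hab : a ≠ b) (g : Γ) (η : H) :
    cov φ (HP.es a b g) (b, η) = (a, η * (φ g)⁻¹) := by
  simp [cov_apply, HP.es_h, hab.symm]

theorem cov_es_other [DecidableEq D] (φ : Γ →* H) (a b : D) (g : Γ) (η : H) (d : D)
    (h1 : d ≠ a) (h2 : d ≠ b) : cov φ (HP.es a b g) (d, η) = (d, η) := by
  simp [cov_apply, HP.es_h, h1, h2, swap_apply_of_ne_of_ne h1 h2]

theorem cov_es_sq [DecidableEq D] (φ : Γ →* H) {a b : D} (hab : a ≠ b) (g : Γ) :
    cov φ (HP.es a b g) * cov φ (HP.es a b g) = 1 := by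
  refine Equiv.ext fun z => ?_
  obtain ⟨d, η⟩ := z
  rw [Perm.mul_apply, Perm.one_apply]
  by_cases h1 : d = a
  · rw [h1, cov_es_left, cov_es_right φ hab]
    simp
  · by_cases h2 : d = b
    · rw [h2, cov_es_right φ hab, cov_es_left]
      simp
    · rw [cov_es_other _ _ _ _ _ _ h1 h2, cov_es_other _ _ _ _ _ _ h1 h2]

theorem cyc_cov_le [DecidableEq D] [Finite D] [Finite H] (φ : Γ →* H) (f : HP D Γ) {a b : D}
    (hab : a ≠ b) (g : Γ) :
    cyc (cov φ f) ≤ cyc (cov φ (f * HP.es a b g)) + Nat.card H := by
  classical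
  have : Fintype D := Fintype.ofFinite D
  have : Fintype H := Fintype.ofFinite H
  rw [cov_mul, Nat.card_eq_fintype_card]
  have h1 := cyc_mul_invol_ge (cov φ f) (cov φ (HP.es a b g)) (cov_es_sq φ hab g)
  have h2 : (cov φ (HP.es a b g)).support ⊆
      ({a, b} : Finset D) ×ˢ (Finset.univ : Finset H) := by
    rintro ⟨d, x⟩ hz
    rw [Perm.mem_support] at hz
    simp only [Finset.mem_product, Finset.mem_univ, and_true, Finset.mem_insert,
      Finset.mem_singleton]
    by_contra hcon
    push Not at hcon
    exact hz (cov_es_other _ _ _ _ _ _ hcon.1 hcon.2)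
  have h3 := Finset.card_le_card h2
  rw [Finset.card_product, Finset.card_univ, Finset.card_pair hab] at h3
  omega

theorem cyc_cov_add_le [DecidableEq D] [Finite D] [Finite H] (φ : Γ →* H) (f : HP D Γ) {a b : D}
    (hab : a ≠ b) (h1 : f.π a = b) :
    cyc (cov φ f) + Nat.card H ≤ cyc (cov φ (f * HP.es a b (f.h a))) := by
  classical
  have : Fintype D := Fintype.ofFinite D
  have : Fintype H := Fintype.ofFinite H
  rw [cov_mul, Nat.card_eq_fintype_card]
  have hfa : ∀ x : H, cov φ f (a, x) = (b, x * φ (f.h a)) := by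
    intro x
    rw [cov_apply, h1]
  have h2 := cyc_mul_invol_add (cov φ f) (cov φ (HP.es a b (f.h a)))
    (({a} : Finset D) ×ˢ (Finset.univ : Finset H)) ?_ ?_ ?_ ?_
  · rwa [Finset.card_product, Finset.card_univ, Finset.card_singleton, one_mul] at h2
  · rintro ⟨d, x⟩ hz
    simp only [Finset.mem_product, Finset.mem_univ, and_true, Finset.mem_singleton] at hz
    rw [hz, cov_es_left, hfa]
  · rintro ⟨d, x⟩ hz
    simp only [Finset.mem_product, Finset.mem_univ, and_true, Finset.mem_singleton] at hz
    rw [hz, hfa, cov_es_right φ hab]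
    simp
  · rintro ⟨d, x⟩ hz
    simp only [Finset.mem_product, Finset.mem_univ, and_true, Finset.mem_singleton] at hz
    rw [hz, hfa]
    simp [hab]
  · rintro ⟨d, x⟩ hz1 hz2
    have h3 : d ≠ a := by
      rintro rfl
      exact hz1 (by simp)
    have h4 : d ≠ b := by
      rintro rfl
      apply hz2
      rw [Finset.mem_image]
      refine ⟨(a, x * (φ (f.h a))⁻¹), by simp, ?_⟩
      rw [hfa]
      simp
    exact cov_es_other _ _ _ _ _ _ h3 h4

end

end Pool.Agent.WTT
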