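import Pool.Agent.WTT.Init
import Pool.Agent.WTT.Fin

/-! Row IndepB: the boundary curves are independent in the abelianisation. -/

namespace Pool.Agent.WTT

open Equiv

theorem bdry_castSucc {m : ℕ} (i : Fin m) : bdry m i.castSucc = FreeGroup.of i := by
  simp [bdry]

theorem bdry_last (m : ℕ) : bdry m (Fin.last m) = ((List.ofFn fun i : Fin m => FreeGroup.of i).prod)⁻¹ := by
  simp [bdry]

/-- the exponent homomorphism of a vector of exponents -/
def expo {m : ℕ} (e : Fin m → ℤ) : FreeGroup (Fin m) →* Multiplicative ℤ :=
  FreeGroup.lift fun i => Multiplicative.ofAdd (e i)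

theorem expo_of {m : ℕ} (e : Fin m → ℤ) (i : Fin m) : expo e (FreeGroup.of i) = Multiplicative.ofAdd (e i) := by
  simp [expo]

theorem expo_last {m : ℕ} (e : Fin m → ℤ) : expo e (bdry m (Fin.last m)) = Multiplicative.ofAdd (- ∑ i, e i) := by
  rw [bdry_last, map_inv, map_list_prod, List.map_ofFn, List.prod_ofFn]
  simp only [Function.comp_apply, expo_of]
  rw [ofAdd_neg, ofAdd_sum]

theorem indep_bdry {m : ℕ} (hm : 2 ≤ m) : Indep (bdry m) := by
  classical
  intro i j
  refine Fin.lastCases ?_ (fun i => ?_) i
  · -- i is the last one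
    refine Fin.lastCases ?_ (fun j => ?_) j
    · refine ⟨expo (fun k => if k = ⟨0, by omega⟩ then -1 else 0), ?_, fun h => absurd rfl h⟩
      rw [expo_last]
      simp
    · obtain ⟨k, hk⟩ : ∃ k : Fin m, k ≠ j := by
        by_cases h : j = ⟨0, by omega⟩
        · exact ⟨⟨1, by omega⟩, by rw [h]; simp⟩
        · exact ⟨⟨0, by omega⟩, fun h' => h h'.symm⟩
      refine ⟨expo (fun l => if l = k then -1 else 0), ?_, fun _ => ?_⟩
      · rw [expo_last]
        simp
      · rw [bdry_castSucc, expo_of, if_neg hk.symm]
        rfl
  · refine Fin.lastCases ?_ (fun j => ?_) j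
    · obtain ⟨k, hk⟩ : ∃ k : Fin m, k ≠ i := by
        by_cases h : i = ⟨0, by omega⟩
        · exact ⟨⟨1, by omega⟩, by rw [h]; simp⟩
        · exact ⟨⟨0, by omega⟩, fun h' => h h'.symm⟩
      refine ⟨expo (fun l => if l = i then 1 else if l = k then -1 else 0), ?_, fun _ => ?_⟩
      · rw [bdry_castSucc, expo_of, if_pos rfl]
      · rw [expo_last]
        have : ∑ l, (if l = i then (1 : ℤ) else if l = k then -1 else 0) = 0 := by
          have h1 : ∀ l : Fin m, (if l = i then (1 : ℤ) else if l = k then -1 else 0) =
              (if l = i then 1 else 0) + (if l = k then -1 else 0) := by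
            intro l
            by_cases h : l = i
            · subst h
              rw [if_pos rfl, if_pos rfl, if_neg hk.symm]
              rfl
            · rw [if_neg h, if_neg h, zero_add]
          rw [Finset.sum_congr rfl (fun l _ => h1 l), Finset.sum_add_distrib]
          simp
        rw [this]
        simp
    · refine ⟨expo (fun l => if l = i then 1 else 0), ?_, fun h => ?_⟩
      · rw [bdry_castSucc, expo_of, if_pos rfl]
      · rw [bdry_castSucc, expo_of, if_neg]
        · rfl
        · intro h'
          exact h (by rw [h'])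

end Pool.Agent.WTT
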