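import Pool.Agent.WTT.PicDefs

/-! Row INIT: the initial picture. -/

namespace Pool.Agent.WTT

open Equiv

/-- The boundary curves of the sphere with `m + 1` holes. -/
def bdry (m : ℕ) (i : Fin (m + 1)) : FreeGroup (Fin m) :=
  Fin.lastCases ((List.ofFn fun i : Fin m => FreeGroup.of i).prod)⁻¹ (fun i => FreeGroup.of i) i

namespace Init

variable {m K : ℕ}

/-- the previous petal, cyclically -/
def pr (m : ℕ) [NeZero m] : Perm (Fin m) := (Equiv.subRight (1 : Fin m))

section

variable [NeZero m] (M : Fin m → ℕ) (hM : ∀ i, 0 < M i) (hK : ∀ i, M i ≤ K)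

/-- the next dart -/
def nx (x : Fin m × Fin K × Bool) : Fin m × Fin K × Bool :=
  if x.2.1.1 < M x.1 then
    if x.2.2 = true then
      if h : x.2.1.1 + 1 < M x.1 then (x.1, ⟨x.2.1.1 + 1, h.trans_le (hK x.1)⟩, true)
      else (x.1, ⟨0, (hM x.1).trans_le (hK x.1)⟩, true)
    else
      if 0 < x.2.1.1 then (x.1, ⟨x.2.1.1 - 1, by have := x.2.1.2; omega⟩, false)
      else (pr m x.1, ⟨M (pr m x.1) - 1, by have := hM (pr m x.1); have := hK (pr m x.1); omega⟩, false)
  else x

theorem nx_dead {i : Fin m} {k : Fin K} {b : Bool} (h : ¬ k.1 < M i) :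
    nx M hM hK (i, k, b) = (i, k, b) := if_neg h

theorem nx_in_succ {i : Fin m} {k : Fin K} (h : k.1 + 1 < M i) :
    nx M hM hK (i, k, true) = (i, ⟨k.1 + 1, h.trans_le (hK i)⟩, true) := by
  unfold nx
  rw [if_pos (show k.1 < M i by omega), if_pos rfl, dif_pos h]

theorem nx_in_last {i : Fin m} {k : Fin K} (h : k.1 < M i) (h' : ¬ k.1 + 1 < M i) :
    nx M hM hK (i, k, true) = (i, ⟨0, (hM i).trans_le (hK i)⟩, true) := by
  unfold nx
  rw [if_pos h, if_pos rfl, dif_neg h']

theorem nx_out_pred {i : Fin m} {k : Fin K} (h : k.1 < M i) (h' : 0 < k.1) :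
    nx M hM hK (i, k, false) = (i, ⟨k.1 - 1, by have := k.2; omega⟩, false) := by
  unfold nx
  rw [if_pos h, if_neg (by simp), if_pos h']

theorem nx_out_zero {i : Fin m} {k : Fin K} (h : k.1 < M i) (h' : ¬ 0 < k.1) :
    nx M hM hK (i, k, false) = (pr m i, ⟨M (pr m i) - 1, by
      have := hM (pr m i); have := hK (pr m i); omega⟩, false) := by
  unfold nx
  rw [if_pos h, if_neg (by simp), if_neg h']

theorem nx_injective : Function.Injective (nx M hM hK) := by
  rintro ⟨i, k, b⟩ ⟨i', k', b'⟩ h
  have hk := k.2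
  have hk' := k'.2
  have hp := hM (pr m i)
  have hp' := hM (pr m i')
  have hi := hM i
  have hi' := hM i'
  by_cases h1 : k.1 < M i
  · by_cases h1' : k'.1 < M i'
    · rcases b with _ | _
      · by_cases h2 : 0 < k.1
        · rw [nx_out_pred M hM hK h1 h2] at h
          rcases b' with _ | _
          · by_cases h2' : 0 < k'.1
            · rw [nx_out_pred M hM hK h1' h2'] at h
              simp only [Prod.mk.injEq, Fin.mk.injEq, and_true] at h
              obtain ⟨h3, h4⟩ := h
              have h5 : k = k' := Fin.ext (by omega)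
              rw [h3, h5]
            · rw [nx_out_zero M hM hK h1' h2'] at h
              simp only [Prod.mk.injEq, Fin.mk.injEq, and_true] at h
              obtain ⟨h3, h4⟩ := h
              rw [← h3] at h4
              omega
          · by_cases h2' : k'.1 + 1 < M i'
            · rw [nx_in_succ M hM hK h2'] at h
              simp at h
            · rw [nx_in_last M hM hK h1' h2'] at h
              simp at h
        · rw [nx_out_zero M hM hK h1 h2] at h
          rcases b' with _ | _
          · by_cases h2' : 0 < k'.1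
            · rw [nx_out_pred M hM hK h1' h2'] at h
              simp only [Prod.mk.injEq, Fin.mk.injEq, and_true] at h
              obtain ⟨h3, h4⟩ := h
              rw [h3] at h4
              omega
            · rw [nx_out_zero M hM hK h1' h2'] at h
              simp only [Prod.mk.injEq, Fin.mk.injEq, and_true] at h
              have h5 : k = k' := Fin.ext (by omega)
              rw [(pr m).injective h.1, h5]
          · by_cases h2' : k'.1 + 1 < M i'
            · rw [nx_in_succ M hM hK h2'] at h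
              simp at h
            · rw [nx_in_last M hM hK h1' h2'] at h
              simp at h
      · by_cases h2 : k.1 + 1 < M i
        · rw [nx_in_succ M hM hK h2] at h
          rcases b' with _ | _
          · by_cases h2' : 0 < k'.1
            · rw [nx_out_pred M hM hK h1' h2'] at h
              simp at h
            · rw [nx_out_zero M hM hK h1' h2'] at h
              simp at h
          · by_cases h2' : k'.1 + 1 < M i'
            · rw [nx_in_succ M hM hK h2'] at h
              simp only [Prod.mk.injEq, Fin.mk.injEq, and_true] at h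
              have h5 : k = k' := Fin.ext (by omega)
              rw [h.1, h5]
            · rw [nx_in_last M hM hK h1' h2'] at h
              simp only [Prod.mk.injEq, Fin.mk.injEq, and_true] at h
              omega
        · rw [nx_in_last M hM hK h1 h2] at h
          rcases b' with _ | _
          · by_cases h2' : 0 < k'.1
            · rw [nx_out_pred M hM hK h1' h2'] at h
              simp at h
            · rw [nx_out_zero M hM hK h1' h2'] at h
              simp at h
          · by_cases h2' : k'.1 + 1 < M i'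
            · rw [nx_in_succ M hM hK h2'] at h
              simp only [Prod.mk.injEq, Fin.mk.injEq, and_true] at h
              omega
            · rw [nx_in_last M hM hK h1' h2'] at h
              have h3 : i = i' := (Prod.mk.inj h).1
              rw [← h3] at h1' h2'
              have h5 : k = k' := Fin.ext (by omega)
              rw [h3, h5]
    · exfalso
      rw [nx_dead M hM hK h1'] at h
      rcases b with _ | _
      · by_cases h2 : 0 < k.1
        · rw [nx_out_pred M hM hK h1 h2, Prod.mk.injEq, Prod.mk.injEq] at h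
          rw [← h.1, ← h.2.1] at h1'
          simp only at h1'
          omega
        · rw [nx_out_zero M hM hK h1 h2, Prod.mk.injEq, Prod.mk.injEq] at h
          rw [← h.1, ← h.2.1] at h1'
          simp only at h1'
          omega
      · by_cases h2 : k.1 + 1 < M i
        · rw [nx_in_succ M hM hK h2, Prod.mk.injEq, Prod.mk.injEq] at h
          rw [← h.1, ← h.2.1] at h1'
          simp only at h1'
          omega
        · rw [nx_in_last M hM hK h1 h2, Prod.mk.injEq, Prod.mk.injEq] at h
          rw [← h.1, ← h.2.1] at h1'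
          simp only at h1'
          omega
  · by_cases h1' : k'.1 < M i'
    · exfalso
      rw [nx_dead M hM hK h1] at h
      rcases b' with _ | _
      · by_cases h2 : 0 < k'.1
        · rw [nx_out_pred M hM hK h1' h2, Prod.mk.injEq, Prod.mk.injEq] at h
          rw [h.1, h.2.1] at h1
          simp only at h1
          omega
        · rw [nx_out_zero M hM hK h1' h2, Prod.mk.injEq, Prod.mk.injEq] at h
          rw [h.1, h.2.1] at h1
          simp only at h1
          omega
      · by_cases h2 : k'.1 + 1 < M i'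
        · rw [nx_in_succ M hM hK h2, Prod.mk.injEq, Prod.mk.injEq] at h
          rw [h.1, h.2.1] at h1
          simp only at h1
          omega
        · rw [nx_in_last M hM hK h1' h2, Prod.mk.injEq, Prod.mk.injEq] at h
          rw [h.1, h.2.1] at h1
          simp only at h1
          omega
    · rw [nx_dead M hM hK h1, nx_dead M hM hK h1'] at h
      exact h

/-- holonomy of the next dart -/
def nh (x : Fin m × Fin K × Bool) : FreeGroup (Fin m) :=
  if x.2.1.1 < M x.1 then
    if x.2.2 = true then (if x.2.1.1 + 1 < M x.1 then 1 else FreeGroup.of x.1)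
    else (if 0 < x.2.1.1 then 1 else (FreeGroup.of (pr m x.1))⁻¹)
  else 1

theorem nh_dead {i : Fin m} {k : Fin K} {b : Bool} (h : ¬ k.1 < M i) :
    nh M (i, k, b) = 1 := if_neg h

theorem nh_in_succ {i : Fin m} {k : Fin K} (h : k.1 + 1 < M i) : nh M (i, k, true) = 1 := by
  unfold nh
  rw [if_pos (show k.1 < M i by omega), if_pos rfl, if_pos h]

theorem nh_in_last {i : Fin m} {k : Fin K} (h : k.1 < M i) (h' : ¬ k.1 + 1 < M i) :
    nh M (i, k, true) = FreeGroup.of i := by
  unfold nh
  rw [if_pos h, if_pos rfl, if_neg h']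

theorem nh_out_pred {i : Fin m} {k : Fin K} (h : k.1 < M i) (h' : 0 < k.1) :
    nh M (i, k, false) = 1 := by
  unfold nh
  rw [if_pos h, if_neg (by simp), if_pos h']

theorem nh_out_zero {i : Fin m} {k : Fin K} (h : k.1 < M i) (h' : ¬ 0 < k.1) :
    nh M (i, k, false) = (FreeGroup.of (pr m i))⁻¹ := by
  unfold nh
  rw [if_pos h, if_neg (by simp), if_neg h']

/-- the vertex rotation -/
noncomputable def sg : HP (Fin m × Fin K × Bool) (FreeGroup (Fin m)) :=
  ⟨Equiv.ofBijective (nx M hM hK) (Finite.injective_iff_bijective.mp (nx_injective M hM hK)), nh M⟩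

theorem sg_π (x) : (sg M hM hK).π x = nx M hM hK x := rfl
theorem sg_h (x) : (sg M hM hK).h x = nh M x := rfl

/-- the arcs -/
def al : HP (Fin m × Fin K × Bool) (FreeGroup (Fin m)) :=
  ⟨{ toFun := fun x => if x.2.1.1 < M x.1 then (x.1, x.2.1, !x.2.2) else x
     invFun := fun x => if x.2.1.1 < M x.1 then (x.1, x.2.1, !x.2.2) else x
     left_inv := by
      rintro ⟨i, k, b⟩
      by_cases h : k.1 < M i <;> simp [h]
     right_inv := by
      rintro ⟨i, k, b⟩
      by_cases h : k.1 < M i <;> simp [h] }, fun _ => 1⟩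

omit [NeZero m] in
theorem al_live {i : Fin m} {k : Fin K} {b : Bool} (h : k.1 < M i) :
    (al M).π (i, k, b) = (i, k, !b) := if_pos h

omit [NeZero m] in
theorem al_dead {i : Fin m} {k : Fin K} {b : Bool} (h : ¬ k.1 < M i) :
    (al M).π (i, k, b) = (i, k, b) := if_neg h

omit [NeZero m] in
theorem al_h (x : Fin m × Fin K × Bool) : (al M).h x = 1 := rfl

/-- closing is invariant under the rotation -/
theorem closing_step {D Γ : Type*} [Group Γ] (f : HP D Γ) (Y : Γ) {d : D}
    (h : ∃ N : ℕ, 0 < N ∧ (f ^ N).π d = d ∧ ∃ γ, (f ^ N).h d = γ * Y * γ⁻¹) :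
    ∃ N : ℕ, 0 < N ∧ (f ^ N).π (f.π d) = f.π d ∧ ∃ γ, (f ^ N).h (f.π d) = γ * Y * γ⁻¹ := by
  obtain ⟨N, hN, h1, γ, h2⟩ := h
  have e1 : (f ^ N).π (f.π d) = f.π ((f ^ N).π d) := by
    have h3 : (f ^ N * f).π d = (f * f ^ N).π d := by rw [← pow_succ, ← pow_succ']
    exact h3
  have e2 : f.h d * (f ^ N).h (f.π d) = (f ^ N).h d * f.h ((f ^ N).π d) := by
    have h3 : (f ^ N * f).h d = (f * f ^ N).h d := by rw [← pow_succ, ← pow_succ']
    exact h3
  rw [h1] at e1 e2
  refine ⟨N, hN, e1, (f.h d)⁻¹ * γ, ?_⟩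
  have e3 : (f ^ N).h (f.π d) = (f.h d)⁻¹ * ((f ^ N).h d * f.h d) := by
    rw [← e2, inv_mul_cancel_left]
  rw [e3, h2]
  group

theorem closing_pow {D Γ : Type*} [Group Γ] (f : HP D Γ) (Y : Γ) {d : D}
    (h : ∃ N : ℕ, 0 < N ∧ (f ^ N).π d = d ∧ ∃ γ, (f ^ N).h d = γ * Y * γ⁻¹) (j : ℕ) :
    ∃ N : ℕ, 0 < N ∧ (f ^ N).π ((f ^ j).π d) = (f ^ j).π d ∧
      ∃ γ, (f ^ N).h ((f ^ j).π d) = γ * Y * γ⁻¹ := by
  induction j with
  | zero => exact h
  | succ j ih =>
    have e : (f ^ (j + 1)).π d = f.π ((f ^ j).π d) := by rw [pow_succ']; rfl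
    rw [e]
    exact closing_step f Y ih

theorem run_in (i : Fin m) (j : ℕ) (hj : j < M i) :
    (sg M hM hK ^ j).π (i, ⟨0, (hM i).trans_le (hK i)⟩, true) = (i, ⟨j, hj.trans_le (hK i)⟩, true) ∧
      (sg M hM hK ^ j).h (i, ⟨0, (hM i).trans_le (hK i)⟩, true) = 1 := by
  induction j with
  | zero => exact ⟨rfl, rfl⟩
  | succ j ih =>
    obtain ⟨h1, h2⟩ := ih (by omega)
    rw [pow_succ', HP.mul_π, HP.mul_h, Perm.mul_apply, h1, h2, sg_π, sg_h,
      nx_in_succ M hM hK (k := ⟨j, _⟩) hj, nh_in_succ M (k := ⟨j, _⟩) hj]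
    exact ⟨rfl, by simp⟩

theorem closing_in (i : Fin m) (k : Fin K) (hk : k.1 < M i) :
    ∃ N : ℕ, 0 < N ∧ (sg M hM hK ^ N).π (i, k, true) = (i, k, true) ∧
      ∃ γ, (sg M hM hK ^ N).h (i, k, true) = γ * FreeGroup.of i * γ⁻¹ := by
  have h0 : ∃ N : ℕ, 0 < N ∧ (sg M hM hK ^ N).π (i, ⟨0, (hM i).trans_le (hK i)⟩, true) =
      (i, ⟨0, (hM i).trans_le (hK i)⟩, true) ∧
      ∃ γ, (sg M hM hK ^ N).h (i, ⟨0, (hM i).trans_le (hK i)⟩, true) = γ * FreeGroup.of i * γ⁻¹ := by
    have hMi := hM i
    refine ⟨M i - 1 + 1, by omega, ?_, 1, ?_⟩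
    · rw [pow_succ', HP.mul_π, Perm.mul_apply, (run_in M hM hK i (M i - 1) (by omega)).1, sg_π,
        nx_in_last M hM hK (k := ⟨M i - 1, _⟩) (by simp only; omega) (by simp only; omega)]
    · rw [pow_succ', HP.mul_h, (run_in M hM hK i (M i - 1) (by omega)).1,
        (run_in M hM hK i (M i - 1) (by omega)).2, sg_h,
        nh_in_last M (k := ⟨M i - 1, _⟩) (by simp only; omega) (by simp only; omega)]
      group
  have h1 := closing_pow (sg M hM hK) (FreeGroup.of i) h0 k.1
  rw [(run_in M hM hK i k.1 hk).1] at h1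
  exact h1

/-- running down one petal -/
theorem run_out (i : Fin m) (j : ℕ) (hj : j < M i) :
    (sg M hM hK ^ j).π (i, ⟨M i - 1, by have := hM i; have := hK i; omega⟩, false) =
      (i, ⟨M i - 1 - j, by have := hM i; have := hK i; omega⟩, false) ∧
      (sg M hM hK ^ j).h (i, ⟨M i - 1, by have := hM i; have := hK i; omega⟩, false) = 1 := by
  induction j with
  | zero => exact ⟨rfl, rfl⟩
  | succ j ih =>
    obtain ⟨h1, h2⟩ := ih (by omega)
    have hk : M i - 1 - j < M i := by omega
    have hk' : 0 < M i - 1 - j := by omega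
    rw [pow_succ', HP.mul_π, HP.mul_h, Perm.mul_apply, h1, h2, sg_π, sg_h,
      nx_out_pred M hM hK (k := ⟨M i - 1 - j, _⟩) hk hk', nh_out_pred M (k := ⟨M i - 1 - j, _⟩) hk hk']
    exact ⟨by simp only [Prod.mk.injEq, Fin.mk.injEq, true_and, and_true]; omega, by simp⟩

/-- one petal down: from the last dart of petal `i` to the last dart of petal `pr i` -/
theorem run_petal (i : Fin m) :
    (sg M hM hK ^ M (pr m i)).π (i, ⟨0, (hM i).trans_le (hK i)⟩, false) =
      (pr m i, ⟨0, (hM (pr m i)).trans_le (hK (pr m i))⟩, false) ∧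
      (sg M hM hK ^ M (pr m i)).h (i, ⟨0, (hM i).trans_le (hK i)⟩, false) =
        (FreeGroup.of (pr m i))⁻¹ := by
  have h1 := hM (pr m i)
  obtain ⟨h2, h3⟩ := run_out M hM hK (pr m i) (M (pr m i) - 1) (by omega)
  have e : M (pr m i) = M (pr m i) - 1 + 1 := by omega
  have e1 : (sg M hM hK ^ M (pr m i)) = sg M hM hK ^ (M (pr m i) - 1) * sg M hM hK := by
    conv_lhs => rw [e, pow_succ]
  rw [e1, HP.mul_π, HP.mul_h, Perm.mul_apply, sg_π, sg_h,
    nx_out_zero M hM hK (k := ⟨0, _⟩) (hM i) (by simp), nh_out_zero M (k := ⟨0, _⟩) (hM i) (by simp),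
    h2, h3]
  exact ⟨by simp only [Prod.mk.injEq, Fin.mk.injEq, true_and, and_true]; omega, by simp⟩

omit M hM hK in
theorem pr_val (i : Fin m) : (pr m i).1 = (i.1 + (m - 1)) % m := by
  have hm : 0 < m := Nat.pos_of_ne_zero (NeZero.ne m)
  rcases Nat.lt_or_ge 1 m with h | h
  · have h1 : ((1 : Fin m) : ℕ) = 1 := by
      rw [Fin.val_one', Nat.mod_eq_of_lt h]
    show (i - 1 : Fin m).1 = _
    rw [Fin.sub_def]
    simp only [h1]
    congr 1
    omega
  · have hm1 : m = 1 := by omega
    subst hm1
    rw [Nat.mod_one]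
    have := (pr 1 i).2
    omega

/-- tail products -/
noncomputable def Y (m j : ℕ) : FreeGroup (Fin m) :=
  ((List.ofFn fun i : Fin m => FreeGroup.of i).drop (m - j)).prod

theorem Y_succ (m j : ℕ) (hj : j < m) :
    Y m (j + 1) = FreeGroup.of ⟨m - (j + 1), by omega⟩ * Y m j := by
  unfold Y
  have hlen : m - (j + 1) < (List.ofFn fun i : Fin m => FreeGroup.of i).length := by
    rw [List.length_ofFn]; omega
  rw [List.drop_eq_getElem_cons hlen, List.prod_cons, List.getElem_ofFn]
  congr 3
  omega

theorem reach_zero (j : ℕ) (hj : j ≤ m) : ∃ N : ℕ, (0 < j → 0 < N) ∧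
    (sg M hM hK ^ N).π (0, ⟨0, (hM 0).trans_le (hK 0)⟩, false) =
      (⟨(m - j) % m, Nat.mod_lt _ (Nat.pos_of_ne_zero (NeZero.ne m))⟩, ⟨0, (hM 0).trans_le (hK 0)⟩, false) ∧
    (sg M hM hK ^ N).h (0, ⟨0, (hM 0).trans_le (hK 0)⟩, false) = (Y m j)⁻¹ := by
  induction j with
  | zero =>
    refine ⟨0, fun h => h, ?_, ?_⟩
    · show (_ : Fin m × Fin K × Bool) = _
      simp only [pow_zero, HP.one_π, Perm.one_apply, Prod.mk.injEq, and_true]
      apply Fin.ext
      simp
    · show (1 : FreeGroup (Fin m)) = _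
      unfold Y
      rw [Nat.sub_zero, List.drop_of_length_le (by rw [List.length_ofFn]), List.prod_nil, inv_one]
  | succ j ih =>
    obtain ⟨N, -, h1, h2⟩ := ih (by omega)
    have hm : 0 < m := Nat.pos_of_ne_zero (NeZero.ne m)
    obtain ⟨h3, h4⟩ := run_petal M hM hK ⟨(m - j) % m, Nat.mod_lt _ hm⟩
    have hpr : pr m ⟨(m - j) % m, Nat.mod_lt _ hm⟩ = ⟨m - (j + 1), by omega⟩ := by
      apply Fin.ext
      rw [pr_val]
      simp only
      rcases Nat.eq_zero_or_pos j with rfl | hj0
      · rw [Nat.sub_zero, Nat.mod_self, Nat.zero_add, Nat.mod_eq_of_lt (by omega)]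
      · rw [Nat.mod_eq_of_lt (show m - j < m by omega), show m - j + (m - 1) = (m - (j + 1)) + m by omega,
          Nat.add_mod_right, Nat.mod_eq_of_lt (by omega)]
    have hMpos := hM (pr m ⟨(m - j) % m, Nat.mod_lt _ hm⟩)
    refine ⟨M (pr m ⟨(m - j) % m, Nat.mod_lt _ hm⟩) + N, fun _ => by omega, ?_, ?_⟩
    · rw [pow_add, HP.mul_π, Perm.mul_apply, h1, h3, hpr]
      simp only [Prod.mk.injEq, Fin.mk.injEq, and_true]
      rw [Nat.mod_eq_of_lt (by omega)]
    · rw [pow_add, HP.mul_h, h1, h2, h4, hpr, Y_succ m j (by omega), mul_inv_rev]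

theorem closing_base : ∃ N : ℕ, 0 < N ∧
    (sg M hM hK ^ N).π (0, ⟨0, (hM 0).trans_le (hK 0)⟩, false) =
      (0, ⟨0, (hM 0).trans_le (hK 0)⟩, false) ∧
    ∃ γ, (sg M hM hK ^ N).h (0, ⟨0, (hM 0).trans_le (hK 0)⟩, false) =
      γ * ((List.ofFn fun i : Fin m => FreeGroup.of i).prod)⁻¹ * γ⁻¹ := by
  obtain ⟨N, h1, h2, h3⟩ := reach_zero M hM hK m le_rfl
  refine ⟨N, h1 (Nat.pos_of_ne_zero (NeZero.ne m)), ?_, 1, ?_⟩
  · rw [h2]
    simp only [Prod.mk.injEq, and_true]
    apply Fin.ext
    simp
  · rw [h3]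
    unfold Y
    rw [Nat.sub_self, List.drop_zero]
    group

theorem closing_out (i : Fin m) (k : Fin K) (hk : k.1 < M i) :
    ∃ N : ℕ, 0 < N ∧ (sg M hM hK ^ N).π (i, k, false) = (i, k, false) ∧
      ∃ γ, (sg M hM hK ^ N).h (i, k, false) =
        γ * ((List.ofFn fun i : Fin m => FreeGroup.of i).prod)⁻¹ * γ⁻¹ := by
  have hb := closing_base M hM hK
  -- reach `(i', 0, false)` with `pr i' = i`
  set i' := (pr m).symm i with hi'
  have hpr : pr m i' = i := by rw [hi', Equiv.apply_symm_apply]
  obtain ⟨N, -, h2, -⟩ := reach_zero M hM hK (m - i'.1) (by omega)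
  have hm : 0 < m := Nat.pos_of_ne_zero (NeZero.ne m)
  have e : (⟨(m - (m - i'.1)) % m, Nat.mod_lt _ hm⟩ : Fin m) = i' := by
    apply Fin.ext
    simp only
    have := i'.2
    rw [show m - (m - i'.1) = i'.1 by omega, Nat.mod_eq_of_lt this]
  rw [e] at h2
  have hMi := hM i
  obtain ⟨h3, -⟩ := run_out M hM hK i (M i - 1 - k.1) (by omega)
  have h4 : (sg M hM hK ^ (M i - 1 - k.1 + 1 + N)).π (0, ⟨0, (hM 0).trans_le (hK 0)⟩, false) =
      (i, k, false) := by
    rw [pow_add, pow_succ, HP.mul_π, HP.mul_π, Perm.mul_apply, Perm.mul_apply, h2, sg_π,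
      nx_out_zero M hM hK (i := i') (k := ⟨0, _⟩) (hM i') (by simp)]
    have h5 : ((pr m i', ⟨M (pr m i') - 1, by have := hM (pr m i'); have := hK (pr m i'); omega⟩, false) :
        Fin m × Fin K × Bool) =
        (i, ⟨M i - 1, by have := hM i; have := hK i; omega⟩, false) := by
      simp only [hpr]
    rw [h5, h3]
    simp only [Prod.mk.injEq, and_true, true_and]
    apply Fin.ext
    simp only
    omega
  have h6 := closing_pow (sg M hM hK) _ hb (M i - 1 - k.1 + 1 + N)
  rw [h4] at h6
  exact h6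

/-- face representatives -/
def rep (x : Fin m × Fin K × Bool) : Fin m × Fin K × Bool :=
  if x.2.1.1 < M x.1 then
    if x.2.2 = true then
      if 0 < x.2.1.1 then x else (0, ⟨0, (hM 0).trans_le (hK 0)⟩, true)
    else
      if h : x.2.1.1 + 1 < M x.1 then (x.1, ⟨x.2.1.1 + 1, h.trans_le (hK x.1)⟩, true)
      else (0, ⟨0, (hM 0).trans_le (hK 0)⟩, true)
  else x

/-- face holonomy correction -/
def adj (x : Fin m × Fin K × Bool) : FreeGroup (Fin m) :=
  if x.2.1.1 < M x.1 ∧ x.2.2 = false ∧ ¬ x.2.1.1 + 1 < M x.1 then FreeGroup.of x.1 else 1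

theorem rep_dead {i : Fin m} {k : Fin K} {b : Bool} (h : ¬ k.1 < M i) :
    rep M hM hK (i, k, b) = (i, k, b) := if_neg h

theorem rep_in_pos {i : Fin m} {k : Fin K} (h : k.1 < M i) (h' : 0 < k.1) :
    rep M hM hK (i, k, true) = (i, k, true) := by
  unfold rep
  rw [if_pos h, if_pos rfl, if_pos h']

theorem rep_in_zero {i : Fin m} {k : Fin K} (h : k.1 < M i) (h' : ¬ 0 < k.1) :
    rep M hM hK (i, k, true) = (0, ⟨0, (hM 0).trans_le (hK 0)⟩, true) := by
  unfold rep
  rw [if_pos h, if_pos rfl, if_neg h']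

theorem rep_out_succ {i : Fin m} {k : Fin K} (h : k.1 + 1 < M i) :
    rep M hM hK (i, k, false) = (i, ⟨k.1 + 1, h.trans_le (hK i)⟩, true) := by
  unfold rep
  rw [if_pos (show k.1 < M i by omega), if_neg (by simp), dif_pos h]

theorem rep_out_last {i : Fin m} {k : Fin K} (h : k.1 < M i) (h' : ¬ k.1 + 1 < M i) :
    rep M hM hK (i, k, false) = (0, ⟨0, (hM 0).trans_le (hK 0)⟩, true) := by
  unfold rep
  rw [if_pos h, if_neg (by simp), dif_neg h']

theorem rep_rep (x) : rep M hM hK (rep M hM hK x) = rep M hM hK x := by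
  obtain ⟨i, k, b⟩ := x
  by_cases h : k.1 < M i
  · rcases b with _ | _
    · by_cases h' : k.1 + 1 < M i
      · rw [rep_out_succ M hM hK h', rep_in_pos M hM hK (k := ⟨k.1 + 1, _⟩) h' (by simp)]
      · rw [rep_out_last M hM hK h h', rep_in_zero M hM hK (k := ⟨0, _⟩) (hM 0) (by simp)]
    · by_cases h' : 0 < k.1
      · rw [rep_in_pos M hM hK h h', rep_in_pos M hM hK h h']
      · rw [rep_in_zero M hM hK h h', rep_in_zero M hM hK (k := ⟨0, _⟩) (hM 0) (by simp)]
  · rw [rep_dead M hM hK h, rep_dead M hM hK h]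

theorem face_inv {H : Type} [Group H] (φ : FreeGroup (Fin m) →* H) (x : Fin m × Fin K × Bool) (η : H) :
    rep M hM hK ((sg M hM hK * al M).π x) = rep M hM hK x ∧
      η * φ ((sg M hM hK * al M).h x) * φ (adj M ((sg M hM hK * al M).π x)) = η * φ (adj M x) := by
  obtain ⟨i, k, b⟩ := x
  have e1 : (sg M hM hK * al M).π (i, k, b) = nx M hM hK ((al M).π (i, k, b)) := rfl
  have e2 : (sg M hM hK * al M).h (i, k, b) = 1 * nh M ((al M).π (i, k, b)) := rfl
  rw [e1, e2, one_mul]
  by_cases h : k.1 < M i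
  · rw [al_live M h]
    rcases b with _ | _
    · rw [Bool.not_false]
      by_cases h' : k.1 + 1 < M i
      · rw [nx_in_succ M hM hK h', nh_in_succ M h', rep_out_succ M hM hK h',
          rep_in_pos M hM hK (k := ⟨k.1 + 1, _⟩) h' (by simp)]
        refine ⟨rfl, ?_⟩
        unfold adj
        rw [if_neg (by simp), if_neg (by simp [h'])]
        simp
      · rw [nx_in_last M hM hK h h', nh_in_last M h h', rep_out_last M hM hK h h',
          rep_in_zero M hM hK (k := ⟨0, _⟩) (hM i) (by simp)]
        refine ⟨rfl, ?_⟩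
        unfold adj
        rw [if_neg (by simp), if_pos ⟨h, rfl, h'⟩]
        simp
    · rw [Bool.not_true]
      by_cases h' : 0 < k.1
      · have h2 : k.1 - 1 + 1 < M i := by omega
        rw [nx_out_pred M hM hK h h', nh_out_pred M h h', rep_in_pos M hM hK h h',
          rep_out_succ M hM hK (k := ⟨k.1 - 1, _⟩) h2]
        refine ⟨?_, ?_⟩
        · simp only [Prod.mk.injEq, and_true, true_and]
          apply Fin.ext
          simp only
          omega
        · unfold adj
          rw [if_neg (by simp [h2]), if_neg (by simp)]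
          simp
      · have h2 := hM (pr m i)
        rw [nx_out_zero M hM hK h h', nh_out_zero M h h', rep_in_zero M hM hK h h',
          rep_out_last M hM hK (k := ⟨M (pr m i) - 1, _⟩) (by simp only; omega) (by simp only; omega)]
        refine ⟨rfl, ?_⟩
        unfold adj
        rw [if_pos ⟨by simp only; omega, rfl, by simp only; omega⟩, if_neg (by simp)]
        simp
  · rw [al_dead M h, nx_dead M hM hK h, nh_dead M h]
    exact ⟨rfl, by simp⟩

/-- live darts -/
def live : Finset (Fin m × Fin K × Bool) := Finset.univ.filter fun x => x.2.1.1 < M x.1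

omit [NeZero m] in
theorem mem_live {i : Fin m} {k : Fin K} {b : Bool} : (i, k, b) ∈ live M ↔ k.1 < M i := by
  simp [live]

omit [NeZero m] in
theorem card_live : (live (K := K) M).card = 2 * ((live (K := K) M).filter fun x => x.2.2 = false).card := by
  have h1 := Finset.card_filter_add_card_filter_not (s := live (K := K) M) (fun x => x.2.2 = false)
  have h2 : ((live (K := K) M).filter fun x => ¬ x.2.2 = false).card =
      ((live (K := K) M).filter fun x => x.2.2 = false).card := by
    apply Finset.card_bij (fun x _ => (x.1, x.2.1, !x.2.2))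
    · rintro ⟨i, k, b⟩ hx
      simp only [Finset.mem_filter, mem_live] at hx ⊢
      exact ⟨hx.1, by simpa using hx.2⟩
    · rintro ⟨i, k, b⟩ _ ⟨i', k', b'⟩ _ h
      simpa using h
    · rintro ⟨i, k, b⟩ hx
      simp only [Finset.mem_filter, mem_live] at hx
      exact ⟨(i, k, !b), by simp [mem_live, hx.1, hx.2], by simp⟩
  omega

theorem card_fix : 2 * Fintype.card (Fin m × Fin K × Bool) + 2 ≤
    2 * Nat.card {x : Fin m × Fin K × Bool // rep M hM hK x = x} + (live (K := K) M).card + 2 * m := by
  classical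
  have hm : 0 < m := Nat.pos_of_ne_zero (NeZero.ne m)
  rw [Nat.card_eq_fintype_card, Fintype.card_subtype, card_live]
  have h1 := Finset.card_filter_add_card_filter_not (s := (Finset.univ : Finset (Fin m × Fin K × Bool)))
    (fun x => rep M hM hK x = x)
  rw [Finset.card_univ] at h1
  have h2 : (Finset.univ.filter fun x : Fin m × Fin K × Bool => ¬ rep M hM hK x = x) ⊆
      ((live (K := K) M).filter fun x => x.2.2 = false) ∪
        ((Finset.univ.erase (0 : Fin m)).image fun i => (i, ⟨0, (hM 0).trans_le (hK 0)⟩, true)) := by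
    rintro ⟨i, k, b⟩ hx
    simp only [Finset.mem_filter, Finset.mem_univ, true_and] at hx
    rw [Finset.mem_union]
    by_cases h : k.1 < M i
    · rcases b with _ | _
      · left
        simp [mem_live, h]
      · right
        by_cases h' : 0 < k.1
        · exact absurd (rep_in_pos M hM hK h h') hx
        · have hk0 : k = ⟨0, (hM 0).trans_le (hK 0)⟩ := by
            apply Fin.ext; simp only; omega
          rw [Finset.mem_image]
          refine ⟨i, ?_, by rw [← hk0]⟩
          rw [Finset.mem_erase]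
          refine ⟨fun h0 => hx ?_, Finset.mem_univ _⟩
          rw [rep_in_zero M hM hK h h', h0, hk0]
    · exact absurd (rep_dead M hM hK h) hx
  have h3 := (Finset.card_le_card h2).trans (Finset.card_union_le _ _)
  have h4 := Finset.card_image_le (s := Finset.univ.erase (0 : Fin m))
    (f := fun i => ((i, ⟨0, (hM 0).trans_le (hK 0)⟩, true) : Fin m × Fin K × Bool))
  rw [Finset.card_erase_of_mem (Finset.mem_univ _), Finset.card_univ, Fintype.card_fin] at h4
  omega

theorem euler_init (H : Type) [Group H] [Finite H] (φ : FreeGroup (Fin m) →* H) :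
    Nat.card H * (2 * Fintype.card (Fin m × Fin K × Bool) + 4) ≤
      2 * cyc (cov φ (sg M hM hK * al M)) +
        Nat.card H * (2 * (m + 1) + (live (K := K) M).card) := by
  have h1 := le_cyc_of_invariant (cov φ (sg M hM hK * al M))
    (Y := {x : Fin m × Fin K × Bool // rep M hM hK x = x} × H)
    (fun x => (⟨rep M hM hK x.1, rep_rep M hM hK x.1⟩, x.2 * φ (adj M x.1)))
    (by
      rintro ⟨x, η⟩
      obtain ⟨h1, h2⟩ := face_inv M hM hK φ x η
      rw [cov_apply]
      simp only [Prod.mk.injEq, Subtype.mk.injEq]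
      exact ⟨h1, h2⟩)
    (by
      rintro ⟨⟨z, hz⟩, η⟩
      refine ⟨(z, η), ?_⟩
      simp only [Prod.mk.injEq, Subtype.mk.injEq]
      refine ⟨hz, ?_⟩
      have : adj M z = 1 := by
        obtain ⟨i, k, b⟩ := z
        unfold adj
        split_ifs with h
        · exfalso
          obtain ⟨h2, h3, h4⟩ := h
          simp only at h2 h3 h4
          subst h3
          rw [rep_out_last M hM hK h2 h4] at hz
          simp at hz
        · rfl
      rw [this, map_one, mul_one])
  rw [Nat.card_prod] at h1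
  have h2 := card_fix M hM hK
  have h3 : Nat.card H * (2 * Fintype.card (Fin m × Fin K × Bool) + 2) ≤ Nat.card H *
      (2 * Nat.card {x : Fin m × Fin K × Bool // rep M hM hK x = x} + (live (K := K) M).card + 2 * m) :=
    Nat.mul_le_mul_left _ h2
  have h4 : Nat.card {x : Fin m × Fin K × Bool // rep M hM hK x = x} * Nat.card H =
    Nat.card H * Nat.card {x : Fin m × Fin K × Bool // rep M hM hK x = x} := mul_comm _ _
  rw [h4] at h1
  nlinarith

end

end Init

theorem exists_pic {G V : Type*} [Group G] [MulAction G V] {T : SimpleGraph V}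
    (hT : T.Connected) (act : ∀ (g : G) (u v : V), T.Adj u v → T.Adj (g • u) (g • v))
    {m : ℕ} (hm : 0 < m) (ρ : FreeGroup (Fin m) →* G)
    (v₀ : V) (hv : ∀ i, ρ (FreeGroup.of i) • v₀ ≠ v₀) :
    ∃ (D : Type) (_ : Fintype D) (_ : DecidableEq D), Nonempty (Pic T ρ (m + 1) (bdry m) D) := by
  classical
  have : NeZero m := ⟨hm.ne'⟩
  -- the petals
  have hwalk : ∀ i : Fin m, Nonempty (T.Walk v₀ (ρ (FreeGroup.of i) • v₀)) := fun i => hT _ _
  let p : ∀ i : Fin m, T.Walk v₀ (ρ (FreeGroup.of i) • v₀) := fun i => (hwalk i).some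
  let M : Fin m → ℕ := fun i => (p i).length
  have hM : ∀ i, 0 < M i := by
    intro i
    rw [Nat.pos_iff_ne_zero]
    intro h
    exact hv i ((SimpleGraph.Walk.eq_of_length_eq_zero h).symm)
  obtain ⟨K, hK⟩ : ∃ K, ∀ i, M i ≤ K :=
    ⟨Finset.univ.sup M, fun i => Finset.le_sup (Finset.mem_univ i)⟩
  let w : Fin m → ℕ → V := fun i k => (p i).getVert k
  have hw0 : ∀ i, w i 0 = v₀ := fun i => (p i).getVert_zero
  have hwM : ∀ i, w i (M i) = ρ (FreeGroup.of i) • v₀ := fun i => (p i).getVert_length
  have hadj : ∀ i k, k < M i → T.Adj (w i k) (w i (k + 1)) := fun i k hk =>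
    (p i).adj_getVert_succ hk
  let o : Fin m × Fin K × Bool → V := fun x => if x.2.2 = true then w x.1 x.2.1.1 else w x.1 (x.2.1.1 + 1)
  let t : Fin m × Fin K × Bool → V := fun x => if x.2.2 = true then w x.1 (x.2.1.1 + 1) else w x.1 x.2.1.1
  have o_in : ∀ i (k : Fin K), o (i, k, true) = w i k.1 := fun i k => rfl
  have o_out : ∀ i (k : Fin K), o (i, k, false) = w i (k.1 + 1) := fun i k => rfl
  have t_in : ∀ i (k : Fin K), t (i, k, true) = w i (k.1 + 1) := fun i k => rfl
  have t_out : ∀ i (k : Fin K), t (i, k, false) = w i k.1 := fun i k => rfl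
  refine ⟨Fin m × Fin K × Bool, inferInstance, inferInstance, ⟨{
    S := Init.live M
    σ := Init.sg M hM hK
    α := Init.al M
    o := o
    t := t
    vert := fun x => if x.2.2 = true then x.1.castSucc else Fin.last m
    σ_mem := ?_
    α_mem := ?_
    σ_dead := ?_
    α_dead := ?_
    α_inv := ?_
    α_ne := ?_
    adj := ?_
    step := ?_
    flip_o := ?_
    flip_t := ?_
    vert_σ := ?_
    vert_ne := ?_
    closing := ?_
    euler := ?_ }⟩⟩
  · rintro ⟨i, k, b⟩ h
    rw [Init.mem_live] at h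
    have h1 := hM (Init.pr m i)
    rw [Init.sg_π]
    rcases b with _ | _
    · by_cases h' : 0 < k.1
      · rw [Init.nx_out_pred M hM hK h h', Init.mem_live]
        simp only; omega
      · rw [Init.nx_out_zero M hM hK h h', Init.mem_live]
        simp only; omega
    · by_cases h' : k.1 + 1 < M i
      · rw [Init.nx_in_succ M hM hK h', Init.mem_live]
        exact h'
      · rw [Init.nx_in_last M hM hK h h', Init.mem_live]
        exact hM i
  · rintro ⟨i, k, b⟩ h
    rw [Init.mem_live] at h
    rw [Init.al_live M h, Init.mem_live]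
    exact h
  · rintro ⟨i, k, b⟩ h
    rw [Init.mem_live] at h
    exact ⟨Init.nx_dead M hM hK h, Init.nh_dead M h⟩
  · rintro ⟨i, k, b⟩ h
    rw [Init.mem_live] at h
    exact ⟨Init.al_dead M h, rfl⟩
  · apply HP.ext
    · apply Equiv.ext
      rintro ⟨i, k, b⟩
      rw [HP.mul_π, Perm.mul_apply]
      by_cases h : k.1 < M i
      · rw [Init.al_live M h, Init.al_live M h, Bool.not_not]
        rfl
      · rw [Init.al_dead M h, Init.al_dead M h]
        rfl
    · funext x
      rw [HP.mul_h, Init.al_h, Init.al_h, mul_one]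
      rfl
  · rintro ⟨i, k, b⟩ h
    rw [Init.mem_live] at h
    rw [Init.al_live M h]
    rcases b with _ | _ <;> simp
  · rintro ⟨i, k, b⟩ h
    rw [Init.mem_live] at h
    rcases b with _ | _
    · rw [o_out, t_out]
      exact (hadj i k.1 h).symm
    · rw [o_in, t_in]
      exact hadj i k.1 h
  · rintro ⟨i, k, b⟩ h
    rw [Init.mem_live] at h
    have h1 := hM (Init.pr m i)
    rw [Init.sg_π, Init.sg_h]
    rcases b with _ | _
    · by_cases h' : 0 < k.1
      · rw [Init.nx_out_pred M hM hK h h', Init.nh_out_pred M h h', o_out, t_out, map_one, one_smul]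
        simp only
        rw [show k.1 - 1 + 1 = k.1 by omega]
      · rw [Init.nx_out_zero M hM hK h h', Init.nh_out_zero M h h', o_out, t_out]
        simp only
        rw [show M (Init.pr m i) - 1 + 1 = M (Init.pr m i) by omega, hwM, map_inv, inv_smul_smul,
          show k.1 = 0 by omega, hw0]
    · by_cases h' : k.1 + 1 < M i
      · rw [Init.nx_in_succ M hM hK h', Init.nh_in_succ M h', o_in, t_in, map_one, one_smul]
      · rw [Init.nx_in_last M hM hK h h', Init.nh_in_last M h h', o_in, t_in]
        simp only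
        rw [hw0, show k.1 + 1 = M i by omega, hwM]
  · rintro ⟨i, k, b⟩ h
    rw [Init.mem_live] at h
    rw [Init.al_live M h, Init.al_h, map_one, one_smul]
    rcases b with _ | _
    · rw [Bool.not_false, o_in, t_out]
    · rw [Bool.not_true, o_out, t_in]
  · rintro ⟨i, k, b⟩ h
    rw [Init.mem_live] at h
    rw [Init.al_live M h, Init.al_h, map_one, one_smul]
    rcases b with _ | _
    · rw [Bool.not_false, t_in, o_out]
    · rw [Bool.not_true, t_out, o_in]
  · rintro ⟨i, k, b⟩
    rw [Init.sg_π]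
    by_cases h : k.1 < M i
    · rcases b with _ | _
      · by_cases h' : 0 < k.1
        · rw [Init.nx_out_pred M hM hK h h']
        · rw [Init.nx_out_zero M hM hK h h']
          simp
      · by_cases h' : k.1 + 1 < M i
        · rw [Init.nx_in_succ M hM hK h']
        · rw [Init.nx_in_last M hM hK h h']
    · rw [Init.nx_dead M hM hK h]
  · intro i
    refine Fin.lastCases ?_ (fun i => ?_) i
    · exact ⟨(0, ⟨0, (hM 0).trans_le (hK 0)⟩, false), (Init.mem_live M).mpr (hM 0), by simp⟩
    · exact ⟨(i, ⟨0, (hM i).trans_le (hK i)⟩, true), (Init.mem_live M).mpr (hM i), by simp⟩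
  · rintro ⟨i, k, b⟩ h
    rw [Init.mem_live] at h
    rcases b with _ | _
    · have h1 := Init.closing_out M hM hK i k h
      simpa [bdry] using h1
    · have h1 := Init.closing_in M hM hK i k h
      simpa [bdry] using h1
  · intro H _ _ φ
    exact Init.euler_init M hM hK H φ

end Pool.Agent.WTT
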