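import Pool.Agent.WTT.SeifAlg

/-! The abelianisation of the kernel of `ℤ/k * B → ℤ/p` for `p ∣ k`. -/

namespace Pool.Agent.WTT

open Monoid

section KerAb

variable {k p : ℕ} (hpk : p ∣ k)

/-- Reduction `ℤ/k → ℤ/p`. -/
def red : Multiplicative (ZMod k) →* Multiplicative (ZMod p) :=
  AddMonoidHom.toMultiplicative (ZMod.castHom hpk (ZMod p)).toAddMonoidHom

theorem red_ofAdd (x : ZMod k) :
    red hpk (Multiplicative.ofAdd x) = Multiplicative.ofAdd (ZMod.castHom hpk (ZMod p) x) := rfl

theorem red_surjective : Function.Surjective (red hpk) := by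
  intro y
  obtain ⟨x, hx⟩ := ZMod.castHom_surjective hpk y.toAdd
  exact ⟨Multiplicative.ofAdd x, by rw [red_ofAdd, hx]; rfl⟩

theorem card_red_ker [NeZero k] : Nat.card (red hpk).ker = k / p := by
  have h := Subgroup.card_mul_index (red hpk).ker
  rw [Subgroup.index_ker, MonoidHom.range_eq_top.2 (red_surjective hpk)] at h
  have h1 : Nat.card (⊤ : Subgroup (Multiplicative (ZMod p))) = p :=
    Subgroup.card_top.trans (Nat.card_zmod p)
  have h2 : Nat.card (Multiplicative (ZMod k)) = k := Nat.card_zmod k
  rw [h1, h2] at h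
  have hp : 0 < p := Nat.pos_of_dvd_of_pos hpk (Nat.pos_of_neZero k)
  exact Nat.eq_div_of_mul_eq_left hp.ne' h

variable (B : Type*) [Group B]

/-- The kernel of `ℤ/k * B → ℤ/p`. -/
def kerp : Subgroup (Coprod (Multiplicative (ZMod k)) B) :=
  ((red hpk).comp Coprod.fst).ker

variable {B}

theorem mem_kerp {x : Coprod (Multiplicative (ZMod k)) B} :
    x ∈ kerp hpk B ↔ red hpk (Coprod.fst x) = 1 := Iff.rfl

/-- The shift action of `ℤ/p`. -/
def shift (p : ℕ) (D : Type*) [CommGroup D] : Multiplicative (ZMod p) →* MulAut (ZMod p → D) where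
  toFun z :=
    { toFun := fun f i => f (i - z.toAdd)
      invFun := fun f i => f (i + z.toAdd)
      left_inv := fun f => by ext i; simp
      right_inv := fun f => by ext i; simp
      map_mul' := fun f g => rfl }
  map_one' := by
    ext f i
    simp
  map_mul' z w := by
    ext f i
    simp [sub_sub, add_comm]

theorem shift_apply (D : Type*) [CommGroup D] (z : Multiplicative (ZMod p)) (f : ZMod p → D)
    (i : ZMod p) : shift p D z f i = f (i - z.toAdd) := rfl

theorem shift_single (D : Type*) [CommGroup D] (i : ZMod p) (d : D) :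
    shift p D (Multiplicative.ofAdd i) (Pi.mulSingle 0 d) = Pi.mulSingle i d := by
  ext j
  rw [shift_apply]
  by_cases h : j = i
  · subst h
    simp
  · rw [Pi.mulSingle_eq_of_ne h, Pi.mulSingle_eq_of_ne]
    simpa [sub_eq_zero] using h

/-- The map to the wreath product. -/
noncomputable def wr : Coprod (Multiplicative (ZMod k)) B →*
    (ZMod p → Abelianization B) ⋊[shift p (Abelianization B)] Multiplicative (ZMod p) :=
  Coprod.lift (SemidirectProduct.inr.comp (red hpk))
    (SemidirectProduct.inl.comp
      ((MonoidHom.mulSingle (fun _ : ZMod p => Abelianization B) 0).comp Abelianization.of))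

theorem wr_right (x : Coprod (Multiplicative (ZMod k)) B) :
    (wr hpk x).right = red hpk (Coprod.fst x) := by
  have h : SemidirectProduct.rightHom.comp (wr hpk) = (red hpk).comp (Coprod.fst :
      Coprod (Multiplicative (ZMod k)) B →* _) := by
    apply Coprod.hom_ext
    · ext z
      simp [wr]
    · ext b
      simp [wr]
  exact DFunLike.congr_fun h x

/-- The components of an element of the kernel. -/
noncomputable def comps : kerp hpk B →* (ZMod p → Abelianization B) where
  toFun x := (wr hpk x.1).left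
  map_one' := by simp
  map_mul' x y := by
    have h : (wr hpk x.1).right = 1 := by rw [wr_right]; exact x.2
    simp [h]

theorem comps_apply (x : kerp hpk B) : comps hpk x = (wr hpk x.1).left := rfl

/-- The first projection of the kernel. -/
noncomputable def fstK : kerp hpk B →* (red hpk).ker :=
  ((Coprod.fst : Coprod (Multiplicative (ZMod k)) B →* _).comp (kerp hpk B).subtype).codRestrict _
    (fun x => x.2)

/-- A lift of `i` to `ℤ/k`. -/
def rep (k : ℕ) (i : ZMod p) : Multiplicative (ZMod k) := Multiplicative.ofAdd ((i.val : ℕ) : ZMod k)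

theorem red_rep [NeZero p] (i : ZMod p) : red hpk (rep k i) = Multiplicative.ofAdd i := by
  rw [rep, red_ofAdd, map_natCast, ZMod.natCast_zmod_val]

theorem conj_mem_kerp (z : Multiplicative (ZMod k)) (b : B) :
    (Coprod.inl z * Coprod.inr b * (Coprod.inl z)⁻¹ : Coprod (Multiplicative (ZMod k)) B) ∈
      kerp hpk B := by
  rw [mem_kerp]
  simp

/-- Conjugation of `B` by `z`. -/
noncomputable def conjHom (z : Multiplicative (ZMod k)) : B →* kerp hpk B where
  toFun b := ⟨_, conj_mem_kerp hpk z b⟩
  map_one' := by ext; simp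
  map_mul' b b' := by ext; simp [mul_assoc]

/-- The factor `ker (ℤ/k → ℤ/p)` in the kernel. -/
noncomputable def inlK : (red hpk).ker →* kerp hpk B where
  toFun z := ⟨Coprod.inl z.1, by
    rw [mem_kerp, Coprod.fst_apply_inl]
    exact z.2⟩
  map_one' := by ext; simp
  map_mul' b b' := by ext; simp

/-- The map from the sum to the abelianisation of the kernel. -/
noncomputable def sumHom [NeZero p] : (ZMod p → Abelianization B) × (red hpk).ker →*
    Abelianization (kerp hpk B) :=
  MonoidHom.coprod
    (∏ i : ZMod p, (Abelianization.lift (Abelianization.of.comp (conjHom hpk (rep k i)))).comp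
      (Pi.evalMonoidHom _ i))
    (Abelianization.of.comp (inlK hpk))

/-- The map back. -/
noncomputable def backHom : Abelianization (kerp hpk B) →*
    (ZMod p → Abelianization B) × (red hpk).ker :=
  Abelianization.lift ((comps hpk).prod (fstK hpk))

theorem back_conj [NeZero p] (i : ZMod p) (b : B) :
    backHom hpk (Abelianization.of (conjHom hpk (rep k i) b)) =
      (Pi.mulSingle i (Abelianization.of b), 1) := by
  rw [backHom, Abelianization.lift_apply_of]
  refine Prod.ext ?_ ?_
  · show (wr hpk (Coprod.inl (rep k i) * Coprod.inr b * (Coprod.inl (rep k i))⁻¹)).left = _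
    have h : wr hpk (Coprod.inl (rep k i) * Coprod.inr b * (Coprod.inl (rep k i))⁻¹) =
        SemidirectProduct.inl (Pi.mulSingle i (Abelianization.of b)) := by
      rw [map_mul, map_mul, map_inv, ← shift_single, SemidirectProduct.inl_aut, ← red_rep hpk i]
      simp [wr]
    rw [h, SemidirectProduct.left_inl]
  · refine Subtype.ext ?_
    show Coprod.fst (Coprod.inl (rep k i) * Coprod.inr b * (Coprod.inl (rep k i))⁻¹) =
      (1 : Multiplicative (ZMod k))
    simp

theorem back_inl (z : (red hpk).ker) :
    backHom hpk (Abelianization.of (inlK (B := B) hpk z)) = (1, z) := by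
  rw [backHom, Abelianization.lift_apply_of]
  refine Prod.ext ?_ ?_
  · show (wr hpk (Coprod.inl z.1)).left = _
    have h : wr hpk (Coprod.inl z.1 : Coprod (Multiplicative (ZMod k)) B) = 1 := by
      have hz : red hpk z.1 = 1 := z.2
      simp [wr, hz]
    rw [h, SemidirectProduct.one_left]
  · refine Subtype.ext ?_
    show Coprod.fst (Coprod.inl z.1 : Coprod (Multiplicative (ZMod k)) B) = z.1
    simp

theorem back_sum [NeZero p] (x : (ZMod p → Abelianization B) × (red hpk).ker) :
    backHom hpk (sumHom hpk x) = x := by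
  obtain ⟨f, z⟩ := x
  have h1 : ∀ i : ZMod p, backHom hpk
      ((Abelianization.lift (Abelianization.of.comp (conjHom hpk (rep k i)))) (f i)) =
      (Pi.mulSingle i (f i), 1) := by
    intro i
    obtain ⟨b, hb⟩ := QuotientGroup.mk_surjective (f i)
    have hb' : Abelianization.of b = f i := hb
    rw [← hb', Abelianization.lift_apply_of]
    exact back_conj hpk i b
  rw [sumHom, MonoidHom.coprod_apply, map_mul, MonoidHom.finsetProd_apply, map_prod]
  simp only [MonoidHom.comp_apply, Pi.evalMonoidHom_apply, h1, back_inl]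
  refine Prod.ext ?_ ?_
  · rw [Prod.fst_mul, Prod.fst_prod]
    simp only [mul_one]
    exact Finset.univ_prod_mulSingle f
  · rw [Prod.snd_mul, Prod.snd_prod]
    simp

theorem sumHom_surjective [NeZero p] : Function.Surjective (sumHom (B := B) hpk) := by
  set R := (sumHom (B := B) hpk).range with hR
  have hs : ∀ (i : ZMod p) (b : B), Abelianization.of (conjHom hpk (rep k i) b) ∈ R := by
    intro i b
    refine ⟨(Pi.mulSingle i (Abelianization.of b), 1), ?_⟩
    rw [sumHom, MonoidHom.coprod_apply, MonoidHom.finsetProd_apply, map_one, mul_one,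
      Finset.prod_eq_single i]
    · simp
    · intro j _ hj
      simp [Pi.mulSingle_eq_of_ne hj]
    · intro h
      exact absurd (Finset.mem_univ i) h
  have hl : ∀ z : (red hpk).ker, Abelianization.of (inlK (B := B) hpk z) ∈ R := by
    intro z
    refine ⟨(1, z), ?_⟩
    rw [sumHom, MonoidHom.coprod_apply]
    simp
  -- conjugation in the abelianisation
  have hc : ∀ x y : kerp hpk B, Abelianization.of (x * y * x⁻¹) = Abelianization.of y := by
    intro x y
    rw [map_mul, map_mul, map_inv, mul_comm, inv_mul_cancel_left]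
  have hz : ∀ (z : Multiplicative (ZMod k)) (b : B),
      Abelianization.of (conjHom hpk z b) ∈ R := by
    intro z b
    set i : ZMod p := (red hpk z).toAdd with hi
    have hz' : z * (rep k i)⁻¹ ∈ (red hpk).ker := by
      rw [MonoidHom.mem_ker, map_mul, map_inv, red_rep]
      rw [hi, ofAdd_toAdd, mul_inv_cancel]
    have e : conjHom hpk z b = inlK hpk ⟨z * (rep k i)⁻¹, hz'⟩ * conjHom hpk (rep k i) b *
        (inlK hpk ⟨z * (rep k i)⁻¹, hz'⟩)⁻¹ := by
      ext
      show (Coprod.inl z * Coprod.inr b * (Coprod.inl z)⁻¹ :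
        Coprod (Multiplicative (ZMod k)) B) = Coprod.inl (z * (rep k i)⁻¹) *
        (Coprod.inl (rep k i) * Coprod.inr b * (Coprod.inl (rep k i))⁻¹) *
        (Coprod.inl (z * (rep k i)⁻¹))⁻¹
      simp only [map_mul, map_inv]
      group
    rw [e, hc]
    exact hs i b
  -- elements with trivial first projection
  have hn : ∀ x ∈ Subgroup.normalClosure (Set.range
      (Coprod.inr : B →* Coprod (Multiplicative (ZMod k)) B)),
      ∃ hx : x ∈ kerp hpk B, Abelianization.of (⟨x, hx⟩ : kerp hpk B) ∈ R := by
    intro x hx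
    have hle : ∀ y ∈ Subgroup.normalClosure (Set.range
        (Coprod.inr : B →* Coprod (Multiplicative (ZMod k)) B)), y ∈ kerp hpk B := by
      have : Subgroup.normalClosure (Set.range
          (Coprod.inr : B →* Coprod (Multiplicative (ZMod k)) B)) ≤ kerp hpk B := by
        have : (kerp hpk B).Normal := MonoidHom.normal_ker _
        apply Subgroup.normalClosure_le_normal
        rintro _ ⟨b, rfl⟩
        show _ ∈ kerp hpk B
        rw [mem_kerp]
        simp
      exact fun y hy => this hy
    rw [Subgroup.normalClosure] at hx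
    induction hx using Subgroup.closure_induction with
    | mem y hy =>
      rw [Group.mem_conjugatesOfSet_iff] at hy
      obtain ⟨z, ⟨b, rfl⟩, hy⟩ := hy
      rw [isConj_iff] at hy
      obtain ⟨c, rfl⟩ := hy
      have hmem : c * Coprod.inr b * c⁻¹ ∈ kerp hpk B := by
        rw [mem_kerp]
        simp
      refine ⟨hmem, ?_⟩
      have hu : c * (Coprod.inl (Coprod.fst c))⁻¹ ∈ kerp hpk B := by
        rw [mem_kerp]
        simp
      have e : (⟨c * Coprod.inr b * c⁻¹, hmem⟩ : kerp hpk B) =
          ⟨c * (Coprod.inl (Coprod.fst c))⁻¹, hu⟩ * conjHom hpk (Coprod.fst c) b *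
          (⟨c * (Coprod.inl (Coprod.fst c))⁻¹, hu⟩)⁻¹ := by
        ext
        show c * Coprod.inr b * c⁻¹ = c * (Coprod.inl (Coprod.fst c))⁻¹ *
          (Coprod.inl (Coprod.fst c) * Coprod.inr b * (Coprod.inl (Coprod.fst c))⁻¹) *
          (c * (Coprod.inl (Coprod.fst c))⁻¹)⁻¹
        group
      rw [e, hc]
      exact hz _ b
    | one => exact ⟨Subgroup.one_mem _, by
        have : (⟨1, Subgroup.one_mem _⟩ : kerp hpk B) = 1 := rfl
        rw [this, map_one]
        exact R.one_mem⟩
    | mul x y _ _ hx hy =>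
      obtain ⟨hx1, hx2⟩ := hx
      obtain ⟨hy1, hy2⟩ := hy
      refine ⟨Subgroup.mul_mem _ hx1 hy1, ?_⟩
      have : (⟨x * y, Subgroup.mul_mem _ hx1 hy1⟩ : kerp hpk B) = ⟨x, hx1⟩ * ⟨y, hy1⟩ := rfl
      rw [this, map_mul]
      exact R.mul_mem hx2 hy2
    | inv x _ hx =>
      obtain ⟨hx1, hx2⟩ := hx
      refine ⟨Subgroup.inv_mem _ hx1, ?_⟩
      have : (⟨x⁻¹, Subgroup.inv_mem _ hx1⟩ : kerp hpk B) = ⟨x, hx1⟩⁻¹ := rfl
      rw [this, map_inv]
      exact R.inv_mem hx2
  intro y
  obtain ⟨⟨x, hx⟩, rfl⟩ := QuotientGroup.mk_surjective y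
  show Abelianization.of (⟨x, hx⟩ : kerp hpk B) ∈ R
  have h1 : x * (Coprod.inl (Coprod.fst x))⁻¹ ∈ Subgroup.normalClosure (Set.range
      (Coprod.inr : B →* Coprod (Multiplicative (ZMod k)) B)) := by
    apply coprod_mem_normalClosure
    simp
  obtain ⟨h2, h3⟩ := hn _ h1
  have e : (⟨x, hx⟩ : kerp hpk B) = ⟨_, h2⟩ * inlK hpk ⟨Coprod.fst x, hx⟩ := by
    ext
    show x = x * (Coprod.inl (Coprod.fst x))⁻¹ * Coprod.inl (Coprod.fst x)
    group
  rw [e, map_mul]
  exact R.mul_mem h3 (hl _)

/-- The order of the abelianisation of the kernel. -/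
theorem card_abelianization_kerp [NeZero k] (B : Type*) [Group B] :
    Nat.card (Abelianization (kerp hpk B)) = Nat.card (Abelianization B) ^ p * (k / p) := by
  have hp : 0 < p := Nat.pos_of_dvd_of_pos hpk (Nat.pos_of_neZero k)
  have : NeZero p := ⟨hp.ne'⟩
  have e : ((ZMod p → Abelianization B) × (red hpk).ker) ≃ Abelianization (kerp hpk B) :=
    Equiv.ofBijective (sumHom hpk)
      ⟨Function.LeftInverse.injective (back_sum hpk), sumHom_surjective hpk⟩
  rw [← Nat.card_congr e, Nat.card_prod, Nat.card_fun, card_red_ker]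
  simp

end KerAb

end Pool.Agent.WTT
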