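import Mathlib

/-! Row RF: finitely many non-trivial elements of a free group survive in a finite quotient. -/

namespace Pool.Agent.WTT

open FreeGroup

/-- extension of partial injections on a finite type -/
theorem extend_partial {V : Type*} [Finite V] (R : V → V → Prop)
    (hf : ∀ x y y', R x y → R x y' → y = y') (hi : ∀ x x' y, R x y → R x' y → x = x') :
    ∃ σ : Equiv.Perm V, ∀ x y, R x y → σ x = y := by
  classical
  have := Fintype.ofFinite V
  let p : V → Prop := fun x => ∃ y, R x y
  let q : V → Prop := fun y => ∃ x, R x y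
  let e : {x // p x} ≃ {y // q y} :=
    { toFun := fun x => ⟨x.2.choose, ⟨x.1, x.2.choose_spec⟩⟩
      invFun := fun y => ⟨y.2.choose, ⟨y.1, y.2.choose_spec⟩⟩
      left_inv := by
        intro x
        apply Subtype.ext
        have h1 := x.2.choose_spec
        have h2 : ∃ z, R z x.2.choose := ⟨x.1, h1⟩
        exact hi _ _ _ h2.choose_spec h1
      right_inv := by
        intro y
        apply Subtype.ext
        have h1 := y.2.choose_spec
        have h2 : ∃ z, R y.2.choose z := ⟨y.1, h1⟩
        exact hf _ _ _ h2.choose_spec h1 }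
  refine ⟨e.extendSubtype, fun x y hxy => ?_⟩
  have hx : p x := ⟨y, hxy⟩
  rw [Equiv.extendSubtype_apply_of_mem e x hx]
  exact hf _ _ _ hx.choose_spec hxy

/-- a nontrivial reduced word acts nontrivially on a path of points -/
theorem exists_perm {α : Type*} (L : List (α × Bool)) (hL : FreeGroup.IsReduced L) :
    ∃ f : α → Equiv.Perm (Fin (L.length + 1)),
      ∀ j (hj : j < L.length), ((L[j]).2 = true → f (L[j]).1 ⟨j + 1, by omega⟩ = ⟨j, by omega⟩) ∧
        ((L[j]).2 = false → f (L[j]).1 ⟨j, by omega⟩ = ⟨j + 1, by omega⟩) := by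
  classical
  have hred : ∀ j (hj : j + 1 < L.length), (L[j]).1 = (L[j + 1]).1 → (L[j]).2 = (L[j + 1]).2 := by
    intro j hj h1
    have := hL
    rw [FreeGroup.IsReduced, List.isChain_iff_getElem] at this
    exact this j hj h1
  have key : ∀ a : α, ∃ σ : Equiv.Perm (Fin (L.length + 1)), ∀ x y,
      ((∃ j, ∃ hj : j < L.length, L[j] = (a, true) ∧ x.1 = j + 1 ∧ y.1 = j) ∨
        (∃ j, ∃ hj : j < L.length, L[j] = (a, false) ∧ x.1 = j ∧ y.1 = j + 1)) → σ x = y := by
    intro a
    apply extend_partial
    · rintro x y y' (⟨j, hj, h1, h2, h3⟩ | ⟨j, hj, h1, h2, h3⟩) (⟨i, hi, g1, g2, g3⟩ | ⟨i, hi, g1, g2, g3⟩)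
      · apply Fin.ext; omega
      · exfalso
        have hij : i = j + 1 := by omega
        subst hij
        have := hred j hi (by rw [h1, g1])
        rw [h1, g1] at this
        simp at this
      · exfalso
        have hij : j = i + 1 := by omega
        subst hij
        have := hred i hj (by rw [h1, g1])
        rw [h1, g1] at this
        simp at this
      · apply Fin.ext; omega
    · rintro x x' y (⟨j, hj, h1, h2, h3⟩ | ⟨j, hj, h1, h2, h3⟩) (⟨i, hi, g1, g2, g3⟩ | ⟨i, hi, g1, g2, g3⟩)
      · apply Fin.ext; omega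
      · exfalso
        have hij : j = i + 1 := by omega
        subst hij
        have := hred i hj (by rw [h1, g1])
        rw [h1, g1] at this
        simp at this
      · exfalso
        have hij : i = j + 1 := by omega
        subst hij
        have := hred j hi (by rw [h1, g1])
        rw [h1, g1] at this
        simp at this
      · apply Fin.ext; omega
  choose f hf using key
  refine ⟨f, fun j hj => ⟨fun h => ?_, fun h => ?_⟩⟩
  · apply hf
    left
    exact ⟨j, hj, by rw [← h], rfl, rfl⟩
  · apply hf
    right
    exact ⟨j, hj, by rw [← h], rfl, rfl⟩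

/-- residual finiteness of free groups -/
theorem exists_finite_hom {α : Type*} (g : FreeGroup α) (hg : g ≠ 1) :
    ∃ (n : ℕ) (φ : FreeGroup α →* Equiv.Perm (Fin n)), φ g ≠ 1 := by
  classical
  set L := g.toWord with hLdef
  have hL : FreeGroup.IsReduced L := isReduced_toWord
  obtain ⟨f, hf⟩ := exists_perm L hL
  refine ⟨L.length + 1, FreeGroup.lift f, fun hcon => ?_⟩
  have hlen : 0 < L.length := by
    rw [List.length_pos_iff]
    intro h
    exact hg (toWord_eq_nil_iff.mp h)
  have key : ∀ i (hi : i ≤ L.length),
      (FreeGroup.lift f (mk (L.drop (L.length - i)))) ⟨L.length, by omega⟩ =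
        ⟨L.length - i, by omega⟩ := by
    intro i
    induction i with
    | zero =>
      intro _
      simp only [Nat.sub_zero, List.drop_length]
      have : (mk ([] : List (α × Bool))) = 1 := rfl
      rw [this, _root_.map_one]
      rfl
    | succ i ih =>
      intro hi
      have h1 := ih (by omega)
      have hj : L.length - (i + 1) < L.length := by omega
      have h2 : L.drop (L.length - (i + 1)) = L[L.length - (i + 1)] :: L.drop (L.length - i) := by
        rw [List.drop_eq_getElem_cons hj]
        congr 2
        omega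
      rw [h2]
      have h3 : (mk (L[L.length - (i + 1)] :: L.drop (L.length - i)) : FreeGroup α) =
          mk [L[L.length - (i + 1)]] * mk (L.drop (L.length - i)) := by
        rw [mul_mk]; rfl
      rw [h3, _root_.map_mul, Equiv.Perm.mul_apply, h1]
      obtain ⟨ht, hfa⟩ := hf (L.length - (i + 1)) hj
      have hidx : (⟨L.length - i, by omega⟩ : Fin (L.length + 1)) =
          ⟨L.length - (i + 1) + 1, by omega⟩ := by
        apply Fin.ext; simp only; omega
      rw [hidx]
      rcases hb : (L[L.length - (i + 1)]).2 with _ | _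
      · have h4 := hfa hb
        have h5 : (mk [L[L.length - (i + 1)]] : FreeGroup α) =
            (FreeGroup.of (L[L.length - (i + 1)]).1)⁻¹ := by
          rw [show L[L.length - (i + 1)] = ((L[L.length - (i + 1)]).1, false) by rw [← hb]]
          rfl
        rw [h5, _root_.map_inv, lift_apply_of, Equiv.Perm.inv_eq_iff_eq]
        exact h4.symm
      · have h4 := ht hb
        have h5 : (mk [L[L.length - (i + 1)]] : FreeGroup α) =
            (FreeGroup.of (L[L.length - (i + 1)]).1) := by
          rw [show L[L.length - (i + 1)] = ((L[L.length - (i + 1)]).1, true) by rw [← hb]]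
          rfl
        rw [h5, lift_apply_of]
        exact h4
  have h6 := key L.length le_rfl
  simp only [Nat.sub_self, List.drop_zero] at h6
  have h7 : mk L = g := mk_toWord
  rw [h7, hcon] at h6
  have h8 : L.length = 0 := congrArg Fin.val h6
  omega

/-- simultaneous version -/
theorem exists_finite_hom_finset {α : Type*} (S : Finset (FreeGroup α)) (hS : ∀ g ∈ S, g ≠ 1) :
    ∃ (H : Type) (_ : Group H) (_ : Finite H) (φ : FreeGroup α →* H), ∀ g ∈ S, φ g ≠ 1 := by
  classical
  have key : ∀ g : S, ∃ (n : ℕ) (φ : FreeGroup α →* Equiv.Perm (Fin n)), φ g.1 ≠ 1 :=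
    fun g => exists_finite_hom g.1 (hS g.1 g.2)
  choose n φ hφ using key
  -- avoid universe problems by using `Fin S.card`
  let e := S.equivFin
  refine ⟨(i : Fin S.card) → Equiv.Perm (Fin (n (e.symm i))), inferInstance, inferInstance,
    MonoidHom.pi (fun i => φ (e.symm i)), fun g hg hcon => ?_⟩
  have h1 := congrFun hcon (e ⟨g, hg⟩)
  simp only [Pi.one_apply] at h1
  have h2 : ∀ s : S, s = ⟨g, hg⟩ → φ s g = 1 → False := by
    intro s hs h
    subst hs
    exact hφ _ h
  exact h2 _ (Equiv.symm_apply_apply e ⟨g, hg⟩) h1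

theorem exists_finite_quotient {ι : Type} (B : Finset (FreeGroup ι)) (hB : (1 : FreeGroup ι) ∉ B) :
    ∃ (H : Type) (_ : Group H) (_ : Finite H) (φ : FreeGroup ι →* H), ∀ b ∈ B, φ b ≠ 1 :=
  exists_finite_hom_finset B (fun b hb h => hB (h ▸ hb))

end Pool.Agent.WTT
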