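import Pool.Agent.WTT.Saddle
import Pool.Agent.WTT.Init
import Pool.Agent.WTT.FinFaces
import Pool.Agent.WTT.IndepB
import Pool.Agent.WTT.RF

/-! Assembly. -/

namespace Pool.Agent.WTT

open Equiv

theorem planarMap_bound {G V : Type*} [Group G] [MulAction G V] {T : SimpleGraph V}
    {L : ℤ → V} {Per : Subgroup G} {s : G} {l : ℕ} {θ : V → V → V → ℝ}
    (hL : LineAction T L Per s l) (hθ : Angles L Per θ) {m : ℕ} (hm : 2 ≤ m)
    (ρ : FreeGroup (Fin m) →* G) (h : PlanarMap s m ρ) :
    (m + 1) * defect L θ l ≤ 2 * (m - 1) := by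
  have hm' : (2 : ℝ) ≤ m := by exact_mod_cast hm
  rcases Nat.eq_zero_or_pos l with rfl | hl0
  · simp only [defect, Finset.range_zero, Finset.sum_empty, mul_zero]
    linarith
  have hl : l ≠ 0 := hl0.ne'
  have hX : ∀ i, ∃ (g : G) (k : ℤ), k ≠ 0 ∧ ρ (bdry m i) = g * s ^ k * g⁻¹ := by
    intro i
    refine Fin.lastCases ?_ (fun i => ?_) i
    · obtain ⟨g, k, hk, e⟩ := h.last
      refine ⟨g, -k, by omega, ?_⟩
      rw [bdry, Fin.lastCases_last, map_inv, e]
      group
    · obtain ⟨g, k, hk, e⟩ := h.petal i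
      exact ⟨g, k, hk, by rw [bdry, Fin.lastCases_castSucc, e]⟩
  have hsL : ∀ (k : ℤ) (j : ℤ), s ^ k • L j = L (j + k * l) := by
    intro k
    induction k using Int.induction_on with
    | zero => intro j; simp
    | succ k ih =>
      intro j
      rw [zpow_add_one, mul_smul, hL.trans, ih]
      congr 1; ring
    | pred k ih =>
      intro j
      rw [zpow_sub_one, mul_smul]
      have : s⁻¹ • L j = L (j - l) := by
        rw [inv_smul_eq_iff, hL.trans]; congr 1; ring
      rw [this, ih]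
      congr 1; ring
  have nofix : ∀ (i : Fin (m + 1)) (j : ℕ) (v : V), 0 < j → ρ (bdry m i) ^ j • v ≠ v := by
    intro i j v hj hv
    obtain ⟨g, k, hk, e⟩ := hX i
    have h1 : ρ (bdry m i) ^ j = g * s ^ (k * j) * g⁻¹ := by
      rw [e, conj_pow, zpow_mul, zpow_natCast]
    rw [h1, mul_smul, mul_smul, ← eq_inv_smul_iff] at hv
    refine no_fix hL.tree hL.line (fun u => s ^ (k * j) • u)
      (fun u v => smul_dist hL.act _ u v) (M := k * j * l) ?_ (fun i => hsL _ i) (g⁻¹ • v) hv
    have : (j : ℤ) ≠ 0 := by exact_mod_cast hj.ne'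
    have : (l : ℤ) ≠ 0 := by exact_mod_cast hl
    positivity
  obtain ⟨D, hD, hD', ⟨P₀⟩⟩ := exists_pic hL.tree.connected hL.act (by omega : 0 < m) ρ (L 0)
    (fun i => by
      have := nofix i.castSucc 1 (L 0) one_pos
      rwa [pow_one, bdry, Fin.lastCases_castSucc] at this)
  obtain ⟨P, hP⟩ := Pic.exists_reduced nofix P₀
  have := reduced_bound (by omega) hl0 hL hθ h.inj hX (indep_bdry hm)
    (fun B hB => exists_finite_quotient B hB) P hP
  push_cast at this
  linarith

end Pool.Agent.WTT
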