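import Pool.Agent.WTT.Defs

/-! Row TREE: lines and automorphisms of trees. -/

namespace Pool.Agent.WTT

variable {V : Type*} {T : SimpleGraph V}

/-- In a tree the neighbour of `v` that is closer to `x` is unique. -/
theorem closer_unique (hT : T.IsTree) {x v u u' : V} (h : T.Adj v u) (h' : T.Adj v u')
    (hd : T.dist x u + 1 = T.dist x v) (hd' : T.dist x u' + 1 = T.dist x v) : u = u' := by
  classical
  obtain ⟨p, hp, hpl⟩ := (hT.connected x u).exists_path_of_dist
  obtain ⟨q, hq, hql⟩ := (hT.connected x u').exists_path_of_dist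
  have hv : ∀ {w : V} (r : T.Walk x w), r.length + 1 = T.dist x v → v ∉ r.support := by
    intro w r hr hm
    have h1 : T.dist x v ≤ (r.takeUntil v hm).length := SimpleGraph.dist_le _
    have h2 := r.length_takeUntil_le_length hm
    omega
  have hp' : (p.concat h.symm).IsPath := hp.concat (hv p (by omega)) h.symm
  have hq' : (q.concat h'.symm).IsPath := hq.concat (hv q (by omega)) h'.symm
  have he : p.concat h.symm = q.concat h'.symm := (hT.existsUnique_path x v).unique hp' hq'
  have := congrArg SimpleGraph.Walk.penultimate he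
  simpa using this

/-- distance to a line: no strict local maximum -/
theorem line_up (hT : T.IsTree) {L : ℤ → V} (hL : IsLine T L) (x : V) (k : ℤ)
    (h : T.dist x (L (k + 1)) = T.dist x (L k) + 1) (n : ℕ) :
    T.dist x (L (k + n)) = T.dist x (L k) + n := by
  have key : ∀ n : ℕ, T.dist x (L (k + n + 1)) = T.dist x (L (k + n)) + 1 := by
    intro n
    induction n with
    | zero => simpa using h
    | succ n ih =>
      have e : k + ((n + 1 : ℕ) : ℤ) = k + n + 1 := by push_cast; ring
      rw [e]
      rcases hT.dist_eq_dist_add_one_of_adj x (hL.adj (k + n + 1)) with h1 | h1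
      · exfalso
        have h2 := closer_unique hT (x := x) (hL.adj (k + n)).symm (hL.adj (k + n + 1)) ih.symm h1.symm
        apply hL.reduced (k + n + 1)
        rw [add_sub_cancel_right]
        exact h2
      · exact h1
  induction n with
  | zero => simp
  | succ n ih =>
    have e : k + ((n + 1 : ℕ) : ℤ) = k + n + 1 := by push_cast; ring
    rw [e, key n, ih]
    push_cast
    ring

theorem line_neg {L : ℤ → V} (hL : IsLine T L) : IsLine T (fun k => L (-k)) where
  adj k := by
    have := (hL.adj (-(k + 1))).symm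
    have e : -(k + 1) + 1 = -k := by ring
    rwa [e] at this
  reduced k := by
    have := (hL.reduced (-k)).symm
    have e : -(k - 1) = -k + 1 := by ring
    have e' : -(k + 1) = -k - 1 := by ring
    show L (-(k - 1)) ≠ L (-(k + 1))
    rwa [e, e']

theorem line_shift {L : ℤ → V} (hL : IsLine T L) (c : ℤ) : IsLine T (fun k => L (k + c)) where
  adj k := by
    have := hL.adj (k + c)
    have e : k + 1 + c = k + c + 1 := by ring
    show T.Adj (L (k + c)) (L (k + 1 + c))
    rwa [e]
  reduced k := by
    have := hL.reduced (k + c)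
    have e : k - 1 + c = k + c - 1 := by ring
    have e' : k + 1 + c = k + c + 1 := by ring
    show L (k - 1 + c) ≠ L (k + 1 + c)
    rwa [e, e']

theorem line_down (hT : T.IsTree) {L : ℤ → V} (hL : IsLine T L) (x : V) (k : ℤ)
    (h : T.dist x (L (k - 1)) = T.dist x (L k) + 1) (n : ℕ) :
    T.dist x (L (k - n)) = T.dist x (L k) + n := by
  have := line_up hT (line_neg hL) x (-k) (by
    show T.dist x (L (-(-k + 1))) = T.dist x (L (- -k)) + 1
    have e : -(-k + 1) = k - 1 := by ring
    rw [e, neg_neg]
    exact h) n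
  have e : -(-k + (n : ℤ)) = k - n := by ring
  simpa only [e, neg_neg] using this

/-- the distance from `x` to `L k` is `a + |k - c|` -/
theorem line_vee (hT : T.IsTree) {L : ℤ → V} (hL : IsLine T L) (x : V) :
    ∃ c : ℤ, ∀ k, T.dist x (L k) = T.dist x (L c) + (k - c).natAbs := by
  classical
  -- a point of minimal distance
  obtain ⟨c, hc⟩ : ∃ c, ∀ k, T.dist x (L c) ≤ T.dist x (L k) := by
    obtain ⟨c, hc⟩ := (WellFounded.has_min (InvImage.wf (fun k : ℤ => T.dist x (L k)) wellFounded_lt)
      Set.univ ⟨0, trivial⟩)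
    exact ⟨c, fun k => not_lt.mp (hc.2 k trivial)⟩
  have h1 : T.dist x (L (c + 1)) = T.dist x (L c) + 1 := by
    rcases hT.dist_eq_dist_add_one_of_adj x (hL.adj c) with h | h
    · have := hc (c + 1)
      omega
    · exact h
  have h2 : T.dist x (L (c - 1)) = T.dist x (L c) + 1 := by
    have ha := hL.adj (c - 1)
    rw [sub_add_cancel] at ha
    rcases hT.dist_eq_dist_add_one_of_adj x ha with h | h
    · exact h
    · have := hc (c - 1)
      omega
  refine ⟨c, fun k => ?_⟩
  rcases le_total c k with hk | hk
  · have := line_up hT hL x c h1 (k - c).natAbs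
    rwa [show c + ((k - c).natAbs : ℤ) = k by omega] at this
  · have := line_down hT hL x c h2 (k - c).natAbs
    rwa [show c - ((k - c).natAbs : ℤ) = k by omega] at this

theorem line_dist (hT : T.IsTree) {L : ℤ → V} (hL : IsLine T L) (i j : ℤ) :
    T.dist (L i) (L j) = (i - j).natAbs := by
  obtain ⟨c, hc⟩ := line_vee hT hL (L i)
  have h0 := hc i
  rw [SimpleGraph.dist_self] at h0
  have h1 : T.dist (L i) (L c) = 0 := by omega
  have h2 := hc j
  have h3 : (i - c).natAbs = 0 := by omega
  rw [h2, h1]
  omega

theorem line_injective (hT : T.IsTree) {L : ℤ → V} (hL : IsLine T L) : Function.Injective L := by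
  intro i j h
  have := line_dist hT hL i j
  rw [h, SimpleGraph.dist_self] at this
  omega

/-- An isometry translating a line has no fixed vertex. -/
theorem no_fix (hT : T.IsTree) {L : ℤ → V} (hL : IsLine T L) (f : V → V)
    (hf : ∀ u v, T.dist (f u) (f v) = T.dist u v) {M : ℤ} (hM : M ≠ 0)
    (hfL : ∀ k, f (L k) = L (k + M)) (v : V) : f v ≠ v := by
  intro hv
  obtain ⟨c, hc⟩ := line_vee hT hL v
  have h1 : T.dist v (L (c + M)) = T.dist v (L c) := by
    rw [← hfL]
    conv_lhs => rw [← hv]
    exact hf _ _
  have h2 := hc (c + M)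
  omega

/-- iterating a translation -/
theorem iterate_line {L : ℤ → V} (f : V → V) {M : ℤ} (hfL : ∀ k, f (L k) = L (k + M)) (n : ℕ) (k : ℤ) :
    f^[n] (L k) = L (k + n * M) := by
  induction n with
  | zero => simp
  | succ n ih =>
    rw [Function.iterate_succ_apply', ih, hfL]
    congr 1
    push_cast
    ring

theorem iterate_dist (f : V → V) (hf : ∀ u v, T.dist (f u) (f v) = T.dist u v) (n : ℕ) (u v : V) :
    T.dist (f^[n] u) (f^[n] v) = T.dist u v := by
  induction n with
  | zero => rfl
  | succ n ih => rw [Function.iterate_succ_apply', Function.iterate_succ_apply', hf, ih]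

theorem exists_closer (hT : T.IsTree) {x v : V} (h : 0 < T.dist x v) :
    ∃ y, T.Adj v y ∧ T.dist x y + 1 = T.dist x v := by
  obtain ⟨w, hw⟩ := (hT.connected v x).exists_walk_length_eq_dist
  rw [SimpleGraph.dist_comm] at hw
  cases w with
  | nil =>
    rw [SimpleGraph.Walk.length_nil] at hw
    omega
  | cons h' w =>
    rename_i y
    refine ⟨y, h', ?_⟩
    rw [SimpleGraph.Walk.length_cons] at hw
    have h2 : T.dist x y ≤ w.length := by
      rw [SimpleGraph.dist_comm]
      exact SimpleGraph.dist_le w
    have h3 := hT.connected.dist_triangle (u := x) (v := y) (w := v)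
    have h4 : T.dist y v = 1 := SimpleGraph.dist_eq_one_iff_adj.mpr h'.symm
    omega

/-- if `p` leaves the line `q` at `p 0` in the positive direction, then it goes away from it -/
theorem leave (hT : T.IsTree) {p q : ℤ → V} (hp : IsLine T p) (hq : IsLine T q) {c : ℤ}
    (hc : ∀ k, T.dist (p 0) (q k) = T.dist (p 0) (q c) + (k - c).natAbs)
    (ha : 0 < T.dist (p 0) (q c)) (h1 : T.dist (q c) (p 1) = T.dist (q c) (p 0) + 1) (j : ℤ) (n : ℕ) :
    T.dist (q j) (p n) = T.dist (p 0) (q c) + (j - c).natAbs + n := by
  set a := T.dist (p 0) (q c) with ha'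
  -- the distances from p 1
  obtain ⟨c', hc'⟩ := line_vee hT hq (p 1)
  have e1 : T.dist (p 1) (q c) = a + 1 := by
    rw [SimpleGraph.dist_comm, h1, SimpleGraph.dist_comm, ← ha']
  -- a neighbour of q c closer to p 0
  obtain ⟨y, hy1, hy2⟩ := exists_closer hT ha
  rw [← ha'] at hy2
  have hp01 : T.dist (p 1) (p 0) = 1 := by
    have := hp.adj 0
    rw [zero_add] at this
    exact SimpleGraph.dist_eq_one_iff_adj.mpr this.symm
  have hy3 : T.dist (p 1) y + 1 = T.dist (p 1) (q c) := by
    have h2 := hT.connected.dist_triangle (u := p 1) (v := p 0) (w := y)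
    rcases hT.dist_eq_dist_add_one_of_adj (p 1) hy1 with h | h
    · omega
    · omega
  have hside : ∀ z, T.Adj (q c) z → T.dist (p 0) z = a + 1 → T.dist (p 1) z = T.dist (p 1) (q c) + 1 := by
    intro z hz hz0
    rcases hT.dist_eq_dist_add_one_of_adj (p 1) hz with h | h
    · exfalso
      have := closer_unique hT (x := p 1) hz hy1 h.symm hy3
      rw [this] at hz0
      omega
    · exact h
  have hr : T.dist (p 1) (q (c + 1)) = T.dist (p 1) (q c) + 1 := by
    apply hside _ (hq.adj c)
    have := hc (c + 1)
    omega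
  have hl : T.dist (p 1) (q (c - 1)) = T.dist (p 1) (q c) + 1 := by
    have had := (hq.adj (c - 1)).symm
    rw [sub_add_cancel] at had
    apply hside _ had
    have := hc (c - 1)
    omega
  have hcc : c' = c := by
    have h2 := hc' c
    have h3 := hc' (c + 1)
    have h4 := hc' (c - 1)
    omega
  subst hcc
  -- now for every j the distance goes up from p 0 to p 1
  have hup : T.dist (q j) (p (0 + 1)) = T.dist (q j) (p 0) + 1 := by
    rw [zero_add, SimpleGraph.dist_comm, SimpleGraph.dist_comm (u := q j) (v := p 0), hc' j, hc j, e1]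
    omega
  have := line_up hT hp (q j) 0 hup n
  rw [zero_add, SimpleGraph.dist_comm (u := q j) (v := p 0), hc j] at this
  exact this

theorem on_line (hT : T.IsTree) {p q : ℤ → V} (hp : IsLine T p) (hq : IsLine T q)
    (f : V ≃ V) (hf : ∀ u v, T.dist (f u) (f v) = T.dist u v) {N M : ℕ} (hN : 0 < N)
    (hfp : ∀ k, f (p k) = p (k + N)) (hfq : ∀ k, f (q k) = q (k + M)) :
    ∃ c : ℤ, p 0 = q c := by
  obtain ⟨c, hc⟩ := line_vee hT hq (p 0)
  refine ⟨c, ?_⟩
  by_contra hne
  have ha : 0 < T.dist (p 0) (q c) := hT.connected.pos_dist_of_ne hne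
  have hor : T.dist (q c) (p 1) = T.dist (q c) (p 0) + 1 ∨ T.dist (q c) (p (-1)) = T.dist (q c) (p 0) + 1 := by
    have h1 := hp.adj 0
    have h2 := hp.adj (-1)
    rw [zero_add] at h1
    rw [show (-1 : ℤ) + 1 = 0 by norm_num] at h2
    rcases hT.dist_eq_dist_add_one_of_adj (q c) h1 with h3 | h3
    · rcases hT.dist_eq_dist_add_one_of_adj (q c) h2 with h4 | h4
      · exact Or.inr h4
      · exfalso
        have := closer_unique hT (x := q c) h1 h2.symm h3.symm h4.symm
        apply hp.reduced 0
        rw [zero_sub, zero_add]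
        exact this.symm
    · exact Or.inl h3
  set t : ℕ := c.natAbs + 1 with ht
  have hNt : t ≤ t * N := Nat.le_mul_of_pos_right t hN
  rcases hor with h | h
  · have h1 := leave hT hp hq hc ha h (0 + t * M) (t * N)
    have h2 := iterate_dist f hf t (q 0) (p 0)
    rw [iterate_line f hfp, iterate_line f hfq, zero_add] at h2
    rw [zero_add] at h1
    push_cast at h1
    rw [zero_add, h1, SimpleGraph.dist_comm (u := q 0), hc 0] at h2
    omega
  · have hfp' : ∀ k, f.symm ((fun k => p (-k)) k) = (fun k => p (-k)) (k + N) := by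
      intro k
      show f.symm (p (-k)) = p (-(k + N))
      rw [Equiv.symm_apply_eq, hfp]
      congr 1
      ring
    have hfq' : ∀ k, f.symm (q k) = q (k + (-M)) := by
      intro k
      rw [Equiv.symm_apply_eq, hfq]
      congr 1
      ring
    have hf' : ∀ u v, T.dist (f.symm u) (f.symm v) = T.dist u v := by
      intro u v
      rw [← hf, Equiv.apply_symm_apply, Equiv.apply_symm_apply]
    have h1 := leave hT (line_neg hp) hq (c := c) (by simpa using hc) (by simpa using ha) (by simpa using h)
      (t * (-M)) (t * N)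
    have h2 := iterate_dist f.symm hf' t (q 0) ((fun k => p (-k)) 0)
    rw [iterate_line f.symm hfp', iterate_line f.symm hfq', zero_add, zero_add] at h2
    push_cast at h1
    rw [h1] at h2
    rw [SimpleGraph.dist_comm (u := q 0)] at h2
    simp only [neg_zero] at h2
    rw [hc 0] at h2
    omega

/-- Two lines that are translated (forwards) by the same isometry coincide. -/
theorem axis_unique (hT : T.IsTree) {p q : ℤ → V} (hp : IsLine T p) (hq : IsLine T q)
    (f : V ≃ V) (hf : ∀ u v, T.dist (f u) (f v) = T.dist u v) {N M : ℕ} (hN : 0 < N) (hM : 0 < M)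
    (hfp : ∀ k, f (p k) = p (k + N)) (hfq : ∀ k, f (q k) = q (k + M)) :
    N = M ∧ ∃ c : ℤ, ∀ k, p k = q (k + c) := by
  have hall : ∀ k, ∃ c, p k = q c := by
    intro k
    obtain ⟨c, hc⟩ := on_line hT (line_shift hp k) hq f hf hN (by
      intro j
      show f (p (j + k)) = p (j + N + k)
      rw [hfp]
      congr 1
      ring) hfq
    exact ⟨c, by simpa using hc⟩
  choose c hc using hall
  have hinj := line_injective hT hq
  have h1 : ∀ k, c (k + 1) = c k + 1 ∨ c (k + 1) = c k - 1 := by
    intro k
    have := line_dist hT hp k (k + 1)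
    rw [hc k, hc (k + 1), line_dist hT hq] at this
    omega
  have h2 : ∀ k, c (k + 1 + 1) ≠ c k := by
    intro k h
    apply hp.reduced (k + 1)
    rw [add_sub_cancel_right, hc k, hc (k + 1 + 1), h]
  have h3 : ∀ k, c (k + 1 + 1) - c (k + 1) = c (k + 1) - c k := by
    intro k
    have e1 := h1 k
    have e2 := h1 (k + 1)
    have e3 := h2 k
    omega
  have h4 : ∀ k, c (k + 1) - c k = c 1 - c 0 := by
    intro k
    induction k using Int.induction_on with
    | zero => simp
    | succ n ih => rw [h3, ih]
    | pred n ih =>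
      have := h3 (-(n : ℤ) - 1)
      rw [sub_add_cancel] at this
      rw [sub_add_cancel]
      omega
  have h5 : ∀ k, c k = c 0 + k * (c 1 - c 0) := by
    intro k
    induction k using Int.induction_on with
    | zero => simp
    | succ n ih =>
      have := h4 n
      linarith
    | pred n ih =>
      have := h4 (-(n : ℤ) - 1)
      rw [sub_add_cancel] at this
      linarith
  have h6 : c N = c 0 + M := by
    apply hinj
    rw [← hc, ← hfq, ← hc, hfp, zero_add]
  have h7 := h5 N
  have h8 : c 1 - c 0 = 1 := by
    have := h1 0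
    rw [zero_add] at this
    rcases this with h | h
    · omega
    · exfalso
      rw [h] at h7
      have : c 0 - 1 - c 0 = -1 := by ring
      rw [this] at h7
      omega
  rw [h8] at h7
  refine ⟨by omega, c 0, fun k => ?_⟩
  rw [hc k, h5 k, h8]
  congr 1
  ring

/-- Elements of a group acting by automorphisms are isometries. -/
theorem smul_dist {G : Type*} [Group G] [MulAction G V]
    (act : ∀ (g : G) (u v : V), T.Adj u v → T.Adj (g • u) (g • v)) (g : G) (u v : V) :
    T.dist (g • u) (g • v) = T.dist u v := by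
  have hom : ∀ g : G, ∃ φ : T →g T, ∀ x, φ x = g • x := fun g => ⟨⟨fun x => g • x, fun {a b} h => act g a b h⟩, fun _ => rfl⟩
  have reach : ∀ (g : G) (u v : V), T.Reachable u v → T.Reachable (g • u) (g • v) := by
    intro g u v h
    obtain ⟨φ, hφ⟩ := hom g
    rw [← hφ, ← hφ]
    exact h.map φ
  have le : ∀ (g : G) (u v : V), T.Reachable u v → T.dist (g • u) (g • v) ≤ T.dist u v := by
    intro g u v h
    obtain ⟨φ, hφ⟩ := hom g
    obtain ⟨w, hw⟩ := h.exists_walk_length_eq_dist
    rw [← hφ, ← hφ, ← hw, ← SimpleGraph.Walk.length_map φ w]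
    exact SimpleGraph.dist_le _
  by_cases h : T.Reachable u v
  · apply le_antisymm (le g u v h)
    have := le g⁻¹ (g • u) (g • v) (reach g u v h)
    rwa [inv_smul_smul, inv_smul_smul] at this
  · have h' : ¬ T.Reachable (g • u) (g • v) := by
      intro h2
      apply h
      have := reach g⁻¹ _ _ h2
      rwa [inv_smul_smul, inv_smul_smul] at this
    rw [SimpleGraph.dist_eq_zero_of_not_reachable h, SimpleGraph.dist_eq_zero_of_not_reachable h']

end Pool.Agent.WTT
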