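import Pool.Agent.WTT.Defs
import Pool.Agent.WTT.HP
import Pool.Agent.WTT.Tree

/-! The structure of pictures. -/

namespace Pool.Agent.WTT

open Equiv

/-- A picture over the tree `T` and the homomorphism `ρ : Γ →* G`, with `n` boundary curves of
holonomies `X 0, ..., X (n - 1)`.  `S` is the set of live darts. -/
structure Pic {G V Γ : Type*} [Group G] [MulAction G V] [Group Γ] (T : SimpleGraph V)
    (ρ : Γ →* G) (n : ℕ) (X : Fin n → Γ) (D : Type) [Fintype D] [DecidableEq D] where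
  S : Finset D
  σ : HP D Γ
  α : HP D Γ
  o : D → V
  t : D → V
  vert : D → Fin n
  σ_mem : ∀ d ∈ S, σ.π d ∈ S
  α_mem : ∀ d ∈ S, α.π d ∈ S
  σ_dead : ∀ d, d ∉ S → σ.π d = d ∧ σ.h d = 1
  α_dead : ∀ d, d ∉ S → α.π d = d ∧ α.h d = 1
  α_inv : α * α = 1
  α_ne : ∀ d ∈ S, α.π d ≠ d
  adj : ∀ d ∈ S, T.Adj (o d) (t d)
  step : ∀ d ∈ S, ρ (σ.h d) • o (σ.π d) = t d
  flip_o : ∀ d ∈ S, ρ (α.h d) • o (α.π d) = t d
  flip_t : ∀ d ∈ S, ρ (α.h d) • t (α.π d) = o d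
  vert_σ : ∀ d, vert (σ.π d) = vert d
  vert_ne : ∀ i, ∃ d ∈ S, vert d = i
  closing : ∀ d ∈ S, ∃ N : ℕ, 0 < N ∧ (σ ^ N).π d = d ∧ ∃ γ, (σ ^ N).h d = γ * X (vert d) * γ⁻¹
  euler : ∀ (H : Type) [Group H] [Finite H] (φ : Γ →* H),
    Nat.card H * (2 * Fintype.card D + 4) ≤
      2 * cyc (cov φ (σ * α)) + Nat.card H * (2 * n + S.card)

/-- A picture is reduced if no boundary curve backtracks. -/
def Pic.Reduced {G V Γ : Type*} [Group G] [MulAction G V] [Group Γ] {T : SimpleGraph V}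
    {ρ : Γ →* G} {n : ℕ} {X : Fin n → Γ} {D : Type} [Fintype D] [DecidableEq D]
    (P : Pic T ρ n X D) : Prop :=
  ∀ d ∈ P.S, ρ (P.σ.h d) • P.t (P.σ.π d) ≠ P.o d

end Pool.Agent.WTT
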