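import Pool.Agent.WTT.PicDefs

/-! Rows PIC-B: removal of a trivial arc, and the cycle of a backtracking dart is not short. -/

namespace Pool.Agent.WTT

open Equiv

variable {G V Γ : Type*} [Group G] [MulAction G V] [Group Γ] {T : SimpleGraph V}
  {ρ : Γ →* G} {n : ℕ} {X : Fin n → Γ} {D : Type} [Fintype D] [DecidableEq D]

theorem HP.pow_fix (f : HP D Γ) {d : D} (h : f.π d = d) (N : ℕ) :
    (f ^ N).π d = d ∧ (f ^ N).h d = f.h d ^ N := by
  induction N with
  | zero => exact ⟨rfl, by rw [pow_zero, pow_zero]; rfl⟩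
  | succ N ih =>
    refine ⟨?_, ?_⟩
    · rw [pow_succ, HP.mul_π, Perm.mul_apply, h, ih.1]
    · rw [pow_succ, HP.mul_h, h, ih.2, pow_succ']

/-- The cycle of a dart is not short. -/
theorem Pic.long (P : Pic T ρ n X D)
    (nofix : ∀ (i : Fin n) (j : ℕ) (v : V), 0 < j → ρ (X i) ^ j • v ≠ v) {d : D} (hd : d ∈ P.S)
    (hback : ρ (P.σ.h d) • P.t (P.σ.π d) = P.o d) :
    P.σ.π d ≠ d ∧ P.σ.π (P.σ.π d) ≠ d := by
  have key : P.σ.π (P.σ.π d) ≠ d := by
    intro h2
    have e2 : (P.σ ^ 2).π d = d := by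
      rw [pow_two, HP.mul_π, Perm.mul_apply, h2]
    have h2h : (P.σ ^ 2).h d = P.σ.h d * P.σ.h (P.σ.π d) := by
      rw [pow_two, HP.mul_h]
    have hfix : ρ ((P.σ ^ 2).h d) • P.o d = P.o d := by
      have h3 := P.step (P.σ.π d) (P.σ_mem d hd)
      rw [h2] at h3
      rw [h2h, map_mul, mul_smul, h3, hback]
    obtain ⟨N, hN, hNd, γ, hγ⟩ := P.closing d hd
    have h4 : ((P.σ ^ 2) ^ N).h d = (P.σ ^ 2).h d ^ N := (HP.pow_fix _ e2 N).2
    have h5 : ((P.σ ^ N) ^ 2).h d = (P.σ ^ N).h d ^ 2 := (HP.pow_fix _ hNd 2).2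
    have h6 : (P.σ ^ 2) ^ N = (P.σ ^ N) ^ 2 := by rw [← pow_mul, ← pow_mul, mul_comm]
    rw [h6, h5, hγ] at h4
    have h7 : ∀ k : ℕ, ρ ((P.σ ^ 2).h d ^ k) • P.o d = P.o d := by
      intro k
      induction k with
      | zero => rw [pow_zero, map_one, one_smul]
      | succ k ih => rw [pow_succ, map_mul, mul_smul, hfix, ih]
    have h8 := h7 N
    rw [← h4, conj_pow, map_mul, map_mul, mul_smul, mul_smul, ← eq_inv_smul_iff] at h8
    apply nofix (P.vert d) 2 (ρ γ⁻¹ • P.o d) (by norm_num)
    rw [map_pow] at h8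
    rw [h8, map_inv]
  exact ⟨fun h => key (by rw [h, h]), key⟩

/-- Removal of a trivial arc. -/
theorem Pic.remove (P : Pic T ρ n X D) {d : D} (hd : d ∈ P.S)
    (hback : ρ (P.σ.h d) • P.t (P.σ.π d) = P.o d) (hσ : P.σ.π d ≠ d)
    (hσσ : P.σ.π (P.σ.π d) ≠ d)
    (hα : P.α.π d = P.σ.π d) (hαh : P.α.h d = P.σ.h d) :
    ∃ P' : Pic T ρ n X D, P'.S.card < P.S.card := by
  classical
  set d' := P.σ.π d with hd'
  set w := P.σ.π.symm d with hw
  have hσw : P.σ.π w = d := by rw [hw, Equiv.apply_symm_apply]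
  have hinvπ : ∀ x, P.α.π (P.α.π x) = x := by
    intro x
    have := congrArg (fun f : HP D Γ => f.π x) P.α_inv
    simpa using this
  have hinvh : ∀ x, P.α.h x * P.α.h (P.α.π x) = 1 := by
    intro x
    have := congrArg (fun f : HP D Γ => f.h x) P.α_inv
    simpa using this
  have hαd' : P.α.π d' = d := by rw [← hα, hinvπ]
  have hαhd' : P.α.h d' = (P.σ.h d)⁻¹ := by
    have := hinvh d
    rw [hα, hαh] at this
    exact eq_inv_of_mul_eq_one_right this
  have hwS : w ∈ P.S := by
    by_contra h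
    have := (P.σ_dead w h).1
    rw [hσw] at this
    exact h (this ▸ hd)
  have hd'S : d' ∈ P.S := P.σ_mem d hd
  have hwd : w ≠ d := by
    intro h
    rw [h] at hσw
    exact hσ hσw
  have hwd' : w ≠ d' := by
    intro h
    rw [h] at hσw
    exact hσσ hσw
  have hd'd : d' ≠ d := hσ
  set y := P.α.π w with hy
  have hαy : P.α.π y = w := by rw [hy, hinvπ]
  have hyd : y ≠ d := by
    intro h
    rw [h, hα] at hαy
    exact hwd' hαy.symm
  have hyd' : y ≠ d' := by
    intro h
    rw [h, hαd'] at hαy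
    exact hwd hαy.symm
  -- the new permutations
  let σ' : HP D Γ := P.σ * HP.es w d (P.σ.h w) * HP.es w d' (P.σ.h w * P.σ.h d)
  let α' : HP D Γ := P.α * HP.es d d' (P.σ.h d)
  have sd : σ'.π d = d ∧ σ'.h d = 1 := by
    refine ⟨?_, ?_⟩
    · simp only [σ', HP.mul_π, Perm.mul_apply, HP.es_π]
      rw [swap_apply_of_ne_of_ne hwd.symm hd'd.symm, swap_apply_right, hσw]
    · simp only [σ', HP.mul_h, HP.es_π, HP.es_h]
      rw [swap_apply_of_ne_of_ne hwd.symm hd'd.symm, swap_apply_right]
      simp [hwd.symm, hd'd.symm]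
  have sd' : σ'.π d' = d' ∧ σ'.h d' = 1 := by
    refine ⟨?_, ?_⟩
    · simp only [σ', HP.mul_π, Perm.mul_apply, HP.es_π]
      rw [swap_apply_right, swap_apply_left]
    · simp only [σ', HP.mul_h, HP.es_π, HP.es_h]
      rw [swap_apply_right, swap_apply_left]
      simp [hwd'.symm]
  have sw : σ'.π w = P.σ.π d' ∧ σ'.h w = P.σ.h w * P.σ.h d * P.σ.h d' := by
    refine ⟨?_, ?_⟩
    · simp only [σ', HP.mul_π, Perm.mul_apply, HP.es_π]
      rw [swap_apply_left, swap_apply_of_ne_of_ne hwd'.symm hd'd]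
    · simp only [σ', HP.mul_h, HP.es_π, HP.es_h]
      rw [swap_apply_left, swap_apply_of_ne_of_ne hwd'.symm hd'd]
      simp [hwd'.symm, hd'd]
  have sx : ∀ x, x ≠ d → x ≠ d' → x ≠ w → σ'.π x = P.σ.π x ∧ σ'.h x = P.σ.h x := by
    intro x h1 h2 h3
    refine ⟨?_, ?_⟩
    · simp only [σ', HP.mul_π, Perm.mul_apply, HP.es_π]
      rw [swap_apply_of_ne_of_ne h3 h2, swap_apply_of_ne_of_ne h3 h1]
    · simp only [σ', HP.mul_h, HP.es_π, HP.es_h]
      rw [swap_apply_of_ne_of_ne h3 h2, swap_apply_of_ne_of_ne h3 h1]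
      simp [h1, h2, h3]
  have ad : α'.π d = d ∧ α'.h d = 1 := by
    refine ⟨?_, ?_⟩
    · simp only [α', HP.mul_π, Perm.mul_apply, HP.es_π]
      rw [swap_apply_left, hαd']
    · simp only [α', HP.mul_h, HP.es_π, HP.es_h]
      rw [swap_apply_left, hαhd']
      simp
  have ad' : α'.π d' = d' ∧ α'.h d' = 1 := by
    refine ⟨?_, ?_⟩
    · simp only [α', HP.mul_π, Perm.mul_apply, HP.es_π]
      rw [swap_apply_right, hα]
    · simp only [α', HP.mul_h, HP.es_π, HP.es_h]
      rw [swap_apply_right, hαh]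
      simp [hd'd]
  have ax : ∀ x, x ≠ d → x ≠ d' → α'.π x = P.α.π x ∧ α'.h x = P.α.h x := by
    intro x h1 h2
    refine ⟨?_, ?_⟩
    · simp only [α', HP.mul_π, Perm.mul_apply, HP.es_π]
      rw [swap_apply_of_ne_of_ne h1 h2]
    · simp only [α', HP.mul_h, HP.es_π, HP.es_h]
      rw [swap_apply_of_ne_of_ne h1 h2]
      simp [h1, h2]
  -- the face permutation
  have hface : σ' * α' = (P.σ * P.α) * HP.es y d ((P.σ * P.α).h y) := by
    have hΦy : (P.σ * P.α).h y = P.α.h y * P.σ.h w := by
      rw [HP.mul_h, hαy]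
    generalize hg : (P.σ * P.α).h y = g
    rw [hg] at hΦy
    have hall : ∀ x, (σ' * α').π x = ((P.σ * P.α) * HP.es y d g).π x ∧
        (σ' * α').h x = ((P.σ * P.α) * HP.es y d g).h x := by
      intro x
      have e1 : (σ' * α').π x = σ'.π (α'.π x) := rfl
      have e2 : (σ' * α').h x = α'.h x * σ'.h (α'.π x) := rfl
      have e3 : ((P.σ * P.α) * HP.es y d g).π x = P.σ.π (P.α.π (swap y d x)) := rfl
      have e4 : ((P.σ * P.α) * HP.es y d g).h x = (if x = y then g else if x = d then g⁻¹ else 1) *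
          (P.α.h (swap y d x) * P.σ.h (P.α.π (swap y d x))) := rfl
      rw [e1, e2, e3, e4]
      by_cases h1 : x = d
      · subst h1
        rw [ad.1, ad.2, sd.1, sd.2, swap_apply_right, if_neg hyd.symm, if_pos rfl, hαy, hσw, hΦy]
        exact ⟨rfl, by simp⟩
      · by_cases h2 : x = d'
        · subst h2
          rw [ad'.1, ad'.2, sd'.1, sd'.2, swap_apply_of_ne_of_ne hyd'.symm hd'd, if_neg hyd'.symm,
            if_neg hd'd, hαd', hαhd']
          exact ⟨rfl, by simp⟩
        · rw [(ax x h1 h2).1, (ax x h1 h2).2]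
          by_cases h3 : x = y
          · subst h3
            rw [hαy, sw.1, sw.2, swap_apply_left, if_pos rfl, hα, hΦy, hαh]
            exact ⟨rfl, by simp only [mul_assoc]⟩
          · have h4 : P.α.π x ≠ d := by
              intro h
              have := hinvπ x
              rw [h, hα] at this
              exact h2 this.symm
            have h5 : P.α.π x ≠ d' := by
              intro h
              have := hinvπ x
              rw [h, hαd'] at this
              exact h1 this.symm
            have h6 : P.α.π x ≠ w := by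
              intro h
              have := hinvπ x
              rw [h, ← hy] at this
              exact h3 this.symm
            rw [(sx _ h4 h5 h6).1, (sx _ h4 h5 h6).2, swap_apply_of_ne_of_ne h3 h1, if_neg h3,
              if_neg h1]
            exact ⟨rfl, by simp⟩
    apply HP.ext
    · exact Equiv.ext fun x => (hall x).1
    · funext x
      exact (hall x).2
  -- live darts
  let S' : Finset D := (P.S.erase d).erase d'
  have memS : ∀ x, x ∈ S' ↔ x ≠ d' ∧ x ≠ d ∧ x ∈ P.S := by
    intro x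
    simp [S', Finset.mem_erase]
  have hcard : S'.card + 2 = P.S.card := by
    have h1 : d' ∈ P.S.erase d := Finset.mem_erase.mpr ⟨hd'd, hd'S⟩
    have h2 := Finset.card_erase_of_mem hd
    have h3 := Finset.card_erase_of_mem h1
    have h4 : 0 < (P.S.erase d).card := Finset.card_pos.mpr ⟨d', h1⟩
    have h5 : 0 < P.S.card := Finset.card_pos.mpr ⟨d, hd⟩
    show ((P.S.erase d).erase d').card + 2 = P.S.card
    omega
  have hσmem : ∀ x ∈ S', σ'.π x ∈ S' := by
    intro x hx
    obtain ⟨h1, h2, h3⟩ := (memS x).mp hx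
    rw [memS]
    by_cases h4 : x = w
    · subst h4
      rw [sw.1]
      refine ⟨fun h => hd'd ?_, hσσ, P.σ_mem _ hd'S⟩
      exact P.σ.π.injective (h.trans hd')
    · rw [(sx x h2 h1 h4).1]
      refine ⟨fun h => h2 ?_, fun h => h4 ?_, P.σ_mem _ h3⟩
      · exact P.σ.π.injective (h.trans hd')
      · exact P.σ.π.injective (h.trans hσw.symm)
  have hclose : ∀ N : ℕ, ∀ x ∈ S', (P.σ ^ N).π x ∈ S' →
      ∃ N' : ℕ, (0 < N → 0 < N') ∧ (σ' ^ N').π x = (P.σ ^ N).π x ∧ (σ' ^ N').h x = (P.σ ^ N).h x := by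
    intro N
    induction N using Nat.strong_induction_on with
    | _ N ih =>
      intro x hx hN
      obtain ⟨h1, h2, h3⟩ := (memS x).mp hx
      rcases Nat.eq_zero_or_pos N with rfl | hpos
      · exact ⟨0, fun h => h, rfl, rfl⟩
      · by_cases h4 : x = w
        · subst h4
          have hN1 : N ≠ 1 := by
            rintro rfl
            rw [pow_one, hσw, memS] at hN
            exact hN.2.1 rfl
          have hN2 : N ≠ 2 := by
            rintro rfl
            rw [pow_two, HP.mul_π, Perm.mul_apply, hσw, memS] at hN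
            exact hN.1 rfl
          obtain ⟨M, rfl⟩ : ∃ M, N = M + 3 := ⟨N - 3, by omega⟩
          have e1 : (P.σ ^ (M + 3)).π w = (P.σ ^ M).π (P.σ.π d') := by
            rw [pow_succ, pow_succ, pow_succ]
            simp only [HP.mul_π, Perm.mul_apply]
            rw [hσw]
          have e2 : (P.σ ^ (M + 3)).h w =
              P.σ.h w * P.σ.h d * P.σ.h d' * (P.σ ^ M).h (P.σ.π d') := by
            rw [pow_succ, pow_succ, pow_succ]
            simp only [HP.mul_h]
            rw [hσw]
            simp only [mul_assoc]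
            rfl
          have hmem := hσmem w hx
          rw [sw.1] at hmem
          obtain ⟨N', -, g1, g2⟩ := ih M (by omega) (P.σ.π d') hmem (e1 ▸ hN)
          refine ⟨N' + 1, fun _ => by omega, ?_, ?_⟩
          · rw [pow_succ, HP.mul_π, Perm.mul_apply, sw.1, g1, e1]
          · rw [pow_succ, HP.mul_h, sw.1, sw.2, g2, e2]
        · obtain ⟨M, rfl⟩ : ∃ M, N = M + 1 := ⟨N - 1, by omega⟩
          have e1 : (P.σ ^ (M + 1)).π x = (P.σ ^ M).π (P.σ.π x) := by
            rw [pow_succ, HP.mul_π, Perm.mul_apply]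
          have e2 : (P.σ ^ (M + 1)).h x = P.σ.h x * (P.σ ^ M).h (P.σ.π x) := by
            rw [pow_succ, HP.mul_h]
          have hmem := hσmem x hx
          rw [(sx x h2 h1 h4).1] at hmem
          obtain ⟨N', -, g1, g2⟩ := ih M (by omega) (P.σ.π x) hmem (e1 ▸ hN)
          refine ⟨N' + 1, fun _ => by omega, ?_, ?_⟩
          · rw [pow_succ, HP.mul_π, Perm.mul_apply, (sx x h2 h1 h4).1, g1, e1]
          · rw [pow_succ, HP.mul_h, (sx x h2 h1 h4).1, (sx x h2 h1 h4).2, g2, e2]
  have hvw : P.vert w = P.vert d := by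
    rw [← hσw, P.vert_σ]
  refine ⟨{ S := S', σ := σ', α := α', o := P.o, t := P.t, vert := P.vert,
            σ_mem := hσmem
            α_mem := ?_
            σ_dead := ?_
            α_dead := ?_
            α_inv := ?_
            α_ne := ?_
            adj := ?_
            step := ?_
            flip_o := ?_
            flip_t := ?_
            vert_σ := ?_
            vert_ne := ?_
            closing := ?_
            euler := ?_ }, ?_⟩
  · intro x hx
    obtain ⟨h1, h2, h3⟩ := (memS x).mp hx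
    rw [(ax x h2 h1).1, memS]
    refine ⟨fun h => h2 ?_, fun h => h1 ?_, P.α_mem x h3⟩
    · have := hinvπ x
      rw [h, hαd'] at this
      exact this.symm
    · have := hinvπ x
      rw [h, hα] at this
      exact this.symm
  · intro x hx
    by_cases h1 : x = d
    · subst h1; exact sd
    · by_cases h2 : x = d'
      · subst h2; exact sd'
      · have h3 : x ∉ P.S := fun h => hx ((memS x).mpr ⟨h2, h1, h⟩)
        have h4 : x ≠ w := fun h => h3 (h ▸ hwS)
        rw [(sx x h1 h2 h4).1, (sx x h1 h2 h4).2]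
        exact P.σ_dead x h3
  · intro x hx
    by_cases h1 : x = d
    · subst h1; exact ad
    · by_cases h2 : x = d'
      · subst h2; exact ad'
      · have h3 : x ∉ P.S := fun h => hx ((memS x).mpr ⟨h2, h1, h⟩)
        rw [(ax x h1 h2).1, (ax x h1 h2).2]
        exact P.α_dead x h3
  · have hall : ∀ x, (α' * α').π x = x ∧ (α' * α').h x = 1 := by
      intro x
      rw [HP.mul_π, HP.mul_h, Perm.mul_apply]
      by_cases h1 : x = d
      · subst h1
        rw [ad.1, ad.1, ad.2]
        exact ⟨rfl, by simp⟩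
      · by_cases h2 : x = d'
        · subst h2
          rw [ad'.1, ad'.1, ad'.2]
          exact ⟨rfl, by simp⟩
        · have h4 : P.α.π x ≠ d := by
            intro h
            have := hinvπ x
            rw [h, hα] at this
            exact h2 this.symm
          have h5 : P.α.π x ≠ d' := by
            intro h
            have := hinvπ x
            rw [h, hαd'] at this
            exact h1 this.symm
          rw [(ax x h1 h2).1, (ax x h1 h2).2, (ax _ h4 h5).1, (ax _ h4 h5).2]
          exact ⟨hinvπ x, hinvh x⟩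
    apply HP.ext
    · exact Equiv.ext fun x => (hall x).1
    · funext x
      exact (hall x).2
  · intro x hx
    obtain ⟨h1, h2, h3⟩ := (memS x).mp hx
    rw [(ax x h2 h1).1]
    exact P.α_ne x h3
  · intro x hx
    obtain ⟨h1, h2, h3⟩ := (memS x).mp hx
    exact P.adj x h3
  · intro x hx
    obtain ⟨h1, h2, h3⟩ := (memS x).mp hx
    by_cases h4 : x = w
    · subst h4
      rw [sw.1, sw.2, map_mul, map_mul, mul_smul, mul_smul, P.step d' hd'S, hback]
      have := P.step w hwS
      rwa [hσw] at this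
    · rw [(sx x h2 h1 h4).1, (sx x h2 h1 h4).2]
      exact P.step x h3
  · intro x hx
    obtain ⟨h1, h2, h3⟩ := (memS x).mp hx
    rw [(ax x h2 h1).1, (ax x h2 h1).2]
    exact P.flip_o x h3
  · intro x hx
    obtain ⟨h1, h2, h3⟩ := (memS x).mp hx
    rw [(ax x h2 h1).1, (ax x h2 h1).2]
    exact P.flip_t x h3
  · intro x
    by_cases h1 : x = d
    · subst h1; rw [sd.1]
    · by_cases h2 : x = d'
      · subst h2; rw [sd'.1]
      · by_cases h4 : x = w
        · subst h4
          rw [sw.1, P.vert_σ, hd', P.vert_σ, hvw]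
        · rw [(sx x h1 h2 h4).1, P.vert_σ]
  · intro i
    obtain ⟨x, hx, hxi⟩ := P.vert_ne i
    by_cases h1 : x = d ∨ x = d'
    · refine ⟨w, (memS w).mpr ⟨hwd', hwd, hwS⟩, ?_⟩
      rcases h1 with h1 | h1
      · rw [hvw, ← h1, hxi]
      · rw [hvw, ← hxi, h1, hd', P.vert_σ]
    · push Not at h1
      exact ⟨x, (memS x).mpr ⟨h1.2, h1.1, hx⟩, hxi⟩
  · intro x hx
    obtain ⟨h1, h2, h3⟩ := (memS x).mp hx
    obtain ⟨N, hN, hNx, γ, hγ⟩ := P.closing x h3
    obtain ⟨N', g0, g1, g2⟩ := hclose N x hx (by rw [hNx]; exact hx)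
    exact ⟨N', g0 hN, g1.trans hNx, γ, g2.trans hγ⟩
  · intro H _ _ φ
    have h1 := P.euler H φ
    have h2 := cyc_cov_add_le φ (P.σ * P.α) (a := y) (b := d) hyd
      (by rw [HP.mul_π, Perm.mul_apply, hαy, hσw])
    rw [← hface] at h2
    rw [← hcard] at h1
    have h3 : Nat.card H * (2 * n + (S'.card + 2)) =
        Nat.card H * (2 * n + S'.card) + 2 * Nat.card H := by ring
    rw [h3] at h1
    omega
  · show S'.card < P.S.card
    omega

end Pool.Agent.WTT
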