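import Pool.Agent.WTT.SaddleA
import Pool.Agent.WTT.SaddleB

/-! Existence of a reduced picture. -/

namespace Pool.Agent.WTT

open Equiv

variable {G V Γ : Type*} [Group G] [MulAction G V] [Group Γ] {T : SimpleGraph V}
  {ρ : Γ →* G} {n : ℕ} {X : Fin n → Γ} {D : Type} [Fintype D] [DecidableEq D]

/-- There is a reduced picture. -/
theorem Pic.exists_reduced
    (nofix : ∀ (i : Fin n) (j : ℕ) (v : V), 0 < j → ρ (X i) ^ j • v ≠ v)
    (P₀ : Pic T ρ n X D) : ∃ P : Pic T ρ n X D, P.Reduced := by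
  classical
  obtain ⟨P, -, hP⟩ := WellFounded.has_min (InvImage.wf (fun P : Pic T ρ n X D => P.S.card) wellFounded_lt)
    Set.univ ⟨P₀, trivial⟩
  refine ⟨P, fun d hd hback => ?_⟩
  obtain ⟨h1, h2⟩ := P.long nofix hd hback
  have key : ∃ P' : Pic T ρ n X D, P'.S = P.S ∧ P'.σ = P.σ ∧ P'.o = P.o ∧ P'.t = P.t ∧
      P'.α.π d = P.σ.π d ∧ P'.α.h d = P.σ.h d := by
    by_cases hp : P.α.π d = P.σ.π d
    · exact P.saddle_special hd hback h1 hp
    · exact P.saddle_generic hd hback h1 hp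
  obtain ⟨P', hS, hs, ho, ht, ha, hh⟩ := key
  obtain ⟨P'', h''⟩ := P'.remove (d := d) (by rw [hS]; exact hd) (by rw [hs, ho, ht]; exact hback)
    (by rw [hs]; exact h1) (by rw [hs]; exact h2) (by rw [hs]; exact ha) (by rw [hs]; exact hh)
  exact hP P'' trivial (show P''.S.card < P.S.card by rw [← hS]; exact h'')

end Pool.Agent.WTT
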