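import Pool.Agent.WTT.PicDefs

/-! Row PIC-A: the two saddle moves. -/

set_option autoImplicit false

namespace Pool.Agent.WTT

open Equiv

variable {G V Γ : Type*} [Group G] [MulAction G V] [Group Γ] {T : SimpleGraph V}
  {ρ : Γ →* G} {n : ℕ} {X : Fin n → Γ} {D : Type} [Fintype D] [DecidableEq D]

theorem Pic.α_α (P : Pic T ρ n X D) (x : D) : P.α.π (P.α.π x) = x := by
  have h := congrArg (fun f : HP D Γ => f.π x) P.α_inv
  simpa using h

theorem Pic.α_h_mul (P : Pic T ρ n X D) (x : D) : P.α.h x * P.α.h (P.α.π x) = 1 := by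
  have h := congrArg (fun f : HP D Γ => f.h x) P.α_inv
  simpa using h

/-- replacing the arcs of a picture -/
theorem Pic.replace (P : Pic T ρ n X D) (α' : HP D Γ)
    (hmem : ∀ x ∈ P.S, α'.π x ∈ P.S) (hdead : ∀ x, x ∉ P.S → α'.π x = x ∧ α'.h x = 1)
    (hinv : ∀ x, α'.π (α'.π x) = x) (hinvh : ∀ x, α'.h x * α'.h (α'.π x) = 1)
    (hne : ∀ x ∈ P.S, α'.π x ≠ x)
    (ho : ∀ x ∈ P.S, ρ (α'.h x) • P.o (α'.π x) = P.t x)
    (ht : ∀ x ∈ P.S, ρ (α'.h x) • P.t (α'.π x) = P.o x)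
    (hcyc : ∀ (H : Type) [Group H] [Finite H] (φ : Γ →* H),
      cyc (cov φ (P.σ * P.α)) ≤ cyc (cov φ (P.σ * α'))) :
    ∃ P' : Pic T ρ n X D, P'.S = P.S ∧ P'.σ = P.σ ∧ P'.o = P.o ∧ P'.t = P.t ∧ P'.α = α' := by
  refine ⟨{ S := P.S, σ := P.σ, α := α', o := P.o, t := P.t, vert := P.vert
            σ_mem := P.σ_mem, α_mem := hmem, σ_dead := P.σ_dead, α_dead := hdead
            α_inv := ?_, α_ne := hne, adj := P.adj, step := P.step, flip_o := ho
            flip_t := ht, vert_σ := P.vert_σ, vert_ne := P.vert_ne, closing := P.closing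
            euler := ?_ }, rfl, rfl, rfl, rfl, rfl⟩
  · refine HP.ext ?_ ?_
    · refine Equiv.ext fun x => ?_
      change α'.π (α'.π x) = x
      exact hinv x
    · funext x
      change α'.h x * α'.h (α'.π x) = 1
      exact hinvh x
  · intro H _ _ φ
    have h1 := P.euler H φ
    have h2 := hcyc H φ
    omega

/-- The generic saddle. -/
theorem Pic.saddle_generic (P : Pic T ρ n X D) {d : D} (hd : d ∈ P.S)
    (hback : ρ (P.σ.h d) • P.t (P.σ.π d) = P.o d) (hσ : P.σ.π d ≠ d)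
    (hp : P.α.π d ≠ P.σ.π d) :
    ∃ P' : Pic T ρ n X D, P'.S = P.S ∧ P'.σ = P.σ ∧ P'.o = P.o ∧ P'.t = P.t ∧
      P'.α.π d = P.σ.π d ∧ P'.α.h d = P.σ.h d := by
  obtain ⟨d', hd'⟩ : ∃ d', P.σ.π d = d' := ⟨_, rfl⟩
  obtain ⟨p, hpp⟩ : ∃ p, P.α.π d = p := ⟨_, rfl⟩
  obtain ⟨p', hpp'⟩ : ∃ p', P.α.π d' = p' := ⟨_, rfl⟩
  obtain ⟨u, hu⟩ : ∃ u, P.σ.h d = u := ⟨_, rfl⟩
  have hd'S : d' ∈ P.S := by rw [← hd']; exact P.σ_mem d hd
  have hpS : p ∈ P.S := by rw [← hpp]; exact P.α_mem d hd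
  have hp'S : p' ∈ P.S := by rw [← hpp']; exact P.α_mem d' hd'S
  rw [hd'] at hback hσ hp
  rw [hu] at hback
  rw [hpp] at hp
  have hstep := P.step d hd
  rw [hd', hu] at hstep
  have hαp : P.α.π p = d := by rw [← hpp]; exact P.α_α d
  have hαp' : P.α.π p' = d' := by rw [← hpp']; exact P.α_α d'
  have hpd : p ≠ d := by rw [← hpp]; exact P.α_ne d hd
  have hp'd' : p' ≠ d' := by rw [← hpp']; exact P.α_ne d' hd'S
  have hpp2 : p ≠ p' := by
    intro h
    apply hσ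
    rw [← hαp', ← hαp, h]
  have hp'd : p' ≠ d := by
    intro h
    apply hp
    rw [← hpp, ← h, hαp']
  have hd'd : d' ≠ d := hσ
  -- holonomies of the old arcs
  have hm : ∀ x, P.α.h x * P.α.h (P.α.π x) = 1 := P.α_h_mul
  have hmp : P.α.h p * P.α.h d = 1 := by have := hm p; rwa [hαp] at this
  have hmd : P.α.h d * P.α.h p = 1 := by have := hm d; rwa [hpp] at this
  have hmp' : P.α.h p' * P.α.h d' = 1 := by have := hm p'; rwa [hαp'] at this
  have hmd' : P.α.h d' * P.α.h p' = 1 := by have := hm d'; rwa [hpp'] at this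
  let a : Γ := P.α.h p * u
  let b : Γ := P.α.h p' * u⁻¹
  let α' : HP D Γ := P.α * HP.es p d' a * HP.es p' d b
  have hα'π : ∀ x, α'.π x = P.α.π (swap p d' (swap p' d x)) := fun x => rfl
  have hα'h : ∀ x, α'.h x = (HP.es p' d b).h x *
      ((HP.es p d' a).h (swap p' d x) * P.α.h (swap p d' (swap p' d x))) := fun x => rfl
  -- values
  have v1 : α'.π d = d' := by
    rw [hα'π, swap_apply_right, swap_apply_of_ne_of_ne hpp2.symm hp'd', hαp']
  have v2 : α'.π d' = d := by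
    rw [hα'π, swap_apply_of_ne_of_ne hp'd'.symm hd'd, swap_apply_right, hαp]
  have v3 : α'.π p = p' := by
    rw [hα'π, swap_apply_of_ne_of_ne hpp2 hpd, swap_apply_left, hpp']
  have v4 : α'.π p' = p := by
    rw [hα'π, swap_apply_left, swap_apply_of_ne_of_ne hpd.symm hd'd.symm, hpp]
  have v5 : ∀ x, x ≠ d → x ≠ d' → x ≠ p → x ≠ p' → α'.π x = P.α.π x := by
    intro x h1 h2 h3 h4
    rw [hα'π, swap_apply_of_ne_of_ne h4 h1, swap_apply_of_ne_of_ne h3 h2]
  have w1 : α'.h d = u := by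
    rw [hα'h, swap_apply_right, swap_apply_of_ne_of_ne hpp2.symm hp'd', HP.es_h, HP.es_h,
      if_neg hp'd.symm, if_pos rfl, if_neg hpp2.symm, if_neg hp'd']
    simp [b]
  have w2 : α'.h d' = u⁻¹ := by
    rw [hα'h, swap_apply_of_ne_of_ne hp'd'.symm hd'd, swap_apply_right, HP.es_h, HP.es_h,
      if_neg hp'd'.symm, if_neg hd'd, if_neg hp.symm, if_pos rfl]
    simp [a]
  have w3 : α'.h p = P.α.h p * u * P.α.h d' := by
    rw [hα'h, swap_apply_of_ne_of_ne hpp2 hpd, swap_apply_left, HP.es_h, HP.es_h,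
      if_neg hpp2, if_neg hpd, if_pos rfl, one_mul]
  have w4 : α'.h p' = P.α.h p' * u⁻¹ * P.α.h d := by
    rw [hα'h, swap_apply_left, swap_apply_of_ne_of_ne hpd.symm hd'd.symm, HP.es_h, HP.es_h,
      if_pos rfl, if_neg hpd.symm, if_neg hd'd.symm, one_mul]
  have w5 : ∀ x, x ≠ d → x ≠ d' → x ≠ p → x ≠ p' → α'.h x = P.α.h x := by
    intro x h1 h2 h3 h4
    rw [hα'h, swap_apply_of_ne_of_ne h4 h1, swap_apply_of_ne_of_ne h3 h2, HP.es_h, HP.es_h,
      if_neg h4, if_neg h1, if_neg h3, if_neg h2, one_mul, one_mul]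
  have hcases : ∀ (C : D → Prop), C d → C d' → C p → C p' →
      (∀ x, x ≠ d → x ≠ d' → x ≠ p → x ≠ p' → C x) → ∀ x, C x := by
    intro C c1 c2 c3 c4 c5 x
    by_cases h1 : x = d
    · rwa [h1]
    by_cases h2 : x = d'
    · rwa [h2]
    by_cases h3 : x = p
    · rwa [h3]
    by_cases h4 : x = p'
    · rwa [h4]
    exact c5 x h1 h2 h3 h4
  have hαne : ∀ x, x ≠ d → x ≠ d' → x ≠ p → x ≠ p' →
      P.α.π x ≠ d ∧ P.α.π x ≠ d' ∧ P.α.π x ≠ p ∧ P.α.π x ≠ p' := by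
    intro x h1 h2 h3 h4
    refine ⟨fun h => h3 ?_, fun h => h4 ?_, fun h => h1 ?_, fun h => h2 ?_⟩
    · rw [← P.α_α x, h, hpp]
    · rw [← P.α_α x, h, hpp']
    · rw [← P.α_α x, h, hαp]
    · rw [← P.α_α x, h, hαp']
  suffices hrep : ∃ P' : Pic T ρ n X D, P'.S = P.S ∧ P'.σ = P.σ ∧ P'.o = P.o ∧ P'.t = P.t ∧
      P'.α = α' by
    obtain ⟨P', e1, e2, e3, e4, e5⟩ := hrep
    refine ⟨P', e1, e2, e3, e4, ?_, ?_⟩
    · rw [e5, v1, hd']
    · rw [e5, w1, hu]
  refine P.replace α' ?_ ?_ ?_ ?_ ?_ ?_ ?_ ?_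
  · refine hcases _ ?_ ?_ ?_ ?_ ?_
    · intro _; rwa [v1]
    · intro _; rwa [v2]
    · intro _; rwa [v3]
    · intro _; rwa [v4]
    · intro x h1 h2 h3 h4 hx
      rw [v5 x h1 h2 h3 h4]
      exact P.α_mem x hx
  · intro x hx
    have h1 : x ≠ d := fun h => hx (h ▸ hd)
    have h2 : x ≠ d' := fun h => hx (h ▸ hd'S)
    have h3 : x ≠ p := fun h => hx (h ▸ hpS)
    have h4 : x ≠ p' := fun h => hx (h ▸ hp'S)
    rw [v5 x h1 h2 h3 h4, w5 x h1 h2 h3 h4]
    exact P.α_dead x hx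
  · refine hcases _ ?_ ?_ ?_ ?_ ?_
    · rw [v1, v2]
    · rw [v2, v1]
    · rw [v3, v4]
    · rw [v4, v3]
    · intro x h1 h2 h3 h4
      obtain ⟨g1, g2, g3, g4⟩ := hαne x h1 h2 h3 h4
      rw [v5 x h1 h2 h3 h4, v5 _ g1 g2 g3 g4, P.α_α]
  · refine hcases _ ?_ ?_ ?_ ?_ ?_
    · rw [v1, w1, w2, mul_inv_cancel]
    · rw [v2, w2, w1, inv_mul_cancel]
    · rw [v3, w3, w4]
      calc P.α.h p * u * P.α.h d' * (P.α.h p' * u⁻¹ * P.α.h d)
          = P.α.h p * u * (P.α.h d' * P.α.h p') * u⁻¹ * P.α.h d := by group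
        _ = 1 := by rw [hmd', mul_one, mul_inv_cancel_right, hmp]
    · rw [v4, w4, w3]
      calc P.α.h p' * u⁻¹ * P.α.h d * (P.α.h p * u * P.α.h d')
          = P.α.h p' * u⁻¹ * (P.α.h d * P.α.h p) * u * P.α.h d' := by group
        _ = 1 := by rw [hmd, mul_one, inv_mul_cancel_right, hmp']
    · intro x h1 h2 h3 h4
      obtain ⟨g1, g2, g3, g4⟩ := hαne x h1 h2 h3 h4
      rw [v5 x h1 h2 h3 h4, w5 x h1 h2 h3 h4, w5 _ g1 g2 g3 g4, hm]
  · refine hcases _ ?_ ?_ ?_ ?_ ?_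
    · intro _; rw [v1]; exact hd'd
    · intro _; rw [v2]; exact hd'd.symm
    · intro _; rw [v3]; exact hpp2.symm
    · intro _; rw [v4]; exact hpp2
    · intro x h1 h2 h3 h4 hx
      rw [v5 x h1 h2 h3 h4]
      exact P.α_ne x hx
  · refine hcases _ ?_ ?_ ?_ ?_ ?_
    · intro _
      rw [v1, w1, hstep]
    · intro _
      rw [v2, w2, map_inv, ← hback, inv_smul_smul]
    · intro _
      rw [v3, w3, map_mul, map_mul, mul_smul, mul_smul]
      have e1 := P.flip_o d' hd'S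
      rw [hpp'] at e1
      have e2 := P.flip_o p hpS
      rw [hαp] at e2
      rw [e1, hback, e2]
    · intro _
      rw [v4, w4, map_mul, map_mul, mul_smul, mul_smul, map_inv]
      have e1 := P.flip_o d hd
      rw [hpp] at e1
      have e2 := P.flip_o p' hp'S
      rw [hαp'] at e2
      rw [e1, ← hstep, inv_smul_smul, e2]
    · intro x h1 h2 h3 h4 hx
      rw [v5 x h1 h2 h3 h4, w5 x h1 h2 h3 h4]
      exact P.flip_o x hx
  · refine hcases _ ?_ ?_ ?_ ?_ ?_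
    · intro _
      rw [v1, w1, hback]
    · intro _
      rw [v2, w2, map_inv, ← hstep, inv_smul_smul]
    · intro _
      rw [v3, w3, map_mul, map_mul, mul_smul, mul_smul]
      have e1 := P.flip_t d' hd'S
      rw [hpp'] at e1
      have e2 := P.flip_t p hpS
      rw [hαp] at e2
      rw [e1, hstep, e2]
    · intro _
      rw [v4, w4, map_mul, map_mul, mul_smul, mul_smul, map_inv]
      have e1 := P.flip_t d hd
      rw [hpp] at e1
      have e2 := P.flip_t p' hp'S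
      rw [hαp'] at e2
      rw [e1, ← hback, inv_smul_smul, e2]
    · intro x h1 h2 h3 h4 hx
      rw [v5 x h1 h2 h3 h4, w5 x h1 h2 h3 h4]
      exact P.flip_t x hx
  · intro H _ _ φ
    have h1 := cyc_cov_add_le φ (P.σ * P.α) (a := p) (b := d') hp (by
      change P.σ.π (P.α.π p) = d'
      rw [hαp, hd'])
    have h2 : (P.σ * P.α).h p = a := by
      change P.α.h p * P.σ.h (P.α.π p) = P.α.h p * u
      rw [hαp, hu]
    rw [h2] at h1
    have h3 := cyc_cov_le φ (P.σ * P.α * HP.es p d' a) (a := p') (b := d) hp'd b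
    have h4 : P.σ * P.α * HP.es p d' a * HP.es p' d b = P.σ * α' := by
      simp only [α', mul_assoc]
    rw [h4] at h3
    omega

/-- The special saddle. -/
theorem Pic.saddle_special (P : Pic T ρ n X D) {d : D} (hd : d ∈ P.S)
    (hback : ρ (P.σ.h d) • P.t (P.σ.π d) = P.o d) (hσ : P.σ.π d ≠ d)
    (hp : P.α.π d = P.σ.π d) :
    ∃ P' : Pic T ρ n X D, P'.S = P.S ∧ P'.σ = P.σ ∧ P'.o = P.o ∧ P'.t = P.t ∧
      P'.α.π d = P.σ.π d ∧ P'.α.h d = P.σ.h d := by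
  obtain ⟨d', hd'⟩ : ∃ d', P.σ.π d = d' := ⟨_, rfl⟩
  obtain ⟨u, hu⟩ : ∃ u, P.σ.h d = u := ⟨_, rfl⟩
  have hd'S : d' ∈ P.S := by rw [← hd']; exact P.σ_mem d hd
  rw [hd'] at hback hσ hp
  rw [hu] at hback
  have hstep := P.step d hd
  rw [hd', hu] at hstep
  have hαd' : P.α.π d' = d := by rw [← hp]; exact P.α_α d
  have hm : ∀ x, P.α.h x * P.α.h (P.α.π x) = 1 := P.α_h_mul
  have hmd : P.α.h d * P.α.h d' = 1 := by have := hm d; rwa [hp] at this
  let a : Γ := P.α.h d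
  let α' : HP D Γ := P.α * HP.es d d' a * HP.es d d' u
  have hα'π : ∀ x, α'.π x = P.α.π x := by
    intro x
    change P.α.π (swap d d' (swap d d' x)) = P.α.π x
    rw [swap_apply_self]
  have hα'h : ∀ x, α'.h x = (HP.es d d' u).h x *
      ((HP.es d d' a).h (swap d d' x) * P.α.h (swap d d' (swap d d' x))) := fun x => rfl
  have w1 : α'.h d = u := by
    rw [hα'h, swap_apply_self, swap_apply_left, HP.es_h, HP.es_h, if_pos rfl, if_neg hσ,
      if_pos rfl]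
    simp [a]
  have w2 : α'.h d' = u⁻¹ := by
    rw [hα'h, swap_apply_self, swap_apply_right, HP.es_h, HP.es_h, if_pos rfl, if_neg hσ,
      if_pos rfl]
    simp only [a]
    rw [hmd, mul_one]
  have w5 : ∀ x, x ≠ d → x ≠ d' → α'.h x = P.α.h x := by
    intro x h1 h2
    rw [hα'h, swap_apply_self, swap_apply_of_ne_of_ne h1 h2, HP.es_h, HP.es_h,
      if_neg h1, if_neg h2, if_neg h1, if_neg h2, one_mul, one_mul]
  have hcases : ∀ (C : D → Prop), C d → C d' →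
      (∀ x, x ≠ d → x ≠ d' → C x) → ∀ x, C x := by
    intro C c1 c2 c5 x
    by_cases h1 : x = d
    · rwa [h1]
    by_cases h2 : x = d'
    · rwa [h2]
    exact c5 x h1 h2
  have hαne : ∀ x, x ≠ d → x ≠ d' → P.α.π x ≠ d ∧ P.α.π x ≠ d' := by
    intro x h1 h2
    refine ⟨fun h => h2 ?_, fun h => h1 ?_⟩
    · rw [← P.α_α x, h, hp]
    · rw [← P.α_α x, h, hαd']
  suffices hrep : ∃ P' : Pic T ρ n X D, P'.S = P.S ∧ P'.σ = P.σ ∧ P'.o = P.o ∧ P'.t = P.t ∧
      P'.α = α' by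
    obtain ⟨P', e1, e2, e3, e4, e5⟩ := hrep
    refine ⟨P', e1, e2, e3, e4, ?_, ?_⟩
    · rw [e5, hα'π, hp, hd']
    · rw [e5, w1, hu]
  refine P.replace α' ?_ ?_ ?_ ?_ ?_ ?_ ?_ ?_
  · intro x hx
    rw [hα'π]
    exact P.α_mem x hx
  · intro x hx
    have h1 : x ≠ d := fun h => hx (h ▸ hd)
    have h2 : x ≠ d' := fun h => hx (h ▸ hd'S)
    rw [hα'π, w5 x h1 h2]
    exact P.α_dead x hx
  · intro x
    rw [hα'π, hα'π, P.α_α]
  · refine hcases _ ?_ ?_ ?_
    · rw [hα'π, hp, w1, w2, mul_inv_cancel]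
    · rw [hα'π, hαd', w1, w2, inv_mul_cancel]
    · intro x h1 h2
      obtain ⟨g1, g2⟩ := hαne x h1 h2
      rw [hα'π, w5 x h1 h2, w5 _ g1 g2, hm]
  · intro x hx
    rw [hα'π]
    exact P.α_ne x hx
  · refine hcases _ ?_ ?_ ?_
    · intro _
      rw [hα'π, hp, w1, hstep]
    · intro _
      rw [hα'π, hαd', w2, map_inv, ← hback, inv_smul_smul]
    · intro x h1 h2 hx
      rw [hα'π, w5 x h1 h2]
      exact P.flip_o x hx
  · refine hcases _ ?_ ?_ ?_
    · intro _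
      rw [hα'π, hp, w1, hback]
    · intro _
      rw [hα'π, hαd', w2, map_inv, ← hstep, inv_smul_smul]
    · intro x h1 h2 hx
      rw [hα'π, w5 x h1 h2]
      exact P.flip_t x hx
  · intro H _ _ φ
    have h3 := cyc_cov_le φ (P.σ * P.α) (a := d) (b := d') hσ.symm a
    have h1 := cyc_cov_add_le φ (P.σ * P.α * HP.es d d' a) (a := d) (b := d') hσ.symm (by
      change P.σ.π (P.α.π (swap d d' d)) = d'
      rw [swap_apply_left, hαd', hd'])
    have h2 : (P.σ * P.α * HP.es d d' a).h d = u := by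
      change (HP.es d d' a).h d * (P.α.h (swap d d' d) * P.σ.h (P.α.π (swap d d' d))) = u
      rw [swap_apply_left, hαd', hu, HP.es_h, if_pos rfl, ← mul_assoc]
      simp only [a]
      rw [hmd, one_mul]
    rw [h2] at h1
    have h4 : P.σ * P.α * HP.es d d' a * HP.es d d' u = P.σ * α' := by
      simp only [α', mul_assoc]
    rw [h4] at h1
    omega

end Pool.Agent.WTT
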