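import Mathlib

/-!
The homology end: when can the quotient of a knot-like group by the normal closure of a slope
`t ^ a * c ^ b` (`t` a meridian, `c` a longitude) have a cyclic free factor?
-/

set_option autoImplicit false

namespace Pool.Agent.WTT

open Monoid

/-! ### The kernel of the projection of a free product to a factor -/

/-- An element of a free product whose first projection is trivial lies in the normal closure of
the second factor. -/
theorem coprod_mem_normalClosure {C B : Type*} [Group C] [Group B] (x : Coprod C B)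
    (hx : Coprod.fst x = 1) :
    x ∈ Subgroup.normalClosure (Set.range (Coprod.inr : B →* Coprod C B)) := by
  set N := Subgroup.normalClosure (Set.range (Coprod.inr : B →* Coprod C B)) with hN
  have h : (QuotientGroup.mk' N) =
      ((QuotientGroup.mk' N).comp (Coprod.inl : C →* Coprod C B)).comp Coprod.fst := by
    apply Coprod.hom_ext
    · ext c
      simp
    · ext b
      simp only [MonoidHom.comp_apply, Coprod.fst_apply_inr, map_one]
      rw [QuotientGroup.mk'_apply, QuotientGroup.eq_one_iff]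
      exact Subgroup.subset_normalClosure ⟨b, rfl⟩
  have h2 := DFunLike.congr_fun h x
  simp only [MonoidHom.comp_apply, hx, map_one] at h2
  rwa [QuotientGroup.mk'_apply, QuotientGroup.eq_one_iff] at h2

/-- A homomorphism from a subgroup `K` of `P` which kills all conjugates (in `P`) of the elements
of `S` kills the normal closure of `S`. -/
theorem kills_normalClosure {P A : Type*} [Group P] [Group A] {K : Subgroup P} (β : K →* A)
    (S : Set P) (h : ∀ z ∈ S, ∀ c : P, ∃ hx : c * z * c⁻¹ ∈ K, β ⟨c * z * c⁻¹, hx⟩ = 1) :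
    ∀ x ∈ Subgroup.normalClosure S, ∃ hx : x ∈ K, β ⟨x, hx⟩ = 1 := by
  intro x hx
  rw [Subgroup.normalClosure] at hx
  induction hx using Subgroup.closure_induction with
  | mem y hy =>
    rw [Group.mem_conjugatesOfSet_iff] at hy
    obtain ⟨z, hz, hy⟩ := hy
    rw [isConj_iff] at hy
    obtain ⟨c, rfl⟩ := hy
    exact h z hz c
  | one => exact ⟨K.one_mem, by
      have : (⟨1, K.one_mem⟩ : K) = 1 := rfl
      rw [this, map_one]⟩
  | mul x y _ _ hx hy =>
    obtain ⟨hx1, hx2⟩ := hx
    obtain ⟨hy1, hy2⟩ := hy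
    refine ⟨K.mul_mem hx1 hy1, ?_⟩
    have : (⟨x * y, K.mul_mem hx1 hy1⟩ : K) = ⟨x, hx1⟩ * ⟨y, hy1⟩ := rfl
    rw [this, map_mul, hx2, hy2, one_mul]
  | inv x _ hx =>
    obtain ⟨hx1, hx2⟩ := hx
    refine ⟨K.inv_mem hx1, ?_⟩
    have : (⟨x⁻¹, K.inv_mem hx1⟩ : K) = ⟨x, hx1⟩⁻¹ := rfl
    rw [this, map_inv, hx2, inv_one]

/-- If `B` is perfect then the kernel of the projection of `C * B` to `C` is perfect: it has no
non-trivial homomorphism to a commutative group. -/
theorem coprod_ker_perfect {C B A : Type*} [Group C] [Group B] [CommGroup A]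
    (hB : ∀ f : B →* A, f = 1)
    (β : (Coprod.fst : Coprod C B →* C).ker →* A) : β = 1 := by
  have key := kills_normalClosure β (Set.range (Coprod.inr : B →* Coprod C B)) (by
    rintro _ ⟨b, rfl⟩ c
    have hmem : ∀ b : B, c * (Coprod.inr b : Coprod C B) * c⁻¹ ∈
        (Coprod.fst : Coprod C B →* C).ker := by
      intro b
      rw [MonoidHom.mem_ker]
      simp
    refine ⟨hmem b, ?_⟩
    let f : B →* A :=
      { toFun := fun b => β ⟨c * (Coprod.inr b : Coprod C B) * c⁻¹, hmem b⟩
        map_one' := by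
          have : (⟨c * (Coprod.inr (1 : B) : Coprod C B) * c⁻¹, hmem 1⟩ :
              (Coprod.fst : Coprod C B →* C).ker) = 1 := by
            ext; simp
          rw [this, map_one]
        map_mul' := by
          intro b b'
          rw [← map_mul]
          congr 1
          ext
          simp [mul_assoc] }
    have := DFunLike.congr_fun (hB f) b
    exact this)
  ext ⟨x, hx⟩
  obtain ⟨_, h2⟩ := key x (coprod_mem_normalClosure x (MonoidHom.mem_ker.1 hx))
  exact h2

/-! ### Homomorphisms from `G` to commutative groups -/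

section

variable {G : Type*} [Group G] {t c : G}

/-- Homomorphisms to commutative groups are determined by the value at the meridian. -/
theorem hom_eq_zpow {g : G} {n : ℤ} (hn : (Abelianization.of t) ^ n = Abelianization.of g)
    {A : Type*} [CommGroup A] (f : G →* A) : f g = f t ^ n := by
  have := congrArg (Abelianization.lift f) hn
  rw [map_zpow] at this
  simpa using this.symm

theorem hom_slope (hc : c ∈ commutator G) (a b : ℤ) {A : Type*} [CommGroup A] (f : G →* A)
    (hf : f (t ^ a * c ^ b) = 1) : f t ^ a = 1 := by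
  have h : f c = 1 := MonoidHom.mem_ker.1 (Abelianization.commutator_subset_ker f hc)
  rw [map_mul, map_zpow, map_zpow, h, one_zpow, mul_one] at hf
  exact hf

variable {a b : ℤ} {k : ℕ} {B' : Type*} [Group B']

/-- The quotient map to the free product. -/
noncomputable def slopeHom (e : G ⧸ Subgroup.normalClosure {t ^ a * c ^ b} ≃*
      Coprod (Multiplicative (ZMod k)) B') : G →* Coprod (Multiplicative (ZMod k)) B' :=
  e.toMonoidHom.comp (QuotientGroup.mk' _)

theorem slopeHom_surjective (e : G ⧸ Subgroup.normalClosure {t ^ a * c ^ b} ≃*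
      Coprod (Multiplicative (ZMod k)) B') : Function.Surjective (slopeHom e) := by
  intro y
  obtain ⟨g, hg⟩ := QuotientGroup.mk'_surjective _ (e.symm y)
  exact ⟨g, by simp [slopeHom, ← QuotientGroup.mk'_apply, hg]⟩

theorem slopeHom_eq_one (e : G ⧸ Subgroup.normalClosure {t ^ a * c ^ b} ≃*
      Coprod (Multiplicative (ZMod k)) B') {g : G} :
    slopeHom e g = 1 ↔ g ∈ Subgroup.normalClosure {t ^ a * c ^ b} := by
  simp [slopeHom]

theorem slopeHom_slope (e : G ⧸ Subgroup.normalClosure {t ^ a * c ^ b} ≃*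
      Coprod (Multiplicative (ZMod k)) B') : slopeHom e (t ^ a * c ^ b) = 1 :=
  (slopeHom_eq_one e).2 (Subgroup.subset_normalClosure rfl)

/-- The projection of the meridian to `ℤ / k` has order `k`. -/
theorem orderOf_meridian
    (hgen : ∀ x : Abelianization G, x ∈ Subgroup.zpowers (Abelianization.of t))
    (e : G ⧸ Subgroup.normalClosure {t ^ a * c ^ b} ≃*
      Coprod (Multiplicative (ZMod k)) B') :
    orderOf (Coprod.fst (slopeHom e t)) = k := by
  have h : ∀ x : Multiplicative (ZMod k), x ∈ Subgroup.zpowers (Coprod.fst (slopeHom e t)) := by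
    intro x
    obtain ⟨g, hg⟩ := (Coprod.fst_surjective.comp (slopeHom_surjective e)) x
    obtain ⟨n, hn⟩ := Subgroup.mem_zpowers_iff.1 (hgen (Abelianization.of g))
    have := hom_eq_zpow hn ((Coprod.fst : Coprod (Multiplicative (ZMod k)) B' →* _).comp (slopeHom e))
    rw [Subgroup.mem_zpowers_iff]
    refine ⟨n, ?_⟩
    rw [← hg]
    exact this.symm
  rw [orderOf_eq_card_of_forall_mem_zpowers h]
  exact Nat.card_zmod k

/-- `k` divides `a`. -/
theorem dvd_slope
    (hgen : ∀ x : Abelianization G, x ∈ Subgroup.zpowers (Abelianization.of t))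
    (hc : c ∈ commutator G)
    (e : G ⧸ Subgroup.normalClosure {t ^ a * c ^ b} ≃*
      Coprod (Multiplicative (ZMod k)) B') : (k : ℤ) ∣ a := by
  have h := hom_slope hc a b
    ((Coprod.fst : Coprod (Multiplicative (ZMod k)) B' →* _).comp (slopeHom e)) (by
      rw [MonoidHom.comp_apply, slopeHom_slope, map_one])
  have h2 := orderOf_dvd_iff_zpow_eq_one.2 h
  rwa [MonoidHom.comp_apply, orderOf_meridian hgen e] at h2

/-- If `k = |a|` then `B'` is perfect. -/
theorem perfect_of_natAbs_eq
    (hgen : ∀ x : Abelianization G, x ∈ Subgroup.zpowers (Abelianization.of t))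
    (hc : c ∈ commutator G) (hk : a.natAbs = k)
    (e : G ⧸ Subgroup.normalClosure {t ^ a * c ^ b} ≃*
      Coprod (Multiplicative (ZMod k)) B') {A : Type*} [CommGroup A] (h : B' →* A) : h = 1 := by
  have h1 := hom_slope hc a b
    ((h.comp (Coprod.snd : Coprod (Multiplicative (ZMod k)) B' →* _)).comp (slopeHom e)) (by
      rw [MonoidHom.comp_apply, slopeHom_slope, map_one])
  ext b'
  obtain ⟨g, hg⟩ := slopeHom_surjective e (Coprod.inr b')
  obtain ⟨n, hn⟩ := Subgroup.mem_zpowers_iff.1 (hgen (Abelianization.of g))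
  have h2 := hom_eq_zpow hn ((Coprod.fst : Coprod (Multiplicative (ZMod k)) B' →* _).comp (slopeHom e))
  have h3 := hom_eq_zpow hn ((h.comp (Coprod.snd : Coprod (Multiplicative (ZMod k)) B' →* _)).comp
    (slopeHom e))
  rw [MonoidHom.comp_apply, hg, Coprod.fst_apply_inr] at h2
  rw [MonoidHom.comp_apply, hg, MonoidHom.comp_apply, Coprod.snd_apply_inr] at h3
  rw [h3, MonoidHom.one_apply]
  have h4 : (k : ℤ) ∣ n := by
    have h6 := orderOf_dvd_iff_zpow_eq_one.2 h2.symm
    rwa [MonoidHom.comp_apply, orderOf_meridian hgen e] at h6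
  have h5 : a ∣ n := by
    refine dvd_trans ?_ h4
    rw [← hk]
    exact Int.dvd_natAbs_self
  obtain ⟨m, rfl⟩ := h5
  rw [zpow_mul, h1, one_zpow]

/-- If `k = |a|` then the kernel of `G → ℤ / k` has cyclic abelianisation. -/
theorem cyclic_of_natAbs_eq (htc : Commute t c)
    (hgen : ∀ x : Abelianization G, x ∈ Subgroup.zpowers (Abelianization.of t))
    (hc : c ∈ commutator G) (hk : a.natAbs = k) (hk0 : k ≠ 0)
    (e : G ⧸ Subgroup.normalClosure {t ^ a * c ^ b} ≃*
      Coprod (Multiplicative (ZMod k)) B') :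
    ∃ N : Subgroup G, N.Normal ∧ N.index = k ∧ IsCyclic (Abelianization N) := by
  have : NeZero k := ⟨hk0⟩
  set f : G →* Multiplicative (ZMod k) :=
    (Coprod.fst : Coprod (Multiplicative (ZMod k)) B' →* _).comp (slopeHom e) with hf
  have hfs : Function.Surjective f := Coprod.fst_surjective.comp (slopeHom_surjective e)
  refine ⟨f.ker, inferInstance, ?_, ?_⟩
  · rw [Subgroup.index_ker, MonoidHom.range_eq_top.2 hfs]
    simp
  have hsN : t ^ a * c ^ b ∈ f.ker := by
    rw [MonoidHom.mem_ker, hf, MonoidHom.comp_apply, slopeHom_slope, map_one]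
  have hts : Commute t (t ^ a * c ^ b) := ((Commute.refl t).zpow_right a).mul_right (htc.zpow_right b)
  -- the quotient of the abelianisation of the kernel by the class of `s`
  set Z : Subgroup (Abelianization f.ker) :=
    Subgroup.zpowers (Abelianization.of (⟨t ^ a * c ^ b, hsN⟩ : f.ker)) with hZ
  let α : f.ker →* Abelianization f.ker ⧸ Z := (QuotientGroup.mk' Z).comp Abelianization.of
  have hαs : α ⟨t ^ a * c ^ b, hsN⟩ = 1 := by
    show (QuotientGroup.mk' Z) (Abelianization.of _) = 1
    rw [QuotientGroup.mk'_apply, QuotientGroup.eq_one_iff]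
    exact Subgroup.mem_zpowers _
  have hkill := kills_normalClosure α {t ^ a * c ^ b} (by
    intro z hz g
    rw [Set.mem_singleton_iff] at hz
    subst hz
    obtain ⟨n, hn⟩ := Subgroup.mem_zpowers_iff.1 (hgen (Abelianization.of g))
    have hu : g * (t ^ n)⁻¹ ∈ f.ker := by
      rw [MonoidHom.mem_ker, map_mul, map_inv, map_zpow, ← hom_eq_zpow hn f, mul_inv_cancel]
    have e1 : g * (t ^ a * c ^ b) * g⁻¹ = (g * (t ^ n)⁻¹) * (t ^ a * c ^ b) * (g * (t ^ n)⁻¹)⁻¹ := by
      have h1 : (t ^ n)⁻¹ * (t ^ a * c ^ b) = (t ^ a * c ^ b) * (t ^ n)⁻¹ := ((hts.zpow_left n).inv_left).eq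
      rw [mul_assoc g (t ^ n)⁻¹ (t ^ a * c ^ b), h1]
      group
    have hmem : g * (t ^ a * c ^ b) * g⁻¹ ∈ f.ker := by
      rw [e1]
      exact Subgroup.mul_mem _ (Subgroup.mul_mem _ hu hsN) (Subgroup.inv_mem _ hu)
    refine ⟨hmem, ?_⟩
    have : (⟨g * (t ^ a * c ^ b) * g⁻¹, hmem⟩ : f.ker) =
        ⟨g * (t ^ n)⁻¹, hu⟩ * ⟨t ^ a * c ^ b, hsN⟩ * ⟨g * (t ^ n)⁻¹, hu⟩⁻¹ := by
      ext
      exact e1
    rw [this, map_mul, map_mul, map_inv, hαs, mul_one, mul_inv_cancel])
  -- the induced map to the kernel of the first projection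
  let r : f.ker →* (Coprod.fst : Coprod (Multiplicative (ZMod k)) B' →* _).ker :=
    ((slopeHom e).comp f.ker.subtype).codRestrict _ (fun x => by
      exact MonoidHom.mem_ker.1 x.2)
  have hr : Function.Surjective r := by
    rintro ⟨y, hy⟩
    obtain ⟨g, hg⟩ := slopeHom_surjective e y
    have hgN : g ∈ f.ker := by
      rw [MonoidHom.mem_ker, hf, MonoidHom.comp_apply, hg]
      exact MonoidHom.mem_ker.1 hy
    exact ⟨⟨g, hgN⟩, Subtype.ext hg⟩
  have hker : r.ker ≤ α.ker := by
    rintro ⟨x, hx⟩ hx1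
    rw [MonoidHom.mem_ker] at hx1 ⊢
    have hx2 : slopeHom e x = 1 := congrArg Subtype.val hx1
    obtain ⟨_, h⟩ := hkill x ((slopeHom_eq_one e).1 hx2)
    exact h
  have hβ := coprod_ker_perfect (fun h => perfect_of_natAbs_eq hgen hc hk e h)
    (MonoidHom.liftOfSurjective r hr ⟨α, hker⟩)
  have hα : α = 1 := by
    have h1 := MonoidHom.liftOfRightInverse_comp r _ (Function.rightInverse_surjInv hr) ⟨α, hker⟩
    have h2 : (MonoidHom.liftOfSurjective r hr ⟨α, hker⟩).comp r = α := h1
    rw [← h2, hβ, MonoidHom.one_comp]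
  refine ⟨⟨Abelianization.of ⟨t ^ a * c ^ b, hsN⟩, fun x => ?_⟩⟩
  obtain ⟨y, rfl⟩ := QuotientGroup.mk_surjective x
  have := DFunLike.congr_fun hα y
  exact (QuotientGroup.eq_one_iff _).1 this

/-- **R3.** -/
theorem no_cyclic_summand (htc : Commute t c)
    (hgen : ∀ x : Abelianization G, x ∈ Subgroup.zpowers (Abelianization.of t))
    (hc : c ∈ commutator G)
    (hN : ∀ N : Subgroup G, N.Normal → (N.index = 2 ∨ N.index = 3) →
      ¬ IsCyclic (Abelianization N)) (ha : a ≠ 0) (ha3 : a.natAbs ≤ 3)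
    (hk : 2 ≤ k)
    (e : G ⧸ Subgroup.normalClosure {t ^ a * c ^ b} ≃*
      Monoid.Coprod (Multiplicative (ZMod k)) B') : False := by
  have hdvd := dvd_slope hgen hc e
  have hd : k ∣ a.natAbs := Int.natCast_dvd.1 hdvd
  have hpos : 0 < a.natAbs := Int.natAbs_pos.2 ha
  have hle : k ≤ a.natAbs := Nat.le_of_dvd hpos hd
  have hke : a.natAbs = k := by
    obtain ⟨m, hm⟩ := hd
    have hm1 : m = 1 := by
      rcases Nat.lt_or_ge m 2 with h | h
      · interval_cases m
        · omega
        · rfl
      · have : 2 * 2 ≤ k * m := Nat.mul_le_mul hk h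
        omega
    rw [hm, hm1, mul_one]
  obtain ⟨N, h1, h2, h3⟩ := cyclic_of_natAbs_eq htc hgen hc hke (by omega) e
  refine hN N h1 ?_ h3
  omega

/-- R3': the trivial case used for `q ≥ 2`. -/
theorem no_cyclic_summand_one
    (hgen : ∀ x : Abelianization G, x ∈ Subgroup.zpowers (Abelianization.of t))
    (hc : c ∈ commutator G) (ha : a.natAbs = 1)
    (hk : 2 ≤ k)
    (e : G ⧸ Subgroup.normalClosure {t ^ a * c ^ b} ≃*
      Monoid.Coprod (Multiplicative (ZMod k)) B') : False := by
  have hd : k ∣ a.natAbs := Int.natCast_dvd.1 (dvd_slope hgen hc e)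
  rw [ha, Nat.dvd_one] at hd
  omega

/-- The longitude slope: no cyclic summand if the abelianisation is infinite. -/
theorem no_cyclic_summand_zero
    (hgen : ∀ x : Abelianization G, x ∈ Subgroup.zpowers (Abelianization.of t))
    (hinf : orderOf (Abelianization.of t) = 0)
    (hc : c ∈ commutator G) (ha : a = 0)
    (hk : 2 ≤ k)
    (e : G ⧸ Subgroup.normalClosure {t ^ a * c ^ b} ≃*
      Monoid.Coprod (Multiplicative (ZMod k)) B') : False := by
  subst ha
  obtain ⟨g, hg⟩ := slopeHom_surjective e (Coprod.inl (Multiplicative.ofAdd (1 : ZMod k)))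
  obtain ⟨n, hn⟩ := Subgroup.mem_zpowers_iff.1 (hgen (Abelianization.of g))
  have h1 : g ^ k ∈ Subgroup.normalClosure {t ^ (0 : ℤ) * c ^ b} := by
    rw [← slopeHom_eq_one e, map_pow, hg, ← map_pow, ← ofAdd_nsmul]
    simp
  have hcz : Abelianization.of c = (1 : Abelianization G) :=
    MonoidHom.mem_ker.1 (Abelianization.commutator_subset_ker Abelianization.of hc)
  have h2 : Subgroup.normalClosure {t ^ (0 : ℤ) * c ^ b} ≤
      (Abelianization.of : G →* Abelianization G).ker := by
    apply Subgroup.normalClosure_le_normal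
    rw [Set.singleton_subset_iff, SetLike.mem_coe, MonoidHom.mem_ker]
    simp [hcz]
  have h3 := MonoidHom.mem_ker.1 (h2 h1)
  rw [map_pow, ← hn, ← zpow_natCast, ← zpow_mul] at h3
  have h4 := orderOf_dvd_iff_zpow_eq_one.2 h3
  rw [hinf, Nat.cast_zero, zero_dvd_iff] at h4
  have hn0 : n = 0 := by
    rcases mul_eq_zero.1 h4 with h | h
    · exact h
    · exfalso
      have : k = 0 := by exact_mod_cast h
      omega
  have h5 := hom_eq_zpow hn
    ((Coprod.fst : Coprod (Multiplicative (ZMod k)) B' →* _).comp (slopeHom e))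
  rw [MonoidHom.comp_apply, hg, Coprod.fst_apply_inl, hn0, zpow_zero] at h5
  have h6 : (1 : ZMod k) = 0 := h5
  have : Fact (1 < k) := ⟨by omega⟩
  exact one_ne_zero h6

end

end Pool.Agent.WTT
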