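import Pool.Agent.WTT.AcylFinal
import Pool.Agent.WTT.HNNTree
import Pool.Agent.WTT.HNNGlue
import Pool.Agent.WTT.SeifAlg

/-! The bound for HNN extensions. -/

namespace Pool.Agent.WTT

open HNNExtension

variable {M : Type*} [Group M] {A B : Subgroup M} (φ : A ≃* B)

theorem hnn_bound (c : M) (hcA : c ∈ A) (hφ : (φ ⟨c, hcA⟩ : M) = c) {f : ℕ} (hf : 1 ≤ f)
    (hch : ChainCyclic φ c f) (a e : ℤ) (m : ℕ) (hm : 2 ≤ m)
    (ρ : FreeGroup (Fin m) →* HNNExtension M A B φ)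
    (hρ : PlanarMap ((t : HNNExtension M A B φ) ^ a * of c ^ e) m ρ) : a.natAbs ≤ 3 * f := by
  by_cases ha : a = 0
  · subst ha
    simp
  have hK := hTree_surfaceTree φ ⟨c, hcA⟩ hφ
  have hcom : Commute (t : HNNExtension M A B φ) (of c) := commute_t_of φ ⟨c, hcA⟩ hφ
  have hs : (t : HNNExtension M A B φ) ^ a * of c ^ e = of c ^ e * t ^ a :=
    (hcom.zpow_zpow a e).eq
  rw [hs] at hρ
  have h := coherent_bound hK (fun g j k h => hTree_coherent φ g j k h) hf
    (fun g j k h => hTree_rigid φ c hch g j k h) e a ha m hm ρ hρ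
  rwa [mul_one] at h

end Pool.Agent.WTT
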