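import Pool.Agent.WTT.SeifMain

/-!
Essential surface systems of arbitrary slope in a knot exterior, in terms of one basis `μ, lam` of
the peripheral group; three slopes.
-/

namespace Pool.Agent.WTT

variable {G V : Type*} [Group G] [MulAction G V]

/-- `μ ^ i * lam ^ j` with integer exponents multiply as vectors. -/
theorem mul_vec41 {μ lam : G} (h : Commute μ lam) (i j k l : ℤ) :
    μ ^ i * lam ^ j * (μ ^ k * lam ^ l) = μ ^ (i + k) * lam ^ (j + l) := by
  have h1 : lam ^ j * μ ^ k = μ ^ k * lam ^ j := ((h.symm).zpow_zpow j k).eq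
  calc μ ^ i * lam ^ j * (μ ^ k * lam ^ l) = μ ^ i * (lam ^ j * μ ^ k) * lam ^ l := by group
    _ = μ ^ i * (μ ^ k * lam ^ j) * lam ^ l := by rw [h1]
    _ = μ ^ (i + k) * lam ^ (j + l) := by rw [zpow_add, zpow_add]; group

theorem zpow_vec41 {μ lam : G} (h : Commute μ lam) (i j k : ℤ) :
    (μ ^ i * lam ^ j) ^ k = μ ^ (i * k) * lam ^ (j * k) := by
  rw [((h.zpow_zpow i j)).mul_zpow, ← zpow_mul, ← zpow_mul]

theorem commute_vec41 {μ lam : G} (h : Commute μ lam) (i j k l : ℤ) :
    Commute (μ ^ i * lam ^ j) (μ ^ k * lam ^ l) := by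
  unfold Commute SemiconjBy
  rw [mul_vec41 h, mul_vec41 h, add_comm i k, add_comm j l]

/-- The vector `(r, e)` in the basis `(p, b), (x, y)` of determinant one. -/
theorem basis41 {μ lam : G} (h : Commute μ lam) {p b x y : ℤ} (hd : p * y - b * x = 1)
    (r e : ℤ) :
    μ ^ r * lam ^ e =
      (μ ^ p * lam ^ b) ^ (r * y - e * x) * (μ ^ x * lam ^ y) ^ (p * e - r * b) := by
  rw [zpow_vec41 h, zpow_vec41 h, mul_vec41 h]
  congr 2
  · linear_combination (-r) * hd
  · linear_combination (-e) * hd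

theorem closure41 {μ lam : G} (h : Commute μ lam) {p b x y : ℤ} (hd : p * y - b * x = 1) :
    Subgroup.closure {μ ^ p * lam ^ b, μ ^ x * lam ^ y} = Subgroup.closure {μ, lam} := by
  have hμ : μ ∈ Subgroup.closure ({μ, lam} : Set G) := Subgroup.subset_closure (by simp)
  have hl : lam ∈ Subgroup.closure ({μ, lam} : Set G) := Subgroup.subset_closure (by simp)
  set S : Set G := {μ ^ p * lam ^ b, μ ^ x * lam ^ y} with hS
  have h1 : μ ^ p * lam ^ b ∈ Subgroup.closure S := Subgroup.subset_closure (by simp [hS])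
  have h2 : μ ^ x * lam ^ y ∈ Subgroup.closure S := Subgroup.subset_closure (by simp [hS])
  apply le_antisymm
  · rw [Subgroup.closure_le]
    rintro g hg
    rcases hg with rfl | hg
    · exact mul_mem (zpow_mem hμ _) (zpow_mem hl _)
    · rw [Set.mem_singleton_iff] at hg
      subst hg
      exact mul_mem (zpow_mem hμ _) (zpow_mem hl _)
  · rw [Subgroup.closure_le]
    have h3 : ∀ r e : ℤ, μ ^ r * lam ^ e ∈ Subgroup.closure S := by
      intro r e
      rw [basis41 h hd r e]
      exact mul_mem (zpow_mem h1 _) (zpow_mem h2 _)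
    rintro g hg
    rcases hg with rfl | hg
    · simpa using h3 1 0
    · rw [Set.mem_singleton_iff] at hg
      subst hg
      simpa using h3 0 1

/-- An essential surface system of slope `p / b` (the primitive class `μ ^ p * lam ^ b`) in the
exterior of a knot with meridian `μ` and longitude `lam`, `q` boundary curves, without product
discs of length `f`: the tree `T` dual to its lifts carries a line `L`, fixed pointwise by
`μ ^ p * lam ^ b` and translated by `q` by a complementary class, and each element of the group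
which carries `f` successive corners of `L` to `f` successive corners of `L` (in the same or in the
opposite direction) lies in the peripheral group. -/
structure SurfaceSystem (T : SimpleGraph V) (L : ℤ → V) (μ lam : G) (p b : ℤ) (q f : ℕ) :
    Prop where
  comm : Commute μ lam
  surface : ∃ x y : ℤ, p * y - b * x = 1 ∧
    SurfaceTree T L (μ ^ p * lam ^ b) (μ ^ x * lam ^ y) q
  pos : 1 ≤ f
  rigid : RigidLine L (Subgroup.closure {μ, lam}) f

open Classical in
/-- The bound for the number of edges, up to parallelism, at a vertex of a planar graph with `n`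
vertices: `6 - 12 / n`, or `4 - 8 / n` if all faces have even length; integer parts. -/
noncomputable def cap (G : Type*) {V : Type*} [Group G] [MulAction G V] (L : ℤ → V) (n : ℕ) : ℕ :=
  if Coherent G L then (4 * n - 8) / n else (6 * n - 12) / n

theorem one_slope41 {T : SimpleGraph V} {L : ℤ → V} {μ lam : G} {p b : ℤ} {q f : ℕ}
    (hQ : SurfaceSystem T L μ lam p b q f) (r e : ℤ) (m : ℕ) (hm : 2 ≤ m)
    (ρ : FreeGroup (Fin m) →* G) (hρ : PlanarMap (μ ^ r * lam ^ e) m ρ) :
    (p * e - r * b).natAbs * q ≤ cap G L (m + 1) * f := by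
  obtain ⟨hc, ⟨x, y, hd, hK⟩, hf, hr⟩ := hQ
  rw [← closure41 hc hd] at hr
  rw [basis41 hc hd r e] at hρ
  by_cases ha : p * e - r * b = 0
  · simp [ha]
  · unfold cap
    split_ifs with hco
    · have h := window_four hK hco hf hr _ _ ha m hm ρ hρ
      have h1 : 4 * (m + 1) - 8 = 4 * m - 4 := by omega
      rw [h1]
      exact h
    · have h := window_six hK hf hr _ _ ha m hm ρ hρ
      have h1 : 6 * (m + 1) - 12 = 6 * m - 6 := by omega
      rw [h1]
      exact h

theorem three_slopes41 (p₁ b₁ p₂ b₂ r e : ℤ) :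
    e.natAbs * (p₁ * b₂ - p₂ * b₁).natAbs ≤
      b₂.natAbs * (p₁ * e - r * b₁).natAbs + b₁.natAbs * (p₂ * e - r * b₂).natAbs := by
  have h : e * (p₁ * b₂ - p₂ * b₁) = b₂ * (p₁ * e - r * b₁) - b₁ * (p₂ * e - r * b₂) := by ring
  have h2 := Int.natAbs_sub_le (b₂ * (p₁ * e - r * b₁)) (b₁ * (p₂ * e - r * b₂))
  rw [← h] at h2
  simpa only [Int.natAbs_mul] using h2

theorem two_slopes41 {V₁ V₂ : Type*} [MulAction G V₁] [MulAction G V₂]
    {T₁ : SimpleGraph V₁} {L₁ : ℤ → V₁} {T₂ : SimpleGraph V₂} {L₂ : ℤ → V₂} {μ lam : G}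
    {p₁ b₁ p₂ b₂ : ℤ} {q₁ f₁ q₂ f₂ : ℕ}
    (h₁ : SurfaceSystem T₁ L₁ μ lam p₁ b₁ q₁ f₁) (h₂ : SurfaceSystem T₂ L₂ μ lam p₂ b₂ q₂ f₂)
    (r e : ℤ) (m : ℕ) (hm : 2 ≤ m)
    (ρ : FreeGroup (Fin m) →* G) (hρ : PlanarMap (μ ^ r * lam ^ e) m ρ) :
    e.natAbs * (p₁ * b₂ - p₂ * b₁).natAbs * (q₁ * q₂) ≤
      b₂.natAbs * q₂ * (cap G L₁ (m + 1) * f₁) + b₁.natAbs * q₁ * (cap G L₂ (m + 1) * f₂) := by
  have k₁ := one_slope41 h₁ r e m hm ρ hρ
  have k₂ := one_slope41 h₂ r e m hm ρ hρ
  have k₃ := three_slopes41 p₁ b₁ p₂ b₂ r e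
  calc e.natAbs * (p₁ * b₂ - p₂ * b₁).natAbs * (q₁ * q₂)
      ≤ (b₂.natAbs * (p₁ * e - r * b₁).natAbs + b₁.natAbs * (p₂ * e - r * b₂).natAbs) *
          (q₁ * q₂) := Nat.mul_le_mul_right _ k₃
    _ = b₂.natAbs * q₂ * ((p₁ * e - r * b₁).natAbs * q₁) +
          b₁.natAbs * q₁ * ((p₂ * e - r * b₂).natAbs * q₂) := by ring
    _ ≤ _ := Nat.add_le_add (Nat.mul_le_mul_left _ k₁) (Nat.mul_le_mul_left _ k₂)

end Pool.Agent.WTT
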