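import Mathlib

/-!
Definitions used in the statement: lines and corners in a tree, the tree of a surface system in a
knot exterior, angle systems, planar maps.
-/

namespace Pool.Agent.WTT

/-- `L` is a line without backtracking in the graph `T`. -/
structure IsLine {V : Type*} (T : SimpleGraph V) (L : ℤ → V) : Prop where
  adj : ∀ k, T.Adj (L k) (L (k + 1))
  reduced : ∀ k, L (k - 1) ≠ L (k + 1)

/-- `(x, v, y)` is a corner of the translate `g L` of the line `L` (passed in one of the two
directions). -/
def IsCorner {G V : Type*} [Group G] [MulAction G V] (L : ℤ → V) (g : G) (x v y : V) : Prop :=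
  ∃ k ε : ℤ, (ε = 1 ∨ ε = -1) ∧ g • L (k - ε) = x ∧ g • L k = v ∧ g • L (k + ε) = y

/-- The group `G` acts on the tree `T`; `μ` and `lam` (meridian and longitude of a knot) commute,
`μ` fixes the line `L` pointwise and `lam` translates it by `q`.  Model: `G` is the group of a knot
`K`, `T` is the tree dual to the lifts of a system `Q` of essential meridional surfaces in the
exterior of `K`, `q` is the number of boundary components of `Q`, and `L` is the line of those
vertices and edges which correspond to the pieces and surfaces met by a lift of the boundary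
torus. -/
structure SurfaceTree {G V : Type*} [Group G] [MulAction G V] (T : SimpleGraph V) (L : ℤ → V)
    (μ lam : G) (q : ℕ) : Prop where
  tree : T.IsTree
  act : ∀ (g : G) (u v : V), T.Adj u v → T.Adj (g • u) (g • v)
  line : IsLine T L
  comm : Commute μ lam
  fix : ∀ k, μ • L k = L k
  trans : ∀ k, lam • L k = L (k + q)

/-- A reduced closed cycle of `r` corners `(x j, v, x (j + 1))`, `j` in `ZMod r`, at the vertex
`v`: the `j`-th one is a corner of the translate `g j • L`, and consecutive cosets `g j • Per` are
distinct. -/
structure CornerCycle {G V : Type*} [Group G] [MulAction G V] (L : ℤ → V)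
    (Per : Subgroup G) (r : ℕ) (v : V) (x : ZMod r → V) (g : ZMod r → G) : Prop where
  corner : ∀ j, IsCorner L (g j) (x j) v (x (j + 1))
  reduced : ∀ j, (g j)⁻¹ * g (j + 1) ∉ Per

/-- `θ x v y` is the angle (in units of `π`) of the corner `(x, v, y)`: it is non-negative,
invariant, symmetric, and every reduced closed cycle of corners has total angle at least `2`. -/
structure AngleSystem {G V : Type*} [Group G] [MulAction G V] (L : ℤ → V)
    (Per : Subgroup G) (θ : V → V → V → ℝ) : Prop where
  nonneg : ∀ x v y, 0 ≤ θ x v y
  inv : ∀ (g : G) (x v y : V), θ (g • x) (g • v) (g • y) = θ x v y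
  symm : ∀ x v y, θ x v y = θ y v x
  cycles : ∀ (r : ℕ) [NeZero r] (v : V) (x : ZMod r → V) (g : ZMod r → G),
    CornerCycle L Per r v x g → 2 ≤ ∑ j, θ (x j) v (x (j + 1))

/-- The total defect `∑ (1 - θ)` of `l` consecutive corners of `L`. -/
noncomputable def defect {V : Type*} (L : ℤ → V) (θ : V → V → V → ℝ) (l : ℕ) : ℝ :=
  ∑ k ∈ Finset.range l, (1 - θ (L (k - 1)) (L k) (L (k + 1)))

/-- The `k`-th corner of `L` is isolated: it is a corner of no translate `g • L` with `g` outside
`Per`. -/
def Isolated {G V : Type*} [Group G] [MulAction G V] (L : ℤ → V) (Per : Subgroup G) (k : ℤ) :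
    Prop :=
  ∀ g : G, IsCorner L g (L (k - 1)) (L k) (L (k + 1)) → g ∈ Per

/-- `ρ` is an injective homomorphism to `G` from the fundamental group of a sphere with `m + 1`
holes, which is free on `x_1, ..., x_m`, and all `m + 1` boundary curves `x_1, ..., x_m` and
`x_1 x_2 ... x_m` are mapped to conjugates of non-zero powers of `s`. -/
structure PlanarMap {G : Type*} [Group G] (s : G) (m : ℕ) (ρ : FreeGroup (Fin m) →* G) : Prop where
  inj : Function.Injective ρ
  petal : ∀ i, ∃ (g : G) (k : ℤ), k ≠ 0 ∧ ρ (FreeGroup.of i) = g * s ^ k * g⁻¹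
  last : ∃ (g : G) (k : ℤ), k ≠ 0 ∧
    ρ ((List.ofFn fun i : Fin m => FreeGroup.of i).prod) = g * s ^ k * g⁻¹

end Pool.Agent.WTT
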